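import Pool.Agent.P.MP_59d724_co.CkDefs

/-! The starting relaxed colouring: a moment curve. -/

namespace ColK

open Set MeasureTheory Polynomial

theorem prod_bound (g : ℕ → ℝ[X]) (hg : ∀ i, g i = 1 ∨ ∃ y : ℝ, |y| ≤ 1 ∧ g i = C y - X) (r : ℕ) :
    (∏ i ∈ Finset.range r, g i).natDegree ≤ r ∧
      ∀ m, |(∏ i ∈ Finset.range r, g i).coeff m| ≤ 2 ^ r := by
  induction r with
  | zero =>
    refine ⟨by simp, fun m => ?_⟩
    rw [Finset.range_zero, Finset.prod_empty, coeff_one]
    split_ifs <;> simp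
  | succ r ih =>
    rw [Finset.prod_range_succ]
    rcases hg r with h | ⟨y, hy, h⟩
    · rw [h, mul_one]
      refine ⟨ih.1.trans (Nat.le_succ r), fun m => (ih.2 m).trans ?_⟩
      rw [pow_succ]
      linarith [(by positivity : (0 : ℝ) < 2 ^ r)]
    · rw [h]
      refine ⟨natDegree_mul_le.trans (add_le_add ih.1 ?_), fun m => ?_⟩
      · exact (natDegree_sub_le _ _).trans (by simp)
      · rw [mul_sub, coeff_sub, coeff_mul_C]
        have h1 : |(∏ i ∈ Finset.range r, g i).coeff m * y| ≤ 2 ^ r := by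
          rw [abs_mul]
          nlinarith [ih.2 m, abs_nonneg y, abs_nonneg ((∏ i ∈ Finset.range r, g i).coeff m)]
        have h2 : |((∏ i ∈ Finset.range r, g i) * X).coeff m| ≤ 2 ^ r := by
          cases m with
          | zero => rw [coeff_mul_X_zero]; simp
          | succ m => rw [coeff_mul_X]; exact ih.2 m
        refine (abs_sub _ _).trans ?_
        rw [pow_succ]
        linarith

theorem sign_prod (σ : ℕ → ℝ) (hσ : ∀ i, σ i = 1 ∨ σ i = -1) (y : ℕ → ℝ) (z : ℝ) (j r : ℕ)
    (h1 : ∀ i, i < r → i < j → y i ≤ z) (h2 : ∀ i, i < r → j ≤ i → z ≤ y i)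
    (h3 : ∀ i, |z - y i| ≤ 1) :
    ∏ i ∈ Finset.range r, |z - y i| ≤
      σ (min j r) * σ 0 * ∏ i ∈ Finset.range r, (if σ i = σ (i + 1) then 1 else y i - z) := by
  induction r with
  | zero =>
    rcases hσ 0 with h | h <;> simp [h]
  | succ r ih =>
    have ih' := ih (fun i a b => h1 i (by omega) b) (fun i a b => h2 i (by omega) b)
    have p0 : 0 ≤ ∏ i ∈ Finset.range r, |z - y i| := Finset.prod_nonneg fun _ _ => abs_nonneg _
    rw [Finset.prod_range_succ, Finset.prod_range_succ]
    set P := ∏ i ∈ Finset.range r, |z - y i|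
    set Q := ∏ i ∈ Finset.range r, (if σ i = σ (i + 1) then 1 else y i - z)
    have a0 := abs_nonneg (z - y r)
    have a1 := h3 r
    rcases le_or_gt j r with hj | hj
    · rw [min_eq_left hj] at ih'
      rw [min_eq_left (by omega : j ≤ r + 1)]
      split_ifs with h
      · nlinarith
      · have e : |z - y r| = y r - z := by
          rw [abs_sub_comm, abs_of_nonneg (sub_nonneg.mpr (h2 r (by omega) hj))]
        rw [← e, ← mul_assoc]
        exact mul_le_mul_of_nonneg_right ih' a0
    · rw [min_eq_right hj.le] at ih'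
      rw [min_eq_right (by omega : r + 1 ≤ j)]
      split_ifs with h
      · rw [← h]; nlinarith
      · have e : |z - y r| = z - y r := abs_of_nonneg (sub_nonneg.mpr (h1 r (by omega) hj))
        have e2 : σ (r + 1) = -σ r := by
          rcases hσ r with a | a <;> rcases hσ (r + 1) with b | b <;> simp_all
        have := mul_le_mul_of_nonneg_right ih' a0
        rw [e2]
        rw [e] at this ⊢
        linarith

/-- primitives of the powers of the sigmoid -/
noncomputable def Ph (m : ℕ) (t : ℝ) : ℝ := ∫ s in (0 : ℝ)..t, Real.sigmoid s ^ m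

theorem prim_sub {ρ : ℝ → ℝ} (h : Continuous ρ) (x y : ℝ) :
    (∫ s in (0 : ℝ)..y, ρ s) - ∫ s in (0 : ℝ)..x, ρ s = ∫ s in x..y, ρ s :=
  intervalIntegral.integral_interval_sub_left (h.intervalIntegrable _ _) (h.intervalIntegrable _ _)

theorem cont_pow (m : ℕ) : Continuous fun s => Real.sigmoid s ^ m :=
  continuous_sigmoid.pow m

theorem lower_int (k : ℕ) (A R η : ℝ) (hη : 0 < η) : ∃ m : ℝ, 0 < m ∧ ∀ (a : ℝ) (y : ℕ → ℝ),
    A ≤ a → a ≤ R → (∀ i, 0 ≤ y i ∧ y i ≤ 1) →
      m ≤ ∫ t in a..(a + η), ∏ i ∈ Finset.range k, |Real.sigmoid t - y i| := by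
  set K : Set (ℝ × (ℕ → ℝ)) := Icc A R ×ˢ Icc (fun _ => 0) (fun _ => 1) with hK
  have hc : IsCompact K := isCompact_Icc.prod isCompact_Icc
  have cs := continuous_sigmoid
  set I : ℝ × (ℕ → ℝ) → ℝ := fun z =>
    ∫ t in (0 : ℝ)..η, ∏ i ∈ Finset.range k, |Real.sigmoid (z.1 + t) - z.2 i| with hI
  have hg : Continuous I := by
    refine intervalIntegral.continuous_parametric_intervalIntegral_of_continuous' ?_ 0 η
    unfold Function.uncurry
    fun_prop
  have hpos : ∀ z, 0 < I z := by
    intro z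
    refine intervalIntegral.integral_pos hη (by fun_prop)
      (fun t _ => Finset.prod_nonneg fun _ _ => abs_nonneg _) ?_
    have hinf : ((fun t => Real.sigmoid (z.1 + t)) '' Icc 0 η).Infinite :=
      (Set.Icc_infinite hη).image fun a _ b _ h =>
        add_left_cancel (Real.sigmoid_injective h)
    obtain ⟨_, ⟨t, ht, rfl⟩, hn⟩ := hinf.exists_notMem_finset ((Finset.range k).image z.2)
    refine ⟨t, ht, Finset.prod_pos fun i hi => abs_pos.mpr (sub_ne_zero.mpr fun h => hn ?_)⟩
    exact Finset.mem_image.mpr ⟨i, hi, h.symm⟩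
  have hsh : ∀ (a : ℝ) (y : ℕ → ℝ),
      ∫ t in a..(a + η), ∏ i ∈ Finset.range k, |Real.sigmoid t - y i| = I (a, y) := by
    intro a y
    have := intervalIntegral.integral_comp_add_left
      (fun t => ∏ i ∈ Finset.range k, |Real.sigmoid t - y i|) a (a := 0) (b := η)
    rw [add_zero] at this
    exact this.symm
  rcases K.eq_empty_or_nonempty with he | hn
  · refine ⟨1, one_pos, fun a y h1 h2 h3 => ?_⟩
    have : (a, y) ∈ K := ⟨⟨h1, h2⟩, fun i => (h3 i).1, fun i => (h3 i).2⟩
    rw [he] at this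
    exact absurd this (notMem_empty _)
  · obtain ⟨z0, _, hmin⟩ := hc.exists_isMinOn hn hg.continuousOn
    refine ⟨I z0, hpos z0, fun a y h1 h2 h3 => ?_⟩
    rw [hsh]
    exact hmin (⟨⟨h1, h2⟩, fun i => (h3 i).1, fun i => (h3 i).2⟩ : (a, y) ∈ K)

/-- the moments of a step function with at most `k` sign changes are not all small -/
theorem moments (k : ℕ) (R η : ℝ) (hη : 0 < η) : ∃ m : ℝ, 0 < m ∧ ∀ x w, Par k x w →
    η ≤ x (k + 1) - x 0 → x 0 ≤ R → -R ≤ x (k + 1) → ∀ c : ℝ,
      (∀ n, n ≤ k → |∑ j ∈ Finset.range (k + 1), w j * (Ph n (x (j + 1)) - Ph n (x j))| ≤ c) →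
        m ≤ c := by
  classical
  obtain ⟨m, hm, H⟩ := lower_int k (-R - η) (max R (-R - η)) η hη
  refine ⟨m / ((k + 1) * 2 ^ k), by positivity, fun x w hp h1 h2 h3 c hc => ?_⟩
  have cs := continuous_sigmoid
  set σ : ℕ → ℝ := fun j => if 0 ≤ w j then 1 else -1 with hσd
  have hσ : ∀ i, σ i = 1 ∨ σ i = -1 := fun i => by
    simp only [hσd]; split_ifs <;> simp
  have hw : ∀ j, w j = |w j| * σ j := fun j => by
    simp only [hσd]
    split_ifs with h
    · rw [abs_of_nonneg h, mul_one]
    · rw [abs_of_neg (not_le.mp h)]; ring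
  set y : ℕ → ℝ := fun i => Real.sigmoid (x (i + 1)) with hy
  have hy1 : ∀ i, 0 ≤ y i ∧ y i ≤ 1 := fun i => ⟨Real.sigmoid_nonneg _, Real.sigmoid_le_one _⟩
  set g : ℕ → ℝ[X] := fun i => if σ i = σ (i + 1) then 1 else C (y i) - X with hgd
  obtain ⟨hdeg, hco⟩ := prod_bound g (fun i => by
    simp only [hgd]
    split_ifs
    · exact Or.inl rfl
    · exact Or.inr ⟨y i, by rw [abs_of_nonneg (hy1 i).1]; exact (hy1 i).2, rfl⟩) k
  set P := ∏ i ∈ Finset.range k, g i with hP
  have hev : ∀ z, P.eval z = ∏ i ∈ Finset.range k, (if σ i = σ (i + 1) then 1 else y i - z) := by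
    intro z
    rw [hP, eval_prod]
    refine Finset.prod_congr rfl fun i _ => ?_
    simp only [hgd]
    split_ifs <;> simp
  set Hf : ℝ → ℝ := fun t => ∏ i ∈ Finset.range k, |Real.sigmoid t - y i| with hHf
  have Hc : Continuous Hf := by fun_prop
  have H0 : ∀ t, 0 ≤ Hf t := fun t => Finset.prod_nonneg fun _ _ => abs_nonneg _
  have blk : ∀ j ∈ Finset.range (k + 1), ∫ t in (x j)..(x (j + 1)), Hf t ≤
      ∑ n ∈ Finset.range (k + 1), σ 0 * P.coeff n * (w j * (Ph n (x (j + 1)) - Ph n (x j))) := by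
    intro j hj
    have hj' : j ≤ k := by have := Finset.mem_range.mp hj; omega
    have e : ∑ n ∈ Finset.range (k + 1), σ 0 * P.coeff n * (w j * (Ph n (x (j + 1)) - Ph n (x j)))
        = ∫ t in (x j)..(x (j + 1)), ∑ n ∈ Finset.range (k + 1),
          σ 0 * P.coeff n * w j * Real.sigmoid t ^ n := by
      rw [intervalIntegral.integral_finsetSum
        (f := fun n t => σ 0 * P.coeff n * w j * Real.sigmoid t ^ n) fun n _ =>
        (continuous_const.mul (cont_pow n)).intervalIntegrable _ _]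
      refine Finset.sum_congr rfl fun n _ => ?_
      rw [intervalIntegral.integral_const_mul, Ph, Ph, prim_sub (cont_pow n)]
      ring
    rw [e]
    refine intervalIntegral.integral_mono_on (hp j hj').1 (Hc.intervalIntegrable _ _)
      (Continuous.intervalIntegrable (by fun_prop) _ _) fun t ht => ?_
    have s1 := sign_prod σ hσ y (Real.sigmoid t) j k
      (fun i _ b => Real.sigmoid_monotone ((hp.mono (by omega) (by omega)).trans ht.1))
      (fun i a b => Real.sigmoid_monotone (ht.2.trans (hp.mono (by omega) (by omega))))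
      (fun i => abs_le.mpr ⟨by linarith [(hy1 i).2, Real.sigmoid_nonneg t],
        by linarith [(hy1 i).1, Real.sigmoid_le_one t]⟩)
    rw [min_eq_left hj', ← hev, eval_eq_sum_range' (Nat.lt_succ_of_le hdeg)] at s1
    have e2 : ∑ n ∈ Finset.range (k + 1), σ 0 * P.coeff n * w j * Real.sigmoid t ^ n =
        |w j| * (σ j * σ 0 * ∑ n ∈ Finset.range (k + 1), P.coeff n * Real.sigmoid t ^ n) := by
      rw [Finset.mul_sum, Finset.mul_sum]
      refine Finset.sum_congr rfl fun n _ => ?_
      conv_lhs => rw [hw j]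
      ring
    rw [e2]
    have s0 := H0 t
    have s2 := (hp j hj').2.1
    change Hf t ≤ _ at s1
    nlinarith
  have tot := Finset.sum_le_sum blk
  rw [intervalIntegral.sum_integral_adjacent_intervals fun j _ => Hc.intervalIntegrable _ _,
    Finset.sum_comm] at tot
  have up : ∑ n ∈ Finset.range (k + 1), ∑ j ∈ Finset.range (k + 1),
      σ 0 * P.coeff n * (w j * (Ph n (x (j + 1)) - Ph n (x j))) ≤ (k + 1) * (2 ^ k * c) := by
    have : ∀ n ∈ Finset.range (k + 1), ∑ j ∈ Finset.range (k + 1),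
        σ 0 * P.coeff n * (w j * (Ph n (x (j + 1)) - Ph n (x j))) ≤ 2 ^ k * c := by
      intro n hn
      rw [← Finset.mul_sum]
      refine (le_abs_self _).trans ?_
      have s0 : |σ 0| = 1 := by rcases hσ 0 with h | h <;> simp [h]
      rw [abs_mul, abs_mul, s0, one_mul]
      exact mul_le_mul (hco n) (hc n (by have := Finset.mem_range.mp hn; omega)) (abs_nonneg _)
        (by positivity)
    refine (Finset.sum_le_sum this).trans ?_
    rw [Finset.sum_const, Finset.card_range, nsmul_eq_mul]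
    push_cast
    exact le_rfl
  have lo := H (max (x 0) (-R - η)) y (le_max_right _ _) (max_le_max_right _ h2) hy1
  have mid : ∫ t in (max (x 0) (-R - η))..(max (x 0) (-R - η) + η), Hf t ≤
      ∫ t in (x 0)..(x (k + 1)), Hf t := by
    refine intervalIntegral.integral_mono_interval (le_max_left _ _) (by linarith) ?_
      (ae_of_all _ H0) (Hc.intervalIntegrable _ _)
    rcases max_choice (x 0) (-R - η) with h | h <;> rw [h] <;> linarith
  rw [div_le_iff₀ (by positivity)]
  nlinarith

end ColK
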