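import Pool.Agent.P.MP_59d724_co.CkDefs

/-! Tents on the cells of a grid. -/

namespace ColK

open Set

/-- the data of one cell -/
structure Tent (f g : ℝ → ℝ) (p q r : ℝ) (T : ℝ → ℝ) : Prop where
  lo : p ≤ r
  hi : r ≤ q
  zp : T p = 0
  zq : T q = 0
  bd : ∀ t, p ≤ t → t ≤ q → |T t| ≤ q - p
  up : ∀ x y, p ≤ x → x ≤ y → y ≤ q → f x + T x ≤ f y + T y
  dn : ∀ x y, p ≤ x → x ≤ y → y ≤ q → g x - T x ≤ g y - T y
  a1 : ∃ c d : ℝ, ∀ t, p ≤ t → t ≤ r → T t = c * t + d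
  a2 : ∃ c d : ℝ, ∀ t, r ≤ t → t ≤ q → T t = c * t + d

theorem tent_zero {f g : ℝ → ℝ} (hf : Monotone f) (hg : Monotone g) {p q : ℝ} (hpq : p ≤ q) :
    Tent f g p q p fun _ => 0 where
  lo := le_rfl
  hi := hpq
  zp := rfl
  zq := rfl
  bd := fun _ _ _ => by simpa using hpq
  up := fun x y _ h _ => by simpa using hf h
  dn := fun x y _ h _ => by simpa using hg h
  a1 := ⟨0, 0, fun _ _ _ => by simp⟩
  a2 := ⟨0, 0, fun _ _ _ => by simp⟩

theorem tent_exists {f g : ℝ → ℝ} {p q al be ε : ℝ} (hpq : p < q) (hal : 0 ≤ al) (hbe : 0 ≤ be)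
    (hal1 : al ≤ 1)
    (hg : ∀ x y, p ≤ x → x ≤ y → y ≤ q →
      al * (y - x) ≤ g y - g x ∧ g y - g x ≤ (al + ε) * (y - x))
    (hf : ∀ x y, p ≤ x → x ≤ y → y ≤ q →
      be * (y - x) ≤ f y - f x ∧ f y - f x ≤ (be + ε) * (y - x)) :
    ∃ r T, Tent f g p q r T ∧
      ((g r - T r) - (g p - T p)) + ((f q + T q) - (f r + T r)) ≤ ε * (q - p) := by
  obtain ⟨r, hr1, hr2, hr⟩ : ∃ r, p ≤ r ∧ r ≤ q ∧ al * (r - p) = be * (q - r) := by
    rcases (add_nonneg hal hbe).eq_or_lt with h0 | h0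
    · have h1 : al = 0 := by linarith
      have h2 : be = 0 := by linarith
      exact ⟨p, le_rfl, hpq.le, by simp [h1, h2]⟩
    · refine ⟨(al * p + be * q) / (al + be), ?_, ?_, ?_⟩
      · rw [le_div_iff₀ h0]; nlinarith
      · rw [div_le_iff₀ h0]; nlinarith
      · field_simp; ring
  have e1 : ∀ t, t ≤ r → min (al * (t - p)) (be * (q - t)) = al * (t - p) := fun t ht =>
    min_eq_left (by nlinarith)
  have e2 : ∀ t, r ≤ t → min (al * (t - p)) (be * (q - t)) = be * (q - t) := fun t ht =>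
    min_eq_right (by nlinarith)
  refine ⟨r, fun t => min (al * (t - p)) (be * (q - t)), ⟨hr1, hr2, ?_, ?_, ?_, ?_, ?_, ?_, ?_⟩, ?_⟩
  · rw [e1 p hr1]; simp
  · rw [e2 q hr2]; simp
  · intro t h1 h2
    rw [abs_of_nonneg (le_min (mul_nonneg hal (by linarith)) (mul_nonneg hbe (by linarith)))]
    refine (min_le_left _ _).trans ?_
    nlinarith
  · intro x y h1 h2 h3
    have := (hf x y h1 h2 h3).1
    have h4 : min (al * (x - p)) (be * (q - x)) - be * (y - x) ≤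
        min (al * (y - p)) (be * (q - y)) := by
      refine le_min ?_ ?_
      · have := min_le_left (al * (x - p)) (be * (q - x))
        nlinarith [mul_nonneg hal (sub_nonneg.mpr h2), mul_nonneg hbe (sub_nonneg.mpr h2)]
      · have := min_le_right (al * (x - p)) (be * (q - x))
        nlinarith
    linarith
  · intro x y h1 h2 h3
    have := (hg x y h1 h2 h3).1
    have h4 : min (al * (y - p)) (be * (q - y)) - al * (y - x) ≤
        min (al * (x - p)) (be * (q - x)) := by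
      refine le_min ?_ ?_
      · have := min_le_left (al * (y - p)) (be * (q - y))
        nlinarith
      · have := min_le_right (al * (y - p)) (be * (q - y))
        nlinarith [mul_nonneg hal (sub_nonneg.mpr h2), mul_nonneg hbe (sub_nonneg.mpr h2)]
    linarith
  · exact ⟨al, -(al * p), fun t _ h => by rw [e1 t h]; ring⟩
  · exact ⟨-be, be * q, fun t h _ => by rw [e2 t h]; ring⟩
  · have h1 := (hg p r le_rfl hr1 hr2).2
    have h2 := (hf r q hr1 hr2 le_rfl).2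
    dsimp only
    rw [e1 p hr1, e2 q hr2, e1 r le_rfl]
    nlinarith

theorem cell_lo {τ : ℝ} (hτ : 0 < τ) (t : ℝ) : (⌊t / τ⌋ : ℝ) * τ ≤ t := by
  have := Int.floor_le (t / τ)
  rwa [le_div_iff₀ hτ] at this

theorem cell_hi {τ : ℝ} (hτ : 0 < τ) (t : ℝ) : t < ((⌊t / τ⌋ : ℝ) + 1) * τ := by
  have := Int.lt_floor_add_one (t / τ)
  rwa [div_lt_iff₀ hτ] at this

theorem cell_eq {τ : ℝ} (hτ : 0 < τ) {t : ℝ} {m : ℤ} (h1 : (m : ℝ) * τ ≤ t)
    (h2 : t < ((m : ℝ) + 1) * τ) : ⌊t / τ⌋ = m := by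
  rw [Int.floor_eq_iff, le_div_iff₀ hτ, div_lt_iff₀ hτ]
  exact ⟨h1, h2⟩

/-- the glued function agrees with the tent on the closed cell -/
theorem glue_eq {τ : ℝ} (hτ : 0 < τ) {T : ℤ → ℝ → ℝ} (h0 : ∀ m : ℤ, T m (m * τ) = 0)
    (h1 : ∀ m : ℤ, T m ((m + 1) * τ) = 0) {m : ℤ} {t : ℝ} (ha : (m : ℝ) * τ ≤ t)
    (hb : t ≤ ((m : ℝ) + 1) * τ) : T ⌊t / τ⌋ t = T m t := by
  rcases hb.eq_or_lt with h | h
  · have e : ⌊t / τ⌋ = m + 1 := by
      refine cell_eq hτ ?_ ?_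
      · push_cast; exact h.ge
      · push_cast; rw [h]; nlinarith
    rw [e, h, h1 m]
    have := h0 (m + 1)
    push_cast at this
    exact this
  · rw [cell_eq hτ ha h]

theorem mono_glue {τ : ℝ} (hτ : 0 < τ) {g h : ℝ → ℝ} (hg : Monotone g)
    (h0 : ∀ m : ℤ, h (m * τ) = g (m * τ))
    (hc : ∀ (m : ℤ) x y, (m : ℝ) * τ ≤ x → x ≤ y → y ≤ ((m : ℝ) + 1) * τ → h x ≤ h y) :
    Monotone h := by
  intro x y hxy
  have hm : ⌊x / τ⌋ ≤ ⌊y / τ⌋ := Int.floor_le_floor (div_le_div_of_nonneg_right hxy hτ.le)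
  rcases hm.eq_or_lt with e | e
  · exact hc ⌊x / τ⌋ x y (cell_lo hτ x) hxy (by rw [e]; exact (cell_hi hτ y).le)
  · have h1 := hc ⌊x / τ⌋ x _ (cell_lo hτ x) (cell_hi hτ x).le le_rfl
    have h2 := hc ⌊y / τ⌋ _ y le_rfl (cell_lo hτ y) (cell_hi hτ y).le
    have h3 := h0 (⌊x / τ⌋ + 1)
    push_cast at h3
    have h4 : ((⌊x / τ⌋ : ℝ) + 1) * τ ≤ (⌊y / τ⌋ : ℝ) * τ := by
      have : ((⌊x / τ⌋ + 1 : ℤ) : ℝ) ≤ (⌊y / τ⌋ : ℝ) := by exact_mod_cast e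
      push_cast at this
      exact mul_le_mul_of_nonneg_right this hτ.le
    have h5 := hg h4
    rw [h0] at h2
    linarith

theorem range_fin {τ : ℝ} (hτ : 0 < τ) {r : ℤ → ℝ} (h1 : ∀ m : ℤ, (m : ℝ) * τ ≤ r m)
    (h2 : ∀ m : ℤ, r m ≤ ((m : ℝ) + 1) * τ) (R : ℝ) : (range r ∩ Icc (-R) R).Finite := by
  refine ((Set.finite_Icc (⌊-R / τ⌋ - 1) ⌊R / τ⌋).image r).subset ?_
  rintro _ ⟨⟨m, rfl⟩, ha, hb⟩
  refine ⟨m, ⟨?_, ?_⟩, rfl⟩
  · have h3 := cell_lo hτ (-R)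
    have h4 : (⌊-R / τ⌋ : ℝ) * τ ≤ ((m : ℝ) + 1) * τ := by linarith [h2 m]
    have h5 : (⌊-R / τ⌋ : ℝ) ≤ (m : ℝ) + 1 := le_of_mul_le_mul_right h4 hτ
    have : ⌊-R / τ⌋ ≤ m + 1 := by exact_mod_cast h5
    omega
  · rw [Int.le_floor, le_div_iff₀ hτ]
    linarith [h1 m]

end ColK
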