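import Pool.Agent.P.MP_59d724_co.CkDefs

/-! From mutually singular increments to a colouring. -/

namespace ColK

open Set MeasureTheory Filter Topology

variable {ι : Type} [Fintype ι]

theorem Adm.ac {F : ℝ → ι → ℝ} (h : Adm F) (i : ι) (a b : ℝ) :
    AbsolutelyContinuousOnInterval (fun t => F t i) a b := by
  have : LipschitzWith 1 fun t => F t i := by
    refine LipschitzWith.of_dist_le_mul fun x y => ?_
    rw [Real.dist_eq, Real.dist_eq]
    simpa using h.abs_le i y x
  exact this.lipschitzOnWith.absolutelyContinuousOnInterval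

theorem min_ae {F : ℝ → ι → ℝ} (h : Adm F) {i j : ι}
    (hs : ∀ N : ℕ, Small F univ i j N (1 / (N + 1))) :
    ∀ᵐ t, min (deriv (fun t => F t i) t) (deriv (fun t => F t j) t) = 0 := by
  set f := deriv fun t => F t i with hf
  set g := deriv fun t => F t j with hg
  have f0 : ∀ t, 0 ≤ f t := fun t => (h.1 i).deriv_nonneg
  have g0 : ∀ t, 0 ≤ g t := fun t => (h.1 j).deriv_nonneg
  have fi : ∀ a b, IntervalIntegrable f volume a b := fun a b =>
    (h.ac i a b).intervalIntegrable_deriv
  have gi : ∀ a b, IntervalIntegrable g volume a b := fun a b =>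
    (h.ac j a b).intervalIntegrable_deriv
  have m0 : ∀ t, 0 ≤ min (f t) (g t) := fun t => le_min (f0 t) (g0 t)
  have mi : ∀ a b, IntervalIntegrable (fun t => min (f t) (g t)) volume a b := fun a b =>
    ⟨(fi a b).1.inf (gi a b).1, (fi a b).2.inf (gi a b).2⟩
  have key : ∀ N : ℕ, ∫ t in (-(N : ℝ))..N, min (f t) (g t) ≤ 1 / (N + 1) := by
    intro N
    obtain ⟨L, p, r, h1, h2, h3, h4⟩ := hs N
    have hN : -(N : ℝ) ≤ N := by linarith [(Nat.cast_nonneg N : (0 : ℝ) ≤ N)]
    refine (intervalIntegral.integral_mono_interval h2 hN h3 (ae_of_all _ m0) (mi _ _)).trans ?_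
    rw [← intervalIntegral.sum_integral_adjacent_intervals fun l _ => mi (p l) (p (l + 1))]
    refine le_trans (Finset.sum_le_sum fun l _ => ?_) h4
    rw [← intervalIntegral.integral_add_adjacent_intervals (mi (p l) (r l)) (mi (r l) (p (l + 1))),
      ← (h.ac j (p l) (r l)).integral_deriv_eq_sub,
      ← (h.ac i (r l) (p (l + 1))).integral_deriv_eq_sub]
    exact add_le_add
      (intervalIntegral.integral_mono_on (h1 l).2.2.1 (mi _ _) (gi _ _) fun t _ => min_le_right _ _)
      (intervalIntegral.integral_mono_on (h1 l).2.2.2 (mi _ _) (fi _ _) fun t _ => min_le_left _ _)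
  have zero : ∀ N : ℕ, ∀ᵐ t, t ∈ Ioc (-(N : ℝ)) N → min (f t) (g t) = 0 := by
    intro N
    have hN : -(N : ℝ) ≤ N := by linarith [(Nat.cast_nonneg N : (0 : ℝ) ≤ N)]
    have h1 : ∫ t in (-(N : ℝ))..N, min (f t) (g t) = 0 := by
      refine le_antisymm ?_ (intervalIntegral.integral_nonneg hN fun t _ => m0 t)
      refine ge_of_tendsto tendsto_one_div_add_atTop_nhds_zero_nat ?_
      filter_upwards [eventually_ge_atTop N] with n hn
      have hn' : (N : ℝ) ≤ n := by exact_mod_cast hn
      exact (intervalIntegral.integral_mono_interval (by linarith) hN hn' (ae_of_all _ m0)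
        (mi _ _)).trans (key n)
    rw [intervalIntegral.integral_eq_zero_iff_of_le_of_nonneg_ae hN (ae_of_all _ m0) (mi _ _)] at h1
    exact (ae_restrict_iff' measurableSet_Ioc).mp h1
  filter_upwards [ae_all_iff.mpr zero] with t ht
  obtain ⟨N, hN⟩ := exists_nat_gt |t|
  exact ht N ⟨by linarith [neg_abs_le t], by linarith [le_abs_self t]⟩

theorem exists_colouring [Nonempty ι] {F : ℝ → ι → ℝ} (h : Adm F)
    (hs : ∀ i j, i ≠ j → ∀ N : ℕ, Small F univ i j N (1 / (N + 1))) :
    ∃ c : ℝ → ι, (∀ i, MeasurableSet (c ⁻¹' {i})) ∧ ∀ i a b, a ≤ b →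
      volume (c ⁻¹' {i} ∩ Icc a b) = ENNReal.ofReal (F b i - F a i) := by
  classical
  set f : ι → ℝ → ℝ := fun i => deriv fun t => F t i with hf
  have f0 : ∀ i t, 0 ≤ f i t := fun i t => (h.1 i).deriv_nonneg
  have h1 : ∀ᵐ t, ∑ i, f i t = 1 := by
    filter_upwards [ae_all_iff.mpr fun i => (h.1 i).ae_differentiableAt] with t ht
    have e1 : HasDerivAt (fun t => ∑ i, F t i) (∑ i, f i t) t :=
      HasDerivAt.fun_sum fun i _ => (ht i).hasDerivAt
    have e2 : (fun t => ∑ i, F t i) = fun t => t := funext h.2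
    rw [e2] at e1
    exact e1.unique (hasDerivAt_id' t)
  have h2 : ∀ᵐ t, ∀ i j, i ≠ j → min (f i t) (f j t) = 0 := by
    refine ae_all_iff.mpr fun i => ae_all_iff.mpr fun j => ?_
    by_cases hij : i = j
    · exact ae_of_all _ fun t h => absurd hij h
    · filter_upwards [min_ae h (hs i j hij)] with t ht _ using ht
  let sel : (ι → Bool) → ι := fun b =>
    if hb : ∃ i, b i = true then hb.choose else Classical.arbitrary ι
  let β : ℝ → ι → Bool := fun t i => decide (0 < f i t)
  have hβ : Measurable β := by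
    refine measurable_pi_lambda _ fun i => measurable_to_countable' fun b => ?_
    have hm : MeasurableSet {t | 0 < f i t} :=
      measurableSet_lt measurable_const (measurable_deriv _)
    cases b
    · have : (fun t => β t i) ⁻¹' {false} = {t | 0 < f i t}ᶜ := by ext t; simp [β]
      rw [this]; exact hm.compl
    · have : (fun t => β t i) ⁻¹' {true} = {t | 0 < f i t} := by ext t; simp [β]
      rw [this]; exact hm
  have hc : ∀ i, MeasurableSet ((fun t => sel (β t)) ⁻¹' {i}) := fun i =>
    hβ ((Set.toFinite (sel ⁻¹' {i})).measurableSet)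
  have h3 : ∀ᵐ t, ∀ i, f i t = indicator ((fun t => sel (β t)) ⁻¹' {i}) (fun _ => (1 : ℝ)) t := by
    filter_upwards [h1, h2] with t t1 t2
    have hex : ∃ i, β t i = true := by
      by_contra hne
      have : ∀ i, f i t = 0 := fun i =>
        le_antisymm (not_lt.mp fun h => hne ⟨i, by simpa [β] using h⟩) (f0 i t)
      simp [this] at t1
    have hsel : 0 < f (sel (β t)) t := by
      have := hex.choose_spec
      simp only [sel, dif_pos hex]
      simpa [β] using this
    have hz : ∀ i, i ≠ sel (β t) → f i t = 0 := by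
      intro i hi
      rcases min_eq_iff.mp (t2 i _ hi) with h | h
      · exact h.1
      · exact absurd h.1 hsel.ne'
    intro i
    by_cases hi : i = sel (β t)
    · rw [indicator_of_mem (by simp [hi]), ← t1,
        Finset.sum_eq_single i (fun l _ hl => hz l (hi ▸ hl)) (by simp)]
    · rw [indicator_of_notMem (by simpa using fun h => hi h.symm), hz i hi]
  refine ⟨fun t => sel (β t), hc, fun i a b hab => ?_⟩
  have e1 : ∫ t in a..b, f i t = F b i - F a i := (h.ac i a b).integral_deriv_eq_sub
  have e2 : ∫ t in a..b, f i t =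
      ∫ t in a..b, indicator ((fun t => sel (β t)) ⁻¹' {i}) (fun _ => (1 : ℝ)) t :=
    intervalIntegral.integral_congr_ae (by filter_upwards [h3] with t ht _ using ht i)
  rw [← e1, e2, intervalIntegral.integral_of_le hab, ← integral_Icc_eq_integral_Ioc,
    integral_indicator (hc i), Measure.restrict_restrict (hc i)]
  simp only [integral_const, smul_eq_mul, mul_one, measureReal_def, Measure.restrict_apply_univ]
  refine (ENNReal.ofReal_toReal ?_).symm
  exact ((measure_mono inter_subset_right).trans_lt measure_Icc_lt_top).ne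

end ColK
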