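import Mathlib

/-! Continuous necklace colourings: basic notions and general lemmas. -/

namespace ColK

open Set

variable {ι : Type} [Fintype ι]

/-- primitive of a relaxed colouring -/
def Adm (F : ℝ → ι → ℝ) : Prop := (∀ i, Monotone fun t => F t i) ∧ ∀ t, ∑ i, F t i = t

/-- signed sum of the increments over the blocks -/
noncomputable def G (k : ℕ) (F : ℝ → ι → ℝ) (x w : ℕ → ℝ) : ι → ℝ :=
  ∑ j ∈ Finset.range (k + 1), w j • (F (x (j + 1)) - F (x j))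

/-- cut points and weights -/
def Par (k : ℕ) (x w : ℕ → ℝ) : Prop :=
  ∀ j, j ≤ k → x j ≤ x (j + 1) ∧ 1 ≤ |w j| ∧ |w j| ≤ k + 1

def Strong (k : ℕ) (F : ℝ → ι → ℝ) : Prop :=
  ∀ R η : ℝ, 0 < η → ∃ m : ℝ, 0 < m ∧ ∀ x w, Par k x w → η ≤ x (k + 1) - x 0 → x 0 ≤ R →
    -R ≤ x (k + 1) → m ≤ ‖G k F x w‖

structure Base (k : ℕ) (F0 : ℝ → ι → ℝ) (lab : ι → ℝ) : Prop where
  adm : Adm F0
  strong : Strong k F0
  inj : Function.Injective lab
  lin : ∃ C : ℝ, ∀ t, ∑ i, lab i * F0 t i = C * t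
  osc : ∀ R ε : ℝ, 0 < ε → ∃ τ : ℝ, 0 < τ ∧ ∀ i p, -R ≤ p → p ≤ R → ∃ σ : ℝ, ∀ x y, p ≤ x →
    x ≤ y → y ≤ p + τ → σ * (y - x) ≤ F0 y i - F0 x i ∧ F0 y i - F0 x i ≤ (σ + ε) * (y - x)

def Aff (F0 F : ℝ → ι → ℝ) (B : Set ℝ) : Prop :=
  ∀ a b : ℝ, a < b → (∀ t ∈ B, ¬ (a < t ∧ t < b)) →
    ∃ κ d : ι → ℝ, ∀ t, a ≤ t → t ≤ b → F t = F0 t + t • κ + d

structure St (k : ℕ) (F0 F : ℝ → ι → ℝ) (B : Set ℝ) : Prop where
  adm : Adm F
  strong : Strong k F
  fin : ∀ R : ℝ, (B ∩ Icc (-R) R).Finite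
  aff : Aff F0 F B

def Small (F : ℝ → ι → ℝ) (B : Set ℝ) (i j : ι) (N ε : ℝ) : Prop :=
  ∃ (L : ℕ) (p r : ℕ → ℝ), (∀ l, p l ∈ B ∧ r l ∈ B ∧ p l ≤ r l ∧ r l ≤ p (l + 1)) ∧ p 0 ≤ -N ∧
    N ≤ p L ∧ ∑ l ∈ Finset.range L,
      ((F (r l) j - F (p l) j) + (F (p (l + 1)) i - F (r l) i)) ≤ ε

theorem Adm.sub_le {F : ℝ → ι → ℝ} (h : Adm F) (i : ι) {x y : ℝ} (hxy : x ≤ y) :
    F y i - F x i ≤ y - x := by
  classical
  have h1 : ∑ l, (F y l - F x l) = y - x := by rw [Finset.sum_sub_distrib, h.2, h.2]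
  rw [← h1]
  exact Finset.single_le_sum (f := fun l => F y l - F x l)
    (fun l _ => sub_nonneg.mpr (h.1 l hxy)) (Finset.mem_univ i)

theorem Adm.abs_le {F : ℝ → ι → ℝ} (h : Adm F) (i : ι) (x y : ℝ) :
    |F y i - F x i| ≤ |y - x| := by
  rcases le_total x y with hxy | hxy
  · rw [abs_of_nonneg (sub_nonneg.mpr (h.1 i hxy)), abs_of_nonneg (sub_nonneg.mpr hxy)]
    exact h.sub_le i hxy
  · rw [abs_sub_comm, abs_sub_comm y, abs_of_nonneg (sub_nonneg.mpr (h.1 i hxy)),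
      abs_of_nonneg (sub_nonneg.mpr hxy)]
    exact h.sub_le i hxy

theorem Adm.cont_apply {F : ℝ → ι → ℝ} (h : Adm F) (i : ι) : Continuous fun t => F t i := by
  have : LipschitzWith 1 fun t => F t i := by
    refine LipschitzWith.of_dist_le_mul fun x y => ?_
    rw [Real.dist_eq, Real.dist_eq]
    simpa using h.abs_le i y x
  exact this.continuous

theorem Adm.cont {F : ℝ → ι → ℝ} (h : Adm F) : Continuous F :=
  continuous_pi fun i => h.cont_apply i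

theorem Par.mono {k : ℕ} {x w : ℕ → ℝ} (h : Par k x w) {a b : ℕ} (hab : a ≤ b) (hb : b ≤ k + 1) :
    x a ≤ x b := by
  induction b, hab using Nat.le_induction with
  | base => exact le_rfl
  | succ n hn ih => exact (ih (by omega)).trans (h n (by omega)).1

omit [Fintype ι] in
theorem G_congr {k : ℕ} {F F' : ℝ → ι → ℝ} {x w : ℕ → ℝ}
    (h : ∀ n, n ≤ k + 1 → F' (x n) = F (x n)) : G k F' x w = G k F x w := by
  unfold G
  refine Finset.sum_congr rfl fun j hj => ?_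
  have := Finset.mem_range.mp hj
  rw [h j (by omega), h (j + 1) (by omega)]

theorem G_dist {k : ℕ} {F F' : ℝ → ι → ℝ} {x w : ℕ → ℝ} {e : ℝ} (hp : Par k x w)
    (h : ∀ t, ‖F' t - F t‖ ≤ e) : ‖G k F' x w - G k F x w‖ ≤ 2 * ((k + 1) * (k + 1)) * e := by
  unfold G
  rw [← Finset.sum_sub_distrib]
  refine (norm_sum_le _ _).trans ?_
  have : ∀ j ∈ Finset.range (k + 1),
      ‖w j • (F' (x (j + 1)) - F' (x j)) - w j • (F (x (j + 1)) - F (x j))‖
        ≤ (k + 1) * (2 * e) := by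
    intro j hj
    have hw := (hp j (by have := Finset.mem_range.mp hj; omega)).2.2
    rw [← smul_sub, norm_smul, Real.norm_eq_abs]
    refine mul_le_mul hw ?_ (norm_nonneg _) (by positivity)
    have e1 : F' (x (j + 1)) - F' (x j) - (F (x (j + 1)) - F (x j))
        = (F' (x (j + 1)) - F (x (j + 1))) - (F' (x j) - F (x j)) := by abel
    rw [e1]
    refine (norm_sub_le _ _).trans ?_
    linarith [h (x (j + 1)), h (x j)]
  refine (Finset.sum_le_sum this).trans ?_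
  rw [Finset.sum_const, Finset.card_range, nsmul_eq_mul]
  push_cast
  linarith

omit [Fintype ι] in
theorem G_apply (k : ℕ) (F : ℝ → ι → ℝ) (x w : ℕ → ℝ) (i : ι) :
    G k F x w i = ∑ j ∈ Finset.range (k + 1), w j * (F (x (j + 1)) i - F (x j) i) := by
  unfold G
  rw [Finset.sum_apply]
  rfl

/-- a linear functional of `G` -/
theorem G_lin (k : ℕ) (F : ℝ → ι → ℝ) (x w : ℕ → ℝ) (a : ι → ℝ) :
    ∑ i, a i * G k F x w i = ∑ j ∈ Finset.range (k + 1),
      w j * (∑ i, a i * F (x (j + 1)) i - ∑ i, a i * F (x j) i) := by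
  simp only [G_apply, Finset.mul_sum]
  rw [Finset.sum_comm]
  refine Finset.sum_congr rfl fun j _ => ?_
  rw [← Finset.sum_sub_distrib, Finset.mul_sum]
  refine Finset.sum_congr rfl fun i _ => ?_
  ring

theorem G_sum {k : ℕ} {F : ℝ → ι → ℝ} (h : Adm F) (x w : ℕ → ℝ) :
    ∑ i, G k F x w i = ∑ j ∈ Finset.range (k + 1), w j * (x (j + 1) - x j) := by
  have := G_lin k F x w fun _ => 1
  simpa only [one_mul, h.2] using this

theorem Strong.ne {k : ℕ} {F : ℝ → ι → ℝ} (h : Strong k F) {x w : ℕ → ℝ} (hp : Par k x w)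
    (hx : x 0 < x (k + 1)) : G k F x w ≠ 0 := by
  obtain ⟨m, hm, H⟩ := h (|x 0| + |x (k + 1)|) (x (k + 1) - x 0) (sub_pos.mpr hx)
  have := H x w hp le_rfl (by linarith [le_abs_self (x 0), abs_nonneg (x (k + 1))])
    (by linarith [neg_abs_le (x (k + 1)), abs_nonneg (x 0)])
  intro h0
  rw [h0, norm_zero] at this
  linarith

/-- compactness: a positive margin on bounded families -/
theorem margin {k : ℕ} {F : ℝ → ι → ℝ} (hF : Continuous F) (R η1 η : ℝ)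
    (hne : ∀ x w, Par k x w → η1 ≤ x (k + 1) - x 0 → x (k + 1) - x 0 ≤ η → G k F x w ≠ 0) :
    ∃ m : ℝ, 0 < m ∧ ∀ x w, Par k x w → η1 ≤ x (k + 1) - x 0 → x (k + 1) - x 0 ≤ η → x 0 ≤ R →
      -R ≤ x (k + 1) → m ≤ ‖G k F x w‖ := by
  set K : Set ((ℕ → ℝ) × (ℕ → ℝ)) :=
    (Icc (fun _ => -R - η) (fun _ => R + η) ×ˢ Icc (fun _ => -((k : ℝ) + 1)) (fun _ => (k : ℝ) + 1)) ∩
      {z | Par k z.1 z.2 ∧ η1 ≤ z.1 (k + 1) - z.1 0 ∧ z.1 (k + 1) - z.1 0 ≤ η} with hK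
  have hc : IsCompact K := by
    refine (isCompact_Icc.prod isCompact_Icc).inter_right ?_
    refine IsClosed.inter ?_ (IsClosed.inter ?_ ?_)
    · have : {z : (ℕ → ℝ) × (ℕ → ℝ) | Par k z.1 z.2} =
          ⋂ j, ⋂ _ : j ≤ k, ({z | z.1 j ≤ z.1 (j + 1)} ∩
            ({z | 1 ≤ |z.2 j|} ∩ {z | |z.2 j| ≤ (k : ℝ) + 1})) := by
        ext z; simp [Par]
      change IsClosed {z : (ℕ → ℝ) × (ℕ → ℝ) | Par k z.1 z.2}
      rw [this]
      refine isClosed_iInter fun j => isClosed_iInter fun _ =>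
        IsClosed.inter ?_ (IsClosed.inter ?_ ?_)
      · exact isClosed_le (by fun_prop) (by fun_prop)
      · exact isClosed_le (by fun_prop) (by fun_prop)
      · exact isClosed_le (by fun_prop) (by fun_prop)
    · change IsClosed {z : (ℕ → ℝ) × (ℕ → ℝ) | η1 ≤ z.1 (k + 1) - z.1 0}
      exact isClosed_le (by fun_prop) (by fun_prop)
    · change IsClosed {z : (ℕ → ℝ) × (ℕ → ℝ) | z.1 (k + 1) - z.1 0 ≤ η}
      exact isClosed_le (by fun_prop) (by fun_prop)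
  have hg : Continuous fun z : (ℕ → ℝ) × (ℕ → ℝ) => ‖G k F z.1 z.2‖ := by
    unfold G
    fun_prop
  have key : ∀ x w, Par k x w → η1 ≤ x (k + 1) - x 0 → x (k + 1) - x 0 ≤ η → x 0 ≤ R →
      -R ≤ x (k + 1) → ∃ z ∈ K, G k F z.1 z.2 = G k F x w := by
    intro x w hp h1 h2 h3 h4
    refine ⟨(fun n => x (min n (k + 1)), fun n => w (min n k)), ⟨⟨⟨fun n => ?_, fun n => ?_⟩,
      ⟨fun n => ?_, fun n => ?_⟩⟩, ?_, ?_, ?_⟩, ?_⟩
    · have := hp.mono (Nat.zero_le (min n (k + 1))) (min_le_right _ _)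
      dsimp only; linarith
    · have := hp.mono (min_le_right n (k + 1)) le_rfl
      dsimp only; linarith
    · have := (hp (min n k) (min_le_right _ _)).2.2
      dsimp only; linarith [neg_abs_le (w (min n k))]
    · have := (hp (min n k) (min_le_right _ _)).2.2
      dsimp only; linarith [le_abs_self (w (min n k))]
    · intro j hj
      dsimp only
      rw [min_eq_left (by omega : j ≤ k + 1), min_eq_left (by omega : j + 1 ≤ k + 1),
        min_eq_left hj]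
      exact hp j hj
    · simpa using h1
    · simpa using h2
    · unfold G
      refine Finset.sum_congr rfl fun j hj => ?_
      have := Finset.mem_range.mp hj
      dsimp only
      rw [min_eq_left (by omega : j ≤ k + 1), min_eq_left (by omega : j + 1 ≤ k + 1),
        min_eq_left (by omega : j ≤ k)]
  rcases K.eq_empty_or_nonempty with he | hn
  · refine ⟨1, one_pos, fun x w hp h1 h2 h3 h4 => ?_⟩
    obtain ⟨z, hz, -⟩ := key x w hp h1 h2 h3 h4
    rw [he] at hz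
    exact absurd hz (notMem_empty z)
  · obtain ⟨z0, hz0, hmin⟩ := hc.exists_isMinOn hn hg.continuousOn
    refine ⟨‖G k F z0.1 z0.2‖, norm_pos_iff.mpr (hne _ _ hz0.2.1 hz0.2.2.1 hz0.2.2.2),
      fun x w hp h1 h2 h3 h4 => ?_⟩
    obtain ⟨z, hz, hG⟩ := key x w hp h1 h2 h3 h4
    rw [← hG]
    exact hmin hz

end ColK
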