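import Pool.Agent.P.MP_59d724_co.CkMain

/-! The theorem in the words of the problem file. -/

namespace ColK

open Set MeasureTheory

theorem main (k : ℕ) : ∃ c : ℝ → Fin (k + 2), Measurable c ∧
    ∀ r ≤ k, ∀ x : Fin (r + 2) → ℝ, StrictMono x → ∀ q : ℕ, 2 ≤ q → ∀ g : Fin (r + 1) → Fin q,
      ¬ ∀ (i : Fin (k + 2)) (l : Fin q),
        ∑ j with g j = l, volume (c ⁻¹' {i} ∩ Icc (x j.castSucc) (x j.succ)) =
          volume (c ⁻¹' {i} ∩ Icc (x 0) (x (Fin.last (r + 1)))) / q := by
  obtain ⟨c, hc, F, hm, hs, hv, hG⟩ := weights k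
  refine ⟨c, hc, fun r hr x hx q hq g H => ?_⟩
  have hq0 : (0 : ℝ) < q := by exact_mod_cast (by omega : 0 < q)
  set y : ℕ → ℝ := fun n => x ⟨min n (r + 1), by omega⟩ with hy
  have y0 : y 0 = x 0 := by simp [hy]
  have y1 : ∀ n, r + 1 ≤ n → y n = x (Fin.last (r + 1)) := fun n hn => by
    simp only [hy]; congr 1; ext; simp [hn]
  have y2 : ∀ j : Fin (r + 1), y j = x j.castSucc := fun j => by
    simp only [hy]; congr 1; ext; simp
  have y3 : ∀ j : Fin (r + 1), y (j + 1) = x j.succ := fun j => by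
    simp only [hy]; congr 1; ext; simp; omega
  have lt1 : ∀ j : Fin (r + 1), x j.castSucc < x j.succ := fun j => hx Fin.castSucc_lt_succ
  have lt2 : x 0 < x (Fin.last (r + 1)) := hx (Fin.last_pos)
  have tel : ∀ i, ∑ j : Fin (r + 1), (F (x j.succ) i - F (x j.castSucc) i) =
      F (x (Fin.last (r + 1))) i - F (x 0) i := by
    intro i
    have := Finset.sum_range_sub (fun n => F (y n) i) (r + 1)
    rw [y0, y1 _ le_rfl, Finset.sum_range] at this
    rw [← this]
    exact Finset.sum_congr rfl fun j _ => by rw [y2, y3]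
  have part : ∀ i l, ∑ j with g j = l, (F (x j.succ) i - F (x j.castSucc) i) =
      (F (x (Fin.last (r + 1))) i - F (x 0) i) / q := by
    intro i l
    have h := H i l
    have n1 : ∀ j : Fin (r + 1), 0 ≤ F (x j.succ) i - F (x j.castSucc) i := fun j =>
      sub_nonneg.mpr (hm i (lt1 j).le)
    simp only [fun j => hv i _ _ (lt1 j).le] at h
    rw [hv i _ _ lt2.le, ← ENNReal.ofReal_sum_of_nonneg fun j _ => n1 j,
      ← ENNReal.ofReal_natCast, ← ENNReal.ofReal_div_of_pos hq0] at h
    exact (ENNReal.ofReal_eq_ofReal_iff (Finset.sum_nonneg fun j _ => n1 j)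
      (div_nonneg (sub_nonneg.mpr (hm i lt2.le)) hq0.le)).mp h
  have surj : Function.Surjective g := by
    intro l
    by_contra hne
    have he : (Finset.univ.filter fun j => g j = l) = ∅ :=
      Finset.filter_eq_empty_iff.mpr fun j _ h => hne ⟨j, h⟩
    have h1 : ∑ i, (F (x (Fin.last (r + 1))) i - F (x 0) i) / q = 0 :=
      Finset.sum_eq_zero fun i _ => by rw [← part i l, he, Finset.sum_empty]
    rw [← Finset.sum_div, Finset.sum_sub_distrib, hs, hs] at h1
    exact (div_pos (sub_pos.mpr lt2) hq0).ne' h1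
  have hqr : q ≤ r + 1 := by simpa using Fintype.card_le_of_surjective g surj
  let l0 : Fin q := ⟨0, by omega⟩
  let w : ℕ → ℝ := fun n =>
    if h : n < r + 1 then (if g ⟨n, h⟩ = l0 then (q : ℝ) - 1 else -1) else 1
  have hq1 : (2 : ℝ) ≤ q := by exact_mod_cast hq
  have hq2 : (q : ℝ) ≤ k + 1 := by exact_mod_cast (by omega : q ≤ k + 1)
  have k0 : (0 : ℝ) ≤ k := Nat.cast_nonneg k
  refine hG y w (fun j _ => ⟨hx.monotone (Fin.mk_le_mk.mpr (by omega)), ?_⟩) ?_ ?_
  · simp only [w]
    split_ifs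
    · rw [abs_of_nonneg (by linarith)]
      constructor <;> linarith
    · simp
    · simp
  · rw [y0, y1 _ (by omega)]
    exact lt2
  · funext i
    rw [G_apply, Pi.zero_apply]
    have e1 : ∑ j ∈ Finset.range (k + 1), w j * (F (y (j + 1)) i - F (y j) i) =
        ∑ j ∈ Finset.range (r + 1), w j * (F (y (j + 1)) i - F (y j) i) := by
      refine (Finset.sum_subset (Finset.range_mono (by omega)) fun j _ hj => ?_).symm
      have : r + 1 ≤ j := by simpa using hj
      rw [y1 j this, y1 (j + 1) (by omega), sub_self, mul_zero]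
    rw [e1, Finset.sum_range]
    have e2 : ∀ j : Fin (r + 1), w j * (F (y (j + 1)) i - F (y j) i) =
        q * (if g j = l0 then F (x j.succ) i - F (x j.castSucc) i else 0) -
          (F (x j.succ) i - F (x j.castSucc) i) := by
      intro j
      rw [y2, y3]
      simp only [w, dif_pos j.2, Fin.eta]
      split_ifs <;> ring
    simp only [e2]
    rw [Finset.sum_sub_distrib, ← Finset.mul_sum, ← Finset.sum_filter, part, tel]
    field_simp
    ring

end ColK
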