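import Pool.Agent.P.MP_59d724_co.CkStep

/-! The limit of the construction. -/

namespace ColK

open Set Filter Topology

variable {ι : Type} [Fintype ι]

omit [Fintype ι] in
theorem Small.mono {F F' : ℝ → ι → ℝ} {B : Set ℝ} {i j : ι} {N ε ε' : ℝ} (h : Small F B i j N ε)
    (hF : ∀ t ∈ B, F' t = F t) (hε : ε ≤ ε') : Small F' univ i j N ε' := by
  obtain ⟨L, p, r, h1, h2, h3, h4⟩ := h
  refine ⟨L, p, r, fun l => ⟨trivial, trivial, (h1 l).2.2⟩, h2, h3, le_trans (le_of_eq ?_)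
    (h4.trans hε)⟩
  refine Finset.sum_congr rfl fun l _ => ?_
  rw [hF _ (h1 l).1, hF _ (h1 l).2.1, hF _ (h1 (l + 1)).1]

theorem next_state {k : ℕ} {F0 F : ℝ → ι → ℝ} {lab : ι → ℝ} {B : Set ℝ} (hB : Base k F0 lab)
    (h : St k F0 F B) {e : ℝ} (he : 0 < e) (n : ℕ) (q : ι × ι × ℕ) :
    ∃ F' B' e', St k F0 F' B' ∧ 0 < e' ∧ e' ≤ e / 2 ∧ B ⊆ B' ∧ (∀ t ∈ B, F' t = F t) ∧
      (∀ t, ‖F' t - F t‖ ≤ e / 2) ∧
      (q.1 ≠ q.2.1 → Small F' B' q.1 q.2.1 q.2.2 (1 / (q.2.2 + 1))) ∧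
      ∀ x w, Par k x w → 1 / ((n : ℝ) + 1) ≤ x (k + 1) - x 0 → x 0 ≤ n → -(n : ℝ) ≤ x (k + 1) →
        2 * ((k + 1) * (k + 1)) * e' < ‖G k F' x w‖ := by
  obtain ⟨F', B', h1, h2, h3, h4, h5⟩ : ∃ F' B', St k F0 F' B' ∧ B ⊆ B' ∧ (∀ t ∈ B, F' t = F t) ∧
      (∀ t, ‖F' t - F t‖ ≤ e / 2) ∧
      (q.1 ≠ q.2.1 → Small F' B' q.1 q.2.1 q.2.2 (1 / (q.2.2 + 1))) := by
    by_cases hq : q.1 = q.2.1
    · exact ⟨F, B, h, subset_rfl, fun _ _ => rfl, fun t => by simp [half_pos he |>.le],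
        fun h => absurd hq h⟩
    · obtain ⟨F', B', h1, h2, h3, h4, h5⟩ := step hB h hq (N := q.2.2)
        (ε := 1 / ((q.2.2 : ℝ) + 1) / (2 * q.2.2 + 3)) (τ0 := e / 2) (Nat.cast_nonneg _)
        (by positivity) (half_pos he)
      refine ⟨F', B', h1, h2, h3, h4, fun _ => ?_⟩
      rwa [div_mul_cancel₀ _ (by positivity)] at h5
  obtain ⟨m, hm, H⟩ := h1.strong n (1 / ((n : ℝ) + 1)) (by positivity)
  refine ⟨F', B', min (e / 2) (m / (4 * ((k + 1) * (k + 1)))), h1, by positivity, min_le_left _ _, h2, h3, h4,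
    h5, fun x w hp a b c => lt_of_lt_of_le ?_ (H x w hp a b c)⟩
  have := min_le_right (e / 2) (m / (4 * ((k + 1) * (k + 1))))
  rw [le_div_iff₀ (by positivity)] at this
  linarith

theorem exists_limit [Nonempty ι] {k : ℕ} {F0 : ℝ → ι → ℝ} {lab : ι → ℝ} (hB : Base k F0 lab) :
    ∃ F : ℝ → ι → ℝ, Adm F ∧ (∀ x w, Par k x w → x 0 < x (k + 1) → G k F x w ≠ 0) ∧
      ∀ i j, i ≠ j → ∀ N : ℕ, Small F univ i j N (1 / (N + 1)) := by
  obtain ⟨q, hq⟩ := exists_surjective_nat (ι × ι × ℕ)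
  let S := {s : (ℝ → ι → ℝ) × Set ℝ × ℝ // St k F0 s.1 s.2.1 ∧ 0 < s.2.2}
  have nx : ∀ (n : ℕ) (s : S), ∃ s' : S, s'.1.2.2 ≤ s.1.2.2 / 2 ∧ s.1.2.1 ⊆ s'.1.2.1 ∧
      (∀ t ∈ s.1.2.1, s'.1.1 t = s.1.1 t) ∧ (∀ t, ‖s'.1.1 t - s.1.1 t‖ ≤ s.1.2.2 / 2) ∧
      ((q n).1 ≠ (q n).2.1 →
        Small s'.1.1 s'.1.2.1 (q n).1 (q n).2.1 (q n).2.2 (1 / ((q n).2.2 + 1))) ∧
      ∀ x w, Par k x w → 1 / ((n : ℝ) + 1) ≤ x (k + 1) - x 0 → x 0 ≤ n → -(n : ℝ) ≤ x (k + 1) →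
        2 * ((k + 1) * (k + 1)) * s'.1.2.2 < ‖G k s'.1.1 x w‖ := by
    intro n s
    obtain ⟨F', B', e', h1, h2, h3⟩ := next_state hB s.2.1 s.2.2 n (q n)
    exact ⟨⟨(F', B', e'), h1, h2⟩, h3⟩
  choose f hf using nx
  have h0 : St k F0 F0 ∅ := ⟨hB.adm, hB.strong, fun R => by simp,
    fun a b _ _ => ⟨0, 0, fun t _ _ => by simp⟩⟩
  let s : ℕ → S := fun n => Nat.rec ⟨(F0, ∅, 1), h0, one_pos⟩ (fun n s => f n s) n
  have hs : ∀ n, s (n + 1) = f n (s n) := fun n => rfl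
  set F : ℕ → ℝ → ι → ℝ := fun n => (s n).1.1 with hF
  set B : ℕ → Set ℝ := fun n => (s n).1.2.1 with hBd
  set e : ℕ → ℝ := fun n => (s n).1.2.2 with he
  have a0 : ∀ n, 0 < e n := fun n => (s n).2.2
  have a1 : ∀ n, e (n + 1) ≤ e n / 2 := fun n => (hf n (s n)).1
  have a2 : ∀ n, B n ⊆ B (n + 1) := fun n => (hf n (s n)).2.1
  have a3 : ∀ n, ∀ t ∈ B n, F (n + 1) t = F n t := fun n => (hf n (s n)).2.2.1
  have a4 : ∀ n t, ‖F (n + 1) t - F n t‖ ≤ e n / 2 := fun n => (hf n (s n)).2.2.2.1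
  have a5 : ∀ n, (q n).1 ≠ (q n).2.1 →
      Small (F (n + 1)) (B (n + 1)) (q n).1 (q n).2.1 (q n).2.2 (1 / ((q n).2.2 + 1)) :=
    fun n => (hf n (s n)).2.2.2.2.1
  have a6 : ∀ (n : ℕ) x w, Par k x w → 1 / ((n : ℝ) + 1) ≤ x (k + 1) - x 0 → x 0 ≤ n →
      -(n : ℝ) ≤ x (k + 1) → 2 * ((k + 1) * (k + 1)) * e (n + 1) < ‖G k (F (n + 1)) x w‖ :=
    fun n => (hf n (s n)).2.2.2.2.2
  have a7 : ∀ n, Adm (F n) := fun n => (s n).2.1.adm
  have b1 : ∀ n, e n ≤ (1 / 2) ^ n := by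
    intro n
    induction n with
    | zero => exact le_of_eq rfl
    | succ n ih => rw [pow_succ]; linarith [a1 n]
  have b2 : ∀ t, ∃ y, Tendsto (fun n => F n t) atTop (𝓝 y) := by
    intro t
    refine cauchySeq_tendsto_of_complete (cauchySeq_of_le_geometric (1 / 2) 1 (by norm_num)
      fun n => ?_)
    rw [dist_comm, dist_eq_norm]
    linarith [a4 n t, b1 n, a0 n]
  choose Fl hFl using b2
  have b3 : ∀ n l, n ≤ l → ∀ t, ‖F l t - F n t‖ ≤ e n - e l := by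
    intro n l hl t
    induction l, hl using Nat.le_induction with
    | base => simp
    | succ l _ ih =>
      have := norm_sub_le_norm_sub_add_norm_sub (F (l + 1) t) (F l t) (F n t)
      linarith [a4 l t, a1 l]
  have b4 : ∀ n t, ‖Fl t - F n t‖ ≤ e n := by
    intro n t
    refine le_of_tendsto ((hFl t).sub_const (F n t)).norm ?_
    filter_upwards [eventually_ge_atTop n] with l hl
    linarith [b3 n l hl t, a0 l]
  have b5 : ∀ n, ∀ t ∈ B n, Fl t = F n t := by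
    intro n t ht
    have : ∀ l, n ≤ l → t ∈ B l ∧ F l t = F n t := by
      intro l hl
      induction l, hl using Nat.le_induction with
      | base => exact ⟨ht, rfl⟩
      | succ l _ ih => exact ⟨a2 l ih.1, (a3 l t ih.1).trans ih.2⟩
    refine tendsto_nhds_unique (hFl t) (tendsto_const_nhds.congr' ?_)
    filter_upwards [eventually_ge_atTop n] with l hl
    exact (this l hl).2.symm
  have b6 : ∀ t i, Tendsto (fun n => F n t i) atTop (𝓝 (Fl t i)) := fun t i =>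
    tendsto_pi_nhds.mp (hFl t) i
  refine ⟨Fl, ⟨fun i x y hxy => le_of_tendsto_of_tendsto' (b6 x i) (b6 y i)
    fun n => (a7 n).1 i hxy, fun t => ?_⟩, fun x w hp hx => ?_, fun i j hij N => ?_⟩
  · refine tendsto_nhds_unique (tendsto_finsetSum Finset.univ fun i _ => b6 t i) ?_
    simp only [fun n => (a7 n).2 t]
    exact tendsto_const_nhds
  · obtain ⟨n, hn⟩ := exists_nat_gt (max (1 / (x (k + 1) - x 0)) (max (x 0) (-x (k + 1))))
    have c1 := (le_max_left _ _).trans_lt hn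
    have c2 := ((le_max_left _ _).trans (le_max_right _ _)).trans_lt hn
    have c3 := ((le_max_right _ _).trans (le_max_right _ _)).trans_lt hn
    have c4 : 1 / ((n : ℝ) + 1) ≤ x (k + 1) - x 0 := by
      rw [div_lt_iff₀ (sub_pos.mpr hx)] at c1
      rw [div_le_iff₀ (by positivity)]
      nlinarith
    have d1 := a6 n x w hp c4 c2.le (by linarith)
    have d2 := G_dist hp (b4 (n + 1))
    intro h
    rw [h, zero_sub, norm_neg] at d2
    linarith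
  · obtain ⟨n, hn⟩ := hq (i, j, N)
    have := a5 n
    rw [hn] at this
    exact (this hij).mono (b5 (n + 1)) le_rfl

end ColK
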