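import Pool.Agent.P.MP_59d724_co.CkBase
import Pool.Agent.P.MP_59d724_co.CkLimit
import Pool.Agent.P.MP_59d724_co.CkColour

/-! The base curve and the main theorem. -/

namespace ColK

open Set MeasureTheory

section prim

variable {ι : Type} [Fintype ι]

theorem prim_lin {ρ : ι → ℝ → ℝ} (hc : ∀ i, Continuous (ρ i)) (a : ι → ℝ) (C : ℝ)
    (h : ∀ t, ∑ i, a i * ρ i t = C) (t : ℝ) : ∑ i, a i * ∫ s in (0 : ℝ)..t, ρ i s = C * t := by
  have e : ∀ i, a i * ∫ s in (0 : ℝ)..t, ρ i s = ∫ s in (0 : ℝ)..t, a i * ρ i s := fun i =>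
    (intervalIntegral.integral_const_mul _ _).symm
  simp only [e]
  rw [← intervalIntegral.integral_finsetSum (f := fun i s => a i * ρ i s) fun i _ =>
    (continuous_const.mul (hc i)).intervalIntegrable _ _]
  simp only [h, intervalIntegral.integral_const, smul_eq_mul]
  ring

theorem prim_adm {ρ : ι → ℝ → ℝ} (hc : ∀ i, Continuous (ρ i)) (h0 : ∀ i t, 0 ≤ ρ i t)
    (h1 : ∀ t, ∑ i, ρ i t = 1) : Adm fun t i => ∫ s in (0 : ℝ)..t, ρ i s := by
  refine ⟨fun i x y hxy => ?_, fun t => ?_⟩
  · have := prim_sub (hc i) x y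
    have h2 : 0 ≤ ∫ s in x..y, ρ i s := intervalIntegral.integral_nonneg hxy fun s _ => h0 i s
    dsimp only
    linarith
  · have := prim_lin hc (fun _ => 1) 1 (fun t => by simpa using h1 t) t
    simpa using this

theorem prim_osc {ρ : ι → ℝ → ℝ} (hc : ∀ i, Continuous (ρ i)) (R ε : ℝ) (hε : 0 < ε) :
    ∃ τ : ℝ, 0 < τ ∧ ∀ i p, -R ≤ p → p ≤ R → ∃ σ : ℝ, ∀ x y, p ≤ x → x ≤ y → y ≤ p + τ →
      σ * (y - x) ≤ (∫ s in (0 : ℝ)..y, ρ i s) - (∫ s in (0 : ℝ)..x, ρ i s) ∧
        (∫ s in (0 : ℝ)..y, ρ i s) - (∫ s in (0 : ℝ)..x, ρ i s) ≤ (σ + ε) * (y - x) := by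
  have hu : UniformContinuousOn (fun t i => ρ i t) (Icc (-R) (R + 1)) :=
    isCompact_Icc.uniformContinuousOn_of_continuous (continuous_pi hc).continuousOn
  obtain ⟨δ, hδ, H⟩ := Metric.uniformContinuousOn_iff_le.mp hu (ε / 2) (half_pos hε)
  refine ⟨min δ 1, lt_min hδ one_pos, fun i p h1 h2 => ⟨ρ i p - ε / 2, fun x y a b c => ?_⟩⟩
  have m1 := min_le_left δ 1
  have m2 := min_le_right δ 1
  have key : ∀ s ∈ Icc x y, |ρ i s - ρ i p| ≤ ε / 2 := by
    intro s hs
    have := H s ⟨by linarith [hs.1], by linarith [hs.2]⟩ p ⟨h1, by linarith⟩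
      (by rw [Real.dist_eq, abs_of_nonneg (by linarith [hs.1])]; linarith [hs.2])
    exact (dist_le_pi_dist (fun i => ρ i s) (fun i => ρ i p) i).trans this
  rw [prim_sub (hc i)]
  constructor
  · have := intervalIntegral.integral_mono_on (μ := volume) b
      (continuous_const.intervalIntegrable _ _) ((hc i).intervalIntegrable _ _)
      (f := fun _ => ρ i p - ε / 2) fun s hs => by linarith [(abs_le.mp (key s hs)).1]
    rw [intervalIntegral.integral_const, smul_eq_mul] at this
    linarith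
  · have := intervalIntegral.integral_mono_on (μ := volume) b ((hc i).intervalIntegrable _ _)
      (continuous_const.intervalIntegrable _ _)
      (g := fun _ => ρ i p + ε / 2) fun s hs => by linarith [(abs_le.mp (key s hs)).2]
    rw [intervalIntegral.integral_const, smul_eq_mul] at this
    linarith

end prim

theorem exists_base (k : ℕ) :
    ∃ (F0 : ℝ → Fin k ⊕ Bool → ℝ) (lab : Fin k ⊕ Bool → ℝ), Base k F0 lab := by
  set e : ℝ := 1 / ((k + 2) * (k + k * k + 1)) with he
  have he0 : 0 < e := by positivity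
  set S1 : ℝ → ℝ := fun t => ∑ m : Fin k, Real.sigmoid t ^ (m.1 + 1) with hS1
  set S2 : ℝ → ℝ := fun t => ∑ m : Fin k, ((m.1 : ℝ) + 1) * Real.sigmoid t ^ (m.1 + 1) with hS2
  set ρ : Fin k ⊕ Bool → ℝ → ℝ := Sum.elim
    (fun m t => 1 / (k + 2) + e * Real.sigmoid t ^ (m.1 + 1))
    (fun b t => if b = true then 1 / (k + 2) + e * S2 t else 1 / (k + 2) - e * (S1 t + S2 t))
    with hρ
  set lab : Fin k ⊕ Bool → ℝ := Sum.elim (fun m => (m.1 : ℝ) + 1)
    (fun b => if b = true then -1 else 0) with hlab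
  have cs := continuous_sigmoid
  have c1 : Continuous S1 := by fun_prop
  have c2 : Continuous S2 := by fun_prop
  have hc : ∀ i, Continuous (ρ i) := by
    rintro (m | b)
    · simp only [hρ, Sum.elim_inl]; fun_prop
    · cases b
      · simp only [hρ, Sum.elim_inr, Bool.false_eq_true, if_false]; fun_prop
      · simp only [hρ, Sum.elim_inr, if_true]; fun_prop
  have p0 : ∀ t (m : ℕ), 0 ≤ Real.sigmoid t ^ m := fun t m => pow_nonneg (Real.sigmoid_nonneg t) m
  have p1 : ∀ t (m : ℕ), Real.sigmoid t ^ m ≤ 1 := fun t m =>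
    pow_le_one₀ (Real.sigmoid_nonneg t) (Real.sigmoid_le_one t)
  have h0 : ∀ i t, 0 ≤ ρ i t := by
    rintro (m | b) t
    · simp only [hρ, Sum.elim_inl]
      have := p0 t (m.1 + 1)
      positivity
    · cases b
      · simp only [hρ, Sum.elim_inr, Bool.false_eq_true, if_false]
        have a1 : S1 t ≤ k := by
          refine (Finset.sum_le_sum fun m _ => p1 t (m.1 + 1)).trans ?_
          simp
        have a2 : S2 t ≤ k * k := by
          have : ∀ m ∈ (Finset.univ : Finset (Fin k)),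
              ((m.1 : ℝ) + 1) * Real.sigmoid t ^ (m.1 + 1) ≤ k := by
            intro m _
            have b1 : ((m.1 : ℝ) + 1) ≤ k := by exact_mod_cast m.2
            nlinarith [p0 t (m.1 + 1), p1 t (m.1 + 1), (Nat.cast_nonneg m.1 : (0 : ℝ) ≤ m.1)]
          refine (Finset.sum_le_sum this).trans ?_
          simp
        have a3 : e * (k + k * k + 1) = 1 / (k + 2) := by rw [he]; field_simp
        nlinarith
      · simp only [hρ, Sum.elim_inr, if_true]
        have : 0 ≤ S2 t := Finset.sum_nonneg fun m _ => mul_nonneg (by positivity) (p0 t _)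
        positivity
  have h1 : ∀ t, ∑ i, ρ i t = 1 := by
    intro t
    simp only [hρ, Fintype.sum_sum_type, Fintype.sum_bool, Sum.elim_inl, Sum.elim_inr,
      Bool.false_eq_true, if_false, if_true, Finset.sum_add_distrib, ← Finset.mul_sum,
      Finset.sum_const, Finset.card_univ, Fintype.card_fin, nsmul_eq_mul]
    change _ + e * S1 t + _ = _
    field_simp
    ring
  have h2 : ∀ t, ∑ i, lab i * ρ i t = ∑ m : Fin k, ((m.1 : ℝ) + 1) * (1 / (k + 2)) - 1 / (k + 2) := by
    intro t
    simp only [hρ, hlab, Fintype.sum_sum_type, Fintype.sum_bool, Sum.elim_inl, Sum.elim_inr,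
      Bool.false_eq_true, if_false, if_true]
    have : ∑ m : Fin k, ((m.1 : ℝ) + 1) * (1 / (k + 2) + e * Real.sigmoid t ^ (m.1 + 1)) =
        ∑ m : Fin k, ((m.1 : ℝ) + 1) * (1 / (k + 2)) + e * S2 t := by
      rw [hS2, Finset.mul_sum, ← Finset.sum_add_distrib]
      exact Finset.sum_congr rfl fun m _ => by ring
    rw [this]
    ring
  have hadm := prim_adm hc h0 h1
  refine ⟨fun t i => ∫ s in (0 : ℝ)..t, ρ i s, lab, hadm, fun R η hη => ?_, ?_,
    ⟨_, prim_lin hc lab _ h2⟩, prim_osc hc⟩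
  · obtain ⟨m, hm, H⟩ := moments k R η hη
    set c : ℝ := (k + 2) + 2 / e with hcd
    have hc0 : 0 < c := by positivity
    refine ⟨m / c, by positivity, fun x w hp a1 a2 a3 => ?_⟩
    set g := G k (fun t i => ∫ s in (0 : ℝ)..t, ρ i s) x w with hg
    have gn := norm_nonneg g
    have gi : ∀ i, |g i| ≤ ‖g‖ := fun i => norm_le_pi_norm g i
    have M0 : |∑ j ∈ Finset.range (k + 1), w j * (x (j + 1) - x j)| ≤ (k + 2) * ‖g‖ := by
      rw [← G_sum hadm]
      refine (Finset.abs_sum_le_sum_abs _ _).trans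
        ((Finset.sum_le_sum fun i _ => gi i).trans (le_of_eq ?_))
      simp
    rw [div_le_iff₀ hc0]
    refine H x w hp a1 a2 a3 _ fun n hn => ?_
    have e2 : 0 ≤ ‖g‖ * (2 / e) := by positivity
    cases n with
    | zero =>
      have : ∀ t, Ph 0 t = t := fun t => by simp [Ph]
      simp only [this]
      rw [hcd]
      nlinarith
    | succ n =>
      have e3 : ∀ t, ∫ s in (0 : ℝ)..t, ρ (Sum.inl ⟨n, hn⟩) s = t / (k + 2) + e * Ph (n + 1) t := by
        intro t
        simp only [hρ, Sum.elim_inl]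
        rw [intervalIntegral.integral_add (continuous_const.intervalIntegrable _ _)
          (Continuous.intervalIntegrable (by fun_prop) _ _), intervalIntegral.integral_const_mul e,
          intervalIntegral.integral_const, Ph]
        simp only [smul_eq_mul]
        ring
      have e4 : g (Sum.inl ⟨n, hn⟩) =
          (∑ j ∈ Finset.range (k + 1), w j * (x (j + 1) - x j)) / (k + 2) +
          e * ∑ j ∈ Finset.range (k + 1), w j * (Ph (n + 1) (x (j + 1)) - Ph (n + 1) (x j)) := by
        rw [hg, G_apply]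
        simp only [e3]
        rw [Finset.sum_div, Finset.mul_sum, ← Finset.sum_add_distrib]
        exact Finset.sum_congr rfl fun j _ => by ring
      set A := ∑ j ∈ Finset.range (k + 1), w j * (x (j + 1) - x j)
      set Mn := ∑ j ∈ Finset.range (k + 1), w j * (Ph (n + 1) (x (j + 1)) - Ph (n + 1) (x j))
      have b1 : |A / (k + 2)| ≤ ‖g‖ := by
        rw [abs_div, abs_of_pos (by positivity : (0 : ℝ) < k + 2), div_le_iff₀ (by positivity)]
        linarith
      have b2 : e * |Mn| ≤ 2 * ‖g‖ := by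
        have e5 : e * Mn = g (Sum.inl ⟨n, hn⟩) - A / (k + 2) := by rw [e4]; ring
        have := abs_sub (g (Sum.inl ⟨n, hn⟩)) (A / (k + 2))
        rw [← e5, abs_mul, abs_of_pos he0] at this
        linarith [gi (Sum.inl ⟨n, hn⟩)]
      have b3 : |Mn| ≤ ‖g‖ * (2 / e) := by
        rw [← mul_div_assoc, le_div_iff₀ he0]
        linarith
      rw [hcd]
      nlinarith [(Nat.cast_nonneg k : (0 : ℝ) ≤ k)]
  · rintro (a | a) (b | b) h
    · simp only [hlab, Sum.elim_inl, add_left_inj, Nat.cast_inj] at h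
      rw [Fin.ext h]
    · have := (Nat.cast_nonneg a.1 : (0 : ℝ) ≤ a.1)
      cases b <;> simp only [hlab, Sum.elim_inl, Sum.elim_inr, Bool.false_eq_true, if_false,
        if_true] at h <;> linarith
    · have := (Nat.cast_nonneg b.1 : (0 : ℝ) ≤ b.1)
      cases a <;> simp only [hlab, Sum.elim_inl, Sum.elim_inr, Bool.false_eq_true, if_false,
        if_true] at h <;> linarith
    · cases a <;> cases b <;> simp [hlab] at h ⊢

/-- the colouring, with weights -/
theorem weights (k : ℕ) : ∃ c : ℝ → Fin (k + 2), Measurable c ∧ ∃ F : ℝ → Fin (k + 2) → ℝ,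
    (∀ i, Monotone fun t => F t i) ∧ (∀ t, ∑ i, F t i = t) ∧
    (∀ i a b, a ≤ b → volume (c ⁻¹' {i} ∩ Icc a b) = ENNReal.ofReal (F b i - F a i)) ∧
    ∀ x w, Par k x w → x 0 < x (k + 1) → G k F x w ≠ 0 := by
  obtain ⟨F0, lab, hB⟩ := exists_base k
  obtain ⟨F, h1, h2, h3⟩ := exists_limit hB
  obtain ⟨c, h4, h5⟩ := exists_colouring h1 h3
  let e : Fin k ⊕ Bool ≃ Fin (k + 2) := Fintype.equivFinOfCardEq (by simp)
  have hp : ∀ i, (fun t => e (c t)) ⁻¹' {i} = c ⁻¹' {e.symm i} := fun i => by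
    ext t; simp [Equiv.eq_symm_apply]
  refine ⟨fun t => e (c t), measurable_to_countable' fun i => by rw [hp]; exact h4 _,
    fun t i => F t (e.symm i), fun i => h1.1 _, fun t => ?_, fun i a b hab => ?_,
    fun x w a b h => h2 x w a b ?_⟩
  · rw [Equiv.sum_comp e.symm (fun i => F t i), h1.2]
  · rw [hp, h5 _ a b hab]
  · funext i
    have := congrFun h (e i)
    rw [G_apply] at this ⊢
    simpa using this

end ColK
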