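import Pool.Agent.P.MP_59d724_co.CkCell

/-! One step of the construction. -/

namespace ColK

open Set

variable {ι : Type} [Fintype ι]

theorem slope_cell {F0 F : ℝ → ι → ℝ} (hF : Adm F) (i : ι) {p q ε σ : ℝ} (hpq : p < q)
    {κ d : ι → ℝ} (ha : ∀ t, p ≤ t → t ≤ q → F t = F0 t + t • κ + d)
    (ho : ∀ x y, p ≤ x → x ≤ y → y ≤ q →
      σ * (y - x) ≤ F0 y i - F0 x i ∧ F0 y i - F0 x i ≤ (σ + ε) * (y - x)) :
    ∃ a : ℝ, 0 ≤ a ∧ a ≤ 1 ∧ ∀ x y, p ≤ x → x ≤ y → y ≤ q →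
      a * (y - x) ≤ F y i - F x i ∧ F y i - F x i ≤ (a + ε) * (y - x) := by
  have key : ∀ x y, p ≤ x → x ≤ y → y ≤ q → max (σ + κ i) 0 * (y - x) ≤ F y i - F x i ∧
      F y i - F x i ≤ (max (σ + κ i) 0 + ε) * (y - x) := by
    intro x y h1 h2 h3
    have e : F y i - F x i = F0 y i - F0 x i + κ i * (y - x) := by
      rw [ha x h1 (h2.trans h3), ha y (h1.trans h2) h3]
      simp only [Pi.add_apply, Pi.smul_apply, smul_eq_mul]
      ring
    obtain ⟨o1, o2⟩ := ho x y h1 h2 h3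
    constructor
    · rcases le_total (σ + κ i) 0 with h | h
      · rw [max_eq_right h, zero_mul]
        exact sub_nonneg.mpr (hF.1 i h2)
      · rw [max_eq_left h, e]; nlinarith
    · have := mul_le_mul_of_nonneg_right (le_max_left (σ + κ i) 0) (sub_nonneg.mpr h2)
      rw [e]; nlinarith
  refine ⟨max (σ + κ i) 0, le_max_right _ _, ?_, key⟩
  have h1 := (key p q le_rfl hpq.le le_rfl).1
  have h2 := hF.sub_le i hpq.le
  exact le_of_mul_le_mul_right (by linarith) (sub_pos.mpr hpq)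

/-- the local argument: a perturbation along a direction transversal to the base curve -/
theorem local_ne {k : ℕ} {F0 F' : ℝ → ι → ℝ} {lab : ι → ℝ} (hB : Base k F0 lab) (hF' : Adm F')
    {x w : ℕ → ℝ} (hp : Par k x w) (hx : x 0 < x (k + 1)) {κ d v : ι → ℝ} {Θ : ℝ → ℝ}
    (hv : ∑ l, lab l * v l ≠ 0)
    (h : ∀ n, n ≤ k + 1 → F' (x n) = F0 (x n) + x n • κ + d + Θ (x n) • v) :
    G k F' x w ≠ 0 := by
  intro h0
  have hM : ∑ j ∈ Finset.range (k + 1), w j * (x (j + 1) - x j) = 0 := by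
    rw [← G_sum hF', h0]; simp
  set c : ℝ := ∑ j ∈ Finset.range (k + 1), w j * (Θ (x (j + 1)) - Θ (x j)) with hc
  have e : G k F' x w = G k F0 x w + c • v := by
    have e1 : G k F' x w = G k F0 x w +
        (∑ j ∈ Finset.range (k + 1), w j * (x (j + 1) - x j)) • κ + c • v := by
      rw [hc]
      unfold G
      rw [Finset.sum_smul, Finset.sum_smul, ← Finset.sum_add_distrib, ← Finset.sum_add_distrib]
      refine Finset.sum_congr rfl fun j hj => ?_
      have := Finset.mem_range.mp hj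
      rw [h j (by omega), h (j + 1) (by omega)]
      funext l
      simp only [Pi.add_apply, Pi.smul_apply, Pi.sub_apply, smul_eq_mul]
      ring
    rw [e1, hM, zero_smul, add_zero]
  obtain ⟨C, hC⟩ := hB.lin
  have h1 : ∑ l, lab l * G k F0 x w l = 0 := by
    rw [G_lin]
    simp only [hC]
    have : ∀ j ∈ Finset.range (k + 1), w j * (C * x (j + 1) - C * x j)
        = C * (w j * (x (j + 1) - x j)) := fun j _ => by ring
    rw [Finset.sum_congr rfl this, ← Finset.mul_sum, hM, mul_zero]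
  have h2 : ∑ l, lab l * G k F' x w l = ∑ l, lab l * G k F0 x w l + c * ∑ l, lab l * v l := by
    rw [e, Finset.mul_sum, ← Finset.sum_add_distrib]
    refine Finset.sum_congr rfl fun l _ => ?_
    simp only [Pi.add_apply, Pi.smul_apply, smul_eq_mul]
    ring
  rw [h0, h1] at h2
  have h3 : c = 0 := by
    have : c * ∑ l, lab l * v l = 0 := by simpa using h2.symm
    exact (mul_eq_zero.mp this).resolve_right hv
  rw [h0, h3, zero_smul, add_zero] at e
  exact hB.strong.ne hp hx e.symm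

theorem count_bad (B0 : Finset ℝ) {τ : ℝ} (hτ : 0 < τ) (D L : ℕ) (s : ℤ) (P : ℕ → Prop)
    [DecidablePred P]
    (hP : ∀ l, l < L → P l → ∃ b ∈ B0, ((l + s : ℤ) : ℝ) * τ - D * τ ≤ b ∧
      b ≤ (((l + s : ℤ) : ℝ) + 1) * τ + D * τ) :
    ((Finset.range L).filter P).card ≤ B0.card * (2 * D + 3) := by
  classical
  have h1 : ((Finset.range L).filter P).card ≤
      (B0.biUnion fun b => Finset.Icc (⌊b / τ⌋ - (D + 1)) (⌊b / τ⌋ + (D + 1))).card := by
    refine Finset.card_le_card_of_injOn (fun l : ℕ => (l + s : ℤ)) ?_ ?_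
    · intro l hl
      rw [Finset.mem_coe, Finset.mem_filter, Finset.mem_range] at hl
      obtain ⟨b, hb, h1, h2⟩ := hP l hl.1 hl.2
      rw [Finset.mem_coe, Finset.mem_biUnion]
      refine ⟨b, hb, Finset.mem_Icc.mpr ⟨?_, ?_⟩⟩
      · have h3 := cell_lo hτ b
        have h4 : (⌊b / τ⌋ : ℝ) * τ ≤ (((l + s : ℤ) : ℝ) + 1 + D) * τ := by linarith
        have h5 := le_of_mul_le_mul_right h4 hτ
        have : ⌊b / τ⌋ ≤ (l + s : ℤ) + 1 + D := by exact_mod_cast h5
        dsimp only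
        omega
      · have h3 := cell_hi hτ b
        have h4 : (((l + s : ℤ) : ℝ) - D) * τ ≤ ((⌊b / τ⌋ : ℝ) + 1) * τ := by linarith
        have h5 := le_of_mul_le_mul_right h4 hτ
        have : (l + s : ℤ) - D ≤ ⌊b / τ⌋ + 1 := by exact_mod_cast h5
        dsimp only
        omega
    · intro a _ b _ hab
      dsimp only at hab
      omega
  refine h1.trans (Finset.card_biUnion_le_card_mul _ _ _ fun b _ => ?_)
  rw [Int.card_Icc]
  omega

theorem step {k : ℕ} {F0 F : ℝ → ι → ℝ} {lab : ι → ℝ} {B : Set ℝ} (hB : Base k F0 lab)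
    (h : St k F0 F B) {i j : ι} (hij : i ≠ j) {N ε τ0 : ℝ} (hN : 0 ≤ N) (hε : 0 < ε)
    (hτ0 : 0 < τ0) :
    ∃ F' B', St k F0 F' B' ∧ B ⊆ B' ∧ (∀ t ∈ B, F' t = F t) ∧ (∀ t, ‖F' t - F t‖ ≤ τ0) ∧
      Small F' B' i j N (ε * (2 * N + 3)) := by
  classical
  set B0 : Finset ℝ := (h.fin (N + 2)).toFinset with hB0
  obtain ⟨η, hη, hη1, hη2⟩ : ∃ η : ℝ, 0 < η ∧ η ≤ 1 ∧ B0.card * (5 * η) ≤ ε := by
    refine ⟨min 1 (ε / (5 * (B0.card + 1))), by positivity, min_le_left _ _, ?_⟩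
    have h1 : min 1 (ε / (5 * ((B0.card : ℝ) + 1))) ≤ ε / (5 * (B0.card + 1)) := min_le_right _ _
    rw [le_div_iff₀ (by positivity)] at h1
    have h2 : 0 ≤ min 1 (ε / (5 * ((B0.card : ℝ) + 1))) := by positivity
    nlinarith
  obtain ⟨mg, hmg, Hmg⟩ := h.strong (N + 1) η hη
  obtain ⟨τ1, hτ1, Hosc⟩ := hB.osc (N + 1) ε hε
  obtain ⟨τ, D, hτ, hD, hτη, hτa, hτb, hτc⟩ : ∃ (τ : ℝ) (D : ℕ), 0 < τ ∧ η = D * τ ∧ τ ≤ η ∧
      τ ≤ τ0 ∧ τ ≤ τ1 ∧ 2 * ((k + 1) * (k + 1)) * τ ≤ mg / 2 := by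
    set c := min τ0 (min τ1 (mg / (4 * ((k + 1) * (k + 1))))) with hc
    have hc0 : 0 < c := by positivity
    obtain ⟨D, hD⟩ := exists_nat_gt (η / c)
    have hD1 : (0 : ℝ) < (D + 1 : ℕ) := by positivity
    have h1 : η / (D + 1 : ℕ) ≤ c := by
      rw [div_lt_iff₀ hc0] at hD
      rw [div_le_iff₀ hD1]
      push_cast
      nlinarith
    refine ⟨η / (D + 1 : ℕ), D + 1, by positivity, by field_simp, ?_, h1.trans (min_le_left _ _),
      h1.trans ((min_le_right _ _).trans (min_le_left _ _)), ?_⟩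
    · rw [div_le_iff₀ hD1]
      push_cast
      nlinarith [(Nat.cast_nonneg D : (0 : ℝ) ≤ D)]
    · have h2 := h1.trans ((min_le_right _ _).trans (min_le_right _ _))
      rw [le_div_iff₀ (by positivity)] at h2
      linarith
  set M : ℕ := ⌈N / τ⌉₊ with hM
  have hM1 : N ≤ M * τ := by
    have := Nat.le_ceil (N / τ)
    rwa [div_le_iff₀ hτ] at this
  have hM2 : M * τ ≤ N + 1 := by
    have := Nat.ceil_lt_add_one (div_nonneg hN hτ.le)
    have h2 : (M : ℝ) * τ ≤ (N / τ + 1) * τ := mul_le_mul_of_nonneg_right this.le hτ.le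
    have h3 : (N / τ + 1) * τ = N + τ := by field_simp
    linarith
  set Act : ℤ → Prop := fun m => -(M : ℤ) ≤ m ∧ m < M ∧
    ∀ b ∈ B, ¬ ((m : ℝ) * τ - η ≤ b ∧ b ≤ ((m : ℝ) + 1) * τ + η) with hAct
  have win : ∀ m : ℤ, -(M : ℤ) ≤ m → m < M →
      -(N + 1) ≤ (m : ℝ) * τ ∧ ((m : ℝ) + 1) * τ ≤ N + 1 := by
    intro m h1 h2
    have h3 : -(M : ℝ) ≤ m := by exact_mod_cast h1
    have h4 : (m : ℝ) + 1 ≤ M := by exact_mod_cast h2
    constructor <;> nlinarith
  have affA : ∀ m, Act m → ∃ κ d : ι → ℝ, ∀ t, (m : ℝ) * τ - η ≤ t → t ≤ ((m : ℝ) + 1) * τ + η →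
      F t = F0 t + t • κ + d := fun m hm =>
    h.aff _ _ (by nlinarith) fun t ht h1 => hm.2.2 t ht ⟨h1.1.le, h1.2.le⟩
  have cell : ∀ m : ℤ, ∃ r T, Tent (fun t => F t i) (fun t => F t j) (m * τ) ((m + 1) * τ) r T ∧
      (¬ Act m → ∀ t, T t = 0) ∧ (Act m → ((F r j - T r) - (F (m * τ) j - T (m * τ))) +
        ((F ((m + 1) * τ) i + T ((m + 1) * τ)) - (F r i + T r)) ≤ ε * τ) := by
    intro m
    have hpq : (m : ℝ) * τ < ((m : ℝ) + 1) * τ := by nlinarith
    by_cases hm : Act m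
    · obtain ⟨κ, d, ha⟩ := affA m hm
      obtain ⟨w1, w2⟩ := win m hm.1 hm.2.1
      have ha' : ∀ t, (m : ℝ) * τ ≤ t → t ≤ ((m : ℝ) + 1) * τ → F t = F0 t + t • κ + d :=
        fun t h1 h2 => ha t (by linarith) (by linarith)
      obtain ⟨σi, hσi⟩ := Hosc i (m * τ) w1 (by linarith)
      obtain ⟨σj, hσj⟩ := Hosc j (m * τ) w1 (by linarith)
      obtain ⟨be, hbe, -, hf⟩ := slope_cell h.adm i hpq ha'
        (fun x y h1 h2 h3 => hσi x y h1 h2 (by linarith))
      obtain ⟨al, hal, hal1, hg⟩ := slope_cell h.adm j hpq ha'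
        (fun x y h1 h2 h3 => hσj x y h1 h2 (by linarith))
      obtain ⟨r, T, hT, hs⟩ := tent_exists (f := fun t => F t i) (g := fun t => F t j) hpq hal hbe
        hal1 hg hf
      refine ⟨r, T, hT, fun h1 => absurd hm h1, fun _ => ?_⟩
      have e : ((m : ℝ) + 1) * τ - m * τ = τ := by ring
      rw [e] at hs
      exact hs
    · exact ⟨_, _, tent_zero (h.adm.1 i) (h.adm.1 j) hpq.le, fun _ _ => rfl,
        fun h1 => absurd h1 hm⟩
  choose r T hT hT0 hTs using cell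
  set Θ : ℝ → ℝ := fun t => T ⌊t / τ⌋ t with hΘdef
  have hΘ : ∀ (m : ℤ) t, (m : ℝ) * τ ≤ t → t ≤ ((m : ℝ) + 1) * τ → Θ t = T m t :=
    fun m t h1 h2 => glue_eq hτ (fun m => (hT m).zp) (fun m => (hT m).zq) h1 h2
  have hΘ0 : ∀ m : ℤ, Θ (m * τ) = 0 := fun m => by
    rw [hΘ m _ le_rfl (by nlinarith)]; exact (hT m).zp
  have hΘb : ∀ t, |Θ t| ≤ τ := fun t => by
    have := (hT ⌊t / τ⌋).bd t (cell_lo hτ t) (cell_hi hτ t).le
    have e : ((⌊t / τ⌋ : ℝ) + 1) * τ - (⌊t / τ⌋ : ℝ) * τ = τ := by ring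
    rwa [e] at this
  set v : ι → ℝ := fun l => (if l = i then 1 else 0) - (if l = j then 1 else 0) with hvdef
  have hvi : v i = 1 := by simp [hvdef, hij]
  have hvj : v j = -1 := by simp [hvdef, hij.symm]
  have hvl : ∀ l, l ≠ i → l ≠ j → v l = 0 := fun l h1 h2 => by simp [hvdef, h1, h2]
  have hvs : ∑ l, v l = 0 := by simp [hvdef]
  have hvlab : ∑ l, lab l * v l ≠ 0 := by
    have : ∑ l, lab l * v l = lab i - lab j := by simp [hvdef, mul_sub]
    rw [this]
    exact sub_ne_zero.mpr fun h1 => hij (hB.inj h1)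
  set F' : ℝ → ι → ℝ := fun t => F t + Θ t • v with hF'def
  have hF'i : ∀ t, F' t i = F t i + Θ t := fun t => by simp [hF'def, hvi]
  have hF'j : ∀ t, F' t j = F t j - Θ t := fun t => by simp [hF'def, hvj, sub_eq_add_neg]
  have hF'0 : ∀ t, Θ t = 0 → F' t = F t := fun t ht => by simp [hF'def, ht]
  have hadm : Adm F' := by
    refine ⟨fun l => ?_, fun t => ?_⟩
    · by_cases h1 : l = i
      · subst h1
        refine mono_glue hτ (h.adm.1 l) (fun m => by rw [hF'0 _ (hΘ0 m)]) fun m x y a b c => ?_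
        rw [hF'i, hF'i, hΘ m x a (b.trans c), hΘ m y (a.trans b) c]
        exact (hT m).up x y a b c
      · by_cases h2 : l = j
        · subst h2
          refine mono_glue hτ (h.adm.1 l) (fun m => by rw [hF'0 _ (hΘ0 m)]) fun m x y a b c => ?_
          rw [hF'j, hF'j, hΘ m x a (b.trans c), hΘ m y (a.trans b) c]
          exact (hT m).dn x y a b c
        · have : (fun t => F' t l) = fun t => F t l := by
            funext t; simp [hF'def, hvl l h1 h2]
          rw [this]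
          exact h.adm.1 l
    · simp only [hF'def, Pi.add_apply, Pi.smul_apply, smul_eq_mul]
      rw [Finset.sum_add_distrib, ← Finset.mul_sum, hvs, h.adm.2, mul_zero, add_zero]
  have hnorm : ∀ t, ‖F' t - F t‖ ≤ τ := by
    intro t
    rw [pi_norm_le_iff_of_nonneg hτ.le]
    intro l
    have e : (F' t - F t) l = Θ t * v l := by simp [hF'def]
    rw [e, Real.norm_eq_abs, abs_mul]
    have : |v l| ≤ 1 := by
      by_cases h1 : l = i
      · rw [h1, hvi]; simp
      · by_cases h2 : l = j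
        · rw [h2, hvj]; simp
        · rw [hvl l h1 h2]; simp
    nlinarith [hΘb t, abs_nonneg (Θ t), abs_nonneg (v l)]
  have hout : ∀ t, (N + 1 < t ∨ t < -(N + 1)) → Θ t = 0 := by
    intro t ht
    refine hT0 _ (fun hA => ?_) t
    obtain ⟨w1, w2⟩ := win _ hA.1 hA.2.1
    have := cell_lo hτ t
    have := cell_hi hτ t
    rcases ht with ht | ht <;> linarith
  have short : ∀ x w, Par k x w → x 0 < x (k + 1) → x (k + 1) - x 0 ≤ η → G k F' x w ≠ 0 := by
    intro x w hp hx hl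
    have hx1 : ∀ n, n ≤ k + 1 → x 0 ≤ x n ∧ x n ≤ x (k + 1) := fun n hn =>
      ⟨hp.mono (Nat.zero_le n) hn, hp.mono hn le_rfl⟩
    by_cases hA : ∃ m : ℤ, Act m ∧ x 0 < ((m : ℝ) + 1) * τ ∧ (m : ℝ) * τ < x (k + 1)
    · obtain ⟨m, hm, h1, h2⟩ := hA
      obtain ⟨κ, d, ha⟩ := affA m hm
      refine local_ne hB hadm hp hx (κ := κ) (d := d) (Θ := Θ) hvlab fun n hn => ?_
      obtain ⟨h3, h4⟩ := hx1 n hn
      rw [← ha (x n) (by linarith) (by linarith)]
    · rw [G_congr (F := F) fun n hn => hF'0 _ ?_]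
      · exact h.strong.ne hp hx
      · obtain ⟨h3, h4⟩ := hx1 n hn
        by_cases hm : Act ⌊x n / τ⌋
        · have h5 := cell_lo hτ (x n)
          have h6 := cell_hi hτ (x n)
          have h7 : x (k + 1) ≤ (⌊x n / τ⌋ : ℝ) * τ := by
            by_contra h8
            exact hA ⟨_, hm, by linarith, not_le.mp h8⟩
          have h9 : x n = (⌊x n / τ⌋ : ℝ) * τ := by linarith
          rw [h9]
          exact hΘ0 _
        · exact hT0 _ hm _
  have hstrong : Strong k F' := by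
    intro R η1 hη1'
    obtain ⟨m1, hm1, H1⟩ := h.strong R η1 hη1'
    obtain ⟨m2, hm2, H2⟩ := margin (k := k) hadm.cont R η1 η
      fun x w hp h1 h2 => short x w hp (by linarith) h2
    refine ⟨min (mg / 2) (min m1 m2), by positivity, fun x w hp h1 h2 h3 => ?_⟩
    rcases le_total (x (k + 1) - x 0) η with hl | hl
    · exact (min_le_right _ _).trans ((min_le_right _ _).trans (H2 x w hp h1 hl h2 h3))
    · by_cases ht : x 0 ≤ N + 1 ∧ -(N + 1) ≤ x (k + 1)
      · have h4 := Hmg x w hp hl ht.1 ht.2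
        have h5 := G_dist hp hnorm
        have h6 := norm_sub_norm_le (G k F x w) (G k F' x w)
        rw [norm_sub_rev] at h6
        exact (min_le_left _ _).trans (by linarith)
      · rw [G_congr (F := F) fun n hn => hF'0 _ (hout _ ?_)]
        · exact (min_le_right _ _).trans ((min_le_left _ _).trans (H1 x w hp h1 h2 h3))
        · have h4 := hp.mono (Nat.zero_le n) hn
          have h5 := hp.mono hn le_rfl
          rcases not_and_or.mp ht with h6 | h6
          · exact Or.inl (by linarith [not_le.mp h6])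
          · exact Or.inr (by linarith [not_le.mp h6])
  set B' : Set ℝ := B ∪ (range (fun m : ℤ => (m : ℝ) * τ) ∪ range r) with hB'
  refine ⟨F', B', ⟨hadm, hstrong, fun R => ?_, ?_⟩, subset_union_left, ?_,
    fun t => (hnorm t).trans hτa, ?_⟩
  · rw [hB', union_inter_distrib_right, union_inter_distrib_right]
    exact (h.fin R).union ((range_fin hτ (fun _ => le_rfl) (fun m => by nlinarith) R).union
      (range_fin hτ (fun m => (hT m).lo) (fun m => (hT m).hi) R))
  · intro a b hab hfree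
    obtain ⟨κ, d, ha⟩ := h.aff a b hab fun t ht => hfree t (Or.inl ht)
    have h1 := cell_lo hτ a
    have h2 := cell_hi hτ a
    have h3 : b ≤ ((⌊a / τ⌋ : ℝ) + 1) * τ := by
      by_contra h4
      refine hfree _ (Or.inr (Or.inl ⟨⌊a / τ⌋ + 1, rfl⟩)) ?_
      push_cast
      exact ⟨h2, not_le.mp h4⟩
    obtain ⟨c, e, hce⟩ : ∃ c e : ℝ, ∀ t, a ≤ t → t ≤ b → T ⌊a / τ⌋ t = c * t + e := by
      rcases not_and_or.mp (hfree _ (Or.inr (Or.inr ⟨⌊a / τ⌋, rfl⟩))) with h4 | h4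
      · obtain ⟨c, e, hce⟩ := (hT ⌊a / τ⌋).a2
        exact ⟨c, e, fun t h5 h6 => hce t (by linarith [not_lt.mp h4]) (by linarith)⟩
      · obtain ⟨c, e, hce⟩ := (hT ⌊a / τ⌋).a1
        exact ⟨c, e, fun t h5 h6 => hce t (by linarith) (by linarith [not_lt.mp h4])⟩
    refine ⟨κ + c • v, d + e • v, fun t h5 h6 => ?_⟩
    have h7 : F' t = F t + Θ t • v := rfl
    rw [h7, ha t h5 h6, hΘ ⌊a / τ⌋ t (by linarith) (by linarith), hce t h5 h6]
    funext l
    simp only [Pi.add_apply, Pi.smul_apply, smul_eq_mul]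
    ring
  · intro b hb
    refine hF'0 b (hT0 _ (fun hA => hA.2.2 b hb ?_) b)
    exact ⟨by linarith [cell_lo hτ b], by linarith [cell_hi hτ b]⟩
  · have cast1 : ∀ l : ℕ, ((((l + 1 : ℕ) : ℤ) + -(M : ℤ) : ℤ) : ℝ) =
        (((l : ℤ) + -(M : ℤ) : ℤ) : ℝ) + 1 := fun l => by push_cast; ring
    refine ⟨2 * M, fun l => (((l : ℤ) + -(M : ℤ) : ℤ) : ℝ) * τ, fun l => r ((l : ℤ) + -(M : ℤ)),
      fun l => ⟨Or.inr (Or.inl ⟨_, rfl⟩), Or.inr (Or.inr ⟨_, rfl⟩), (hT _).lo, ?_⟩, ?_, ?_, ?_⟩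
    · dsimp only
      rw [cast1]
      exact (hT _).hi
    · push_cast; linarith
    · push_cast; linarith
    · have hterm : ∀ l ∈ Finset.range (2 * M),
          (F' (r ((l : ℤ) + -(M : ℤ))) j - F' ((((l : ℤ) + -(M : ℤ) : ℤ) : ℝ) * τ) j) +
            (F' (((((l + 1 : ℕ) : ℤ) + -(M : ℤ) : ℤ) : ℝ) * τ) i - F' (r ((l : ℤ) + -(M : ℤ))) i)
          ≤ ε * τ + (if ¬ Act ((l : ℤ) + -(M : ℤ)) then τ else 0) := by
        intro l _
        rw [cast1]
        generalize (l : ℤ) + -(M : ℤ) = m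
        have a1 := (hT m).lo
        have a2 := (hT m).hi
        by_cases hm : Act m
        · rw [if_neg (not_not.mpr hm), add_zero, hF'i, hF'i, hF'j, hF'j, hΘ m _ a1 a2,
            hΘ m _ le_rfl (a1.trans a2), hΘ m _ (a1.trans a2) le_rfl]
          exact hTs m hm
        · rw [if_pos hm]
          have b1 := hadm.sub_le j a1
          have b2 := hadm.sub_le i a2
          nlinarith [mul_pos hε hτ]
      refine (Finset.sum_le_sum hterm).trans ?_
      rw [Finset.sum_add_distrib, Finset.sum_const, Finset.card_range, ← Finset.sum_filter,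
        Finset.sum_const, nsmul_eq_mul, nsmul_eq_mul]
      have hc := count_bad B0 hτ D (2 * M) (-(M : ℤ)) (fun l => ¬ Act ((l : ℤ) + -(M : ℤ)))
        (by
          intro l hl hP
          have g1 : -(M : ℤ) ≤ (l : ℤ) + -(M : ℤ) := by omega
          have g2 : (l : ℤ) + -(M : ℤ) < M := by omega
          obtain ⟨w1, w2⟩ := win _ g1 g2
          by_contra hne
          refine hP ⟨g1, g2, fun b hb hb2 => hne ⟨b, ?_, ?_, ?_⟩⟩
          · rw [hB0, Set.Finite.mem_toFinset]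
            exact ⟨hb, by linarith [hb2.1], by linarith [hb2.2]⟩
          · rw [← hD]; exact hb2.1
          · rw [← hD]; exact hb2.2)
      have hc' : (((Finset.range (2 * M)).filter
          (fun l : ℕ => ¬ Act ((l : ℤ) + -(M : ℤ)))).card : ℝ) ≤ B0.card * (2 * D + 3) := by
        exact_mod_cast hc
      have b1 := mul_le_mul_of_nonneg_right hc' hτ.le
      have b2 : (B0.card : ℝ) * (2 * D + 3) * τ ≤ B0.card * (5 * η) := by
        rw [mul_assoc]
        exact mul_le_mul_of_nonneg_left (by nlinarith) (Nat.cast_nonneg _)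
      have b3 := mul_le_mul_of_nonneg_left hM2 hε.le
      push_cast
      nlinarith

end ColK
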