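import Mathlib

set_option autoImplicit false

namespace Pool.Agent.P.MP_59d724_co

open Finset

/-- The segment `{a, …, b}` coloured by `c` has a splitting of size `r`: a set `Y` of `r` cut
positions in `[a, b)` (the cut at `y` separates `y` from `y + 1`), and an assignment `s` of the
blocks (numbered by the number of cuts to their left) to two collections, such that each colour
occurs equally often in both collections. -/
def HasSplitting {m : ℕ} (c : ℤ → Fin m) (a b : ℤ) (r : ℕ) : Prop :=
  ∃ Y : Finset ℤ, Y ⊆ Finset.Ico a b ∧ Y.card = r ∧ ∃ s : ℕ → Bool, ∀ j : Fin m,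
    ((Finset.Icc a b).filter fun x => c x = j ∧ s (Y.filter (· < x)).card = true).card =
    ((Finset.Icc a b).filter fun x => c x = j ∧ s (Y.filter (· < x)).card = false).card

end Pool.Agent.P.MP_59d724_co
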