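import Pool.Agent.P.MP_59d724_co.Defs

set_option autoImplicit false
set_option linter.unusedSectionVars false

namespace Pool.Agent.P.MP_59d724_co

open Finset

variable {A : Type} [DecidableEq A]

/-- jump indicator -/
def jmp (ε : ℤ → ℤ) (z : ℤ) : ℕ := if ε (z + 1) = ε z then 0 else 1

/-- A signed weight with convex support `S`, at most `K` jumps, balanced for every colour. -/
structure Bad (c : ℤ → A) (K : ℕ) (S : Finset ℤ) (ε : ℤ → ℤ) : Prop where
  ne : S.Nonempty
  conv : ∀ x y z, x ∈ S → z ∈ S → x ≤ y → y ≤ z → y ∈ S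
  val : ∀ t ∈ S, ε t = 1 ∨ ε t = -1
  out : ∀ t, t ∉ S → ε t = 0
  tv : ∀ u v : ℤ, ∑ z ∈ Ico u v, jmp ε z ≤ K
  bal : ∀ x, ∑ t ∈ S, (if c t = x then ε t else 0) = 0

theorem sum_Ico_blocks {M : Type} [AddCommMonoid M] (g : ℤ → ℤ) (hg : ∀ T, g T ≤ g (T + 1))
    (f : ℤ → M) (u v : ℤ) (huv : u ≤ v) :
    g u ≤ g v ∧ ∑ T ∈ Ico u v, ∑ z ∈ Ico (g T) (g (T + 1)), f z = ∑ z ∈ Ico (g u) (g v), f z := by
  induction v, huv using Int.leInduction with
  | base => simp
  | succ n hn ih =>
    refine ⟨ih.1.trans (hg n), ?_⟩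
    rw [← Finset.insert_Ico_right_eq_Ico_add_one hn, Finset.sum_insert (by simp), ih.2, add_comm,
      ← Finset.sum_union (Finset.Ico_disjoint_Ico_consecutive _ _ _),
      Finset.Ico_union_Ico_eq_Ico ih.1 (hg n)]

theorem exists_jmp (ε : ℤ → ℤ) (x y : ℤ) (hxy : x ≤ y) (h : ε y ≠ ε x) :
    1 ≤ ∑ z ∈ Ico x y, jmp ε z := by
  induction y, hxy using Int.leInduction with
  | base => exact absurd rfl h
  | succ n hn ih =>
    rw [← Finset.insert_Ico_right_eq_Ico_add_one hn, Finset.sum_insert (by simp)]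
    by_cases h1 : ε (n + 1) = ε n
    · have := ih (h1 ▸ h); omega
    · simp [jmp, h1]

theorem sum_block {M : Type} [AddCommMonoid M] (f : ℤ → M) (x : ℤ) (N : ℕ) :
    ∑ z ∈ Ico x (x + N), f z = ∑ j ∈ range N, f (x + j) := by
  induction N with
  | zero => simp
  | succ n ih =>
    rw [Finset.sum_range_succ, ← ih, Nat.cast_succ, ← add_assoc,
      ← Finset.insert_Ico_right_eq_Ico_add_one (by omega), Finset.sum_insert (by simp), add_comm]

/-- start of block `T` -/
def blk (N : ℕ) (T : ℤ) : ℤ := N * T - 1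

theorem blk_succ (N : ℕ) (T : ℤ) : blk N (T + 1) = blk N T + N := by unfold blk; ring

theorem blk_mono (N : ℕ) {T T' : ℤ} (h : T ≤ T') : blk N T ≤ blk N T' := by
  unfold blk; nlinarith [Int.natCast_nonneg N]

theorem exists_blk (N : ℕ) (hN : 0 < N) (t : ℤ) : ∃ T : ℤ, ∃ j : ℕ, j < N ∧ t = blk N T + j := by
  have h1 := Int.emod_nonneg (t + 1) (show (N : ℤ) ≠ 0 by omega)
  have h2 := Int.emod_lt_of_pos (t + 1) (show (0 : ℤ) < N by omega)
  refine ⟨(t + 1) / N, ((t + 1) % N).toNat, by omega, ?_⟩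
  have := Int.mul_ediv_add_emod (t + 1) N
  unfold blk
  omega

theorem Bad.bal' {c : ℤ → A} {K : ℕ} {S : Finset ℤ} {ε : ℤ → ℤ} (h : Bad c K S ε)
    (U : Finset ℤ) (hU : S ⊆ U) (x : A) : ∑ t ∈ U, (if c t = x then ε t else 0) = 0 := by
  refine Eq.trans (Eq.symm ?_) (h.bal x)
  refine Finset.sum_subset hU fun t _ ht => ?_
  simp [h.out t ht]

theorem descent (N K : ℕ) (hN : 2 ≤ N) (c : ℕ → ℤ → A)
    (hB : ∀ n S ε T, Bad (c n) K S ε → ¬ S ⊆ Ico (blk N T) (blk N (T + 2)))
    (hD : ∀ n S ε u v, Bad (c n) K S ε → u ≤ v → S ⊆ Ico (blk N u) (blk N v) →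
      ∀ a, ∃ j < N, ∑ T ∈ Ico u v, (if c (n + 1) T = a then ε (blk N T + (j : ℕ)) else 0) = 0) :
    ∀ n S ε, ¬ Bad (c n) K S ε := by
  suffices H : ∀ L n (S : Finset ℤ) ε, S.card = L → ¬ Bad (c n) K S ε from
    fun n S ε => H _ n S ε rfl
  intro L
  induction L using Nat.strong_induction_on with
  | _ L ih =>
  intro n S ε hL hbad
  obtain ⟨u, j1, hj1, hu⟩ := exists_blk N (by omega) (S.min' hbad.ne)
  obtain ⟨v', j2, hj2, hv⟩ := exists_blk N (by omega) (S.max' hbad.ne)
  set v := max (v' + 1) u with hvdef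
  have huv : u ≤ v := le_max_right _ _
  have hS : S ⊆ Ico (blk N u) (blk N v) := by
    intro t ht
    have h1 := S.min'_le t ht
    have h2 := S.le_max' t ht
    have h3 := blk_mono N (le_max_left (v' + 1) u)
    rw [blk_succ, ← hvdef] at h3
    rw [mem_Ico]
    omega
  choose p hp1 hp2 using hD n S ε u v hbad huv hS
  set h : ℤ → ℤ := fun T => blk N T + p (c (n + 1) T) with hh
  have hl : ∀ T, blk N T ≤ h T := fun T => by simp [hh]
  have hr : ∀ T, h T < blk N (T + 1) := fun T => by
    have := hp1 (c (n + 1) T)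
    rw [blk_succ]; simp only [hh]; omega
  have hmono : ∀ T T', T < T' → h T < h T' := fun T T' hT =>
    (hr T).trans_le ((blk_mono N (by omega)).trans (hl T'))
  have hmono' : ∀ T T', T ≤ T' → h T ≤ h T' := fun T T' hT => by
    rcases hT.eq_or_lt with rfl | h1
    · exact le_rfl
    · exact (hmono _ _ h1).le
  set S' := (Ico u v).filter fun T => h T ∈ S with hS'
  have hmem : ∀ T, T ∈ S' ↔ h T ∈ S := by
    intro T
    rw [hS', mem_filter, mem_Ico]
    refine ⟨fun h => h.2, fun h1 => ⟨?_, h1⟩⟩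
    have h2 := mem_Ico.1 (hS h1)
    constructor
    · by_contra h3
      have := blk_mono N (show T + 1 ≤ u by omega)
      have := hr T
      omega
    · by_contra h3
      have := blk_mono N (show v ≤ T by omega)
      have := hl T
      omega
  -- `S` contains a full block
  have hfull : ∀ j : ℕ, j < N → blk N (u + 1) + j ∈ S := by
    intro j hj
    have h1 := hB n S ε u hbad
    rw [Finset.not_subset] at h1
    obtain ⟨t, ht1, ht2⟩ := h1
    have h2 := mem_Ico.1 (hS ht1)
    rw [mem_Ico] at ht2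
    have h3 : blk N (u + 2) = blk N (u + 1) + N := by rw [← blk_succ]; ring_nf
    refine hbad.conv _ _ _ (S.min'_mem hbad.ne) ht1 ?_ (by omega)
    rw [blk_succ]
    omega
  have hcard : S'.card < S.card := by
    rw [← Finset.card_image_of_injOn (f := h) (s := S') (fun T _ T' _ hT => by
      by_contra hne
      rcases lt_or_gt_of_ne hne with h1 | h1
      · exact absurd hT (hmono _ _ h1).ne
      · exact absurd hT (hmono _ _ h1).ne')]
    refine Finset.card_lt_card ⟨fun t ht => ?_, fun hsub => ?_⟩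
    · obtain ⟨T, hT, rfl⟩ := mem_image.1 ht
      exact (hmem T).1 hT
    · obtain ⟨T0, -, e0⟩ := mem_image.1 (hsub (hfull 0 (by omega)))
      obtain ⟨T1, -, e1⟩ := mem_image.1 (hsub (hfull 1 (by omega)))
      have key : ∀ T (j : ℕ), j < N → h T = blk N (u + 1) + j → T = u + 1 := by
        intro T j hj e
        by_contra hne
        rcases lt_or_gt_of_ne hne with h1 | h1
        · have := blk_mono N (show T + 1 ≤ u + 1 by omega)
          have := hr T
          omega
        · have := blk_mono N (show u + 1 + 1 ≤ T by omega)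
          have := hl T
          have := blk_succ N (u + 1)
          omega
      rw [key T0 0 (by omega) e0] at e0
      rw [key T1 1 (by omega) e1] at e1
      omega
  refine ih S'.card (hL ▸ hcard) (n + 1) S' (fun T => ε (h T)) rfl
    ⟨⟨u + 1, (hmem _).2 (hfull _ (hp1 _))⟩, ?_, ?_, ?_, ?_, ?_⟩
  · intro x y z hx hz hxy hyz
    rw [hmem] at *
    exact hbad.conv _ _ _ hx hz (hmono' _ _ hxy) (hmono' _ _ hyz)
  · exact fun t ht => hbad.val _ ((hmem t).1 ht)
  · exact fun t ht => hbad.out _ fun h1 => ht ((hmem t).2 h1)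
  · intro x y
    rcases le_or_gt x y with hxy | hxy
    · refine le_trans ?_ (hbad.tv (h x) (h y))
      rw [← (sum_Ico_blocks h (fun T => hmono' _ _ (by omega)) _ x y hxy).2]
      refine Finset.sum_le_sum fun T _ => ?_
      by_cases h1 : ε (h (T + 1)) = ε (h T)
      · simp [jmp, h1]
      · refine le_trans ?_ (exists_jmp ε _ _ (hmono' _ _ (by omega)) h1)
        simp [jmp, h1]
    · rw [Finset.Ico_eq_empty (by omega)]; simp
  · intro x
    refine Eq.trans ?_ (hp2 x)
    refine (Finset.sum_subset (Finset.filter_subset _ _) fun t ht1 ht => ?_).trans ?_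
    · simp [hbad.out _ fun h1 => ht ((hmem t).2 h1)]
    · refine Finset.sum_congr rfl fun T _ => ?_
      split_ifs with h1
      · simp only [hh, h1]
      · rfl

/-- the hierarchical colourings -/
noncomputable def hier (N : ℕ) (hN : 3 ≤ N) (H : A → ℕ → A) (a : ℕ → A) (n : ℕ) (t : ℤ) : A :=
  if _h : t = 0 then a n else H (hier N hN H a (n + 1) ((t + 1) / N)) ((t + 1) % N).toNat
termination_by t.natAbs
decreasing_by
  have h1 := Int.emod_nonneg (t + 1) (show (N : ℤ) ≠ 0 by omega)
  have h2 := Int.emod_lt_of_pos (t + 1) (show (0 : ℤ) < N by omega)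
  have h3 := Int.mul_ediv_add_emod (t + 1) N
  generalize (t + 1) / (N : ℤ) = x at *
  generalize (t + 1) % (N : ℤ) = y at *
  have h4 : (3 : ℤ) ≤ N := by omega
  rcases lt_trichotomy x 0 with h | h | h
  · have : (N : ℤ) * (x + 1) ≤ x + 1 := by nlinarith
    have : t < x := by nlinarith
    omega
  · omega
  · have : 3 * x ≤ (N : ℤ) * x := by nlinarith
    omega

theorem exists_hier [Fintype A] [Nonempty A] (N : ℕ) (hN : 3 ≤ N) (H : A → ℕ → A) :
    ∃ c : ℕ → ℤ → A, ∀ n T (j : ℕ), j < N → c n (blk N T + j) = H (c (n + 1) T) j := by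
  obtain ⟨a, ha⟩ : ∃ a : ℕ → A, ∀ n, a n = H (a (n + 1)) 1 := by
    set f : A → A := fun x => H x 1 with hf
    obtain ⟨x, hx⟩ : (Function.periodicPts f).Nonempty := by
      obtain ⟨x⟩ := ‹Nonempty A›
      obtain ⟨i, j, hij, e⟩ := Finite.exists_ne_map_eq_of_infinite fun n : ℕ => f^[n] x
      wlog h : i < j generalizing i j
      · exact this j i hij.symm e.symm (by omega)
      refine ⟨f^[i] x, Function.mk_mem_periodicPts (n := j - i) (by omega) ?_⟩
      unfold Function.IsPeriodicPt Function.IsFixedPt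
      rw [← Function.iterate_add_apply, Nat.sub_add_cancel h.le]
      exact e.symm
    have : ∀ y : Function.periodicPts f, ∃ z : Function.periodicPts f, f z = y := by
      rintro ⟨y, hy⟩
      obtain ⟨z, hz, e⟩ := (Function.bijOn_periodicPts f).surjOn hy
      exact ⟨⟨z, hz⟩, e⟩
    choose g hg using this
    refine ⟨fun n => (g^[n] ⟨x, hx⟩ : Function.periodicPts f), fun n => ?_⟩
    simp only [Function.iterate_succ_apply']
    exact (hg _).symm
  refine ⟨hier N hN H a, fun n T j hj => ?_⟩
  have e1 : (blk N T + j + 1) / N = T := by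
    unfold blk
    rw [show (N : ℤ) * T - 1 + j + 1 = j + N * T by ring, Int.add_mul_ediv_left _ _ (by omega),
      Int.ediv_eq_zero_of_lt (by omega) (by omega), zero_add]
  have e2 : ((blk N T + j + 1) % N).toNat = j := by
    unfold blk
    rw [show (N : ℤ) * T - 1 + j + 1 = j + N * T by ring, Int.add_mul_emod_self_left,
      Int.emod_eq_of_lt (by omega) (by omega)]
    simp
  rw [hier]
  split_ifs with h
  · rw [h] at e1 e2
    rw [Int.ediv_eq_zero_of_lt (by omega) (by omega)] at e1
    rw [Int.emod_eq_of_lt (by omega) (by omega)] at e2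
    rw [← e1, ← e2, hier, dif_pos rfl, ha n]
    simp
  · rw [e1, e2]

theorem bad_of_split {m : ℕ} (c : ℤ → Fin m) (a b : ℤ) (hab : a ≤ b) (r k : ℕ) (hr : r ≤ k)
    (h : HasSplitting c a b r) : ∃ S ε, Bad c (k + 2) S ε := by
  obtain ⟨Y, hY, hc, s, hs⟩ := h
  refine ⟨Icc a b, fun t => if t ∈ Icc a b then
    (if s (Y.filter (· < t)).card = true then 1 else -1) else 0,
    ⟨a, by simp [hab]⟩, ?_, ?_, ?_, ?_, ?_⟩
  · intro x y z hx hz h1 h2
    rw [mem_Icc] at *
    omega
  · intro t ht
    simp only [if_pos ht]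
    split_ifs <;> simp
  · intro t ht
    simp only [if_neg ht]
  · intro u v
    refine le_trans (Finset.sum_le_sum (g := fun z => if z ∈ insert (a - 1) (insert b Y) then 1
      else 0) fun z _ => ?_) ?_
    · split_ifs with h1
      · unfold jmp; split_ifs <;> omega
      · simp only [mem_insert, not_or] at h1
        have e : Y.filter (· < z + 1) = Y.filter (· < z) := by
          refine Finset.filter_congr fun y hy => ?_
          have : y ≠ z := fun h => h1.2.2 (h ▸ hy)
          omega
        have e' : z + 1 ∈ Icc a b ↔ z ∈ Icc a b := by simp only [mem_Icc]; omega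
        unfold jmp
        simp only [e, e', if_true, le_refl]
    · rw [← Finset.card_filter]
      refine (Finset.card_le_card (t := insert (a - 1) (insert b Y))
        fun z hz => (mem_filter.1 hz).2).trans ?_
      have := card_insert_le (a - 1) (insert b Y)
      have := card_insert_le b Y
      omega
  · intro x
    have := hs x
    rw [Finset.card_filter, Finset.card_filter] at this
    have h2 := congrArg (Nat.cast : ℕ → ℤ) this
    push_cast at h2
    rw [← sub_eq_zero, ← Finset.sum_sub_distrib] at h2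
    refine Eq.trans (Finset.sum_congr rfl fun t ht => ?_) h2
    simp only [if_pos ht]
    by_cases h3 : c t = x <;> cases s (Y.filter (· < t)).card <;> simp [h3]

end Pool.Agent.P.MP_59d724_co
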