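import Pool.Agent.P.MP_59d724_co.Model

set_option autoImplicit false
set_option linter.unusedSectionVars false

namespace Pool.Agent.P.MP_59d724_co

open Finset

variable {r n : ℕ} [NeZero r]

/-- sign sequence with prescribed sign changes -/
def eZ (Z : Fin r → Finset ℕ) (i : ℕ) : ℤ :=
  ∏ x ∈ range (i + 1), if x / r ∈ Z ⟨x % r, Nat.mod_lt _ (NeZero.pos r)⟩ then -1 else 1

theorem eZ_ne (Z : Fin r → Finset ℕ) (i : ℕ) : eZ Z i ≠ 0 :=
  Finset.prod_ne_zero_iff.2 fun x _ => by split_ifs <;> simp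

/-- the sign sequence placed on a window -/
def ph (s L : ℕ) (Z : Fin r → Finset ℕ) (j : ℕ) : ℤ :=
  if s ≤ j ∧ j < s + L then eZ Z (j - s) else 0

/-- coefficients for a window inside two adjacent blocks -/
def Eb (N : ℕ) (a b : Fin r × Bool) (f : ℕ → ℤ) (x : Fin r × Bool) (j : ℕ) : ℤ :=
  (if a = x then f j else 0) + (if b = x then f (N + j) else 0)

/-- event 3: a short balanced window -/
def Ev3 (K : ℕ) (ω : Om r n) : Prop :=
  ∃ p ∈ (univ : Finset ((Fin r × Bool) × (Fin r × Bool))), ∃ s ∈ range (2 * (r * n)),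
    ∃ lam ∈ Icc 1 n, ∃ Z ∈ (Fintype.piFinset fun l : Fin r => (range (2 * lam)).powerset.filter
      fun Y => l = 0 ∨ Even Y.card).filter fun Z => ∑ l, (Z l).card ≤ K,
      (p.1 ≠ p.2 ∧ s + r * (2 * lam) ≤ 2 * (r * n)) ∧
        Bal ω (Eb (r * n) p.1 p.2 (ph s (r * (2 * lam)) Z))

theorem ev3_small (K : ℕ) (hn : 0 < n) (δ : ℝ) (hδ : ∀ lam : ℕ, lam ∈ Icc 1 n →
    2 * Real.exp (2 / 9) ^ r * (3 * lam : ℝ) ^ K * (√(3 * lam + 1))⁻¹ ^ (r - 2) ≤ δ) :
    Small (fun ω : Om r n => Ev3 K ω) ((2 * r) ^ 2 * (2 * (r * n) * (n * δ))) := by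
  have hr := NeZero.pos r
  unfold Ev3
  refine Small.mono (B := _) ?_ (fun ω h => h) (δ := ((univ : Finset ((Fin r × Bool) ×
    (Fin r × Bool))).card * ((range (2 * (r * n))).card * ((Icc 1 n).card * δ)))) (by simp; ring_nf; rfl)
  refine Small.exists _ _ _ fun p _ => Small.exists _ _ _ fun s _ => Small.exists _ _ δ
    fun (lam : ℕ) hl => ?_
  refine (Small.exists _ _ ((√(3 * lam + 1))⁻¹ ^ (r - 2)) fun Z _ => ?_).mono
      (fun _ h => h) (le_trans ?_ (hδ lam hl))
  · by_cases hc : p.1 ≠ p.2 ∧ s + r * (2 * lam) ≤ 2 * (r * n)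
    · refine (bal_small (Eb (r * n) p.1 p.2 (ph s (r * (2 * lam)) Z))
        ((univ.erase p.1.1).erase p.2.1) lam fun l hl => ?_).mono (fun ω h => h.2) ?_
      · have hl2 := ne_of_mem_erase hl
        have hl1 := ne_of_mem_erase (mem_of_mem_erase hl)
        set q0 := (s + r - 1 - l) / r with hq0
        have a1 := Nat.div_add_mod (s + r - 1 - l) r
        have a2 := Nat.mod_lt (s + r - 1 - l) hr
        have a3 := l.2
        rw [← hq0] at a1
        have a4 : ∀ q < 2 * lam, s ≤ l + r * (q0 + q) ∧ l + r * (q0 + q) < s + r * (2 * lam) := by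
          intro q hq
          have : r * (q + 1) ≤ r * (2 * lam) := Nat.mul_le_mul_left _ hq
          rw [mul_add] at *
          omega
        have a5 : ∀ q < 2 * lam, q0 + q < 2 * n := by
          intro q hq
          have := (a4 q hq).2
          refine lt_of_mul_lt_mul_left (a := r) ?_ (Nat.zero_le _)
          rw [mul_left_comm]
          omega
        refine le_trans (by simp) (Finset.card_le_card_of_injOn (s := range (2 * lam))
          (fun q => (if q0 + q < n then p.1 else p.2, ⟨(q0 + q) % n, Nat.mod_lt _ hn⟩))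
          (fun q hq => ?_) fun q hq q' hq' h => ?_)
        · have hq := mem_range.1 hq
          simp only [coe_filter, mem_univ, true_and, Set.mem_ofPred_eq]
          by_cases h : q0 + q < n
          · simp only [if_pos h, Eb, if_true, if_neg hc.1.symm, add_zero, Nat.mod_eq_of_lt h]
            refine ⟨hl1.symm, ?_⟩
            rw [ph, if_pos (a4 q hq)]
            exact eZ_ne _ _
          · simp only [if_neg h, Eb, if_true, if_neg hc.1, zero_add]
            refine ⟨hl2.symm, ?_⟩
            have e : r * n + (l + r * ((q0 + q) % n)) = l + r * (q0 + q) := by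
              have := a5 q hq
              rw [Nat.mod_eq_sub_mod (not_lt.1 h), Nat.mod_eq_of_lt (by omega), Nat.mul_sub]
              have : r * n ≤ r * (q0 + q) := Nat.mul_le_mul_left _ (not_lt.1 h)
              omega
            rw [e, ph, if_pos (a4 q hq)]
            exact eZ_ne _ _
        · have b1 := a5 q (mem_range.1 hq)
          have b2 := a5 q' (mem_range.1 hq')
          simp only [Prod.mk.injEq, Fin.mk.injEq] at h
          obtain ⟨h1, h2⟩ := h
          by_cases c1 : q0 + q < n <;> by_cases c2 : q0 + q' < n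
          · rw [Nat.mod_eq_of_lt c1, Nat.mod_eq_of_lt c2] at h2; omega
          · rw [if_pos c1, if_neg c2] at h1; exact absurd h1 hc.1
          · rw [if_neg c1, if_pos c2] at h1; exact absurd h1.symm hc.1
          · rw [Nat.mod_eq_sub_mod (not_lt.1 c1), Nat.mod_eq_sub_mod (not_lt.1 c2),
              Nat.mod_eq_of_lt (by omega), Nat.mod_eq_of_lt (by omega)] at h2
            omega
      · refine pow_le_pow_of_le_one (by positivity) (inv_le_one_of_one_le₀ ?_) ?_
        · rw [Real.one_le_sqrt]; linarith [Nat.cast_nonneg (α := ℝ) lam]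
        · have b1 := pred_card_le_card_erase (s := univ.erase p.1.1) (a := p.2.1)
          rw [card_erase_of_mem (mem_univ _), card_univ, Fintype.card_fin] at b1
          omega
    · exact (Small.false _ (by positivity)).mono (fun ω h => hc h.1) le_rfl
  · refine mul_le_mul_of_nonneg_right ?_ (by positivity)
    have := card_even_families (0 : Fin r) lam (mem_Icc.1 hl).1 K
    rwa [Fintype.card_fin] at this

theorem base_step {ω : Om r n} (hn : 0 < n) (hr : 2 ≤ r) {K : ℕ} (h3 : ¬ Ev3 K ω)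
    {c c' c'' : ℤ → Fin r × Bool} (hp : Par ω c c') (hp' : Par ω c' c'')
    {S : Finset ℤ} {ε : ℤ → ℤ} (hb : Bad c K S ε) (T : ℤ) :
    ¬ S ⊆ Ico (blk (r * n) T) (blk (r * n) (T + 2)) := by
  intro hS
  set N := r * n with hN
  have hbal := bal_of_bad hp hb (show T ≤ T + 2 by omega) hS
  have hab : c' T ≠ c' (T + 1) := by
    intro h
    have h1 := hp'.cls hn T
    rw [h, hp'.cls hn (T + 1)] at h1
    have h2 := Int.le_of_dvd one_pos (by simpa using Int.ModEq.dvd h1.symm)
    omega
  set s0 := S.min' hb.ne with hs0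
  obtain ⟨L, hL⟩ : ∃ L : ℕ, S.max' hb.ne + 1 = s0 + L :=
    ⟨(S.max' hb.ne + 1 - s0).toNat, by have := S.min'_le_max' hb.ne; omega⟩
  have hL0 : 0 < L := by have := S.min'_le_max' hb.ne; omega
  have hSI : S = Ico s0 (s0 + L) := by
    ext t
    rw [mem_Ico]
    refine ⟨fun h => ⟨S.min'_le t h, ?_⟩, fun h =>
      hb.conv _ _ _ (S.min'_mem hb.ne) (S.max'_mem hb.ne) h.1 (by omega)⟩
    have := S.le_max' t h
    omega
  have hin : ∀ i : ℕ, i < L → ε (s0 + i) = 1 ∨ ε (s0 + i) = -1 := fun i hi =>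
    hb.val _ (by rw [hSI, mem_Ico]; omega)
  have hcs : ∀ ρ < r, ∑ i ∈ range L, (if i % r = ρ then ε (s0 + i) else 0) = 0 := by
    intro ρ hρ
    have h1 := hb.cls_sum (c (s0 + ρ)).1
    rw [hSI, sum_block] at h1
    refine Eq.trans (Finset.sum_congr rfl fun i _ => if_congr ?_ rfl rfl) h1
    rw [Fin.ext_iff, ← Int.natCast_inj (m := (c _).1), hp.cls hn, hp.cls hn,
      show s0 + i + 1 = (s0 + 1) + i by ring, show s0 + ρ + 1 = (s0 + 1) + ρ by ring,
      Int.emod_add_cancel_left, ← Int.natCast_mod, ← Int.natCast_mod, Int.natCast_inj,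
      Nat.mod_eq_of_lt hρ]
  have hev : ∀ ρ < r, Even (L / r + if ρ < L % r then 1 else 0) := by
    intro ρ hρ
    have h1 := hcs ρ hρ
    rw [← Finset.sum_filter] at h1
    have h2 := even_of_sum _ _ (fun i hi => hin i (mem_range.1 (mem_filter.1 hi).1)) h1
    have h4 := Nat.count_modEq_card L (show 0 < r by omega) ρ
    rw [Nat.count_eq_card_filter_range, Nat.mod_eq_of_lt hρ] at h4
    rw [← h4]
    convert h2 using 3
    rw [Nat.ModEq, Nat.mod_eq_of_lt hρ]
  obtain ⟨lam, hlam⟩ : ∃ lam, L = r * (2 * lam) := by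
    have h1 := hev 0 (by omega)
    have h2 := hev (r - 1) (by omega)
    have h4 := Nat.mod_lt L (show 0 < r by omega)
    rw [if_neg (by omega), add_zero] at h2
    have h5 : L % r = 0 := by
      by_contra h
      rw [if_pos (by omega), Nat.even_add_one] at h1
      exact h1 h2
    obtain ⟨lam, h6⟩ := h2
    have := Nat.div_add_mod L r
    exact ⟨lam, by rw [two_mul, ← h6]; omega⟩
  have hcs' : ∀ ρ < r, ∑ q ∈ range (2 * lam), ε (s0 + (ρ + r * q : ℕ)) = 0 := by
    intro ρ hρ
    have h1 := hcs ρ hρ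
    rw [hlam, sum_range_mul] at h1
    refine Eq.trans (Finset.sum_congr rfl fun q _ => ?_) h1
    rw [Finset.sum_eq_single_of_mem ρ (mem_range.2 hρ), if_pos]
    · rw [Nat.add_mul_mod_self_left, Nat.mod_eq_of_lt hρ]
    · intro x hx hne
      rw [if_neg]
      rwa [Nat.add_mul_mod_self_left, Nat.mod_eq_of_lt (mem_range.1 hx)]
  have hlt : ∀ (l : ℕ), l < r → ∀ q < 2 * lam, l + r * q < L := by
    intro l hl q hq
    have : r * (q + 1) ≤ r * (2 * lam) := Nat.mul_le_mul_left _ hq
    rw [hlam]; nlinarith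
  set fl : ℕ → Prop := fun i => ε (s0 + i) ≠ if i = 0 then 1 else ε (s0 + i - 1) with hfl
  set Z : Fin r → Finset ℕ := fun l => (range (2 * lam)).filter fun q => fl (l + r * q) with hZ
  have heZ : ∀ i < L, eZ Z i = ε (s0 + i) := by
    have key : ∀ x < L, (x / r ∈ Z ⟨x % r, Nat.mod_lt _ (NeZero.pos r)⟩ ↔ fl x) := by
      intro x hx
      simp only [hZ, mem_filter, mem_range, Nat.mod_add_div]
      refine and_iff_right (Nat.div_lt_of_lt_mul (hlam ▸ hx))
    intro i hi
    induction i with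
    | zero =>
      rw [eZ, Finset.prod_range_one, if_congr (key 0 hi) rfl rfl]
      rcases hin 0 hi with h | h <;> simp only [hfl, h] <;> simp
    | succ m ih =>
      rw [eZ, Finset.prod_range_succ, ← eZ, ih (by omega), if_congr (key _ hi) rfl rfl]
      have e : s0 + ((m + 1 : ℕ) : ℤ) - 1 = s0 + m := by push_cast; ring
      simp only [hfl, e]
      rcases hin m (by omega) with h | h <;> rcases hin (m + 1) hi with h' | h' <;>
        simp only [h, h'] <;> simp
  have hb1 := (mem_Ico.1 (hS (S.min'_mem hb.ne))).1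
  have hb2 := (mem_Ico.1 (hS (S.max'_mem hb.ne))).2
  have hb3 : blk N (T + 2) = blk N T + N + N := by rw [← blk_succ, ← blk_succ]; ring_nf
  obtain ⟨s, hs⟩ : ∃ s : ℕ, s0 = blk N T + s := ⟨(s0 - blk N T).toNat, by omega⟩
  have hlam1 : 1 ≤ lam := by
    rcases Nat.eq_zero_or_pos lam with h | h
    · simp [h] at hlam; omega
    · exact h
  have hsL : s + r * (2 * lam) ≤ 2 * N := by omega
  have hph : ∀ j : ℕ, ph s (r * (2 * lam)) Z j = ε (blk N T + j) := by
    intro j
    rw [ph, ← hlam]
    split_ifs with h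
    · rw [heZ _ (by omega), hs]
      congr 1
      omega
    · rw [hb.out]
      rw [hSI, mem_Ico]
      omega
  refine h3 ⟨(c' T, c' (T + 1)), mem_univ _, s, mem_range.2 (by omega), lam,
    mem_Icc.2 ⟨hlam1, ?_⟩, Z, mem_filter.2 ⟨Fintype.mem_piFinset.2 fun l =>
      mem_filter.2 ⟨mem_powerset.2 (filter_subset _ _), ?_⟩, ?_⟩, ⟨hab, hsL⟩,
      hbal.congr fun a j _ => ?_⟩
  · refine le_of_mul_le_mul_left (a := r * 2) ?_ (by omega)
    rw [hN] at hsL
    nlinarith
  · by_cases hl : l = 0
    · exact Or.inl hl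
    · right
      have hl0 : (l : ℕ) ≠ 0 := fun h => hl (Fin.ext (by simpa using h))
      refine even_of_sum _ (fun q => ε (s0 + (l + r * q : ℕ)))
        (fun q hq => hin _ (hlt _ l.2 q (mem_range.1 (mem_filter.1 hq).1))) ?_
      have h1 := sub_eq_zero.2 ((hcs' l l.2).trans (hcs' (l - 1) (by omega)).symm)
      rw [← Finset.sum_sub_distrib] at h1
      refine mul_left_cancel₀ (two_ne_zero (α := ℤ)) ?_
      rw [mul_zero, Finset.mul_sum, hZ, Finset.sum_filter]
      refine Eq.trans (Finset.sum_congr rfl fun q hq => ?_) h1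
      have e : s0 + (((l : ℕ) + r * q : ℕ) : ℤ) - 1 = s0 + (((l : ℕ) - 1 + r * q : ℕ) : ℤ) := by
        omega
      have e' : (l : ℕ) + r * q ≠ 0 := by omega
      simp only [hfl, e, if_neg e']
      rcases hin _ (hlt _ l.2 q (mem_range.1 hq)) with h | h <;>
        rcases hin _ (hlt ((l : ℕ) - 1) (by omega) q (mem_range.1 hq)) with h' | h' <;>
        simp only [h, h'] <;> simp
  · refine le_trans ?_ (hb.tv (s0 - 1) (s0 - 1 + L))
    rw [sum_block, hlam, sum_range_mul, Finset.sum_comm, Finset.sum_range]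
    refine Finset.sum_le_sum fun l _ => ?_
    rw [hZ, Finset.card_filter]
    refine Finset.sum_le_sum fun q _ => ?_
    split_ifs with h
    · simp only [hfl] at h
      unfold jmp
      rw [if_neg]
      rw [show s0 - 1 + ((l + r * q : ℕ) : ℤ) + 1 = s0 + ((l + r * q : ℕ) : ℤ) by ring]
      split_ifs at h with h'
      · rw [h', hb.out (s0 - 1 + _) (by rw [hSI, mem_Ico]; omega)]
        rcases hin 0 hL0 with h | h <;> rw [h] <;> simp
      · rwa [show s0 - 1 + ((l + r * q : ℕ) : ℤ) = s0 + ((l + r * q : ℕ) : ℤ) - 1 by ring]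
    · exact Nat.zero_le _
  · simp only [Eb, Ef, hph]
    rw [show T + 2 = T + 1 + 1 by ring, ← Finset.insert_Ico_right_eq_Ico_add_one (by omega),
      Finset.sum_insert (by simp), ← Finset.insert_Ico_right_eq_Ico_add_one le_rfl, blk_succ]
    simp [add_comm, add_left_comm, add_assoc, hN]

end Pool.Agent.P.MP_59d724_co
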