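import Pool.Agent.P.MP_59d724_co.Model

set_option autoImplicit false
set_option linter.unusedSectionVars false

namespace Pool.Agent.P.MP_59d724_co

open Finset

variable {r n : ℕ} [NeZero r]

/-- event 1: some random block sum is large -/
def Ev1 (ω : Om r n) : Prop :=
  ∃ p ∈ (univ : Finset ((Fin r × Bool) × Fin r)),
    (n : ℤ) < (2 * r : ℕ) * |∑ i : Fin n, sg (ω p.2 (p.1, i))|

theorem ev1_small (hn : 0 < n) :
    Small (fun ω : Om r n => Ev1 ω) ((2 * r * r : ℕ) * (((2 * r : ℕ) : ℝ) ^ 2 / n)) := by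
  have := Small.exists (univ : Finset ((Fin r × Bool) × Fin r))
    (fun p (ω : Om r n) => (n : ℤ) < (2 * r : ℕ) * |∑ i : Fin n, sg (ω p.2 (p.1, i))|)
    (((2 * r : ℕ) : ℝ) ^ 2 / n) fun p _ => ?_
  · refine this.mono (fun ω h => h) (le_of_eq ?_)
    simp [mul_comm]
  · have hc : (univ.map ⟨fun i : Fin n => (p.1, i), fun i j h => (Prod.ext_iff.1 h).2⟩).card = n := by
      simp
    have h1 := chebyshev (univ.map ⟨fun i : Fin n => (p.1, i), fun i j h => (Prod.ext_iff.1 h).2⟩)
      (by rw [hc]; exact hn) (2 * r)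
    rw [hc] at h1
    have h2 := Small.pi {p.2} (fun _ => _) _ fun _ _ => h1
    refine h2.mono (fun ω h l hl => ?_) (by simp)
    rw [mem_singleton.1 hl, Finset.sum_map]
    exact h

/-- step functions from parameters -/
def Ep (w : Fin r × Bool → ℤ) (G : Finset ((Fin r × Bool) × ℕ × ℤ)) (a : Fin r × Bool) (j : ℕ) : ℤ :=
  w a + ∑ x ∈ G, if x.1 = a ∧ x.2.1 < j then x.2.2 else 0

/-- the possible jumps -/
noncomputable def UU (r n K : ℕ) : Finset ((Fin r × Bool) × ℕ × ℤ) :=
  univ ×ˢ range (r * n) ×ˢ Icc (-(2 * K : ℤ)) (2 * K)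

/-- event 2: a balanced step function with a nowhere vanishing line -/
def Ev2 (K : ℕ) (ω : Om r n) : Prop :=
  ∃ w ∈ Fintype.piFinset fun _ : Fin r × Bool => Icc (-(4 * K : ℤ)) (4 * K),
    ∃ G ∈ (UU r n K).powerset.filter fun G => G.card ≤ K,
      (∃ a, ∀ j < r * n, Ep w G a j ≠ 0) ∧ Bal ω (Ep w G)

theorem ev2_small (K h : ℕ) (hh : 0 < h) :
    Small (fun ω : Om r (2 * h) => Ev2 K ω) ((8 * K + 1 : ℝ) ^ (2 * r) *
      (3 * (2 * r * (r * (2 * h) * (4 * K + 1)) : ℝ) ^ K * (√(3 * h + 1))⁻¹ ^ (r - 1))) := by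
  have hU : (UU r (2 * h) K).card = 2 * r * (r * (2 * h) * (4 * K + 1)) := by
    unfold UU
    rw [card_product, card_product, Int.card_Icc, card_range, card_univ]
    have : (2 * (K : ℤ) + 1 - -(2 * K)).toNat = 4 * K + 1 := by omega
    rw [this]
    simp [mul_comm]
  have h1 := card_small_subsets (UU r (2 * h) K)
    (by rw [hU]; have := NeZero.pos r; positivity) K
  rw [hU] at h1
  push_cast at h1
  refine (Small.exists _ _ _ fun w _ => (Small.exists _ _ ((√(3 * h + 1))⁻¹ ^ (r - 1))
    fun G _ => ?_).mono (fun _ h => h) (mul_le_mul_of_nonneg_right h1 (by positivity))).mono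
    (fun ω h => h) (le_of_eq ?_)
  · by_cases ha : ∃ a, ∀ j < r * (2 * h), Ep w G a j ≠ 0
    · obtain ⟨a, ha⟩ := ha
      refine (bal_small (Ep w G) (univ.erase a.1) h fun l hl => ?_).mono (fun ω h => h.2)
        (by simp)
      refine le_trans (by simp) (Finset.card_le_card_of_injOn (s := univ)
        (fun i : Fin (2 * h) => (a, i)) (fun i _ => ?_) fun i _ j _ h => (Prod.ext_iff.1 h).2)
      simp only [coe_filter, mem_univ, true_and, Set.mem_ofPred_eq]
      exact ⟨(ne_of_mem_erase hl).symm, ha _ (pos_lt l i)⟩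
    · exact (Small.false _ (by positivity)).mono (fun ω h => ha h.1) le_rfl
  · rw [Fintype.card_piFinset, prod_const, Int.card_Icc, card_univ]
    have : (4 * (K : ℤ) + 1 - -(4 * K)).toNat = 8 * K + 1 := by omega
    rw [this]
    simp [mul_comm]

theorem descent_step {ω : Om r n} (hn : 0 < n) {K : ℕ} (h1 : ¬ Ev1 ω) (h2 : ¬ Ev2 K ω)
    {c c' c'' : ℤ → Fin r × Bool} (hp : Par ω c c') (hp' : Par ω c' c'')
    {S : Finset ℤ} {ε : ℤ → ℤ} (hb : Bad c K S ε) {u v : ℤ} (huv : u ≤ v)
    (hS : S ⊆ Ico (blk (r * n) u) (blk (r * n) v)) (a0 : Fin r × Bool) :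
    ∃ j < r * n, Ef (r * n) c' ε u v a0 j = 0 := by
  by_contra hne
  push Not at hne
  have hr := NeZero.pos r
  set N := r * n with hN
  have hN0 : 0 < N := Nat.mul_pos hr hn
  set E := Ef N c' ε u v with hE
  have hbal : Bal ω E := bal_of_bad hp hb huv hS
  set J : Fin r × Bool → ℕ → ℕ := fun a p =>
    ∑ T ∈ Ico u v, if c' T = a then jmp ε (blk N T + p) else 0 with hJ
  have hJK : ∑ a, ∑ p ∈ range N, J a p ≤ K := by
    refine le_trans (le_of_eq ?_) (hb.tv (blk N u) (blk N v))
    rw [← sum_blocks N _ u v huv, Finset.sum_comm]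
    refine (Finset.sum_congr rfl fun p _ => Finset.sum_comm).trans ?_
    rw [Finset.sum_comm]
    simp
  have hD : ∀ a p, |E a (p + 1) - E a p| ≤ 2 * (J a p : ℤ) := by
    intro a p
    simp only [hE, hJ, Ef]
    rw [← Finset.sum_sub_distrib]
    refine (Finset.abs_sum_le_sum_abs _ _).trans ?_
    push_cast
    rw [Finset.mul_sum]
    refine Finset.sum_le_sum fun T _ => ?_
    split_ifs
    · have := hb.diff_le (blk N T + p) (blk N T + p + 1) (blk N T + p + 1) (by omega) le_rfl
      rw [← Finset.insert_Ico_right_eq_Ico_add_one le_rfl] at this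
      simpa [add_assoc] using this
    · simp
  have htel : ∀ a j, E a j = E a 0 + ∑ p ∈ range j, (E a (p + 1) - E a p) := by
    intro a j
    rw [Finset.sum_range_sub]; ring
  have hV : ∀ a j, j ≤ N → |E a j - E a 0| ≤ 2 * ((∑ p ∈ range N, J a p : ℕ) : ℤ) := by
    intro a j hj
    rw [htel a j, add_sub_cancel_left]
    refine (Finset.abs_sum_le_sum_abs _ _).trans ((Finset.sum_le_sum fun p _ => hD a p).trans ?_)
    push_cast
    rw [Finset.mul_sum]
    exact Finset.sum_le_sum_of_subset_of_nonneg (range_subset_range.2 hj) fun _ _ _ => by positivity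
  -- bound on class sums
  have hu : ∀ l : Fin r, |E (l, true) 0 + E (l, false) 0| ≤ 2 * K := by
    intro l
    set x : ℤ := -|u| - l with hx
    set y : ℤ := |v| + 1 with hy
    have hl0 : (0 : ℤ) ≤ (l : ℕ) := Int.natCast_nonneg _
    have hr1 : (1 : ℤ) ≤ r := by exact_mod_cast hr
    have a1 : (l : ℕ) - 1 + r * x ≤ u := by nlinarith [abs_nonneg u, neg_abs_le u]
    have a2 : v ≤ (l : ℕ) - 1 + r * y := by nlinarith [abs_nonneg v, le_abs_self v]
    have hxy : x ≤ y := by linarith [abs_nonneg u, abs_nonneg v]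
    have e0 : ∀ i : ℤ, blk N ((l : ℕ) - 1) + (N * r : ℕ) * i = blk N ((l : ℕ) - 1 + r * i) := by
      intro i; unfold blk; push_cast; ring
    have a3 := hb.ap_sum (N * r) (Nat.mul_pos hN0 hr) (blk N ((l : ℕ) - 1)) x y hxy (by
      rw [e0, e0]
      exact hS.trans (Finset.Ico_subset_Ico (blk_mono N a1) (blk_mono N a2)))
    refine le_trans (le_of_eq (congrArg abs ?_)) a3
    have e1 : E (l, true) 0 + E (l, false) 0 =
        ∑ T ∈ Ico u v, if (c' T).1 = l then ε (blk N T) else 0 := by
      simp only [hE, Ef]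
      rw [← Finset.sum_add_distrib]
      refine Finset.sum_congr rfl fun T _ => ?_
      rcases c' T with ⟨z, b⟩
      by_cases hz : z = l <;> cases b <;> simp [hz]
    rw [e1, Finset.sum_subset (Finset.Ico_subset_Ico a1 a2), ← (sum_Ico_blocks
      (fun i => ((l : ℕ) : ℤ) - 1 + r * i) (fun i => by nlinarith) _ x y hxy).2]
    · refine Finset.sum_congr rfl fun i _ => ?_
      have hcl : ∀ T, (c' T).1 = l ↔ (T + 1) % r = (l : ℕ) := by
        intro T
        rw [← hp'.cls hn T, Fin.ext_iff]; omega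
      rw [Finset.sum_eq_single (((l : ℕ) : ℤ) - 1 + r * i), if_pos, e0]
      · rw [hcl, show ((l : ℕ) : ℤ) - 1 + r * i + 1 = (l : ℕ) + r * i by ring,
          Int.add_mul_emod_self_left, Int.emod_eq_of_lt hl0 (by exact_mod_cast l.2)]
      · intro T hT hne
        rw [if_neg]
        rw [hcl]
        intro h
        rw [mem_Ico] at hT
        have h3 := Int.mul_ediv_add_emod (T + 1) r
        rw [h] at h3
        have h4 : i < (T + 1) / r := by
          by_contra h5
          have : (r : ℤ) * ((T + 1) / r) ≤ r * i := by nlinarith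
          omega
        have : (r : ℤ) * (i + 1) ≤ r * ((T + 1) / r) := by nlinarith
        omega
      · intro h
        exact absurd (mem_Ico.2 ⟨le_rfl, by nlinarith⟩) h
    · intro T _ hT
      rw [hb.out, ite_self]
      intro h
      have h3 := mem_Ico.1 (hS h)
      refine hT (mem_Ico.2 ⟨?_, ?_⟩)
      · by_contra h4
        have := blk_mono N (show T + 1 ≤ u by omega)
        rw [blk_succ] at this
        omega
      · by_contra h4
        have := blk_mono N (show v ≤ T by omega)
        omega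
  -- bound on the initial values
  have hw : ∀ a, |E a 0| ≤ 4 * K := by
    obtain ⟨⟨l, b⟩, -, hmax⟩ := Finset.exists_max_image univ (fun a => |E a 0|)
      ⟨a0, mem_univ _⟩
    set W := |E (l, b) 0| with hW
    have hW0 : 0 ≤ W := abs_nonneg _
    suffices W ≤ 4 * K from fun a => (hmax a (mem_univ a)).trans this
    have h3 : ∀ a, (2 * r : ℤ) * |∑ i : Fin n, E a (l + r * i) * sg (X ω a l i) -
        (if a.1 = l then n * (E a 0 * sg a.2) else 0)| ≤
        n * W + (2 * r) * (n * (2 * ((∑ p ∈ range N, J a p : ℕ) : ℤ))) := by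
      intro a
      have e : ∑ i : Fin n, E a (l + r * i) * sg (X ω a l i) =
          ∑ i : Fin n, (E a (l + r * i) - E a 0) * sg (X ω a l i) +
            E a 0 * ∑ i : Fin n, sg (X ω a l i) := by
        rw [Finset.mul_sum, ← Finset.sum_add_distrib]
        exact Finset.sum_congr rfl fun i _ => by ring
      have b1 : |∑ i : Fin n, (E a (l + r * i) - E a 0) * sg (X ω a l i)| ≤
          n * (2 * ((∑ p ∈ range N, J a p : ℕ) : ℤ)) := by
        refine (Finset.abs_sum_le_sum_abs _ _).trans ?_
        refine (Finset.sum_le_sum fun i _ => ?_).trans (le_of_eq (by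
          rw [sum_const, card_univ, Fintype.card_fin, nsmul_eq_mul]))
        rw [abs_mul, abs_sg, mul_one]
        exact hV a _ (pos_lt l i).le
      have b2 : (2 * r : ℤ) * |E a 0 * ∑ i : Fin n, sg (X ω a l i) -
          (if a.1 = l then n * (E a 0 * sg a.2) else 0)| ≤ n * W := by
        split_ifs with h
        · simp only [X, if_pos h, sum_const, card_univ, Fintype.card_fin, nsmul_eq_mul]
          rw [show E a 0 * (n * sg a.2) - n * (E a 0 * sg a.2) = 0 by ring]
          simp only [abs_zero, mul_zero]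
          positivity
        · simp only [X, if_neg h, sub_zero]
          have b3 : ¬ (n : ℤ) < (2 * r : ℕ) * |∑ i : Fin n, sg (ω l (a, i))| :=
            fun h' => h1 ⟨(a, l), mem_univ _, h'⟩
          push_cast at b3
          rw [abs_mul, mul_left_comm, mul_comm (n : ℤ)]
          exact mul_le_mul (hmax a (mem_univ a)) (not_lt.1 b3) (by positivity) hW0
      rw [e, add_sub_assoc]
      refine (mul_le_mul_of_nonneg_left (abs_add_le _ _) (by positivity)).trans ?_
      rw [mul_add, add_comm]
      exact add_le_add b2 (mul_le_mul_of_nonneg_left b1 (by positivity))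
    have h4 := Finset.sum_le_sum fun a (_ : a ∈ univ) => h3 a
    rw [← Finset.mul_sum] at h4
    have h5 := (mul_le_mul_of_nonneg_left (Finset.abs_sum_le_sum_abs _ _) (by positivity)).trans h4
    rw [Finset.sum_sub_distrib, hbal l, zero_sub, abs_neg, Finset.sum_add_distrib, sum_const,
      ← Finset.mul_sum, ← Finset.mul_sum, ← Finset.mul_sum, ← Nat.cast_sum] at h5
    have e2 : ∑ a : Fin r × Bool, (if a.1 = l then (n : ℤ) * (E a 0 * sg a.2) else 0) =
        n * (E (l, true) 0 - E (l, false) 0) := by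
      rw [Fintype.sum_prod_type, Finset.sum_eq_single l]
      · simp [sg]; ring
      · intro x _ hx; simp [hx]
      · simp
    rw [e2, abs_mul, abs_of_nonneg (Int.natCast_nonneg n), card_univ, nsmul_eq_mul] at h5
    simp only [Fintype.card_prod, Fintype.card_fin, Fintype.card_bool] at h5
    have h6 : ((∑ a, ∑ p ∈ range N, J a p : ℕ) : ℤ) ≤ K := by exact_mod_cast hJK
    have h7 : |E (l, true) 0 - E (l, false) 0| ≤ W + 2 * K := by
      refine le_of_mul_le_mul_left (a := (2 * r : ℤ) * n) ?_ (by positivity)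
      push_cast at h5 h6
      have : (0 : ℤ) ≤ 2 * r * n := by positivity
      nlinarith
    have h8 := abs_le.1 (hu l)
    have h9 := abs_le.1 h7
    cases b
    · rcases abs_cases (E (l, false) 0) with h | h <;> omega
    · rcases abs_cases (E (l, true) 0) with h | h <;> omega
  -- the parameters
  set F := (univ ×ˢ range N).filter fun x : (Fin r × Bool) × ℕ => E x.1 (x.2 + 1) - E x.1 x.2 ≠ 0
    with hF
  set G := F.image fun x => (x.1, x.2, E x.1 (x.2 + 1) - E x.1 x.2) with hG
  have hEp : ∀ a j, j < N → Ep (fun a => E a 0) G a j = E a j := by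
    intro a j hj
    rw [htel a j, Ep, hG, Finset.sum_image fun x _ y _ h => by
      simp only [Prod.mk.injEq] at h; exact Prod.ext h.1 h.2.1]
    congr 1
    rw [hF, Finset.sum_filter_of_ne, Finset.sum_product, Finset.sum_eq_single a]
    · simp only [true_and]
      rw [← Finset.sum_filter]
      congr 1
      ext p
      simp only [mem_filter, mem_range]
      omega
    · intro b _ hb; simp [hb]
    · simp
    · intro x _ h h'
      exact h (by simp [h'])
  refine h2 ⟨fun a => E a 0, Fintype.mem_piFinset.2 fun a => mem_Icc.2 (abs_le.1 (hw a)), G,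
    mem_filter.2 ⟨mem_powerset.2 fun x hx => ?_, card_image_le.trans ?_⟩,
    ⟨a0, fun j hj => (hEp a0 j hj).symm ▸ hne j hj⟩, hbal.congr hEp⟩
  · obtain ⟨y, hy, rfl⟩ := mem_image.1 hx
    have h3 := (mem_product.1 (mem_filter.1 hy).1).2
    refine mem_product.2 ⟨mem_univ _, mem_product.2 ⟨h3, mem_Icc.2 (abs_le.1 ?_)⟩⟩
    refine (hD y.1 y.2).trans ?_
    have h4 : J y.1 y.2 ≤ K := le_trans ((Finset.single_le_sum (fun _ _ => Nat.zero_le _) h3).trans
      (Finset.single_le_sum (f := fun a => ∑ p ∈ range N, J a p) (fun _ _ => Nat.zero_le _)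
        (mem_univ y.1))) hJK
    omega
  · refine le_trans ?_ hJK
    rw [hF, Finset.card_filter, ← Finset.sum_product']
    refine Finset.sum_le_sum fun x _ => ?_
    split_ifs with h
    · have := hD x.1 x.2
      have := abs_pos.2 h
      omega
    · exact Nat.zero_le _

end Pool.Agent.P.MP_59d724_co
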