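import Mathlib

set_option autoImplicit false
set_option linter.unusedSectionVars false

namespace Pool.Agent.P.MP_59d724_co

open Finset

/-- geometric sum over a symmetric interval -/
theorem geom_Icc (T : ℕ) :
    ∑ v ∈ Icc (-(T : ℤ)) T, ((1 : ℝ) / 64) ^ v.natAbs ≤ 65 / 63 := by
  have h : ∀ T : ℕ, ∑ v ∈ Icc (-(T : ℤ)) T, ((1 : ℝ) / 64) ^ v.natAbs
      = 65 / 63 - 2 / 63 * (1 / 64) ^ T := by
    intro T
    induction T with
    | zero => simp; norm_num
    | succ n ih =>
      have e : Icc (-((n + 1 : ℕ) : ℤ)) ((n + 1 : ℕ) : ℤ)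
          = insert (-((n + 1 : ℕ) : ℤ)) (insert ((n + 1 : ℕ) : ℤ) (Icc (-(n : ℤ)) n)) := by
        ext x; simp only [mem_Icc, mem_insert]; omega
      rw [e, sum_insert (by simp only [mem_Icc, mem_insert]; omega),
        sum_insert (by simp only [mem_Icc]; omega), ih, Int.natAbs_neg, Int.natAbs_natCast]
      ring
  rw [h]
  have : (0 : ℝ) ≤ 2 / 63 * (1 / 64) ^ T := by positivity
  linarith

/-- the integer vectors of `ℓ¹` norm at most `T` -/
noncomputable def ball (I : Type) [Fintype I] [DecidableEq I] (T : ℕ) : Finset (I → ℤ) :=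
  (Fintype.piFinset fun _ => Icc (-(T : ℤ)) T).filter fun D => ∑ i, |D i| ≤ T

theorem mem_ball {I : Type} [Fintype I] [DecidableEq I] {T : ℕ} {D : I → ℤ}
    (h : ∑ i, |D i| ≤ T) : D ∈ ball I T := by
  refine mem_filter.2 ⟨Fintype.mem_piFinset.2 fun i => ?_, h⟩
  have : |D i| ≤ T := le_trans (single_le_sum (f := fun i => |D i|)
    (fun j _ => abs_nonneg _) (mem_univ i)) h
  rw [mem_Icc]; exact abs_le.1 this

theorem card_ball (I : Type) [Fintype I] [DecidableEq I] (T : ℕ) :
    ((ball I T).card : ℝ) ≤ 64 ^ T * (65 / 63) ^ Fintype.card I := by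
  have h1 : ((ball I T).card : ℝ) * (1 / 64) ^ T
      ≤ ∑ D ∈ ball I T, ∏ i, ((1 : ℝ) / 64) ^ (D i).natAbs := by
    rw [← nsmul_eq_mul, ← sum_const]
    refine sum_le_sum fun D hD => ?_
    rw [prod_pow_eq_pow_sum]
    refine pow_le_pow_of_le_one (by norm_num) (by norm_num) ?_
    have := (mem_filter.1 hD).2
    have e : ((∑ i, (D i).natAbs : ℕ) : ℤ) = ∑ i, |D i| := by push_cast; rfl
    omega
  have h2 : ∑ D ∈ ball I T, ∏ i, ((1 : ℝ) / 64) ^ (D i).natAbs
      ≤ ∑ D ∈ Fintype.piFinset fun _ : I => Icc (-(T : ℤ)) T,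
        ∏ i, ((1 : ℝ) / 64) ^ (D i).natAbs :=
    sum_le_sum_of_subset_of_nonneg (filter_subset _ _) fun _ _ _ => by positivity
  rw [← prod_univ_sum (fun _ : I => Icc (-(T : ℤ)) T)
    (fun _ v => ((1 : ℝ) / 64) ^ v.natAbs)] at h2
  have h3 : ∏ _i : I, ∑ v ∈ Icc (-(T : ℤ)) T, ((1 : ℝ) / 64) ^ v.natAbs
      ≤ (65 / 63) ^ Fintype.card I := by
    rw [prod_const, card_univ]
    exact pow_le_pow_left₀ (by positivity) (geom_Icc T) _
  have h4 : ((ball I T).card : ℝ) = ((ball I T).card : ℝ) * (1 / 64) ^ T * 64 ^ T := by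
    rw [mul_assoc, ← mul_pow]; norm_num
  rw [h4, mul_comm ((64 : ℝ) ^ T)]
  exact mul_le_mul_of_nonneg_right (h1.trans (h2.trans h3)) (by positivity)

variable {A : Type} [Fintype A] [DecidableEq A]

/-- a column nearly annihilates a nonzero vector -/
def BadCol {N : ℕ} (η : ℕ) (col : A → Fin N) (W : A → ℤ) : Prop :=
  W ≠ 0 ∧ |∑ a, ((col a : ℕ) : ℤ) * W a| ≤ η

open Classical in
theorem card_badCol (N η : ℕ) (W : A → ℤ) :
    (univ.filter fun col : A → Fin N => BadCol η col W).card * N
      ≤ (2 * η + 1) * N ^ Fintype.card A := by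
  by_cases hW : W = 0
  · simp [BadCol, hW]
  obtain ⟨a0, ha0⟩ := Function.ne_iff.1 hW
  have h := card_le_card_of_injOn
    (s := (univ.filter fun col : A → Fin N => BadCol η col W) ×ˢ (univ : Finset (Fin N)))
    (t := Icc (-(η : ℤ)) η ×ˢ (univ : Finset (A → Fin N)))
    (fun x => (∑ a, ((x.1 a : ℕ) : ℤ) * W a, Function.update x.1 a0 x.2))
    (fun x hx => by
      have := (mem_filter.1 (mem_product.1 hx).1).2.2
      exact mem_product.2 ⟨mem_Icc.2 (abs_le.1 this), mem_univ _⟩)
    (fun x _ x' _ e => by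
      obtain ⟨e1, e2⟩ := Prod.mk.inj e
      have h1 : ∀ a, a ≠ a0 → x.1 a = x'.1 a := fun a ha => by
        have := congrFun e2 a
        simpa [Function.update_of_ne ha] using this
      have h2 : x.2 = x'.2 := by simpa using congrFun e2 a0
      rw [← add_sum_erase _ _ (mem_univ a0), ← add_sum_erase _ _ (mem_univ a0),
        sum_congr rfl (fun a ha => by rw [h1 a (ne_of_mem_erase ha)]), add_left_inj] at e1
      have h3 : x.1 a0 = x'.1 a0 := by
        have := mul_right_cancel₀ ha0 e1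
        exact Fin.ext (by exact_mod_cast this)
      refine Prod.ext (funext fun a => ?_) h2
      by_cases ha : a = a0
      · rw [ha, h3]
      · exact h1 a ha)
  rw [card_product, card_product, card_univ, card_univ, Fintype.card_fin, Fintype.card_fun,
    Fintype.card_fin, Int.card_Icc] at h
  have e : ((η : ℤ) + 1 - -(η : ℤ)).toNat = 2 * η + 1 := by omega
  rwa [e] at h

/-- the vectors attached to a code `D` -/
def dec {s : ℕ} (D : Option (Fin (s + 1)) × A → ℤ) (i : Fin s) (a : A) : ℤ :=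
  D (none, a) + ∑ l : Fin (s + 1), if (i : ℕ) < l then D (some l, a) else 0

open Classical in
theorem card_badAll (N η s : ℕ) (hN : 0 < N) (β : Fin s → A) (hβ : Function.Injective β)
    (W : Fin s → A → ℤ) :
    ((univ.filter fun γ : A → A → Fin N => ∀ i, BadCol η (γ (β i)) (W i)).card : ℝ)
      ≤ ((2 * η + 1) / N) ^ s * ((N : ℝ) ^ Fintype.card A) ^ Fintype.card A := by
  have hN' : (0 : ℝ) < N := by exact_mod_cast hN
  have e : (univ.filter fun γ : A → A → Fin N => ∀ i, BadCol η (γ (β i)) (W i))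
      = Fintype.piFinset fun b => univ.filter fun col : A → Fin N =>
        ∀ i, β i = b → BadCol η col (W i) := by
    ext γ
    simp only [mem_filter, mem_univ, true_and, Fintype.mem_piFinset]
    exact ⟨fun h b i e => e ▸ h i, fun h i => h _ i rfl⟩
  rw [e, Fintype.card_piFinset, Nat.cast_prod]
  refine (prod_le_prod (g := fun b => (if b ∈ univ.image β then (2 * η + 1 : ℝ) / N else 1) *
    (N : ℝ) ^ Fintype.card A) (fun _ _ => by positivity) fun b _ => ?_).trans ?_
  · split_ifs with hb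
    · obtain ⟨i, -, rfl⟩ := mem_image.1 hb
      have h1 := card_badCol N η (W i)
      have h2 : (univ.filter fun col : A → Fin N => ∀ j, β j = β i → BadCol η col (W j)).card
          ≤ (univ.filter fun col : A → Fin N => BadCol η col (W i)).card :=
        card_le_card fun col hc => mem_filter.2 ⟨mem_univ _, (mem_filter.1 hc).2 i rfl⟩
      rw [div_mul_eq_mul_div, le_div_iff₀ hN']
      exact_mod_cast (Nat.mul_le_mul_right N h2).trans h1
    · rw [one_mul]
      have := card_le_univ (univ.filter fun col : A → Fin N => ∀ i, β i = b → BadCol η col (W i))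
      rw [Fintype.card_fun, Fintype.card_fin] at this
      exact_mod_cast this
  · rw [prod_mul_distrib, prod_const, card_univ, prod_ite, prod_const, prod_const_one, mul_one,
      filter_mem_eq_inter, univ_inter, card_image_of_injective _ hβ, card_univ, Fintype.card_fin]

theorem exists_cols (N η s T : ℕ) (hN : 0 < N)
    (h : (Fintype.card A : ℝ) ^ s * (64 ^ T * (65 / 63) ^ ((s + 2) * Fintype.card A)) *
      ((2 * η + 1) / N) ^ s < 1) :
    ∃ γ : A → A → Fin N, ∀ β : Fin s → A, Function.Injective β →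
      ∀ D : Option (Fin (s + 1)) × A → ℤ, ∑ x, |D x| ≤ T →
        ∃ i, ¬ BadCol η (γ (β i)) (dec D i) := by
  classical
  by_contra hc
  push Not at hc
  have hN' : (0 : ℝ) < N := by exact_mod_cast hN
  set P := ((univ : Finset (Fin s → A)).filter Function.Injective) ×ˢ
    ball (Option (Fin (s + 1)) × A) T with hP
  have h1 : (univ : Finset (A → A → Fin N)) ⊆ P.biUnion fun x =>
      univ.filter fun γ : A → A → Fin N => ∀ i, BadCol η (γ (x.1 i)) (dec x.2 i) := by
    intro γ _
    obtain ⟨β, hβ, D, hD, hh⟩ := hc γ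
    exact mem_biUnion.2 ⟨(β, D), mem_product.2 ⟨mem_filter.2 ⟨mem_univ _, hβ⟩, mem_ball hD⟩,
      mem_filter.2 ⟨mem_univ _, hh⟩⟩
  have h2 := (card_le_card h1).trans card_biUnion_le
  have h3 : (((N : ℝ) ^ Fintype.card A) ^ Fintype.card A) ≤ ∑ x ∈ P,
      ((2 * η + 1) / N : ℝ) ^ s * ((N : ℝ) ^ Fintype.card A) ^ Fintype.card A := by
    refine le_trans ?_ (sum_le_sum fun x hx => card_badAll N η s hN x.1
      (mem_filter.1 (mem_product.1 hx).1).2 (dec x.2))
    rw [card_univ, Fintype.card_fun, Fintype.card_fun, Fintype.card_fin] at h2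
    exact_mod_cast h2
  rw [sum_const, nsmul_eq_mul, ← mul_assoc] at h3
  have h4 : (P.card : ℝ) ≤ (Fintype.card A : ℝ) ^ s *
      (64 ^ T * (65 / 63) ^ ((s + 2) * Fintype.card A)) := by
    rw [hP, card_product, Nat.cast_mul]
    refine mul_le_mul ?_ ?_ (by positivity) (by positivity)
    · have := card_filter_le (univ : Finset (Fin s → A)) Function.Injective
      rw [card_univ, Fintype.card_fun, Fintype.card_fin] at this
      exact_mod_cast this
    · simpa using card_ball (Option (Fin (s + 1)) × A) T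
  have h5 : (0 : ℝ) < ((N : ℝ) ^ Fintype.card A) ^ Fintype.card A := by positivity
  have h6 : (P.card : ℝ) * ((2 * η + 1) / N : ℝ) ^ s < 1 :=
    lt_of_le_of_lt (mul_le_mul_of_nonneg_right h4 (by positivity)) h
  nlinarith

end Pool.Agent.P.MP_59d724_co
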