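import Pool.Agent.P.MP_59d724_co.KStep
import Pool.Agent.P.MP_59d724_co.Defs

set_option autoImplicit false
set_option linter.unusedSectionVars false

namespace Pool.Agent.P.MP_59d724_co

open Finset

theorem numeric (k Q N : ℕ) (hk : k + 197 ≤ Q * 4) (hN : 2 ^ Q ≤ 256 * Q * N) :
    ((Q * 4 : ℕ) : ℝ) ^ 192 * (64 ^ (5 * (k + 1)) * (65 / 63) ^ ((192 + 2) * (Q * 4))) *
      ((2 * (5 * (k + 1) : ℕ) + 1) / N) ^ 192 < 1 := by
  have hQ : (0 : ℝ) < Q := by exact_mod_cast (show 0 < Q by omega)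
  have hN0 : (0 : ℝ) < N := by
    have : 0 < 2 ^ Q := by positivity
    exact_mod_cast Nat.pos_of_ne_zero fun h => by rw [h] at hN; omega
  have h1 : (64 : ℝ) ^ (5 * (k + 1)) ≤ ((31 / 20) ^ Q / 2 ^ 30) ^ 192 := by
    rw [div_pow, le_div_iff₀ (by positivity), pow_right_comm (31 / 20 : ℝ)]
    refine le_trans ?_ (pow_le_pow_left₀ (by positivity)
      (show ((64 : ℝ) ^ 20) ≤ (31 / 20) ^ 192 by norm_num) Q)
    rw [show ((2 : ℝ) ^ 30) = 64 ^ 5 by norm_num, ← pow_mul, ← pow_add, ← pow_mul]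
    exact pow_le_pow_right₀ (by norm_num) (by omega)
  have h2 : ((65 : ℝ) / 63) ^ ((192 + 2) * (Q * 4)) ≤ ((57 / 50) ^ Q) ^ 192 := by
    rw [← pow_mul, mul_comm Q 192, pow_mul (57 / 50 : ℝ), show (192 + 2) * (Q * 4) = 776 * Q by ring,
      pow_mul]
    refine pow_le_pow_left₀ (by positivity) ?_ Q
    have a1 : ((65 : ℝ) / 63) ^ 97 ≤ (57 / 50) ^ 24 := by norm_num
    have a2 := pow_le_pow_left₀ (by positivity) a1 8
    rwa [← pow_mul, ← pow_mul] at a2
  refine lt_of_le_of_lt (mul_le_mul_of_nonneg_right (mul_le_mul_of_nonneg_left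
    (mul_le_mul h1 h2 (pow_nonneg (by norm_num) _) (pow_nonneg (by positivity) _))
    (pow_nonneg (by positivity) _)) (pow_nonneg (by positivity) _)) ?_
  rw [← mul_pow, ← mul_pow, ← mul_pow]
  refine pow_lt_one₀ (by positivity) ?_ (by norm_num)
  have h3 : (2 * (5 * (k + 1) : ℕ) + 1 : ℝ) ≤ 40 * Q := by
    exact_mod_cast (show 2 * (5 * (k + 1)) + 1 ≤ 40 * Q by omega)
  have h4 : (2 : ℝ) ^ Q ≤ 256 * Q * N := by exact_mod_cast hN
  have h5 : (1 : ℝ) + Q * (1 / 25) ≤ (1 + 1 / 25) ^ Q := one_add_mul_le_pow (by norm_num) Q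
  have h6 : ((Q : ℝ) / 25) ^ 3 * ((31 / 20) ^ Q * (57 / 50) ^ Q) ≤ 2 ^ Q := by
    refine le_trans (mul_le_mul_of_nonneg_right (pow_le_pow_left₀ (by positivity)
      (show (Q : ℝ) / 25 ≤ (1 + 1 / 25) ^ Q by linarith) 3) (by positivity)) ?_
    rw [← pow_mul, mul_comm Q 3, pow_mul, ← mul_pow, ← mul_pow]
    exact pow_le_pow_left₀ (by positivity) (by norm_num) Q
  rw [← mul_div_assoc, div_lt_one hN0, div_mul_eq_mul_div]
  have h7 : (0 : ℝ) < (31 / 20) ^ Q * (57 / 50) ^ Q := by positivity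
  generalize ((31 : ℝ) / 20) ^ Q * (57 / 50) ^ Q = B at *
  refine lt_of_le_of_lt (mul_le_mul_of_nonneg_left h3 (by positivity)) ?_
  have h8 : (Q : ℝ) * ((Q / 25) ^ 2 / 25 * B) ≤ Q * (256 * N) := by linarith
  have h9 := le_of_mul_le_mul_left h8 hQ
  push_cast
  nlinarith [mul_pos (mul_pos hQ hQ) h7]

theorem exists_good (k : ℕ) : ∃ q : ℕ, (q + 1) * 4 ≤ k + 200 ∧
    ∀ L, ∃ w : ℕ → Fin (q + 1) × Fin 4, Good k w (L + 1) := by
  obtain ⟨q, h1, h2⟩ : ∃ q : ℕ, (q + 1) * 4 ≤ k + 200 ∧ k + 197 ≤ (q + 1) * 4 :=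
    ⟨(k + 200) / 4 - 1, by omega, by omega⟩
  refine ⟨q, h1, ?_⟩
  have h3 : ∀ n, 10 ≤ n → 16 * ((n + 1) * 4) ≤ 2 ^ n := by
    intro n hn
    induction n, hn using Nat.le_induction with
    | base => norm_num
    | succ n hn ih => rw [pow_succ]; omega
  have h4 := h3 q (by omega)
  set N := 2 ^ q / (16 * ((q + 1) * 4)) with hN
  have hN0 : 0 < N := Nat.div_pos h4 (by omega)
  have h5 : 16 * ((q + 1) * 4) * N ≤ 2 ^ q := Nat.mul_div_le _ _
  have h6 : 2 ^ q < 16 * ((q + 1) * 4) * (N + 1) := Nat.lt_mul_div_succ _ (by omega)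
  have h7 : 2 ^ (q + 1) ≤ 256 * (q + 1) * N := by rw [pow_succ]; nlinarith
  obtain ⟨γ, hγ⟩ := exists_cols (A := Fin (q + 1) × Fin 4) N (5 * (k + 1)) 192 (5 * (k + 1)) hN0
    (by simpa only [Fintype.card_prod, Fintype.card_fin] using numeric k (q + 1) N h2 h7)
  intro L
  induction L with
  | zero => exact ⟨fun _ => (0, 0), good_one _ _⟩
  | succ L ih =>
    obtain ⟨w, hw⟩ := ih
    exact step k q 192 N (by omega) hN0 (by omega) h5 γ hγ w _ (by omega) hw

theorem telescope (ε : ℕ → ℤ) (Y : Finset ℤ) :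
    ∑ y ∈ Y, (ε ((Y.filter (· < y)).card + 1) - ε (Y.filter (· < y)).card) = ε Y.card - ε 0 := by
  induction Y using Finset.induction_on_max with
  | empty => simp
  | insert a Y ha ih =>
    have h : a ∉ Y := fun h => lt_irrefl _ (ha a h)
    rw [sum_insert h, card_insert_of_notMem h, filter_insert, if_neg (lt_irrefl _),
      filter_true_of_mem ha, sum_congr rfl fun y hy => by
        rw [filter_insert, if_neg (ha y hy).not_gt], ih]
    ring

theorem not_split {A : Type} [DecidableEq A] {m : ℕ} (f : A → Fin m) (hf : Function.Injective f)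
    (k : ℕ) (w : ℕ → A) (n : ℕ) (hw : Good k w (2 * n + 1)) (c : ℤ → Fin m) (a b : ℤ) (hab : a ≤ b)
    (ha : -(n : ℤ) ≤ a) (hb : b ≤ n) (hc : ∀ x ∈ Icc a b, c x = f (w (x + n).toNat)) (r : ℕ)
    (hr : r ≤ k) : ¬ HasSplitting c a b r := by
  rintro ⟨Y, hY, hcard, s, hs⟩
  set ε : ℕ → ℤ := fun i => if s i = true then 1 else -1 with hε
  have hε1 : ∀ i, ε i = 1 ∨ ε i = -1 := fun i => by simp only [hε]; split_ifs <;> simp
  set d : ℤ → ℤ := fun y => ε ((Y.filter (· < y)).card + 1) - ε (Y.filter (· < y)).card with hd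
  have hT : ∑ y ∈ Y, d y = ε Y.card - ε 0 := telescope ε Y
  have hx : ∀ x, ε (Y.filter (· < x)).card = ε 0 + ∑ y ∈ Y, if y < x then d y else 0 := by
    intro x
    have := telescope ε (Y.filter (· < x))
    rw [← sum_filter, eq_comm, ← eq_sub_iff_add_eq', ← this]
    refine sum_congr rfl fun y hy => ?_
    have e : (Y.filter (· < x)).filter (· < y) = Y.filter (· < y) := by
      rw [filter_filter]
      exact filter_congr fun z _ => ⟨fun h => h.2, fun h => ⟨h.trans (mem_filter.1 hy).2, h⟩⟩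
    rw [e]
  have key := hw (Option (Option Y)) none (some none)
    (fun i => i.elim (-ε 0) fun i => i.elim (ε Y.card) fun y => -d y)
    (fun i => i.elim (a + n).toNat fun i => i.elim (b + 1 + n).toNat fun y => (y.1 + 1 + n).toNat)
    (by simp; omega) ?_ ?_ (by simp) ?_ ?_ ?_ ?_ ?_
  · simp only [Option.elim] at key
    omega
  · simp only [Fintype.sum_option, Option.elim, sum_neg_distrib, sum_coe_sort Y d, hT]
    ring
  · simp only [Fintype.sum_option, Option.elim, abs_neg, sum_coe_sort Y fun y => |d y|]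
    have h1 : ∑ y ∈ Y, |d y| ≤ Y.card • (2 : ℤ) := sum_le_card_nsmul _ _ _ fun y _ => by
      simp only [hd]
      rcases hε1 ((Y.filter (· < y)).card + 1) with h | h <;>
        rcases hε1 (Y.filter (· < y)).card with h' | h' <;> rw [h, h'] <;> norm_num
    have h2 : ∀ i, |ε i| = 1 := fun i => by rcases hε1 i with h | h <;> simp [h]
    rw [h2, h2]
    rw [nsmul_eq_mul, hcard] at h1
    omega
  · simp only [Option.elim]
    rcases hε1 0 with h | h <;> simp [h]
  · simp only [Option.elim]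
    rcases hε1 Y.card with h | h <;> simp [h]
  · rintro (_ | _ | y) h1 h2
    · exact absurd rfl h1
    · exact absurd rfl h2
    · simp only [Option.elim, hd]
      rcases hε1 ((Y.filter (· < y.1)).card + 1) with h | h <;>
        rcases hε1 (Y.filter (· < y.1)).card with h' | h' <;> rw [h, h'] <;> decide
  · rintro (_ | _ | y)
    · simp only [Option.elim]; omega
    · simp only [Option.elim]; omega
    · have := mem_Ico.1 (hY y.2)
      simp only [Option.elim]; omega
  · intro j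
    have hP : ∀ t, a ≤ t → t ≤ b + 1 → cnt w j (t + n).toNat = cnt w j (a + n).toNat +
        ∑ x ∈ Icc a b, if x < t then (if c x = f j then 1 else 0) else 0 := by
      intro t h1
      induction t, h1 using Int.leInduction with
      | base =>
        intro _
        rw [sum_eq_zero fun x hx => if_neg (not_lt.2 (mem_Icc.1 hx).1), add_zero]
      | succ t h1 ih =>
        intro h2
        have hm : t ∈ Icc a b := mem_Icc.2 ⟨h1, by omega⟩
        rw [show (t + 1 + n).toNat = (t + n).toNat + 1 by omega, cnt_succ, ih (by omega), add_assoc,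
          ← add_sum_erase _ _ hm, ← add_sum_erase _ _ hm, if_neg (lt_irrefl _),
          if_pos (lt_add_one t), hc t hm, zero_add, add_comm (∑ _ ∈ _, _)]
        simp only [hf.eq_iff]
        congr 2
        refine sum_congr rfl fun x hx => ?_
        have := ne_of_mem_erase hx
        exact if_congr (by omega) rfl rfl
    have h1 := hs (f j)
    rw [Finset.card_filter, Finset.card_filter] at h1
    have h2 := congrArg (Nat.cast : ℕ → ℤ) h1
    push_cast at h2
    rw [← sub_eq_zero, ← Finset.sum_sub_distrib] at h2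
    have h3 : ∑ x ∈ Icc a b, ε (Y.filter (· < x)).card * (if c x = f j then 1 else 0) = 0 := by
      refine Eq.trans (Finset.sum_congr rfl fun t _ => ?_) h2
      simp only [hε]
      by_cases h3 : c t = f j <;> cases s (Y.filter (· < t)).card <;> simp [h3]
    simp only [Fintype.sum_option, Option.elim,
      sum_coe_sort Y fun y => -d y * cnt w j (y + 1 + n).toNat]
    rw [hP (b + 1) (by omega) le_rfl, sum_congr rfl (s₁ := Y) fun y hy => by
      rw [hP (y + 1) (by have := mem_Ico.1 (hY hy); omega) (by have := mem_Ico.1 (hY hy); omega)]]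
    have h4 : ε Y.card = ε 0 + ∑ y ∈ Y, d y := by rw [hT]; ring
    rw [h4]
    simp only [hx, add_mul, sum_add_distrib, sum_mul] at h3
    rw [sum_comm, ← mul_sum] at h3
    rw [sum_congr rfl (s₁ := Icc a b) fun x hx => if_pos (by have := mem_Icc.1 hx; omega)]
    have h5 : ∀ y ∈ Y, ∑ x ∈ Icc a b, (if y < x then d y else 0) * (if c x = f j then 1 else 0)
        = d y * (∑ x ∈ Icc a b, if c x = f j then 1 else 0) -
          d y * ∑ x ∈ Icc a b, if x < y + 1 then (if c x = f j then 1 else 0) else 0 := by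
      intro y _
      rw [mul_sum, mul_sum, ← sum_sub_distrib]
      refine sum_congr rfl fun x _ => ?_
      by_cases h : y < x
      · rw [if_pos h, if_neg (show ¬ x < y + 1 by omega)]; ring
      · rw [if_neg h, if_pos (show x < y + 1 by omega)]; ring
    rw [sum_congr rfl h5, sum_sub_distrib, ← sum_mul] at h3
    simp only [neg_mul, mul_add, sum_add_distrib, sum_neg_distrib, ← sum_mul]
    linarith

theorem main_add (k : ℕ) : ∃ c : ℤ → Fin (k + 200),
    ∀ a b : ℤ, a ≤ b → ∀ r ≤ k, ¬ HasSplitting c a b r := by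
  obtain ⟨q, hq, h⟩ := exists_good k
  choose w hw using h
  obtain ⟨f⟩ : Nonempty (Fin (q + 1) × Fin 4 ↪ Fin (k + 200)) :=
    Function.Embedding.nonempty_of_card_le (by simpa using hq)
  have h1 : ∀ z : ℤ, ∃ x, ∀ᶠ n in (Filter.hyperfilter ℕ : Filter ℕ),
      w (2 * n) (z + n).toNat = x := fun z => by
    obtain ⟨x, hx⟩ := ((Filter.hyperfilter ℕ).map
      fun n => w (2 * n) (z + n).toNat).eq_pure_of_finite
    have : {x} ∈ (Filter.hyperfilter ℕ).map fun n => w (2 * n) (z + n).toNat := by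
      rw [hx]; simp
    exact ⟨x, this⟩
  choose c hc using h1
  refine ⟨fun z => f (c z), fun a b hab r hr => ?_⟩
  have h2 := (Filter.eventually_all_finset (Icc a b)).2 fun z _ => hc z
  have h3 : ∀ᶠ n in (Filter.hyperfilter ℕ : Filter ℕ), a.natAbs + b.natAbs ≤ n :=
    Filter.hyperfilter_le_cofinite (by
      rw [Nat.cofinite_eq_atTop]; exact Filter.eventually_ge_atTop _)
  obtain ⟨n, h4, h5⟩ := (h2.and h3).exists
  exact not_split f f.injective k _ n (hw (2 * n)) _ a b hab (by omega) (by omega)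
    (fun x hx => by rw [h4 x hx]) r hr

end Pool.Agent.P.MP_59d724_co
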