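import Pool.Agent.P.MP_59d724_co.KUnit
import Pool.Agent.P.MP_59d724_co.KCount

set_option autoImplicit false
set_option linter.unusedSectionVars false

namespace Pool.Agent.P.MP_59d724_co

open Finset

section zone
variable {A : Type} [Fintype A] [DecidableEq A] {m : ℕ}

/-- the zone track of the block of the letter `a` -/
def zone (e : A ≃ Fin m) (N X : ℕ) (pad : A) (g : A → A → ℕ) (a : A) (u : ℕ) : A :=
  if u < X then a else if h : (u - X) / N < m then
    (if (u - X) % N < g a (e.symm ⟨_, h⟩) then e.symm ⟨_, h⟩ else pad) else pad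

theorem zone_eq (e : A ≃ Fin m) {N : ℕ} (X : ℕ) (pad : A) {g : A → A → ℕ} (hN : 0 < N)
    (hg : ∀ a b, g a b ≤ N) (a b : A) (hb : b ≠ pad) (u : ℕ) :
    zone e N X pad g a u = b ↔
      (u < X ∧ a = b) ∨ (X + N * e b ≤ u ∧ u < X + N * e b + g a b) := by
  unfold zone
  have h0 := Nat.div_add_mod (u - X) N
  have h1 := Nat.mod_lt (u - X) hN
  have key : X + N * e b ≤ u → u < X + N * e b + g a b → (u - X) / N = e b := fun h2 h3 => by
    have := hg a b
    rw [Nat.div_eq_iff hN, mul_comm]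
    omega
  split_ifs with h2 h3 h4
  · simp only [h2, true_and]
    exact ⟨Or.inl, fun h => h.elim id fun h => by omega⟩
  · simp only [h2, false_and, false_or]
    constructor
    · intro h
      have e1 : (u - X) / N = e b := by rw [← h]; simp
      rw [h] at h4
      rw [e1] at h0
      omega
    · rintro ⟨h5, h6⟩
      rw [Equiv.symm_apply_eq]
      exact Fin.ext (key h5 h6)
  · simp only [h2, false_and, false_or]
    refine ⟨fun h => absurd h.symm hb, fun ⟨h5, h6⟩ => absurd ?_ h4⟩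
    have e1 := key h5 h6
    have e2 : e.symm ⟨_, h3⟩ = b := by rw [Equiv.symm_apply_eq]; exact Fin.ext e1
    rw [e2]
    rw [e1] at h0
    omega
  · simp only [h2, false_and, false_or]
    refine ⟨fun h => absurd h.symm hb, fun ⟨h5, h6⟩ => absurd ?_ h3⟩
    rw [key h5 h6]
    exact (e b).2

theorem cnt_zone (e : A ≃ Fin m) {N : ℕ} (X : ℕ) (pad : A) {g : A → A → ℕ} (hN : 0 < N)
    (hg : ∀ a b, g a b ≤ N) (a b : A) (hb : b ≠ pad) (u : ℕ) :
    cnt (zone e N X pad g a) b u = (if a = b then ((min u X : ℕ) : ℤ) else 0) +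
      ((min (u - (X + N * e b)) (g a b) : ℕ) : ℤ) := by
  induction u with
  | zero => simp
  | succ u ih =>
    rw [cnt_succ, ih]
    simp only [zone_eq e X pad hN hg a b hb]
    by_cases h : a = b
    · simp only [h, and_true, if_true]
      split_ifs <;> omega
    · simp only [h, and_false, if_false, false_or]
      split_ifs <;> omega

theorem cnt_zone_self (e : A ≃ Fin m) (N X : ℕ) (pad : A) (g : A → A → ℕ) (a : A) (u : ℕ) :
    (X : ℤ) ≤ cnt (zone e N X pad g a) a (X + u) := by
  rw [cnt_add]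
  have h1 := cnt_nonneg (fun t => zone e N X pad g a (X + t)) a u
  have h2 : cnt (zone e N X pad g a) a X = X := by
    unfold cnt
    rw [sum_congr rfl (g := fun _ => 1) fun t ht => by simp [zone, mem_range.1 ht]]
    simp
  omega

theorem cnt_blocks (Z : A → ℕ → A) (U : ℕ) (hU : 0 < U) (w : ℕ → A) (b : A) (n : ℕ) :
    cnt (fun t => Z (w (t / U)) (t % U)) b n =
      ∑ a, cnt w a (n / U) * cnt (Z a) b U + cnt (Z (w (n / U))) b (n % U) := by
  have h : ∀ Y r, r ≤ U → cnt (fun t => Z (w ((U * Y + t) / U)) ((U * Y + t) % U)) b r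
      = cnt (Z (w Y)) b r := fun Y r hr =>
    cnt_congr b r fun t ht => by
      rw [Nat.mul_add_div hU, Nat.mul_add_mod, Nat.div_eq_of_lt (by omega),
        Nat.mod_eq_of_lt (by omega), add_zero]
  have h1 : ∀ Y, cnt (fun t => Z (w (t / U)) (t % U)) b (U * Y)
      = ∑ a, cnt w a Y * cnt (Z a) b U := by
    intro Y
    induction Y with
    | zero => simp
    | succ Y ih =>
      rw [mul_add, mul_one, cnt_add, ih, h _ _ le_rfl]
      simp [cnt_succ, add_mul, sum_add_distrib]
  conv_lhs => rw [← Nat.div_add_mod n U]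
  rw [cnt_add, h1, h _ _ (Nat.mod_lt _ hU).le]

theorem norm_bound {ι : Type} [Fintype ι] (G : A → A → ℤ) (U X η S : ℤ) (hG : ∀ a b, 0 ≤ G a b)
    (hU : ∀ a, ∑ b, G a b = U) (hX : ∀ a, X ≤ G a a) (V : A → ℤ) (c : ι → ℤ) (p : ι → A → ℤ)
    (hS : ∑ i, |c i| ≤ S) (hp : ∀ i b, 0 ≤ p i b) (hU0 : 0 ≤ U) (hp' : ∀ i, ∑ b, p i b ≤ U)
    (h : ∀ b, |∑ a, V a * G a b + ∑ i, c i * p i b| ≤ η) :
    (∑ a, |V a|) * (2 * X - U) ≤ Fintype.card A * η + S * U := by
  have h1 : ∀ b, 2 * (|V b| * G b b) ≤ η + ∑ a, |V a| * G a b + ∑ i, |c i| * p i b := by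
    intro b
    have a1 := h b
    rw [← add_sum_erase _ _ (mem_univ b)] at a1 ⊢
    have a2 : |∑ a ∈ univ.erase b, V a * G a b| ≤ ∑ a ∈ univ.erase b, |V a| * G a b :=
      (abs_sum_le_sum_abs _ _).trans (le_of_eq (sum_congr rfl fun a _ => by
        rw [abs_mul, abs_of_nonneg (hG a b)]))
    have a3 : |∑ i, c i * p i b| ≤ ∑ i, |c i| * p i b :=
      (abs_sum_le_sum_abs _ _).trans (le_of_eq (sum_congr rfl fun i _ => by
        rw [abs_mul, abs_of_nonneg (hp i b)]))
    have a4 : |V b| * G b b = |V b * G b b| := by rw [abs_mul, abs_of_nonneg (hG b b)]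
    rw [a4]
    rw [abs_le] at a1 a2 a3
    rcases abs_cases (V b * G b b) with h | h <;> linarith
  have h2 := sum_le_sum fun b (_ : b ∈ univ) => h1 b
  rw [sum_add_distrib, sum_add_distrib, sum_const, card_univ, nsmul_eq_mul, sum_comm,
    sum_comm (t := (univ : Finset ι))] at h2
  simp only [← mul_sum, hU] at h2
  have h3 : ∑ i, |c i| * ∑ b, p i b ≤ S * U := by
    refine le_trans ?_ (mul_le_mul_of_nonneg_right hS hU0)
    rw [sum_mul]
    exact sum_le_sum fun i _ => mul_le_mul_of_nonneg_left (hp' i) (abs_nonneg _)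
  have h4 : (∑ a, |V a|) * X ≤ ∑ b, |V b| * G b b := by
    rw [sum_mul]
    exact sum_le_sum fun a _ => mul_le_mul_of_nonneg_left (hX a) (abs_nonneg _)
  rw [← sum_mul] at h2
  linarith

end zone

/-- no balanced signed combination of at most `k + 2` prefixes of length at most `L` -/
def Good {A : Type} [DecidableEq A] (k : ℕ) (w : ℕ → A) (L : ℕ) : Prop :=
  ∀ (ι : Type) [Fintype ι] (p q : ι) (c : ι → ℤ) (y : ι → ℕ), Fintype.card ι ≤ k + 2 →
    ∑ i, c i = 0 → ∑ i, |c i| ≤ 2 * (k + 1) → p ≠ q → Odd (c p) → Odd (c q) →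
    (∀ i, i ≠ p → i ≠ q → Even (c i)) → (∀ i, y i ≤ L) →
    (∀ b, ∑ i, c i * cnt w b (y i) = 0) → y p = y q

theorem parity {ι : Type} [Fintype ι] (p q : ι) (c f : ι → ℤ) (hpq : p ≠ q) (hp : Odd (c p))
    (hq : Odd (c q)) (ho : ∀ i, i ≠ p → i ≠ q → Even (c i)) (h : ∑ i, c i * f i = 0) :
    2 ∣ f p - f q := by
  classical
  rw [← add_sum_erase _ _ (mem_univ p), ← add_sum_erase _ _ (mem_erase.2 ⟨hpq.symm, mem_univ q⟩)]
    at h
  have h1 : 2 ∣ ∑ i ∈ (univ.erase p).erase q, c i * f i := dvd_sum fun i hi =>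
    (ho i (ne_of_mem_erase (mem_of_mem_erase hi)) (ne_of_mem_erase hi)).two_dvd.mul_right _
  obtain ⟨x, hx⟩ := hp
  obtain ⟨z, hz⟩ := hq
  obtain ⟨v, hv⟩ := h1
  rw [hx, hz, hv] at h
  exact ⟨-(x * f p) - (z + 1) * f q - v, by linarith⟩

theorem good_one {A : Type} [DecidableEq A] (k : ℕ) (w : ℕ → A) : Good k w 1 := by
  intro ι _ p q c y _ _ _ hpq hp hq ho hL H
  have h1 := parity p q c _ hpq hp hq ho (H (w 0))
  have h2 : ∀ n ≤ 1, cnt w (w 0) n = n := fun n hn => by
    interval_cases n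
    · simp
    · simpa using cnt_succ w (w 0) 0
  rw [h2 _ (hL p), h2 _ (hL q)] at h1
  have := hL p
  have := hL q
  omega

theorem dec_code {A ι : Type} [Fintype A] [DecidableEq A] [Fintype ι] {s : ℕ} (V : A → ℤ)
    (c : ι → ℤ) (x : ι → A) (u : ι → ℕ) (st : Fin s → ℕ) (hst : Monotone st) :
    ∃ D : Option (Fin (s + 1)) × A → ℤ, ∑ z, |D z| ≤ ∑ a, |V a| + ∑ i, |c i| ∧
      ∀ j a, dec D j a = V a + ∑ i, c i * (if st j ≤ u i ∧ x i = a then 1 else 0) := by
  classical
  have hlev : ∀ i, (univ.filter fun j => st j ≤ u i).card < s + 1 := fun i =>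
    Nat.lt_succ_of_le ((card_filter_le _ _).trans (by simp))
  set lev : ι → Fin (s + 1) := fun i => ⟨_, hlev i⟩ with hl
  have hlt : ∀ (j : Fin s) i, (j : ℕ) < lev i ↔ st j ≤ u i := by
    intro j i
    simp only [hl]
    constructor
    · intro h
      by_contra h1
      have : (univ.filter fun j' => st j' ≤ u i) ⊆ Iio j := fun j' hj' => by
        rw [mem_Iio]
        by_contra h2
        have := hst (not_lt.1 h2)
        have := (mem_filter.1 hj').2
        omega
      have := card_le_card this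
      rw [Fin.card_Iio] at this
      omega
    · intro h
      have : Iic j ⊆ univ.filter fun j' => st j' ≤ u i := fun j' hj' =>
        mem_filter.2 ⟨mem_univ _, (hst (mem_Iic.1 hj')).trans h⟩
      have := card_le_card this
      rw [Fin.card_Iic] at this
      omega
  refine ⟨fun z => z.1.elim (V z.2) fun l => ∑ i, if lev i = l ∧ x i = z.2 then c i else 0,
    ?_, fun j a => ?_⟩
  · rw [Fintype.sum_prod_type, Fintype.sum_option]
    simp only [Option.elim]
    refine add_le_add le_rfl ?_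
    refine (sum_le_sum fun l _ => sum_le_sum fun a _ => abs_sum_le_sum_abs _ _).trans ?_
    rw [← Fintype.sum_prod_type', sum_comm]
    refine sum_le_sum fun i _ => ?_
    rw [sum_eq_single (lev i, x i)]
    · simp
    · intro z _ hz
      rw [if_neg fun h => hz (Prod.ext h.1.symm h.2.symm), abs_zero]
    · simp
  · unfold dec
    simp only [Option.elim]
    congr 1
    rw [sum_congr rfl (g := fun l => ∑ i, if lev i = l then
      (if (j : ℕ) < lev i ∧ x i = a then c i else 0) else 0) fun l _ => ?_, sum_comm]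
    · refine sum_congr rfl fun i _ => ?_
      simp [hlt]
    · split_ifs with h
      · refine sum_congr rfl fun i _ => ?_
        by_cases h1 : lev i = l <;> simp [h1, h]
      · refine (sum_eq_zero fun i _ => ?_).symm
        by_cases h1 : lev i = l <;> simp [h1, h]

theorem step (k q s N : ℕ) (hq : 1 ≤ q) (hN : 0 < N) (hm : k + 3 + s ≤ (q + 1) * 4)
    (hU : 16 * ((q + 1) * 4) * N ≤ 2 ^ q) (γ : Fin (q + 1) × Fin 4 → Fin (q + 1) × Fin 4 → Fin N)
    (hγ : ∀ β : Fin s → Fin (q + 1) × Fin 4, Function.Injective β →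
      ∀ D : Option (Fin (s + 1)) × (Fin (q + 1) × Fin 4) → ℤ, ∑ x, |D x| ≤ (5 * (k + 1) : ℕ) →
        ∃ i, ¬ BadCol (5 * (k + 1)) (γ (β i)) (dec D i))
    (w : ℕ → Fin (q + 1) × Fin 4) (L : ℕ) (hL : 1 ≤ L) (hw : Good k w L) :
    ∃ w' : ℕ → Fin (q + 1) × Fin 4, Good k w' (L + 1) := by
  obtain ⟨m, hmdef⟩ : ∃ m, m = (q + 1) * 4 := ⟨_, rfl⟩
  have hcard : Fintype.card (Fin (q + 1) × Fin 4) = m := by simp [hmdef]
  rw [← hmdef] at hm hU
  set e : Fin (q + 1) × Fin 4 ≃ Fin m := Fintype.equivFinOfCardEq hcard with he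
  obtain ⟨X, hX⟩ : ∃ X, X = 15 * (m * N) := ⟨_, rfl⟩
  obtain ⟨U, hUdef⟩ : ∃ U, U = X + m * N := ⟨_, rfl⟩
  have hmN : m ≤ m * N := Nat.le_mul_of_pos_right _ hN
  have hU0 : 0 < U := by omega
  have hU2 : U ≤ 2 ^ q := by rw [mul_assoc] at hU; omega
  set pad : Fin (q + 1) × Fin 4 := (0, 0) with hpad
  set g : Fin (q + 1) × Fin 4 → Fin (q + 1) × Fin 4 → ℕ := fun a b => γ b a with hg
  have hgN : ∀ a b, g a b ≤ N := fun a b => (γ b a).2.le
  set Z := zone e N X pad g with hZ
  set ζ : ℕ → Fin (q + 1) × Fin 4 := fun t => Z (w (t / U)) (t % U) with hζ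
  refine ⟨word q ζ, ?_⟩
  intro ι _ p p' c y hι hc0 hS hpq hp hp' ho hy H
  have hη : ∀ b, |∑ i, c i * cnt ζ b (y i / 6)| ≤ 5 * (k + 1) := fun b => by
    have := noise q ζ c y _ hS H b
    linarith
  set Y : ι → ℕ := fun i => y i / 6 / U with hY
  set u : ι → ℕ := fun i => y i / 6 % U with hu
  have huU : ∀ i, u i < U := fun i => Nat.mod_lt _ hU0
  set V : Fin (q + 1) × Fin 4 → ℤ := fun a => ∑ i, c i * cnt w a (Y i) with hV
  have hdec : ∀ b, ∑ i, c i * cnt ζ b (y i / 6) =
      ∑ a, V a * cnt (Z a) b U + ∑ i, c i * cnt (Z (w (Y i))) b (u i) := fun b => by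
    simp only [hζ, cnt_blocks Z U hU0 w b, mul_add, sum_add_distrib, hV, mul_sum, sum_mul]
    rw [sum_comm]
    simp only [mul_assoc, hY, hu]
  have hVn : ∑ a, |V a| ≤ 3 * (k + 1) := by
    have h1 := norm_bound (fun a b => cnt (Z a) b U) U X (5 * (k + 1)) (2 * (k + 1))
      (fun _ _ => cnt_nonneg _ _ _) (fun a => sum_cnt _ _)
      (fun a => by rw [hUdef]; exact cnt_zone_self e N X pad g a _) V c
      (fun i b => cnt (Z (w (Y i))) b (u i)) hS (fun _ _ => cnt_nonneg _ _ _) (by positivity)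
      (fun i => by rw [sum_cnt]; exact_mod_cast (huU i).le) (fun b => by rw [← hdec]; exact hη b)
    rw [hcard, hUdef, hX] at h1
    generalize m * N = M at *
    push_cast at h1
    have h2 : (m : ℤ) ≤ M := by exact_mod_cast hmN
    have h3 : (0 : ℤ) < M := by omega
    by_contra h4
    have h5 : (0 : ℤ) ≤ k + 1 := by positivity
    nlinarith [mul_le_mul_of_nonneg_right h2 h5, mul_pos h3 (sub_pos.2 (not_le.1 h4))]
  set F := univ \ insert pad (univ.image fun i => ζ (y i / 6)) with hF
  have hFs : s ≤ (F.map e.toEmbedding).card := by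
    rw [card_map, hF, card_univ_sdiff, hcard]
    have h1 := card_insert_le pad (univ.image fun i => ζ (y i / 6))
    have h2 := card_image_le (s := univ) (f := fun i => ζ (y i / 6))
    rw [card_univ] at h2
    omega
  set o := (F.map e.toEmbedding).orderEmbOfCardLe hFs with hodef
  have hoF : ∀ j, e.symm (o j) ∈ F := fun j => by
    have := (F.map e.toEmbedding).orderEmbOfCardLe_mem hFs j
    rwa [mem_map_equiv] at this
  obtain ⟨D, hD1, hD2⟩ := dec_code V c (fun i => w (Y i)) u (fun j => X + N * o j)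
    (fun j j' h => Nat.add_le_add_left (Nat.mul_le_mul_left _ (o.monotone h)) _)
  have hDT : ∑ x, |D x| ≤ (5 * (k + 1) : ℕ) := by push_cast; linarith
  obtain ⟨j, hj⟩ := hγ (fun j => e.symm (o j)) (e.symm.injective.comp o.injective) D hDT
  set b := e.symm (o j) with hb
  have hbF := hoF j
  rw [← hb, hF, mem_sdiff, mem_insert, not_or, mem_image] at hbF
  have hbp : b ≠ pad := hbF.2.1
  have hbc : ∀ i, Z (w (Y i)) (u i) ≠ b := fun i h => hbF.2.2 ⟨i, mem_univ _, h⟩
  have heb : e b = o j := by simp [hb]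
  have hst : X + N * o j + N ≤ U := by
    have : N * (o j + 1) ≤ N * m := Nat.mul_le_mul_left _ (o j).2
    rw [mul_add, mul_comm N m] at this
    omega
  have hWn : ∑ a, |dec D j a| ≤ 5 * (k + 1) := by
    simp only [hD2]
    refine (sum_le_sum fun a _ => abs_add_le _ _).trans ?_
    rw [sum_add_distrib]
    refine le_trans (add_le_add hVn (le_trans ?_ hS)) (by linarith)
    refine (sum_le_sum fun a _ => abs_sum_le_sum_abs _ _).trans ?_
    rw [sum_comm]
    refine sum_le_sum fun i _ => ?_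
    rw [sum_eq_single (w (Y i))]
    · split_ifs <;> simp
    · intro a _ ha
      simp [ha.symm]
    · simp
  have hmain : ∑ i, c i * cnt ζ b (y i / 6) =
      X * (V b + ∑ i, c i * if w (Y i) = b then 1 else 0) + ∑ a, (g a b : ℤ) * dec D j a := by
    have h1 : ∀ a, cnt (Z a) b U = (if a = b then (X : ℤ) else 0) + g a b := fun a => by
      rw [hZ, cnt_zone e X pad hN hgN a b hbp, heb]
      have := hgN a b
      rw [min_eq_right (by omega), min_eq_right (by omega)]
    have h2 : ∀ i, cnt (Z (w (Y i))) b (u i) = X * (if w (Y i) = b then 1 else 0) +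
        ∑ a, (g a b : ℤ) * (if X + N * o j ≤ u i ∧ w (Y i) = a then 1 else 0) := fun i => by
      have a1 := hbc i
      rw [hZ, Ne, zone_eq e X pad hN hgN _ b hbp, heb] at a1
      rw [hZ, cnt_zone e X pad hN hgN _ b hbp, heb, sum_eq_single (w (Y i))]
      · by_cases a2 : w (Y i) = b
        · simp only [a2, and_true, if_true] at a1 ⊢
          split_ifs <;> omega
        · simp only [a2, and_true, if_false, and_false, false_or] at a1 ⊢
          split_ifs <;> omega
      · intro a _ ha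
        simp [ha.symm]
      · simp
    rw [hdec]
    simp only [h1, h2, hD2, mul_add, sum_add_distrib, mul_sum]
    rw [sum_comm (s := (univ : Finset ι))]
    have h3 : ∑ a, V a * (if a = b then (X : ℤ) else 0) = X * V b := by simp [mul_comm]
    rw [h3]
    simp only [mul_comm (V _), mul_left_comm (c _)]
    ring
  have hgW : |∑ a, (g a b : ℤ) * dec D j a| ≤ 5 * (k + 1) * N := by
    simp only [mul_comm (g _ b : ℤ)]
    exact delta_bound _ _ _ _ hWn (by positivity) fun a => by
      rw [abs_of_nonneg (by positivity)]; exact_mod_cast hgN a b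
  have hE : V b + ∑ i, c i * (if w (Y i) = b then 1 else 0) = 0 := by
    by_contra h1
    have h2 := hη b
    rw [hmain] at h2
    generalize V b + ∑ i, c i * (if w (Y i) = b then 1 else 0) = E at *
    have h3 : (k + 1 : ℤ) * N ≤ m * N :=
      mul_le_mul_of_nonneg_right (by omega) (by positivity)
    have h4 : (k + 1 : ℤ) ≤ (k + 1) * N := le_mul_of_one_le_right (by positivity) (by omega)
    have h5 : (X : ℤ) = 15 * (m * N) := by exact_mod_cast hX
    rw [abs_le] at h2 hgW
    have h6 : (0 : ℤ) < k + 1 := by positivity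
    rcases lt_or_gt_of_ne h1 with h | h
    · nlinarith [mul_le_mul_of_nonneg_left (show E ≤ -1 by omega) (Nat.cast_nonneg X)]
    · nlinarith [mul_le_mul_of_nonneg_left (show 1 ≤ E by omega) (Nat.cast_nonneg X)]
  have hW0 : dec D j = 0 := by
    by_contra h1
    refine hj ⟨h1, ?_⟩
    have h2 := hη b
    rw [hmain, hE, mul_zero, zero_add] at h2
    push_cast
    exact h2
  have hgood := hw ι p p' c (fun i => Y i + if X + N * o j ≤ u i then 1 else 0) hι hc0 hS hpq hp
    hp' ho (fun i => by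
      have h1 : Y i ≤ y i / 6 := Nat.div_le_self _ _
      have := hy i
      split_ifs <;> omega) (fun a => by
      have h1 := congrFun hW0 a
      rw [hD2, hV, ← sum_add_distrib] at h1
      refine Eq.trans (sum_congr rfl fun i _ => ?_) h1
      by_cases h2 : X + N * o j ≤ u i
      · simp only [h2, if_true, true_and, cnt_succ, mul_add]
      · simp [h2])
  have hn : ∀ i, U * Y i + u i = y i / 6 := fun i => Nat.div_add_mod _ _
  have hclose : ∀ i i', ((Y i + if X + N * o j ≤ u i then 1 else 0) =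
      Y i' + if X + N * o j ≤ u i' then 1 else 0) → y i' / 6 < y i / 6 + 2 ^ q := by
    intro i i' h
    have a1 := hn i
    have a2 := hn i'
    have a3 := huU i
    have a4 := huU i'
    split_ifs at h with h1 h2 h2
    · rw [show Y i = Y i' by omega] at a1; omega
    · rw [show Y i' = Y i + 1 by omega, mul_add] at a2; omega
    · rw [show Y i = Y i' + 1 by omega, mul_add] at a1; omega
    · rw [show Y i = Y i' by omega] at a1; omega
  by_contra hne
  rcases lt_or_gt_of_ne hne with h | h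
  · obtain ⟨a, ha⟩ := degenerate q hq ζ _ _ h (hclose _ _ hgood)
    exact ha (dvd_sub_comm.1 (parity p p' c _ hpq hp hp' ho (H a)))
  · obtain ⟨a, ha⟩ := degenerate q hq ζ _ _ h (hclose _ _ hgood.symm)
    exact ha (parity p p' c _ hpq hp hp' ho (H a))

end Pool.Agent.P.MP_59d724_co
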