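import Mathlib

set_option autoImplicit false
set_option linter.unusedSectionVars false

namespace Pool.Agent.P.MP_59d724_co

open Finset

/-- number of occurrences of `b` among the first `n` letters -/
def cnt {α : Type} [DecidableEq α] (f : ℕ → α) (b : α) (n : ℕ) : ℤ :=
  ∑ t ∈ range n, if f t = b then 1 else 0

section basic
variable {α : Type} [DecidableEq α]

@[simp] theorem cnt_zero (f : ℕ → α) (b : α) : cnt f b 0 = 0 := by simp [cnt]

theorem cnt_succ (f : ℕ → α) (b : α) (n : ℕ) :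
    cnt f b (n + 1) = cnt f b n + if f n = b then 1 else 0 := by
  simp only [cnt, sum_range_succ]

theorem cnt_nonneg (f : ℕ → α) (b : α) (n : ℕ) : 0 ≤ cnt f b n :=
  sum_nonneg fun _ _ => by split_ifs <;> norm_num

theorem cnt_add (f : ℕ → α) (b : α) (n u : ℕ) :
    cnt f b (n + u) = cnt f b n + cnt (fun t => f (n + t)) b u := by
  simp only [cnt, sum_range_add]

theorem cnt_congr {f g : ℕ → α} (b : α) (n : ℕ) (h : ∀ t < n, f t = g t) :
    cnt f b n = cnt g b n :=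
  sum_congr rfl fun t ht => by rw [h t (mem_range.1 ht)]

theorem sum_cnt [Fintype α] (f : ℕ → α) (n : ℕ) : ∑ b, cnt f b n = n := by
  unfold cnt
  rw [sum_comm]
  simp

end basic

section delta
variable {ι : Type} [Fintype ι]

theorem delta_bound (c f : ι → ℤ) (S B : ℤ) (hS : ∑ i, |c i| ≤ S) (hB0 : 0 ≤ B)
    (hB : ∀ i, |f i| ≤ B) : |∑ i, c i * f i| ≤ S * B := by
  refine (abs_sum_le_sum_abs _ _).trans (le_trans ?_ (mul_le_mul_of_nonneg_right hS hB0))
  rw [sum_mul]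
  exact sum_le_sum fun i _ => by
    rw [abs_mul]; exact mul_le_mul_of_nonneg_left (hB i) (abs_nonneg _)

theorem delta_div (c : ι → ℤ) (n : ι → ℕ) (S : ℤ) (hS : ∑ i, |c i| ≤ S) (D : ℕ) (hD : 0 < D)
    (hn : |∑ i, c i * (n i : ℤ)| ≤ S) : |∑ i, c i * ((n i / D : ℕ) : ℤ)| ≤ S := by
  have h1 : |∑ i, c i * ((n i % D : ℕ) : ℤ)| ≤ S * (D - 1) :=
    delta_bound c _ S _ hS (by omega) fun i => by
      have := Nat.mod_lt (n i) hD
      rw [abs_le]; omega
  have h2 : (D : ℤ) * ∑ i, c i * ((n i / D : ℕ) : ℤ)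
      = ∑ i, c i * (n i : ℤ) - ∑ i, c i * ((n i % D : ℕ) : ℤ) := by
    rw [mul_sum, ← sum_sub_distrib]
    refine sum_congr rfl fun i _ => ?_
    have : (n i : ℤ) = D * ((n i / D : ℕ) : ℤ) + ((n i % D : ℕ) : ℤ) := by
      exact_mod_cast (Nat.div_add_mod (n i) D).symm
    rw [this]; ring
  have h3 : (D : ℤ) * |∑ i, c i * ((n i / D : ℕ) : ℤ)| ≤ D * S := by
    have : |(D : ℤ) * ∑ i, c i * ((n i / D : ℕ) : ℤ)| ≤ S + S * (D - 1) := by
      rw [h2]; exact (abs_sub _ _).trans (add_le_add hn h1)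
    rw [abs_mul, abs_of_nonneg (by positivity : (0 : ℤ) ≤ D)] at this
    linarith
  exact le_of_mul_le_mul_left h3 (by exact_mod_cast hD)

end delta

/-- the truncated ruler sequence -/
def ruler (q t : ℕ) : Fin (q + 1) :=
  ⟨Nat.findGreatest (fun j => 2 ^ j ∣ t + 1) q, Nat.lt_succ_of_le (Nat.findGreatest_le q)⟩

theorem ruler_eq {q t : ℕ} {j : Fin (q + 1)} :
    ruler q t = j ↔ 2 ^ (j : ℕ) ∣ t + 1 ∧ ((j : ℕ) < q → ¬ 2 ^ ((j : ℕ) + 1) ∣ t + 1) := by
  rw [Fin.ext_iff]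
  show Nat.findGreatest _ q = _ ↔ _
  rw [Nat.findGreatest_eq_iff]
  constructor
  · rintro ⟨-, h2, h3⟩
    refine ⟨?_, fun h => h3 (Nat.lt_succ_self _) h⟩
    by_cases h : (j : ℕ) = 0
    · simp [h]
    · exact h2 h
  · rintro ⟨h1, h2⟩
    exact ⟨Nat.le_of_lt_succ j.2, fun _ => h1, fun n h3 h4 h5 =>
      h2 (by omega) ((pow_dvd_pow 2 (by omega)).trans h5)⟩

theorem cnt_ruler (q : ℕ) (j : Fin (q + 1)) (n : ℕ) :
    cnt (ruler q) j n = ((n / 2 ^ (j : ℕ) : ℕ) : ℤ) -
      if (j : ℕ) < q then ((n / 2 ^ ((j : ℕ) + 1) : ℕ) : ℤ) else 0 := by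
  induction n with
  | zero => simp
  | succ n ih =>
    rw [cnt_succ, ih, Nat.succ_div, Nat.succ_div]
    have h : 2 ^ ((j : ℕ) + 1) ∣ n + 1 → 2 ^ (j : ℕ) ∣ n + 1 :=
      fun h => (pow_dvd_pow 2 (by omega)).trans h
    simp only [ruler_eq]
    by_cases h1 : (j : ℕ) < q <;> by_cases h2 : 2 ^ (j : ℕ) ∣ n + 1 <;>
      by_cases h3 : 2 ^ ((j : ℕ) + 1) ∣ n + 1 <;>
      first
        | exact absurd (h h3) h2
        | (simp only [h1, h2, h3, if_true, if_false, not_true, not_false_iff, and_true, and_false,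
            true_and, false_and, forall_true_left, IsEmpty.forall_iff, and_self]; push_cast; ring)

theorem ruler_ne (q t : ℕ) (hq : 1 ≤ q) : ruler q t ≠ ruler q (t + 1) := by
  intro h
  obtain ⟨h1, h2⟩ := (ruler_eq (j := ruler q t)).1 rfl
  obtain ⟨h3, h4⟩ := ruler_eq.1 h.symm
  by_cases h0 : ((ruler q t : Fin (q + 1)) : ℕ) = 0
  · rw [h0] at h2 h4
    have := h2 (by omega)
    have := h4 (by omega)
    omega
  · have e : 2 ∣ 2 ^ ((ruler q t : Fin (q + 1)) : ℕ) := dvd_pow_self 2 h0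
    have := e.trans h1
    have := e.trans h3
    omega

theorem ruler_unique (q n n' : ℕ) (h1 : n + 1 < n') (h2 : n' < n + 2 ^ q) :
    ∃ t0, n < t0 ∧ t0 < n' ∧ ∀ t, n ≤ t → t ≤ n' → ruler q t = ruler q t0 → t = t0 := by
  classical
  set P : ℕ → Prop := fun j => ∃ t, n < t ∧ t < n' ∧ 2 ^ j ∣ t + 1 with hP
  have h0 : P 0 := ⟨n + 1, by omega, h1, by simp⟩
  obtain ⟨t0, a1, a2, a3⟩ : P (Nat.findGreatest P q) := Nat.findGreatest_spec (Nat.zero_le q) h0
  set j := Nat.findGreatest P q with hj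
  have hjq : j ≤ q := Nat.findGreatest_le q
  have hmax : j < q → ¬ P (j + 1) := fun h =>
    Nat.findGreatest_is_greatest (n := q) (by omega) (by omega)
  have e0 : ruler q t0 = ⟨j, by omega⟩ :=
    ruler_eq.2 ⟨a3, fun h h' => hmax h ⟨t0, a1, a2, h'⟩⟩
  refine ⟨t0, a1, a2, fun t b1 b2 b3 => ?_⟩
  rw [e0] at b3
  obtain ⟨⟨x, hx⟩, b5⟩ := ruler_eq.1 b3
  obtain ⟨x0, hx0⟩ := a3
  simp only at hx b5
  have hpos : 0 < 2 ^ j := by positivity
  by_contra hne
  rcases hjq.eq_or_lt with h | h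
  · rw [← h] at h2
    rcases lt_trichotomy x x0 with h3 | h3 | h3
    · have : 2 ^ j * (x + 1) ≤ 2 ^ j * x0 := Nat.mul_le_mul_left _ h3
      rw [mul_add] at this; omega
    · subst h3; omega
    · have : 2 ^ j * (x0 + 1) ≤ 2 ^ j * x := Nat.mul_le_mul_left _ h3
      rw [mul_add] at this; omega
  · have o1 : ¬ 2 ∣ x := fun ⟨z, hz⟩ => b5 h ⟨z, by rw [hx, hz]; ring⟩
    have o2 : ¬ 2 ∣ x0 := fun ⟨z, hz⟩ => hmax h ⟨t0, a1, a2, z, by rw [hx0, hz]; ring⟩
    rcases lt_trichotomy x x0 with h3 | h3 | h3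
    · obtain ⟨z, hz⟩ : 2 ∣ x + 1 := by omega
      have : 2 ^ j * (x + 2) ≤ 2 ^ j * x0 := Nat.mul_le_mul_left _ (by omega)
      rw [mul_add] at this
      refine hmax h ⟨t + 2 ^ j, by omega, by omega, z, ?_⟩
      rw [pow_succ, mul_assoc, ← hz, mul_add]; omega
    · subst h3; omega
    · obtain ⟨z, hz⟩ : 2 ∣ x0 + 1 := by omega
      have : 2 ^ j * (x0 + 2) ≤ 2 ^ j * x := Nat.mul_le_mul_left _ (by omega)
      rw [mul_add] at this
      refine hmax h ⟨t0 + 2 ^ j, by omega, by omega, z, ?_⟩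
      rw [pow_succ, mul_assoc, ← hz, mul_add]; omega

/-- the six letters of a unit with ruler class `ν` and zone letter `z` -/
def unitL {C : Type} (ν : C) (z : C × Fin 4) (r : ℕ) : C × Fin 4 :=
  if r = 0 then (ν, z.2 + 1) else if r = 1 then z else if r = 2 then (ν, z.2 + 2)
  else if r = 3 then z else if r = 4 then (ν, z.2 + 3) else (ν, z.2)

/-- parity-relevant shape of a partial unit -/
def alpha (r : ℕ) (d t : Fin 4) : ℤ :=
  (if 0 < r ∧ d + 1 = t then 1 else 0) + (if 2 < r ∧ d + 2 = t then 1 else 0) +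
    (if 4 < r ∧ d + 3 = t then 1 else 0) + (if 5 < r ∧ d = t then 1 else 0)

def beta (r : ℕ) : ℤ := (if 1 < r then 1 else 0) + (if 3 < r then 1 else 0)

theorem cnt_unit {C : Type} [DecidableEq C] (ν : C) (z b : C × Fin 4) (r : ℕ) (hr : r ≤ 6) :
    cnt (unitL ν z) b r = (if ν = b.1 then alpha r z.2 b.2 else 0) +
      (if z.1 = b.1 ∧ z.2 = b.2 then beta r else 0) := by
  obtain ⟨z1, z2⟩ := z
  obtain ⟨b1, b2⟩ := b
  unfold cnt
  interval_cases r <;> simp only [sum_range_succ, sum_range_zero] <;>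
    by_cases h1 : ν = b1 <;> by_cases h2 : z1 = b1 ∧ z2 = b2 <;>
    simp [unitL, alpha, beta, h1, h2]

theorem alpha_six (d t : Fin 4) : alpha 6 d t = 1 := by
  revert d t; decide

theorem alpha_le (r : ℕ) (d t : Fin 4) (hr : r < 6) : 0 ≤ alpha r d t ∧ alpha r d t ≤ 1 := by
  interval_cases r <;> revert d t <;> decide

/-- the word built from a zone track -/
def word (q : ℕ) (ζ : ℕ → Fin (q + 1) × Fin 4) (y : ℕ) : Fin (q + 1) × Fin 4 :=
  unitL (ruler q (y / 6)) (ζ (y / 6)) (y % 6)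

theorem cnt_word (q : ℕ) (ζ : ℕ → Fin (q + 1) × Fin 4) (b : Fin (q + 1) × Fin 4) (y : ℕ) :
    cnt (word q ζ) b y = 2 * cnt ζ b (y / 6) + cnt (ruler q) b.1 (y / 6) +
      cnt (unitL (ruler q (y / 6)) (ζ (y / 6))) b (y % 6) := by
  have h : ∀ n r, r ≤ 6 → cnt (fun t => word q ζ (6 * n + t)) b r
      = cnt (unitL (ruler q n) (ζ n)) b r := fun n r hr =>
    cnt_congr b r fun t ht => by
      unfold word
      rw [show (6 * n + t) / 6 = n by omega, show (6 * n + t) % 6 = t by omega]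
  have h1 : ∀ n, cnt (word q ζ) b (6 * n) = 2 * cnt ζ b n + cnt (ruler q) b.1 n := by
    intro n
    induction n with
    | zero => simp
    | succ n ih =>
      rw [mul_add, cnt_add, ih, h n _ le_rfl, cnt_unit _ _ _ _ le_rfl, cnt_succ, cnt_succ,
        alpha_six]
      simp only [Prod.ext_iff, beta]
      split_ifs <;> omega
  conv_lhs => rw [← Nat.div_add_mod y 6]
  rw [cnt_add, h1, h _ _ (by omega)]

theorem noise {ι : Type} [Fintype ι] (q : ℕ) (ζ : ℕ → Fin (q + 1) × Fin 4) (c : ι → ℤ)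
    (y : ι → ℕ) (S : ℤ) (hS : ∑ i, |c i| ≤ S)
    (H : ∀ b, ∑ i, c i * cnt (word q ζ) b (y i) = 0) (b : Fin (q + 1) × Fin 4) :
    2 * |∑ i, c i * cnt ζ b (y i / 6)| ≤ 5 * S := by
  have hS0 : 0 ≤ S := le_trans (sum_nonneg fun _ _ => abs_nonneg _) hS
  have h1 : ∑ i, c i * (y i : ℤ) = 0 := by
    have : ∑ b, ∑ i, c i * cnt (word q ζ) b (y i) = 0 := sum_eq_zero fun b _ => H b
    rw [sum_comm] at this
    simpa only [← mul_sum, sum_cnt] using this
  have h2 := delta_div c y S hS 6 (by norm_num) (by rw [h1]; simpa using hS0)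
  have h3 : |∑ i, c i * cnt (ruler q) b.1 (y i / 6)| ≤ 2 * S := by
    have a1 := delta_div c (fun i => y i / 6) S hS (2 ^ (b.1 : ℕ)) (by positivity) h2
    have a2 := delta_div c (fun i => y i / 6) S hS (2 ^ ((b.1 : ℕ) + 1)) (by positivity) h2
    simp only [cnt_ruler, mul_sub, sum_sub_distrib]
    refine (abs_sub _ _).trans ?_
    split_ifs
    · linarith
    · simp only [mul_zero, sum_const_zero, abs_zero]; linarith
  have h4 : |∑ i, c i * cnt (unitL (ruler q (y i / 6)) (ζ (y i / 6))) b (y i % 6)| ≤ S * 3 :=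
    delta_bound c _ S 3 hS (by norm_num) fun i => by
      rw [abs_of_nonneg (cnt_nonneg _ _ _), cnt_unit _ _ _ _ (by omega)]
      have := alpha_le (y i % 6) (ζ (y i / 6)).2 b.2 (by omega)
      unfold beta
      split_ifs <;> omega
  have h5 := H b
  simp only [cnt_word, mul_add, sum_add_distrib] at h5
  have h6 : ∑ i, c i * (2 * cnt ζ b (y i / 6)) = 2 * ∑ i, c i * cnt ζ b (y i / 6) := by
    rw [mul_sum]; exact sum_congr rfl fun i _ => by ring
  rw [h6] at h5
  rw [abs_le] at h3 h4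
  rcases abs_cases (∑ i, c i * cnt ζ b (y i / 6)) with h | h <;> linarith

theorem fin_same : ∀ (r r' : Fin 6) (d : Fin 4) (p : Bool), r < r' →
    (∃ t, ¬ 2 ∣ (alpha r' d t + (if p = true ∧ d = t then beta r' else 0)) -
      (alpha r d t + (if p = true ∧ d = t then beta r else 0))) ∨
    (p = false ∧ ¬ 2 ∣ beta r' - beta r) := by decide +kernel

theorem fin_next : ∀ (r r' : Fin 6) (d d' : Fin 4) (p1 p2 p3 p4 : Bool),
    ¬ (p1 = true ∧ p3 = true) → ¬ (p2 = true ∧ p4 = true) →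
    (∃ t, ¬ 2 ∣ 1 + (if p1 = true ∧ d' = t then beta r' else 0) -
      (alpha r d t + (if p2 = true ∧ d = t then beta r else 0))) ∨
    (∃ t, ¬ 2 ∣ (alpha r' d' t + (if p3 = true ∧ d' = t then beta r' else 0)) -
      (if p4 = true ∧ d = t then beta r else 0)) := by decide +kernel

theorem degenerate (q : ℕ) (hq : 1 ≤ q) (ζ : ℕ → Fin (q + 1) × Fin 4) (y y' : ℕ) (h : y < y')
    (h2 : y' / 6 < y / 6 + 2 ^ q) :
    ∃ b, ¬ 2 ∣ cnt (word q ζ) b y' - cnt (word q ζ) b y := by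
  by_contra hc
  push Not at hc
  have hc' : ∀ b : Fin (q + 1) × Fin 4, 2 ∣ cnt (ruler q) b.1 (y' / 6) - cnt (ruler q) b.1 (y / 6)
      + (cnt (unitL (ruler q (y' / 6)) (ζ (y' / 6))) b (y' % 6) -
        cnt (unitL (ruler q (y / 6)) (ζ (y / 6))) b (y % 6)) := fun b => by
    have := hc b
    rw [cnt_word, cnt_word] at this
    omega
  clear hc
  have hr : y % 6 < 6 := by omega
  have hr' : y' % 6 < 6 := by omega
  simp only [cnt_unit _ _ _ _ hr.le, cnt_unit _ _ _ _ hr'.le] at hc'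
  rcases lt_trichotomy (y' / 6) (y / 6 + 1) with h3 | h3 | h3
  · have e : y' / 6 = y / 6 := by omega
    rw [e] at hc'
    rcases fin_same ⟨_, hr⟩ ⟨_, hr'⟩ (ζ (y / 6)).2 (decide ((ζ (y / 6)).1 = ruler q (y / 6)))
      (by simp only [Fin.mk_lt_mk]; omega) with ⟨t, ht⟩ | ⟨h4, h5⟩
    · have := hc' (ruler q (y / 6), t)
      simp only [decide_eq_true_eq] at ht
      simp only [if_true, sub_self, zero_add] at this
      exact ht this
    · have := hc' (ζ (y / 6))
      have h6 : ruler q (y / 6) ≠ (ζ (y / 6)).1 := fun h => by simp [h] at h4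
      simp only [if_neg h6, and_self, if_true, sub_self, zero_add] at this
      exact h5 this
  · have hne := ruler_ne q (y / 6) hq
    rw [h3] at hc'
    rcases fin_next ⟨_, hr⟩ ⟨_, hr'⟩ (ζ (y / 6)).2 (ζ (y / 6 + 1)).2
      (decide ((ζ (y / 6 + 1)).1 = ruler q (y / 6))) (decide ((ζ (y / 6)).1 = ruler q (y / 6)))
      (decide ((ζ (y / 6 + 1)).1 = ruler q (y / 6 + 1)))
      (decide ((ζ (y / 6)).1 = ruler q (y / 6 + 1)))
      (by simp only [decide_eq_true_eq]; exact fun h => hne (h.1.symm.trans h.2))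
      (by simp only [decide_eq_true_eq]; exact fun h => hne (h.1.symm.trans h.2))
      with ⟨t, ht⟩ | ⟨t, ht⟩
    · have := hc' (ruler q (y / 6), t)
      simp only [decide_eq_true_eq] at ht
      simp only [cnt_succ, if_true, if_neg hne.symm] at this
      exact ht (by convert this using 1; ring)
    · have := hc' (ruler q (y / 6 + 1), t)
      simp only [decide_eq_true_eq] at ht
      simp only [cnt_succ, if_true, if_neg hne] at this
      exact ht (by convert this using 1; ring)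
  · obtain ⟨t0, a1, a2, a3⟩ := ruler_unique q _ _ h3 h2
    obtain ⟨t, t1, t2⟩ : ∃ t : Fin 4, (ζ (y / 6)).2 ≠ t ∧ (ζ (y' / 6)).2 ≠ t := by
      generalize (ζ (y / 6)).2 = d
      generalize (ζ (y' / 6)).2 = d'
      revert d d'; decide
    have := hc' (ruler q t0, t)
    have n1 : ruler q (y / 6) ≠ ruler q t0 := fun h => by
      have := a3 _ le_rfl (by omega) h; omega
    have n2 : ruler q (y' / 6) ≠ ruler q t0 := fun h => by
      have := a3 _ (by omega) le_rfl h; omega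
    have e : cnt (ruler q) (ruler q t0) (y' / 6) - cnt (ruler q) (ruler q t0) (y / 6) = 1 := by
      unfold cnt
      rw [← sum_Ico_eq_sub _ (by omega), sum_eq_single t0]
      · simp
      · intro t ht hne
        rw [mem_Ico] at ht
        exact if_neg fun h => hne (a3 t ht.1 ht.2.le h)
      · intro h; exact absurd (mem_Ico.2 ⟨by omega, a2⟩) h
    simp only [if_neg n1, if_neg n2, t1, t2, and_false, if_false, e] at this
    omega

end Pool.Agent.P.MP_59d724_co
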