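import Pool.Agent.P.MP_59d724_co.EvB
import Pool.Agent.P.MP_59d724_co.EvD

set_option autoImplicit false
set_option linter.unusedSectionVars false

namespace Pool.Agent.P.MP_59d724_co

open Finset Filter Topology

theorem base_num (y : ℝ) (hy : 0 ≤ y) :
    Real.exp (2 / 9) ^ 5 * y ^ 2 * (√(y + 1))⁻¹ ^ 5 ≤ 9 / 10 := by
  refine abs_le_of_sq_le_sq' ?_ (by norm_num) |>.2
  have h1 : (Real.exp (2 / 9) ^ 5) ^ 2 ≤ 97 / 10 := by
    rw [← pow_mul, ← Real.exp_nat_mul]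
    have e : Real.exp (((5 * 2 : ℕ) : ℝ) * (2 / 9)) = Real.exp 1 ^ 2 * Real.exp (2 / 9) := by
      rw [← Real.exp_nat_mul, ← Real.exp_add]; norm_num
    have a1 := Real.exp_one_lt_d9
    have a2 : Real.exp (2 / 9) ≤ 9 / 7 := by
      have := Real.exp_bound_div_one_sub_of_interval (x := 2 / 9) (by norm_num) (by norm_num)
      norm_num at this ⊢
      exact this
    have a3 : Real.exp 1 ^ 2 ≤ 2.7182818286 ^ 2 :=
      pow_le_pow_left₀ (Real.exp_pos 1).le a1.le 2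
    rw [e]
    refine (mul_le_mul a3 a2 (Real.exp_pos _).le (by norm_num)).trans (by norm_num)
  have h2 : ((√(y + 1))⁻¹ ^ 5) ^ 2 = ((y + 1) ^ 5)⁻¹ := by
    rw [← pow_mul, mul_comm, pow_mul, inv_pow, Real.sq_sqrt (by linarith), inv_pow]
  rw [mul_pow, mul_pow, h2, ← div_eq_mul_inv, div_le_iff₀ (by positivity)]
  have h3 : 3125 * y ^ 4 ≤ 256 * (y + 1) ^ 5 := by
    have : 0 ≤ (y - 4) ^ 2 * (256 * y ^ 3 + 203 * y ^ 2 + 88 * y + 16) := by positivity
    nlinarith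
  have h4 : 0 ≤ y ^ 4 := by positivity
  nlinarith

theorem exists_good : ∃ k0 : ℕ, ∀ κ ≥ k0, ∃ c : ℤ → Fin (5 * κ) × Bool,
    ∀ S ε, ¬ Bad c (2 * κ) S ε := by
  have hlim := tendsto_pow_const_mul_const_pow_of_abs_lt_one 195 (r := 9 / 10)
    (by rw [abs_of_pos] <;> norm_num)
  obtain ⟨k1, hk1⟩ := eventually_atTop.1 (hlim.eventually
    (gt_mem_nhds (show (0 : ℝ) < (3 * 56000 * 30 ^ 192)⁻¹ by positivity)))
  refine ⟨max k1 3, fun κ hκ => ?_⟩
  have hk3 : 3 ≤ κ := le_of_max_le_right hκ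
  have hsm := hk1 κ (le_of_max_le_left hκ)
  have : NeZero (5 * κ) := ⟨by omega⟩
  set h : ℕ := (30 * κ) ^ 64 with hh
  have hh0 : 0 < h := by positivity
  set z : ℝ := 30 * κ with hz
  have hk : (3 : ℝ) ≤ κ := by exact_mod_cast hk3
  have hz1 : 90 ≤ z := by linarith
  have hhz : (h : ℝ) = z ^ 64 := by rw [hh, hz]; push_cast; ring
  have s1 := ev1_small (r := 5 * κ) (n := 2 * h) (by omega)
  have s2 := ev2_small (r := 5 * κ) (2 * κ) h hh0
  have s3 := ev3_small (r := 5 * κ) (n := 2 * h) (2 * κ) (by omega)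
    (2 * (7 * h) * (9 / 10) ^ κ) fun lam hl => by
      have a1 : (lam : ℝ) ≤ 2 * h := by exact_mod_cast (mem_Icc.1 hl).2
      have a2 : (1 : ℝ) ≤ h := by exact_mod_cast hh0
      have a3 := pow_le_pow_left₀ (by positivity) (base_num (3 * lam) (by positivity)) κ
      have a4 : (√(3 * lam + 1 : ℝ))⁻¹ ^ (5 * κ - 2) =
          (3 * lam + 1) * (√(3 * lam + 1 : ℝ))⁻¹ ^ (5 * κ) := by
        conv_rhs => rw [show 5 * κ = 2 + (5 * κ - 2) by omega, pow_add, inv_pow,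
          Real.sq_sqrt (by positivity), ← mul_assoc, mul_inv_cancel₀ (by positivity), one_mul]
      rw [a4]
      rw [mul_pow, mul_pow, ← pow_mul, ← pow_mul, ← pow_mul] at a3
      calc _ = 2 * (3 * lam + 1) * (Real.exp (2 / 9) ^ (5 * κ) * (3 * lam : ℝ) ^ (2 * κ) *
            (√(3 * lam + 1 : ℝ))⁻¹ ^ (5 * κ)) := by ring
        _ ≤ _ := mul_le_mul (by linarith) a3 (by positivity) (by positivity)
  refine (Small.avoid (s1.mono (fun _ h => h) (δ' := 1 / 4) ?_)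
    (s2.mono (fun _ h => h) (δ' := 1 / 4) ?_) (s3.mono (fun _ h => h) (δ' := 1 / 3) ?_)
    (by norm_num)).elim ?_
  rotate_right
  · rintro ω ⟨h1, h2, h3⟩
    obtain ⟨c, hc⟩ := exists_hier (5 * κ * (2 * h)) (by nlinarith) (Hm ω)
    refine ⟨c 0, descent (5 * κ * (2 * h)) (2 * κ) (by nlinarith) c
      (fun m S ε T hb => base_step (by omega) (by omega) h3 (hc m) (hc (m + 1)) hb T)
      (fun m S ε u v hb huv hS a => descent_step (by omega) h1 h2 (hc m) (hc (m + 1)) hb huv hS a)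
      0⟩
  · push_cast
    rw [hhz, ← mul_div_assoc, div_le_iff₀ (by positivity)]
    have a1 : z ^ 4 ≤ z ^ 64 := pow_le_pow_right₀ (by linarith) (by norm_num)
    have a2 : z ^ 4 = 810000 * κ ^ 4 := by rw [hz]; ring
    have a3 : (0 : ℝ) ≤ κ ^ 4 := by positivity
    nlinarith
  · push_cast
    have a1 : (8 * (2 * κ) + 1 : ℝ) ^ (2 * (5 * κ)) ≤ z ^ (2 * (5 * κ)) :=
      pow_le_pow_left₀ (by positivity) (by linarith) _
    have a2 : (2 * (5 * κ) * (5 * κ * (2 * h) * (4 * (2 * κ) + 1)) : ℝ) ^ (2 * κ) ≤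
        (z ^ 67) ^ (2 * κ) := by
      refine pow_le_pow_left₀ (by positivity) ?_ _
      rw [hhz, show z ^ 67 = z ^ 64 * z ^ 3 by ring,
        show (2 * (5 * κ) * (5 * κ * (2 * z ^ 64) * (4 * (2 * κ) + 1)) : ℝ) =
          z ^ 64 * (100 * κ ^ 2 * (8 * κ + 1)) by ring]
      refine mul_le_mul_of_nonneg_left ?_ (by positivity)
      rw [hz]
      nlinarith [sq_nonneg (κ : ℝ)]
    have a3 : (√(3 * h + 1 : ℝ))⁻¹ ^ (5 * κ - 1) ≤ (z ^ 32)⁻¹ ^ (5 * κ - 1) := by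
      refine pow_le_pow_left₀ (by positivity) (inv_anti₀ (by positivity) ?_) _
      refine Real.le_sqrt_of_sq_le ?_
      rw [hhz, ← pow_mul]
      have : 0 ≤ z ^ 64 := by positivity
      norm_num
      linarith
    refine (mul_le_mul a1 (mul_le_mul (mul_le_mul_of_nonneg_left a2 (by norm_num)) a3
      (by positivity) (by positivity)) (by positivity) (by positivity)).trans ?_
    rw [inv_pow, ← pow_mul, ← pow_mul, ← div_eq_mul_inv, ← mul_div_assoc,
      div_le_iff₀ (by positivity), mul_left_comm, ← pow_add]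
    have a4 : z ^ (2 * (5 * κ) + 67 * (2 * κ)) * z ≤ z ^ (32 * (5 * κ - 1)) := by
      rw [← pow_succ]
      exact pow_le_pow_right₀ (by linarith) (by omega)
    have a5 : 0 ≤ z ^ (2 * (5 * κ) + 67 * (2 * κ)) := by positivity
    nlinarith
  · push_cast
    rw [lt_inv_comm₀ (by positivity) (by positivity), ← one_div, lt_div_iff₀ (by positivity)] at hsm
    rw [hhz, hz]
    calc _ = (56000 * 30 ^ 192) * ((κ : ℝ) ^ 195 * (9 / 10) ^ κ) := by ring
      _ ≤ _ := by linarith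

theorem main : ∃ C : ℕ, ∀ k : ℕ, ∃ c : ℤ → Fin (5 * k + C),
    ∀ a b : ℤ, a ≤ b → ∀ r ≤ k, ¬ HasSplitting c a b r := by
  obtain ⟨k0, hk0⟩ := exists_good
  refine ⟨10 * k0 + 15, fun k => ?_⟩
  obtain ⟨c, hc⟩ := hk0 (k0 + (k + 3) / 2) (by omega)
  obtain ⟨e⟩ : Nonempty (Fin (5 * (k0 + (k + 3) / 2)) × Bool ↪ Fin (5 * k + (10 * k0 + 15))) :=
    Function.Embedding.nonempty_of_card_le (by simp; omega)
  refine ⟨fun t => e (c t), fun a b hab r hr hs => ?_⟩
  obtain ⟨S, ε, hb⟩ := bad_of_split _ a b hab r k hr hs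
  refine hc S ε ⟨hb.ne, hb.conv, hb.val, hb.out, fun u v => (hb.tv u v).trans (by omega),
    fun x => ?_⟩
  simpa using hb.bal (e x)

end Pool.Agent.P.MP_59d724_co
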