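import Mathlib

open MeasureTheory Set

namespace Mc59

/-- difference of the integrals of `f` over the windows `[a+h, a+h+L]` and `[a, a+L]` -/
noncomputable def D (f : ℝ → ℝ) (a h L : ℝ) : ℝ :=
  (∫ t in (a + h)..(a + h + L), f t) - ∫ t in a..(a + L), f t

def Meets (N a h L : ℝ) : Prop :=
  (∃ t ∈ Icc a (a + L), |t| ≤ N) ∨ ∃ t ∈ Icc (a + h) (a + h + L), |t| ≤ N

/-- robust separation of windows -/
def RG (x y : ℝ → ℝ) : Prop :=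
  ∀ N h0 : ℝ, 0 < h0 → ∃ c : ℝ, 0 < c ∧ ∀ a h L : ℝ, 0 < L → L ≤ h → h0 ≤ h → Meets N a h L →
    c * min L 1 ≤ |D x a h L| + |D y a h L|

def Mono (f : ℝ → ℝ) (m p q : ℝ) : Prop :=
  (∀ s t, p ≤ s → s ≤ t → t ≤ q → m * (t - s) ≤ f t - f s) ∨
  (∀ s t, p ≤ s → s ≤ t → t ≤ q → m * (t - s) ≤ f s - f t)

def Lin (f : ℝ → ℝ) (S p q : ℝ) : Prop :=
  (∀ s ∈ Icc p q, ∀ t ∈ Icc p q, f t - f s = S * (t - s)) ∨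
  (∀ s ∈ Icc p q, ∀ t ∈ Icc p q, f t - f s = -S * (t - s))

def Lip (M : ℝ) (f : ℝ → ℝ) : Prop := ∀ s t, |f t - f s| ≤ M * |t - s|

def Av (F : Finset ℝ) (p q : ℝ) : Prop := ∀ e ∈ F, ¬ (p < e ∧ e < q)

def LM (F : Finset ℝ) (f : ℝ → ℝ) : Prop :=
  ∀ N : ℝ, ∃ m : ℝ, 0 < m ∧ ∀ p q, -N ≤ p → q ≤ N → Av F p q → Mono f m p q

def Off (F : Finset ℝ) (N ζ : ℝ) : Set ℝ := {t | N ≤ |t| ∨ ∃ e ∈ F, |t - e| ≤ 2 * ζ}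

def LMoff (F : Finset ℝ) (N ζ : ℝ) (f : ℝ → ℝ) : Prop :=
  ∀ N' : ℝ, ∃ m : ℝ, 0 < m ∧ ∀ p q, -N' ≤ p → q ≤ N' → Av F p q → Icc p q ⊆ Off F N ζ →
    Mono f m p q

def Tail (f : ℝ → ℝ) : Prop :=
  ∃ ξ1 ξ2 : ℝ, ∀ γ : ℝ, 0 < γ → ∃ N0 : ℝ, ∀ t, N0 ≤ |t| → |f t - ξ1| ≤ γ ∨ |f t - ξ2| ≤ γ

structure Pre (x y z : ℝ → ℝ) : Prop where
  pos : ∀ t, 0 < x t ∧ 0 < y t ∧ 0 < z t
  sum : ∀ t, x t + y t + z t = 1
  lip : ∃ M : ℝ, 0 ≤ M ∧ Lip M x ∧ Lip M y ∧ Lip M z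
  rg : RG x y
  tail : Tail x ∧ Tail y ∧ Tail z

def St (x y z : ℝ → ℝ) : Prop := Pre x y z ∧ ∃ F : Finset ℝ, LM F x ∧ LM F y ∧ LM F z

/-- signed sum of `μ` over the blocks cut by `y` -/
noncomputable def Lam {k : ℕ} (y : Fin (k + 2) → ℝ) (s : Fin (k + 1) → Bool) (μ : ℝ → ℝ → ℝ) : ℝ :=
  ∑ i : Fin (k + 1), (if s i then (1 : ℝ) else -1) * μ (y i.castSucc) (y i.succ)

/-- the cut vector is ordered, has length at least `T` and meets `[-N, N]` -/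
def Adm {k : ℕ} (N T : ℝ) (y : Fin (k + 2) → ℝ) : Prop :=
  Monotone y ∧ T ≤ y (Fin.last (k + 1)) - y 0 ∧ ∃ t ∈ Icc (y 0) (y (Fin.last (k + 1))), |t| ≤ N

theorem Lip.continuous {M : ℝ} {f : ℝ → ℝ} (h : Lip M f) : Continuous f := by
  have : LipschitzWith (Real.toNNReal M) f := by
    refine LipschitzWith.of_dist_le' fun s t => ?_
    rw [Real.dist_eq, Real.dist_eq]
    exact h t s
  exact this.continuous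

end Mc59
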