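import Pool.Agent.P.MP_59d724_co.McP

/-! Two linear windows under a shear. -/

open MeasureTheory Set

namespace Mc59

theorem mcf_bound {f : ℝ → ℝ} {a L C : ℝ} (hL : 0 < L) (h : ∀ t ∈ Icc a (a + L), |f t| ≤ C) :
    |∫ t in a..(a + L), f t| ≤ C * L := by
  have := intervalIntegral.norm_integral_le_of_norm_le_const (a := a) (b := a + L) (C := C)
    (f := f) fun t ht => h t (by
      rw [uIoc_of_le (by linarith)] at ht
      exact ⟨ht.1.le, ht.2⟩)
  rwa [add_sub_cancel_left, abs_of_pos hL] at this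

theorem D_near {f : ℝ → ℝ} {M a h L s t : ℝ} (hM : Lip M f) (hL : 0 < L)
    (hs : s ∈ Icc a (a + L)) (ht : t ∈ Icc (a + h) (a + h + L)) :
    L * |f t - f s| ≤ |D f a h L| + 2 * M * L ^ 2 := by
  have hM0 : 0 ≤ M := by simpa using (abs_nonneg _).trans (hM 0 1)
  have hc : Continuous fun r => f (r + h) - f r :=
    (hM.continuous.comp (continuous_id.add continuous_const)).sub hM.continuous
  have h1 := mcf_bound (f := fun r => (f t - f s) - (f (r + h) - f r)) (a := a) (C := 2 * M * L) hL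
    fun r hr => by
      have b1 := (hM (r + h) t).trans (mul_le_mul_of_nonneg_left
        (abs_le.2 ⟨by linarith [ht.1, hr.2], by linarith [ht.2, hr.1]⟩ : |t - (r + h)| ≤ L) hM0)
      have b2 := (hM s r).trans (mul_le_mul_of_nonneg_left
        (abs_le.2 ⟨by linarith [hs.2, hr.1], by linarith [hs.1, hr.2]⟩ : |r - s| ≤ L) hM0)
      have b3 := abs_add_le (f t - f (r + h)) (f r - f s)
      rw [show f t - f s - (f (r + h) - f r) = f t - f (r + h) + (f r - f s) by ring]
      linarith
  rw [intervalIntegral.integral_sub (continuous_const.intervalIntegrable _ _)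
    (hc.intervalIntegrable _ _), ← mcp_eq hM.continuous, intervalIntegral.integral_const,
    add_sub_cancel_left, smul_eq_mul] at h1
  have h2 := abs_add_le (L * (f t - f s) - D f a h L) (D f a h L)
  rw [sub_add_cancel, abs_mul, abs_of_pos hL] at h2
  linarith

theorem mcf_match {x y : ℝ → ℝ} {g : ℝ → ℝ → ℝ} {M K a h L κ : ℝ} (hx : Continuous x)
    (hM : Lip M y) (hL : 0 < L) (hu : Continuous fun t => g (x t) (y t))
    (hg : ∀ s t, |g (x t) (y t) - g (x s) (y s)| ≤ K * |x t - x s| + |y t - y s| / 2)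
    (φ : ℝ → ℝ) (hφ : Continuous φ)
    (hi : ∀ f : ℝ → ℝ, ∫ t in a..(a + L), f (φ t) = ∫ t in (a + h)..(a + h + L), f t)
    (hm : ∀ t ∈ Icc a (a + L), φ t ∈ Icc (a + h) (a + h + L))
    (hκ : ∀ t ∈ Icc a (a + L), x (φ t) - x t = κ) :
    |D (fun t => g (x t) (y t)) a h L| ≤ K * |D x a h L| + |D y a h L| / 2 + M * L ^ 2 := by
  have e : ∀ f : ℝ → ℝ, Continuous f → D f a h L = ∫ t in a..(a + L), (f (φ t) - f t) :=
    fun f hf => by
      have hc : Continuous fun t => f (φ t) := hf.comp hφ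
      rw [intervalIntegral.integral_sub (hc.intervalIntegrable _ _)
        (hf.intervalIntegrable _ _), hi, D]
  have e1 : D x a h L = L * κ := by
    rw [e x hx, intervalIntegral.integral_congr (g := fun _ => κ) fun t ht =>
      hκ t (by rwa [uIcc_of_le (by linarith)] at ht), intervalIntegral.integral_const,
      add_sub_cancel_left, smul_eq_mul]
  rw [e _ hu]
  refine (mcf_bound (C := K * |κ| + (|D y a h L| + 2 * M * L ^ 2) / L / 2) hL
    fun t ht => ?_).trans (le_of_eq ?_)
  · have b1 := hg t (φ t)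
    have b2 := (le_div_iff₀' hL).2 (D_near hM hL ht (hm t ht))
    rw [hκ t ht] at b1
    linarith
  · rw [e1, abs_mul, abs_of_pos hL]
    field_simp
    ring

theorem far_lin {x y : ℝ → ℝ} {g : ℝ → ℝ → ℝ} {M K S a h L : ℝ} (hx : Continuous x)
    (hM0 : 0 ≤ M) (hM : Lip M y) (hK : 0 ≤ K) (hL : 0 < L)
    (hu : Continuous fun t => g (x t) (y t))
    (hg : ∀ s t, |g (x t) (y t) - g (x s) (y s)| ≤ K * |x t - x s| + |y t - y s| / 2)
    (h1 : Lin x S a (a + L)) (h2 : Lin x S (a + h) (a + h + L)) :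
    |D (fun t => g (x t) (y t)) a h L| ≤ K * |D x a h L| + |D y a h L| / 2 + M * L ^ 2 := by
  have ha : a ∈ Icc a (a + L) := ⟨le_rfl, by linarith⟩
  have m1 : ∀ t ∈ Icc a (a + L), t + h ∈ Icc (a + h) (a + h + L) :=
    fun t ht => ⟨by linarith [ht.1], by linarith [ht.2]⟩
  have m2 : ∀ t ∈ Icc a (a + L), 2 * a + h + L - t ∈ Icc (a + h) (a + h + L) :=
    fun t ht => ⟨by linarith [ht.2], by linarith [ht.1]⟩
  have same : (∀ t ∈ Icc a (a + L), x (t + h) - x t = x (a + h) - x a) → _ :=
    mcf_match hx hM hL hu hg (fun t => t + h) (continuous_id.add continuous_const)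
      (fun f => by rw [intervalIntegral.integral_comp_add_right, add_right_comm a L h]) m1
  have opp : (∀ t ∈ Icc a (a + L),
      x (2 * a + h + L - t) - x t = x (2 * a + h + L - a) - x a) → _ :=
    mcf_match hx hM hL hu hg (fun t => 2 * a + h + L - t) (continuous_const.sub continuous_id)
      (fun f => by
        rw [intervalIntegral.integral_comp_sub_left]
        congr 1 <;> ring) m2
  rcases h1 with h1 | h1 <;> rcases h2 with h2 | h2
  · exact same fun t ht => by linarith [h1 a ha t ht, h2 _ (m1 a ha) _ (m1 t ht)]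
  · exact opp fun t ht => by linarith [h1 a ha t ht, h2 _ (m2 a ha) _ (m2 t ht)]
  · exact opp fun t ht => by linarith [h1 a ha t ht, h2 _ (m2 a ha) _ (m2 t ht)]
  · exact same fun t ht => by linarith [h1 a ha t ht, h2 _ (m1 a ha) _ (m1 t ht)]

end Mc59
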