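import Pool.Agent.P.MP_59d724_co.McDefs

open MeasureTheory Set

namespace Mc59

theorem mcn_level {f : ℝ → ℝ} {F : Finset ℝ} (h : LM F f) (ξ n : ℝ) :
    {t : ℝ | |t| ≤ n ∧ f t = ξ}.Finite := by
  classical
  obtain ⟨m, hm, H⟩ := h n
  have key : ∀ s t : ℝ, |s| ≤ n → f s = ξ → |t| ≤ n → f t = ξ →
      F.filter (fun e => e < s) = F.filter (fun e => e < t) → ¬ s < t := by
    intro s t hs hfs ht hft hF hst
    have hav : Av F s t := by
      intro e he hh
      have h1 : e ∈ F.filter (fun e => e < t) := Finset.mem_filter.2 ⟨he, hh.2⟩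
      rw [← hF] at h1
      exact absurd (Finset.mem_filter.1 h1).2 (not_lt.2 hh.1.le)
    have hpos : 0 < m * (t - s) := mul_pos hm (sub_pos.2 hst)
    rcases H s t (abs_le.1 hs).1 (abs_le.1 ht).2 hav with h1 | h1
    · have := h1 s t le_rfl hst.le le_rfl
      rw [hfs, hft] at this
      linarith
    · have := h1 s t le_rfl hst.le le_rfl
      rw [hfs, hft] at this
      linarith
  refine Set.Finite.of_finite_image (f := fun t : ℝ => F.filter (fun e => e < t)) ?_ ?_
  · refine (F.powerset.finite_toSet).subset ?_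
    rintro _ ⟨t, -, rfl⟩
    exact Finset.mem_coe.2 (Finset.mem_powerset.2 (Finset.filter_subset _ _))
  · intro s hs t ht hst
    exact le_antisymm (not_lt.1 (key t s ht.1 ht.2 hs.1 hs.2 hst.symm))
      (not_lt.1 (key s t hs.1 hs.2 ht.1 ht.2 hst))

theorem mcn_one {f : ℝ → ℝ} {F : Finset ℝ} (hc : Continuous f) (h : LM F f) (ξ n : ℝ) {η : ℝ}
    (hη : 0 < η) : ∃ γ : ℝ, 0 < γ ∧ ∃ B : Set ℝ, MeasurableSet B ∧
      volume B ≤ ENNReal.ofReal η ∧ ∀ t, |t| ≤ n → |f t - ξ| ≤ γ → t ∈ B := by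
  let B : ℕ → Set ℝ := fun k => {t | |t| ≤ n ∧ |f t - ξ| ≤ 1 / ((k : ℝ) + 1)}
  have hB : ∀ k, MeasurableSet (B k) := fun k => by
    have h1 : IsClosed {t : ℝ | |t| ≤ n} := isClosed_le continuous_abs continuous_const
    have h2 : IsClosed {t : ℝ | |f t - ξ| ≤ 1 / ((k : ℝ) + 1)} :=
      isClosed_le (hc.sub continuous_const).abs continuous_const
    exact (h1.inter h2).measurableSet
  have hanti : Antitone B := by
    intro j k hjk t ht
    refine ⟨ht.1, ht.2.trans ?_⟩
    have : (j : ℝ) ≤ k := Nat.cast_le.2 hjk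
    exact one_div_le_one_div_of_le (by positivity) (by linarith)
  have hfin : volume (B 0) ≠ ⊤ := by
    have : B 0 ⊆ Icc (-n) n := fun t ht => abs_le.1 ht.1
    exact ne_top_of_le_ne_top (by simp) (measure_mono this)
  have hlim := tendsto_measure_iInter_atTop (μ := volume) (s := B)
    (fun k => (hB k).nullMeasurableSet) hanti ⟨0, hfin⟩
  have hz : volume (⋂ k, B k) = 0 := by
    refine measure_mono_null ?_ ((mcn_level h ξ n).measure_zero volume)
    intro t ht
    have ht' := mem_iInter.1 ht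
    refine ⟨(ht' 0).1, ?_⟩
    by_contra hne
    have hp : 0 < |f t - ξ| := abs_pos.2 (sub_ne_zero.2 hne)
    obtain ⟨k, hk⟩ := exists_nat_one_div_lt hp
    exact absurd (ht' k).2 (not_le.2 hk)
  rw [hz] at hlim
  have hev := hlim.eventually (gt_mem_nhds (ENNReal.ofReal_pos.2 hη))
  obtain ⟨k, hk⟩ := hev.exists
  exact ⟨1 / ((k : ℝ) + 1), by positivity, B k, hB k, le_of_lt hk, fun t h1 h2 => ⟨h1, h2⟩⟩

theorem nlm {f : ℝ → ℝ} {F : Finset ℝ} (hc : Continuous f) (h : LM F f) (Ξ : Finset ℝ)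
    (n : ℝ) {η : ℝ} (hη : 0 < η) : ∃ γ : ℝ, 0 < γ ∧ ∃ B : Set ℝ, MeasurableSet B ∧
      volume B ≤ ENNReal.ofReal η ∧ ∀ t, |t| ≤ n → (∃ ξ ∈ Ξ, |f t - ξ| ≤ γ) → t ∈ B := by
  classical
  induction Ξ using Finset.induction_on generalizing η with
  | empty => exact ⟨1, one_pos, ∅, MeasurableSet.empty, by simp, by simp⟩
  | insert ξ Ξ _ ih =>
    obtain ⟨γ1, hγ1, B1, hm1, hv1, H1⟩ := mcn_one hc h ξ n (half_pos hη)
    obtain ⟨γ2, hγ2, B2, hm2, hv2, H2⟩ := ih (half_pos hη)
    refine ⟨min γ1 γ2, lt_min hγ1 hγ2, B1 ∪ B2, hm1.union hm2, ?_, ?_⟩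
    · refine (measure_union_le _ _).trans ((add_le_add hv1 hv2).trans ?_)
      rw [← ENNReal.ofReal_add (half_pos hη).le (half_pos hη).le, add_halves]
    · rintro t ht ⟨x, hx, hle⟩
      rcases Finset.mem_insert.1 hx with rfl | hx
      · exact Or.inl (H1 t ht (hle.trans (min_le_left _ _)))
      · exact Or.inr (H2 t ht ⟨x, hx, hle.trans (min_le_right _ _)⟩)

theorem mcn_slope (N : ℝ) {s t : ℝ} (hs : -N ≤ s) (hst : s ≤ t) (ht : t ≤ N) :
    1 / (1 + N ^ 2) * (t - s) ≤ Real.arctan t - Real.arctan s := by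
  refine (convex_Icc (-N) N).mul_sub_le_image_sub_of_le_deriv
    Real.continuous_arctan.continuousOn Real.differentiable_arctan.differentiableOn ?_
    s ⟨hs, hst.trans ht⟩ t ⟨hs.trans hst, ht⟩ hst
  intro x hx
  have hx' := interior_subset hx
  rw [Real.deriv_arctan]
  have : x ^ 2 ≤ N ^ 2 := sq_le_sq' hx'.1 hx'.2
  exact one_div_le_one_div_of_le (by positivity) (by linarith)

theorem mcn_le {s t : ℝ} (hst : s ≤ t) : Real.arctan t - Real.arctan s ≤ 1 * (t - s) := by
  refine convex_univ.image_sub_le_mul_sub_of_deriv_le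
    Real.continuous_arctan.continuousOn Real.differentiable_arctan.differentiableOn ?_
    s (mem_univ _) t (mem_univ _) hst
  intro x _
  rw [Real.deriv_arctan]
  have h1 : (0 : ℝ) < 1 + x ^ 2 := by positivity
  rw [div_le_one h1]
  nlinarith [sq_nonneg x]

theorem mcn_abs (s t : ℝ) : |Real.arctan t - Real.arctan s| ≤ |t - s| := by
  rcases le_total s t with h | h
  · have h1 := mcn_le h
    have h2 := Real.arctan_mono h
    rw [abs_of_nonneg (sub_nonneg.2 h2), abs_of_nonneg (sub_nonneg.2 h)]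
    linarith
  · have h1 := mcn_le h
    have h2 := Real.arctan_mono h
    rw [abs_of_nonpos (sub_nonpos.2 h2), abs_of_nonpos (sub_nonpos.2 h)]
    linarith

theorem mcn_lip {c : ℝ} (hc : |c| ≤ 1) : Lip 1 (fun t => 1 / 3 + c * Real.arctan t) := by
  intro s t
  have e : 1 / 3 + c * Real.arctan t - (1 / 3 + c * Real.arctan s)
      = c * (Real.arctan t - Real.arctan s) := by ring
  show |1 / 3 + c * Real.arctan t - (1 / 3 + c * Real.arctan s)| ≤ 1 * |t - s|
  rw [e, abs_mul]
  exact mul_le_mul hc (mcn_abs s t) (abs_nonneg _) zero_le_one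

theorem mcn_tail {c : ℝ} (hc : |c| ≤ 1) : Tail (fun t => 1 / 3 + c * Real.arctan t) := by
  refine ⟨1 / 3 + c * (Real.pi / 2), 1 / 3 + c * (-(Real.pi / 2)), fun γ hγ => ?_⟩
  have h1 : Filter.Tendsto Real.arctan Filter.atTop (nhds (Real.pi / 2)) :=
    Real.tendsto_arctan_atTop.mono_right nhdsWithin_le_nhds
  have h2 : Filter.Tendsto Real.arctan Filter.atBot (nhds (-(Real.pi / 2))) :=
    Real.tendsto_arctan_atBot.mono_right nhdsWithin_le_nhds
  obtain ⟨a, ha⟩ := Filter.eventually_atTop.1 (h1.eventually (Metric.ball_mem_nhds _ hγ))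
  obtain ⟨b, hb⟩ := Filter.eventually_atBot.1 (h2.eventually (Metric.ball_mem_nhds _ hγ))
  have aux : ∀ u v : ℝ, dist u v < γ → |1 / 3 + c * u - (1 / 3 + c * v)| ≤ γ := by
    intro u v huv
    have e : 1 / 3 + c * u - (1 / 3 + c * v) = c * (u - v) := by ring
    rw [Real.dist_eq] at huv
    rw [e, abs_mul]
    calc |c| * |u - v| ≤ 1 * γ := mul_le_mul hc huv.le (abs_nonneg _) zero_le_one
      _ = γ := one_mul _
  refine ⟨max a (-b), fun t ht => ?_⟩
  rcases le_total 0 t with h0 | h0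
  · rw [abs_of_nonneg h0] at ht
    exact Or.inl (aux _ _ (ha t ((le_max_left _ _).trans ht)))
  · rw [abs_of_nonpos h0] at ht
    have : -b ≤ -t := (le_max_right _ _).trans ht
    exact Or.inr (aux _ _ (hb t (by linarith)))

theorem mcn_lm {c : ℝ} (hc : c ≠ 0) (F : Finset ℝ) :
    LM F (fun t => 1 / 3 + c * Real.arctan t) := by
  intro N
  refine ⟨|c| * (1 / (1 + N ^ 2)), mul_pos (abs_pos.2 hc) (by positivity), ?_⟩
  intro p q hp hq _
  rcases le_total 0 c with h0 | h0
  · refine Or.inl fun s t h1 h2 h3 => ?_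
    have := mul_le_mul_of_nonneg_left (mcn_slope N (hp.trans h1) h2 (h3.trans hq)) h0
    rw [abs_of_nonneg h0]
    show _ ≤ 1 / 3 + c * Real.arctan t - (1 / 3 + c * Real.arctan s)
    linarith
  · refine Or.inr fun s t h1 h2 h3 => ?_
    have := mul_le_mul_of_nonneg_left (mcn_slope N (hp.trans h1) h2 (h3.trans hq))
      (neg_nonneg.2 h0)
    rw [abs_of_nonpos h0]
    show _ ≤ 1 / 3 + c * Real.arctan s - (1 / 3 + c * Real.arctan t)
    linarith

theorem mcn_D {f : ℝ → ℝ} (hf : Continuous f) (a h L : ℝ) :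
    D f a h L = ∫ t in a..(a + L), (f (t + h) - f t) := by
  have h1 : Continuous fun t => f (t + h) := hf.comp (continuous_id.add continuous_const)
  rw [intervalIntegral.integral_sub (h1.intervalIntegrable _ _) (hf.intervalIntegrable _ _),
    intervalIntegral.integral_comp_add_right (fun t => f t) h]
  have e : a + L + h = a + h + L := by ring
  rw [e]
  rfl

theorem mcn_low {g : ℝ → ℝ} (hg : Continuous g) (h0 : ∀ t, 0 ≤ g t) {a L t0 c : ℝ} (hL : 0 < L)
    (ht0 : t0 ∈ Icc a (a + L)) (hc : ∀ t, |t - t0| ≤ 1 → c ≤ g t) :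
    c * min L 1 ≤ ∫ t in a..(a + L), g t := by
  have hl0 : 0 < min L 1 := lt_min hL one_pos
  have hl1 : min L 1 ≤ L := min_le_left _ _
  have hl2 : min L 1 ≤ 1 := min_le_right _ _
  set l := min L 1 with hl
  set p := min t0 (a + L - l) with hp
  have hp1 : a ≤ p := le_min ht0.1 (by linarith)
  have hp2 : p + l ≤ a + L := by
    have := min_le_right t0 (a + L - l)
    linarith
  have hp3 : p ≤ t0 := min_le_left _ _
  have hp4 : t0 ≤ p + l := by
    rcases le_total t0 (a + L - l) with h | h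
    · rw [hp, min_eq_left h]; linarith
    · rw [hp, min_eq_right h]; linarith [ht0.2]
  have h1 : ∫ t in p..(p + l), g t ≤ ∫ t in a..(a + L), g t :=
    intervalIntegral.integral_mono_interval hp1 (by linarith) hp2
      (Filter.Eventually.of_forall h0) (hg.intervalIntegrable _ _)
  have h2 : ∫ _ in p..(p + l), c ≤ ∫ t in p..(p + l), g t := by
    refine intervalIntegral.integral_mono_on (by linarith) (by simp) (hg.intervalIntegrable _ _) ?_
    intro t ht
    refine hc t (abs_le.2 ⟨?_, ?_⟩)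
    · linarith [ht.1]
    · linarith [ht.2]
  rw [intervalIntegral.integral_const, smul_eq_mul] at h2
  have e : (p + l - p) * c = c * l := by ring
  linarith

theorem mcn_rg {c : ℝ} (hc : 0 < c) (y : ℝ → ℝ) :
    RG (fun t => 1 / 3 + c * Real.arctan t) y := by
  intro N h0 hh0
  have hx : Continuous fun t => 1 / 3 + c * Real.arctan t :=
    continuous_const.add (continuous_const.mul Real.continuous_arctan)
  refine ⟨c * (1 / (1 + (N + 1 + h0) ^ 2) * h0), by positivity, ?_⟩
  intro a h L hL _ hh hM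
  refine le_trans ?_ (le_add_of_nonneg_right (abs_nonneg _))
  refine le_trans ?_ (le_abs_self _)
  rw [mcn_D hx]
  have hg : Continuous fun t => 1 / 3 + c * Real.arctan (t + h) - (1 / 3 + c * Real.arctan t) :=
    (hx.comp (continuous_id.add continuous_const)).sub hx
  have hg0 : ∀ t, 0 ≤ 1 / 3 + c * Real.arctan (t + h) - (1 / 3 + c * Real.arctan t) := by
    intro t
    have h1 : Real.arctan t ≤ Real.arctan (t + h) := Real.arctan_mono (by linarith)
    have := mul_le_mul_of_nonneg_left h1 hc.le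
    linarith
  rcases hM with ⟨t0, ht0, hN⟩ | ⟨t0, ht0, hN⟩
  · refine mcn_low hg hg0 hL ht0 fun t ht => ?_
    have a1 := abs_le.1 hN
    have a2 := abs_le.1 ht
    have h1 := mcn_slope (N + 1 + h0) (s := t) (t := t + h0) (by linarith) (by linarith)
      (by linarith)
    have h2 : Real.arctan (t + h0) ≤ Real.arctan (t + h) := Real.arctan_mono (by linarith)
    have e : t + h0 - t = h0 := by ring
    rw [e] at h1
    have := mul_le_mul_of_nonneg_left (h1.trans (sub_le_sub_right h2 _)) hc.le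
    linarith
  · refine mcn_low (t0 := t0 - h) hg hg0 hL ⟨by linarith [ht0.1], by linarith [ht0.2]⟩
      fun t ht => ?_
    have a1 := abs_le.1 hN
    have a2 := abs_le.1 ht
    have h1 := mcn_slope (N + 1 + h0) (s := t + h - h0) (t := t + h) (by linarith) (by linarith)
      (by linarith)
    have h2 : Real.arctan t ≤ Real.arctan (t + h - h0) := Real.arctan_mono (by linarith)
    have e : t + h - (t + h - h0) = h0 := by ring
    rw [e] at h1
    have := mul_le_mul_of_nonneg_left (h1.trans (sub_le_sub_left h2 _)) hc.le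
    linarith

theorem first : ∃ x y z : ℝ → ℝ, St x y z := by
  have c1 : |(1 / 24 : ℝ)| ≤ 1 := by rw [abs_le]; constructor <;> norm_num
  have c2 : |(2 / 24 : ℝ)| ≤ 1 := by rw [abs_le]; constructor <;> norm_num
  have c3 : |(-3 / 24 : ℝ)| ≤ 1 := by rw [abs_le]; constructor <;> norm_num
  refine ⟨fun t => 1 / 3 + 1 / 24 * Real.arctan t, fun t => 1 / 3 + 2 / 24 * Real.arctan t,
    fun t => 1 / 3 + -3 / 24 * Real.arctan t, ⟨?_, ?_, ⟨1, zero_le_one, mcn_lip c1, mcn_lip c2,
      mcn_lip c3⟩, mcn_rg (by norm_num) _, mcn_tail c1, mcn_tail c2, mcn_tail c3⟩,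
    ∅, mcn_lm (by norm_num) _, mcn_lm (by norm_num) _, mcn_lm (by norm_num) _⟩
  · intro t
    have h1 := Real.arctan_lt_pi_div_two t
    have h2 := Real.neg_pi_div_two_lt_arctan t
    have h3 := Real.pi_lt_four
    refine ⟨?_, ?_, ?_⟩ <;> linarith
  · intro t
    ring

end Mc59
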