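import Pool.Agent.P.MP_59d724_co.McDefs

open MeasureTheory Set

namespace Mc59

/-- the tent over the cell `[p, q]`, minus `x` -/
noncomputable def tV (x : ℝ → ℝ) (S p q t : ℝ) : ℝ :=
  min (x p + S * (t - p)) (x q + S * (q - t)) - x t

theorem t_bounds {x : ℝ → ℝ} {M p q t : ℝ} (hM : Lip M x) (h1 : p ≤ t) (h2 : t ≤ q) :
    0 ≤ tV x (M + 1) p q t ∧ tV x (M + 1) p q t ≤ (2 * M + 1) * (t - p) ∧
      tV x (M + 1) p q t ≤ (2 * M + 1) * (q - t) := by
  have a := hM p t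
  have b := hM t q
  rw [abs_of_nonneg (sub_nonneg.2 h1), abs_le] at a
  rw [abs_of_nonneg (sub_nonneg.2 h2), abs_le] at b
  have c := min_le_left (x p + (M + 1) * (t - p)) (x q + (M + 1) * (q - t))
  have d := min_le_right (x p + (M + 1) * (t - p)) (x q + (M + 1) * (q - t))
  have e : x t ≤ min (x p + (M + 1) * (t - p)) (x q + (M + 1) * (q - t)) :=
    le_min (by linarith [a.2]) (by linarith [b.1])
  unfold tV
  refine ⟨by linarith, by linarith [a.1], by linarith [b.2]⟩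

theorem t_lip {x : ℝ → ℝ} {M : ℝ} (hM0 : 0 ≤ M) (hM : Lip M x) (p q : ℝ) :
    Lip (2 * M + 1) (tV x (M + 1) p q) := by
  intro s t
  have a := hM s t
  have b := abs_min_sub_min_le_max (x p + (M + 1) * (t - p)) (x q + (M + 1) * (q - t))
    (x p + (M + 1) * (s - p)) (x q + (M + 1) * (q - s))
  have e1 : x p + (M + 1) * (t - p) - (x p + (M + 1) * (s - p)) = (M + 1) * (t - s) := by ring
  have e2 : x q + (M + 1) * (q - t) - (x q + (M + 1) * (q - s)) = -((M + 1) * (t - s)) := by ring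
  rw [e1, e2, abs_neg, max_self, abs_mul, abs_of_nonneg (by linarith : 0 ≤ M + 1)] at b
  unfold tV
  rw [abs_le] at a b ⊢
  constructor <;> linarith [a.1, a.2, b.1, b.2]

theorem t_floor {τ : ℝ} (hτ : 0 < τ) (t : ℝ) :
    (⌊t / τ⌋ : ℝ) * τ ≤ t ∧ t < ((⌊t / τ⌋ : ℝ) + 1) * τ :=
  ⟨(le_div_iff₀ hτ).1 (Int.floor_le _), (div_lt_iff₀ hτ).1 (Int.lt_floor_add_one _)⟩

theorem t_closed (F : Finset ℝ) (N ζ : ℝ) : IsClosed (Off F N ζ) := by
  have e : Off F N ζ = {t | N ≤ |t|} ∪ ⋃ e ∈ F, {t | |t - e| ≤ 2 * ζ} := by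
    ext t
    simp [Off]
  rw [e]
  exact (isClosed_le continuous_const continuous_abs).union (isClosed_biUnion_finset fun e _ =>
    isClosed_le (continuous_id.sub continuous_const).abs continuous_const)

theorem tent {x : ℝ → ℝ} {M : ℝ} (hM0 : 0 ≤ M) (hM : Lip M x) (F : Finset ℝ) {N ζ δ : ℝ}
    (hζ : 0 < ζ) (hδ : 0 < δ) (hF1 : N ∈ F) (hF2 : -N ∈ F) :
    ∃ (u : ℝ → ℝ) (F' : Finset ℝ), F ⊆ F' ∧ (∃ M' : ℝ, 0 ≤ M' ∧ Lip M' u) ∧
      (∀ t, 0 ≤ u t ∧ u t ≤ δ) ∧ (∀ t, u t ≠ 0 → |t| < N ∧ ∀ e ∈ F, ζ < |t - e|) ∧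
      ∀ p q, Av F' p q → (Icc p q ⊆ Off F N ζ ∧ ∀ t ∈ Icc p q, u t = 0) ∨
        Lin (fun t => x t + u t) (M + 1) p q := by
  classical
  have hM1 : 0 < 2 * M + 1 := by linarith
  obtain ⟨τ, hτ, hτ1, hτ2⟩ : ∃ τ : ℝ, 0 < τ ∧ τ ≤ ζ ∧ (2 * M + 1) * τ ≤ δ :=
    ⟨min ζ (δ / (2 * M + 1)), lt_min hζ (div_pos hδ hM1), min_le_left _ _, by
      rw [mul_comm]
      exact (le_div_iff₀ hM1).1 (min_le_right _ _)⟩
  obtain ⟨A, hA⟩ : ∃ A : ℤ → Prop, ∀ k, A k ↔ ¬ Icc ((k : ℝ) * τ) (((k : ℝ) + 1) * τ) ⊆ Off F N ζ :=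
    ⟨_, fun _ => Iff.rfl⟩
  obtain ⟨U, hU1, hU0⟩ : ∃ U : ℤ → ℝ → ℝ,
      (∀ k, A k → U k = tV x (M + 1) ((k : ℝ) * τ) (((k : ℝ) + 1) * τ)) ∧
      ∀ k, ¬ A k → U k = fun _ => 0 :=
    ⟨fun k => if A k then tV x (M + 1) ((k : ℝ) * τ) (((k : ℝ) + 1) * τ) else fun _ => 0,
      fun k h => if_pos h, fun k h => if_neg h⟩
  have hb : ∀ (k : ℤ) t, (k : ℝ) * τ ≤ t → t ≤ ((k : ℝ) + 1) * τ → 0 ≤ U k t ∧
      U k t ≤ (2 * M + 1) * (t - k * τ) ∧ U k t ≤ (2 * M + 1) * (((k : ℝ) + 1) * τ - t) := by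
    intro k t h1 h2
    by_cases h : A k
    · rw [hU1 k h]
      exact t_bounds hM h1 h2
    · rw [hU0 k h]
      exact ⟨le_rfl, mul_nonneg hM1.le (sub_nonneg.2 h1), mul_nonneg hM1.le (sub_nonneg.2 h2)⟩
  have hl : ∀ k, Lip (2 * M + 1) (U k) := by
    intro k
    by_cases h : A k
    · rw [hU1 k h]
      exact t_lip hM0 hM _ _
    · rw [hU0 k h]
      intro s t
      rw [sub_self, abs_zero]
      positivity
  obtain ⟨u, hu⟩ : ∃ u : ℝ → ℝ, ∀ t, u t = U ⌊t / τ⌋ t := ⟨_, fun _ => rfl⟩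
  have hcell : ∀ (k : ℤ) t, (k : ℝ) * τ ≤ t → t ≤ ((k : ℝ) + 1) * τ → u t = U k t := by
    intro k t h1 h2
    rcases h2.eq_or_lt with h | h
    · have e : ⌊t / τ⌋ = k + 1 := by
        rw [h, mul_div_assoc, div_self hτ.ne', mul_one]
        exact_mod_cast Int.floor_intCast (R := ℝ) (k + 1)
      have a := hb k t h1 h2
      have b := hb (k + 1) t (by push_cast; exact h.ge) (by push_cast; linarith)
      rw [hu, e]
      push_cast at b
      rw [← h, sub_self, mul_zero] at a b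
      linarith [a.1, a.2.2, b.1, b.2.1]
    · have e : ⌊t / τ⌋ = k :=
        Int.floor_eq_iff.2 ⟨(le_div_iff₀ hτ).2 h1, (div_lt_iff₀ hτ).2 h⟩
      rw [hu, e]
  have hlip : Lip (2 * M + 1) u := by
    have key : ∀ s t, s ≤ t → |u t - u s| ≤ (2 * M + 1) * (t - s) := by
      intro s t hst
      have fs := t_floor hτ s
      have ft := t_floor hτ t
      rcases (Int.floor_mono (div_le_div_of_nonneg_right hst hτ.le)).eq_or_lt with h | h
      · have := hl ⌊t / τ⌋ s t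
        rw [abs_of_nonneg (sub_nonneg.2 hst)] at this
        rw [hu, hu, h]
        exact this
      · have h' : (⌊s / τ⌋ : ℝ) + 1 ≤ ⌊t / τ⌋ := by exact_mod_cast h
        have h3 := mul_le_mul_of_nonneg_right h' hτ.le
        have a := hb _ s fs.1 fs.2.le
        have b := hb _ t ft.1 ft.2.le
        rw [← hu] at a b
        have c : (2 * M + 1) * (((⌊s / τ⌋ : ℝ) + 1) * τ - s) ≤ (2 * M + 1) * (t - s) :=
          mul_le_mul_of_nonneg_left (by linarith [ft.1]) hM1.le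
        have d : (2 * M + 1) * (t - (⌊t / τ⌋ : ℝ) * τ) ≤ (2 * M + 1) * (t - s) :=
          mul_le_mul_of_nonneg_left (by linarith [fs.2]) hM1.le
        rw [abs_le]
        constructor <;> linarith [a.1, a.2.2, b.1, b.2.1]
    intro s t
    rcases le_total s t with h | h
    · rw [abs_of_nonneg (sub_nonneg.2 h)]
      exact key s t h
    · rw [abs_sub_comm, abs_sub_comm t s, abs_of_nonneg (sub_nonneg.2 h)]
      exact key t s h
  have hact : ∀ (k : ℤ) t, A k → (k : ℝ) * τ ≤ t → t ≤ ((k : ℝ) + 1) * τ →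
      |t| < N ∧ ∀ e ∈ F, ζ < |t - e| := by
    intro k t h h1 h2
    obtain ⟨s, hs, hs'⟩ := not_subset.1 ((hA k).1 h)
    simp only [Off, mem_ofPred_eq, not_or, not_le, not_exists, not_and] at hs'
    have hd : |s - t| ≤ τ := abs_le.2 ⟨by linarith [hs.1], by linarith [hs.2]⟩
    have hN := abs_lt.1 hs'.1
    have a := hs'.2 N hF1
    have b := hs'.2 (-N) hF2
    rw [abs_of_neg (by linarith [hN.2])] at a
    rw [abs_of_pos (by linarith [hN.1])] at b
    have hd' := abs_le.1 hd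
    refine ⟨abs_lt.2 ⟨by linarith [hd'.2], by linarith [hd'.1]⟩, fun e he => ?_⟩
    have c := hs'.2 e he
    have d := abs_sub_le s t e
    linarith
  obtain ⟨K, hK⟩ : ∃ K : ℕ, N / τ ≤ K := exists_nat_ge _
  have hK' : N ≤ K * τ := (div_le_iff₀ hτ).1 hK
  refine ⟨u, F ∪ ((Finset.Icc (-(K : ℤ)) K).image (fun k : ℤ => (k : ℝ) * τ) ∪
    (Finset.Icc (-(K : ℤ)) K).image (fun k : ℤ => ((k : ℝ) * τ + ((k : ℝ) + 1) * τ) / 2 +
      (x (((k : ℝ) + 1) * τ) - x ((k : ℝ) * τ)) / (2 * (M + 1)))), Finset.subset_union_left,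
    ⟨_, hM1.le, hlip⟩, fun t => ?_, fun t ht => ?_, fun p q hav => ?_⟩
  · have ft := t_floor hτ t
    have a := hb _ t ft.1 ft.2.le
    rw [← hu] at a
    have c : (2 * M + 1) * (t - (⌊t / τ⌋ : ℝ) * τ) ≤ (2 * M + 1) * τ :=
      mul_le_mul_of_nonneg_left (by linarith [ft.2]) hM1.le
    exact ⟨a.1, by linarith [a.2.1]⟩
  · have ft := t_floor hτ t
    refine hact ⌊t / τ⌋ t ?_ ft.1 ft.2.le
    by_contra h
    rw [hu, hU0 _ h] at ht
    exact ht rfl
  · by_cases hpq : p < q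
    swap
    · refine Or.inr (Or.inl fun s hs t ht => ?_)
      have e : s = t := by linarith [hs.1, hs.2, ht.1, ht.2, not_lt.1 hpq]
      rw [e, sub_self, sub_self, mul_zero]
    by_cases hex : ∃ t ∈ Ioo p q, A ⌊t / τ⌋
    · obtain ⟨t, ht, hk⟩ := hex
      have ft := t_floor hτ t
      generalize ⌊t / τ⌋ = k at hk ft
      have hle : (k : ℝ) * τ ≤ ((k : ℝ) + 1) * τ := ft.1.trans ft.2.le
      have n1 := abs_lt.1 (hact k _ hk le_rfl hle).1
      have n2 := abs_lt.1 (hact k _ hk hle le_rfl).1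
      have k1 : -(K : ℤ) ≤ k := by
        have : -(K : ℝ) < k := lt_of_mul_lt_mul_right (by linarith [n1.1]) hτ.le
        exact_mod_cast this.le
      have k2 : k + 1 ≤ (K : ℤ) := by
        have : (k : ℝ) + 1 < K := lt_of_mul_lt_mul_right (by linarith [n2.2]) hτ.le
        exact_mod_cast this.le
      have m1 := hav ((k : ℝ) * τ) (Finset.mem_union_right _ (Finset.mem_union_left _
        (Finset.mem_image.2 ⟨k, Finset.mem_Icc.2 ⟨k1, by omega⟩, rfl⟩)))
      have m2 := hav (((k : ℝ) + 1) * τ) (Finset.mem_union_right _ (Finset.mem_union_left _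
        (Finset.mem_image.2 ⟨k + 1, Finset.mem_Icc.2 ⟨by omega, k2⟩, by push_cast; rfl⟩)))
      have m3 := hav _ (Finset.mem_union_right _ (Finset.mem_union_right _
        (Finset.mem_image.2 ⟨k, Finset.mem_Icc.2 ⟨k1, by omega⟩, rfl⟩)))
      have p1 : (k : ℝ) * τ ≤ p := by
        by_contra h
        exact m1 ⟨not_le.1 h, ft.1.trans_lt ht.2⟩
      have p2 : q ≤ ((k : ℝ) + 1) * τ := by
        by_contra h
        exact m2 ⟨ht.1.trans ft.2, not_le.1 h⟩
      have hv : ∀ s ∈ Icc p q, x s + u s = min (x ((k : ℝ) * τ) + (M + 1) * (s - k * τ))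
          (x (((k : ℝ) + 1) * τ) + (M + 1) * (((k : ℝ) + 1) * τ - s)) := by
        intro s hs
        rw [hcell k s (p1.trans hs.1) (hs.2.trans p2), hU1 k hk, tV]
        ring
      generalize (k : ℝ) * τ = a at m3 hv
      generalize ((k : ℝ) + 1) * τ = b at m3 hv
      obtain ⟨c, hc⟩ : ∃ c, c = (a + b) / 2 + (x b - x a) / (2 * (M + 1)) := ⟨_, rfl⟩
      rw [← hc] at m3
      have hS : 0 < M + 1 := by linarith
      have hc' : 2 * ((M + 1) * c) = (M + 1) * (a + b) + (x b - x a) := by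
        rw [hc]
        field_simp
      rcases le_or_gt q c with h | h
      · refine Or.inr (Or.inl fun s hs t ht => ?_)
        have w : ∀ r ∈ Icc p q, x a + (M + 1) * (r - a) ≤ x b + (M + 1) * (b - r) := by
          intro r hr
          have := mul_le_mul_of_nonneg_left (hr.2.trans h) hS.le
          linarith
        show x t + u t - (x s + u s) = _
        rw [hv s hs, hv t ht, min_eq_left (w s hs), min_eq_left (w t ht)]
        ring
      · have h' : c ≤ p := by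
          by_contra h2
          exact m3 ⟨not_le.1 h2, h⟩
        refine Or.inr (Or.inr fun s hs t ht => ?_)
        have w : ∀ r ∈ Icc p q, x b + (M + 1) * (b - r) ≤ x a + (M + 1) * (r - a) := by
          intro r hr
          have := mul_le_mul_of_nonneg_left (h'.trans hr.1) hS.le
          linarith
        show x t + u t - (x s + u s) = _
        rw [hv s hs, hv t ht, min_eq_right (w s hs), min_eq_right (w t ht)]
        ring
    · have hcl : IsClosed (Off F N ζ ∩ {t | u t = 0}) :=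
        (t_closed F N ζ).inter (isClosed_eq hlip.continuous continuous_const)
      have hsub : Ioo p q ⊆ Off F N ζ ∩ {t | u t = 0} := by
        intro t ht
        have h : ¬ A ⌊t / τ⌋ := fun h => hex ⟨t, ht, h⟩
        have ft := t_floor hτ t
        refine ⟨not_not.1 (mt (hA _).2 h) ⟨ft.1, ft.2.le⟩, ?_⟩
        show u t = 0
        rw [hu, hU0 _ h]
      have hI := closure_minimal hsub hcl
      rw [closure_Ioo hpq.ne] at hI
      exact Or.inl ⟨fun t ht => (hI ht).1, fun t ht => (hI ht).2⟩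

end Mc59
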