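import Pool.Agent.P.MP_59d724_co.McP
import Pool.Agent.P.MP_59d724_co.McT

open MeasureTheory Set

namespace Mc59

theorem mcz_int_le {u : ℝ → ℝ} {δ : ℝ} (hu : Continuous u) (h0 : ∀ t, 0 ≤ u t ∧ u t ≤ δ)
    {p q : ℝ} (hpq : p ≤ q) : 0 ≤ (∫ t in p..q, u t) ∧ (∫ t in p..q, u t) ≤ δ * (q - p) := by
  refine ⟨intervalIntegral.integral_nonneg hpq fun t _ => (h0 t).1, ?_⟩
  have h1 : (∫ t in p..q, u t) ≤ ∫ _t in p..q, δ :=
    intervalIntegral.integral_mono_on hpq (hu.intervalIntegrable _ _)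
      (continuous_const.intervalIntegrable _ _) fun t _ => (h0 t).2
  rw [intervalIntegral.integral_const, smul_eq_mul] at h1
  linarith

theorem mcz_int_zero {u : ℝ → ℝ} {p q : ℝ} (hpq : p ≤ q) (h : ∀ t ∈ Icc p q, u t = 0) :
    (∫ t in p..q, u t) = 0 := by
  have h1 : (∫ t in p..q, u t) = ∫ _t in p..q, (0 : ℝ) := by
    refine intervalIntegral.integral_congr fun t ht => ?_
    rw [uIcc_of_le hpq] at ht
    exact h t ht
  rw [h1]
  simp

theorem mcz_win {u : ℝ → ℝ} {δ A : ℝ} (hu : Continuous u) (h0 : ∀ t, 0 ≤ u t ∧ u t ≤ δ)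
    (hA : 0 ≤ A) (hs : ∀ t, A ≤ |t| → u t = 0) (a : ℝ) {L : ℝ} (hL : 0 < L) :
    0 ≤ (∫ t in a..(a + L), u t) ∧ (∫ t in a..(a + L), u t) ≤ δ * max 1 (2 * A) * min L 1 := by
  have hδ : 0 ≤ δ := le_trans (h0 0).1 (h0 0).2
  have h1 := mcz_int_le hu h0 (p := a) (q := a + L) (by linarith)
  refine ⟨h1.1, ?_⟩
  have hK1 : (1 : ℝ) ≤ max 1 (2 * A) := le_max_left _ _
  have hK2 : 2 * A ≤ max 1 (2 * A) := le_max_right _ _
  rcases le_total L 1 with hL1 | hL1
  · rw [min_eq_left hL1]
    have h2 : δ * L ≤ δ * max 1 (2 * A) * L := by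
      have : δ * 1 ≤ δ * max 1 (2 * A) := mul_le_mul_of_nonneg_left hK1 hδ
      nlinarith
    have h3 : δ * (a + L - a) = δ * L := by ring
    linarith [h1.2]
  · rw [min_eq_right hL1, mul_one]
    have hi : ∀ p q, IntervalIntegrable u volume p q := fun p q => hu.intervalIntegrable _ _
    have h2 : (∫ t in a..(a + L), u t) ≤ ∫ t in (min a (-A))..(max (a + L) A), u t :=
      intervalIntegral.integral_mono_interval (min_le_left _ _) (by linarith) (le_max_left _ _)
        (Filter.Eventually.of_forall fun t => (h0 t).1) (hi _ _)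
    have h3 : (∫ t in (min a (-A))..(max (a + L) A), u t) =
        (∫ t in (min a (-A))..(-A), u t) + (∫ t in (-A)..A, u t) +
          ∫ t in A..(max (a + L) A), u t := by
      rw [intervalIntegral.integral_add_adjacent_intervals (hi _ _) (hi _ _),
        intervalIntegral.integral_add_adjacent_intervals (hi _ _) (hi _ _)]
    have h4 : (∫ t in (min a (-A))..(-A), u t) = 0 :=
      mcz_int_zero (min_le_right _ _) fun t ht => hs t (by
        have := neg_le_abs t
        linarith [ht.2])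
    have h5 : (∫ t in A..(max (a + L) A), u t) = 0 :=
      mcz_int_zero (le_max_right _ _) fun t ht => hs t (le_trans ht.1 (le_abs_self t))
    have h6 := (mcz_int_le hu h0 (p := -A) (q := A) (by linarith)).2
    have h7 : δ * (2 * A) ≤ δ * max 1 (2 * A) := mul_le_mul_of_nonneg_left hK2 hδ
    have h8 : δ * (A - -A) = δ * (2 * A) := by ring
    linarith

theorem mcz_D {u : ℝ → ℝ} {δ A : ℝ} (hu : Continuous u) (h0 : ∀ t, 0 ≤ u t ∧ u t ≤ δ)
    (hA : 0 ≤ A) (hs : ∀ t, A ≤ |t| → u t = 0) (a h : ℝ) {L : ℝ} (hL : 0 < L) :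
    |D u a h L| ≤ δ * max 1 (2 * A) * min L 1 := by
  have h1 := mcz_win hu h0 hA hs a hL
  have h2 := mcz_win hu h0 hA hs (a + h) hL
  unfold D
  rw [abs_le]
  constructor <;> linarith [h1.1, h1.2, h2.1, h2.2]

theorem mcz_mono_congr {f g : ℝ → ℝ} {m m' p q : ℝ} (h : Mono f m p q)
    (hg : ∀ t ∈ Icc p q, g t = f t) (hm : m' ≤ m) : Mono g m' p q := by
  rcases h with h | h
  · left
    intro s t h1 h2 h3
    rw [hg s ⟨h1, by linarith⟩, hg t ⟨by linarith, h3⟩]
    have := h s t h1 h2 h3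
    have h4 : m' * (t - s) ≤ m * (t - s) := mul_le_mul_of_nonneg_right hm (by linarith)
    linarith
  · right
    intro s t h1 h2 h3
    rw [hg s ⟨h1, by linarith⟩, hg t ⟨by linarith, h3⟩]
    have := h s t h1 h2 h3
    have h4 : m' * (t - s) ≤ m * (t - s) := mul_le_mul_of_nonneg_right hm (by linarith)
    linarith

theorem mcz_lin_mono {f : ℝ → ℝ} {S m p q : ℝ} (h : Lin f S p q) (hm : m ≤ S) :
    Mono f m p q := by
  rcases h with h | h
  · left
    intro s t h1 h2 h3
    have := h s ⟨h1, by linarith⟩ t ⟨by linarith, h3⟩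
    have h4 : m * (t - s) ≤ S * (t - s) := mul_le_mul_of_nonneg_right hm (by linarith)
    linarith
  · right
    intro s t h1 h2 h3
    have := h s ⟨h1, by linarith⟩ t ⟨by linarith, h3⟩
    have h4 : m * (t - s) ≤ S * (t - s) := mul_le_mul_of_nonneg_right hm (by linarith)
    linarith

theorem mcz_lin_third {f y g : ℝ → ℝ} {M m p q : ℝ} (h : Lin f (M + 1) p q) (hy : Lip M y)
    (hg : ∀ t, f t + y t + g t = 1) (hm : m ≤ 1) : Mono g m p q := by
  rcases h with h | h
  · right
    intro s t h1 h2 h3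
    have h5 := h s ⟨h1, by linarith⟩ t ⟨by linarith, h3⟩
    have h4 : m * (t - s) ≤ 1 * (t - s) := mul_le_mul_of_nonneg_right hm (by linarith)
    have h6 := hy s t
    rw [abs_of_nonneg (by linarith : 0 ≤ t - s), abs_le] at h6
    have h7 := hg s
    have h8 := hg t
    nlinarith [h6.1, h6.2]
  · left
    intro s t h1 h2 h3
    have h5 := h s ⟨h1, by linarith⟩ t ⟨by linarith, h3⟩
    have h4 : m * (t - s) ≤ 1 * (t - s) := mul_le_mul_of_nonneg_right hm (by linarith)
    have h6 := hy s t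
    rw [abs_of_nonneg (by linarith : 0 ≤ t - s), abs_le] at h6
    have h7 := hg s
    have h8 := hg t
    nlinarith [h6.1, h6.2]

theorem zig {x y z : ℝ → ℝ} (h : Pre x y z) (F : Finset ℝ) {N ζ δ : ℝ} (hζ : 0 < ζ)
    (hδ : 0 < δ) (hF1 : N ∈ F) (hF2 : -N ∈ F) (hy : LM F y) (hx : LMoff F N ζ x)
    (hz : LMoff F N ζ z) :
    ∃ (x' z' : ℝ → ℝ) (F' : Finset ℝ) (S : ℝ), 0 < S ∧ F ⊆ F' ∧ Pre x' y z' ∧ LM F' x' ∧
      LM F' y ∧ LM F' z' ∧ (∀ t, |x' t - x t| ≤ δ) ∧ (∀ t, N ≤ |t| → x' t = x t) ∧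
      ∀ p q, Av F' p q → Icc p q ⊆ Off F N ζ ∨ Lin x' S p q := by
  obtain ⟨M, hM0, hMx, hMy, hMz⟩ := h.lip
  have cx := hMx.continuous
  have cy := hMy.continuous
  have cz := hMz.continuous
  obtain ⟨c, hc, hRG⟩ := h.swap12.rg N (ζ / 2) (by positivity)
  have hA : 0 ≤ |N| := abs_nonneg N
  have hNA : N ≤ |N| := le_abs_self N
  obtain ⟨t0, -, ht0⟩ := (isCompact_Icc (a := -|N|) (b := |N|)).exists_isMinOn
    ⟨0, by constructor <;> linarith⟩ cz.continuousOn
  have hμ : 0 < z t0 := (h.pos t0).2.2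
  have hK : (0 : ℝ) < max 1 (2 * |N|) := lt_of_lt_of_le one_pos (le_max_left _ _)
  obtain ⟨δ', hδ', hd1, hd2, hd3⟩ : ∃ δ' : ℝ, 0 < δ' ∧ δ' ≤ δ ∧ δ' ≤ z t0 / 2 ∧
      δ' * max 1 (2 * |N|) ≤ c / 2 := by
    refine ⟨min δ (min (z t0 / 2) (c / 2 / max 1 (2 * |N|))), ?_, min_le_left _ _,
      le_trans (min_le_right _ _) (min_le_left _ _), ?_⟩
    · exact lt_min hδ (lt_min (by positivity) (by positivity))
    · exact (le_div_iff₀ hK).1 (le_trans (min_le_right _ _) (min_le_right _ _))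
  obtain ⟨u, F', hFF, ⟨M', hM'0, hM'⟩, hu0, hune, hAv⟩ := tent hM0 hMx F hζ hδ' hF1 hF2
  have cu := hM'.continuous
  have hsupp : ∀ t, N ≤ |t| → u t = 0 := by
    intro t ht
    by_contra hne
    exact absurd (hune t hne).1 (not_lt.mpr ht)
  have hav : ∀ p q, Av F' p q → Av F p q := fun p q H e he => H e (hFF he)
  have hsum : ∀ t, (x t + u t) + y t + (z t - u t) = 1 := fun t => by linarith [h.sum t]
  refine ⟨fun t => x t + u t, fun t => z t - u t, F', M + 1, by linarith, hFF, ?_, ?_, ?_, ?_,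
    ?_, ?_, ?_⟩
  · refine Pre.swap12 (x := y) (y := fun t => x t + u t) (z := fun t => z t - u t)
      ⟨?_, ?_, ?_, ?_, ?_⟩
    · intro t
      refine ⟨(h.pos t).2.1, by linarith [(h.pos t).1, (hu0 t).1], ?_⟩
      by_cases hne : u t = 0
      · rw [hne, sub_zero]
        exact (h.pos t).2.2
      · have h1 := abs_lt.1 (hune t hne).1
        have h2 : z t0 ≤ z t := ht0 (show t ∈ Icc (-|N|) |N| from
          ⟨by linarith [h1.1], by linarith [h1.2]⟩)
        linarith [(hu0 t).2]
    · intro t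
      linarith [hsum t]
    · refine ⟨M + M', by linarith, ?_, ?_, ?_⟩
      · intro s t
        have h1 := hMy s t
        have h2 : 0 ≤ M' * |t - s| := by positivity
        linarith
      · intro s t
        have h1 := abs_le.1 (hMx s t)
        have h2 := abs_le.1 (hM' s t)
        rw [abs_le]
        constructor <;> linarith [h1.1, h1.2, h2.1, h2.2]
      · intro s t
        have h1 := abs_le.1 (hMz s t)
        have h2 := abs_le.1 (hM' s t)
        rw [abs_le]
        constructor <;> linarith [h1.1, h1.2, h2.1, h2.2]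
    · obtain ⟨m, hm, hmono⟩ := hy (|N| + ζ)
      refine pert cy cx cu h.swap12.rg (N := N) (h1 := ζ / 2) (m := m) (by positivity) hm hsupp
        ?_ ⟨c / 2, by positivity, ?_⟩
      · intro a
        by_cases H : ∀ t ∈ Icc a (a + 2 * (ζ / 2)), u t = 0
        · exact Or.inl H
        · right
          push Not at H
          obtain ⟨t, ht, hne⟩ := H
          have h1 := abs_lt.1 (hune t hne).1
          refine hmono _ _ (by linarith [ht.2, h1.1]) (by linarith [ht.1, h1.2]) ?_
          intro e he hbet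
          have h2 := (hune t hne).2 e he
          have h3 : |t - e| ≤ ζ := by
            rw [abs_le]
            constructor <;> linarith [ht.1, ht.2, hbet.1, hbet.2]
          linarith
      · intro a k L hL hLk hk hmeet
        have h1 := hRG a k L hL hLk hk hmeet
        have h2 := mcz_D cu hu0 hA (fun t ht => hsupp t (le_trans hNA ht)) a k hL
        have h3 : 0 ≤ min L 1 := le_min hL.le zero_le_one
        have h4 : δ' * max 1 (2 * |N|) * min L 1 ≤ c / 2 * min L 1 :=
          mul_le_mul_of_nonneg_right hd3 h3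
        rw [D_add cx cu]
        have h5 : |D x a k L| ≤ |D x a k L + D u a k L| + |D u a k L| := by
          have := abs_sub (D x a k L + D u a k L) (D u a k L)
          rwa [add_sub_cancel_right] at this
        linarith
    · refine ⟨h.tail.2.1, Tail.congr h.tail.1 (N := N) fun t ht => ?_,
        Tail.congr h.tail.2.2 (N := N) fun t ht => ?_⟩
      · rw [hsupp t ht, add_zero]
      · rw [hsupp t ht, sub_zero]
  · intro N'
    obtain ⟨m, hm, hmo⟩ := hx N'
    refine ⟨min m 1, lt_min hm one_pos, fun p q hp hq H => ?_⟩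
    rcases hAv p q H with ⟨hoff, h0⟩ | hlin
    · refine mcz_mono_congr (hmo p q hp hq (hav p q H) hoff) (fun t ht => ?_) (min_le_left _ _)
      rw [h0 t ht, add_zero]
    · exact mcz_lin_mono hlin (by linarith [min_le_right m 1])
  · intro N'
    obtain ⟨m, hm, hmo⟩ := hy N'
    exact ⟨m, hm, fun p q hp hq H => hmo p q hp hq (hav p q H)⟩
  · intro N'
    obtain ⟨m, hm, hmo⟩ := hz N'
    refine ⟨min m 1, lt_min hm one_pos, fun p q hp hq H => ?_⟩
    rcases hAv p q H with ⟨hoff, h0⟩ | hlin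
    · refine mcz_mono_congr (hmo p q hp hq (hav p q H) hoff) (fun t ht => ?_) (min_le_left _ _)
      rw [h0 t ht, sub_zero]
    · exact mcz_lin_third hlin hMy hsum (min_le_right _ _)
  · intro t
    have h1 := hu0 t
    rw [abs_le]
    constructor <;> linarith [h1.1, h1.2]
  · intro t ht
    show x t + u t = x t
    rw [hsupp t ht, add_zero]
  · intro p q H
    rcases hAv p q H with ⟨hoff, -⟩ | hlin
    · exact Or.inl hoff
    · exact Or.inr hlin

end Mc59
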