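import Pool.Agent.P.MP_59d724_co.McS
import Pool.Agent.P.MP_59d724_co.McZ
import Pool.Agent.P.MP_59d724_co.McN

open MeasureTheory Set

namespace Mc59

theorem gn_mono {F F' : Finset ℝ} {f : ℝ → ℝ} (h : LM F f) (hF : F ⊆ F') : LM F' f := by
  intro N
  obtain ⟨m, hm, h⟩ := h N
  exact ⟨m, hm, fun p q hp hq hA => h p q hp hq fun e he => hA e (hF he)⟩

theorem gn_off {F : Finset ℝ} {f g : ℝ → ℝ} {N ζ : ℝ} (h : LM F f)
    (hfg : ∀ t ∈ Off F N ζ, g t = f t) : LMoff F N ζ g := by
  intro N'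
  obtain ⟨m, hm, h⟩ := h N'
  refine ⟨m, hm, fun p q hp hq hA hO => ?_⟩
  refine (h p q hp hq hA).imp (fun h s t h1 h2 h3 => ?_) (fun h s t h1 h2 h3 => ?_)
  all_goals
    rw [hfg s (hO ⟨h1, h2.trans h3⟩), hfg t (hO ⟨h1.trans h2, h3⟩)]
    exact h s t h1 h2 h3

theorem gn_prim {f g : ℝ → ℝ} (hf : Continuous f) (hg : Continuous g) {N δ : ℝ} (hN : 0 ≤ N)
    (h1 : ∀ t, |f t - g t| ≤ δ) (h2 : ∀ t, N ≤ |t| → f t = g t) (a b : ℝ) :
    |(∫ t in a..b, f t) - ∫ t in a..b, g t| ≤ 2 * N * δ := by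
  rw [← intervalIntegral.integral_sub (hf.intervalIntegrable _ _) (hg.intervalIntegrable _ _)]
  have hi : Integrable ((Icc (-N) N).indicator fun _ => δ) volume :=
    (integrable_indicator_iff measurableSet_Icc).2 (integrableOn_const (by simp))
  have hle : ∀ t, ‖f t - g t‖ ≤ (Icc (-N) N).indicator (fun _ => δ) t := by
    intro t
    by_cases ht : t ∈ Icc (-N) N
    · rw [indicator_of_mem ht]; exact h1 t
    · rw [indicator_of_notMem ht, h2 t (by
        by_contra hc
        push Not at hc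
        exact ht ⟨(abs_lt.1 hc).1.le, (abs_lt.1 hc).2.le⟩)]
      simp
  have h3 : ‖∫ t in a..b, (f t - g t)‖ ≤ ∫ t in uIoc a b, (Icc (-N) N).indicator (fun _ => δ) t := by
    rw [intervalIntegral.norm_integral_eq_norm_integral_uIoc]
    exact norm_integral_le_of_norm_le hi.integrableOn (Filter.Eventually.of_forall hle)
  have h4 : (∫ t in uIoc a b, (Icc (-N) N).indicator (fun _ => δ) t) ≤
      ∫ t, (Icc (-N) N).indicator (fun _ => δ) t :=
    setIntegral_le_integral hi (Filter.Eventually.of_forall fun t => (norm_nonneg _).trans (hle t))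
  have h5 : (∫ t, (Icc (-N) N).indicator (fun _ => δ) t) = 2 * N * δ := by
    rw [integral_indicator measurableSet_Icc]
    simp only [integral_const, smul_eq_mul, MeasurableSet.univ, measureReal_restrict_apply,
      univ_inter]
    rw [Real.volume_real_Icc_of_le (by linarith)]
    ring
  rw [← Real.norm_eq_abs]
  linarith

theorem gn_int {f g : ℝ → ℝ} (hf : Continuous f) (hg : Continuous g) {n δ : ℝ} (hn : 0 ≤ n)
    (h : ∀ t, f t - δ ≤ g t) : (∫ t in (-n)..n, f t) - 2 * n * δ ≤ ∫ t in (-n)..n, g t := by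
  have hc : Continuous fun t => f t - δ := hf.sub continuous_const
  have h1 : (∫ t in (-n)..n, (f t - δ)) ≤ ∫ t in (-n)..n, g t :=
    intervalIntegral.integral_mono_on (by linarith) (hc.intervalIntegrable _ _)
      (hg.intervalIntegrable _ _) fun t _ => h t
  rw [intervalIntegral.integral_sub (hf.intervalIntegrable _ _)
    (continuous_const.intervalIntegrable _ _), intervalIntegral.integral_const] at h1
  simp only [smul_eq_mul] at h1
  linarith

theorem gn_third {x y z : ℝ → ℝ} (hx : Continuous x) (hy : Continuous y)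
    (h : ∀ t, x t + y t + z t = 1) (a b : ℝ) :
    (∫ t in a..b, z t) = (b - a) - (∫ t in a..b, x t) - ∫ t in a..b, y t := by
  have e : ∀ t, z t = 1 - x t - y t := fun t => by linarith [h t]
  have hc : Continuous fun t => 1 - x t := continuous_const.sub hx
  simp only [e]
  rw [intervalIntegral.integral_sub (hc.intervalIntegrable _ _) (hy.intervalIntegrable _ _),
    intervalIntegral.integral_sub (continuous_const.intervalIntegrable _ _)
      (hx.intervalIntegrable _ _)]
  simp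

theorem gain {x y z : ℝ → ℝ} (h : St x y z) {n ε : ℝ} (hn : 0 ≤ n) (hε : 0 < ε) :
    ∃ x' y' z' : ℝ → ℝ, St x' y' z' ∧
      (∀ a b, |(∫ t in a..b, x' t) - ∫ t in a..b, x t| ≤ ε) ∧
      (∀ a b, |(∫ t in a..b, y' t) - ∫ t in a..b, y t| ≤ ε) ∧
      (∀ a b, |(∫ t in a..b, z' t) - ∫ t in a..b, z t| ≤ ε) ∧
      1 / 8 * (∫ t in (-n)..n, (min (y t) (z t)) ^ 2) - ε ≤ ∫ t in (-n)..n, (y' t - y t) ^ 2 := by
  classical
  obtain ⟨hp, F, hFx, hFy, hFz⟩ := h
  obtain ⟨M, hM0, hMx, hMy, hMz⟩ := hp.lip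
  obtain ⟨ξ1, ξ2, hT⟩ := hp.tail.1
  obtain ⟨γ, hγ, B1, hB1m, hB1v, hB1⟩ := nlm hMx.continuous hFx
    (insert ξ1 (insert ξ2 (F.image x))) n (η := ε / 16) (by positivity)
  obtain ⟨N0, hN0⟩ := hT (γ / 4) (by positivity)
  set N : ℝ := max N0 1 with hN
  have hN1 : 0 < N := lt_of_lt_of_le one_pos (le_max_right _ _)
  have hNN : N0 ≤ N := le_max_left _ _
  set F1 : Finset ℝ := insert N (insert (-N) F) with hF1
  have hFF1 : F ⊆ F1 := fun e he => Finset.mem_insert_of_mem (Finset.mem_insert_of_mem he)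
  have hNF : N ∈ F1 := Finset.mem_insert_self _ _
  have hNF' : -N ∈ F1 := Finset.mem_insert_of_mem (Finset.mem_insert_self _ _)
  set ζ : ℝ := γ / (8 * (M + 1)) with hζ
  have hζ0 : 0 < ζ := by positivity
  have hζM : M * (2 * ζ) ≤ γ / 4 := by
    have : ζ * (8 * (M + 1)) = γ := by rw [hζ]; field_simp
    nlinarith
  set δ : ℝ := min (γ / 8) (ε / (16 * (N + n + 1))) with hδ
  have hδ0 : 0 < δ := lt_min (by positivity) (by positivity)
  have hδγ : δ ≤ γ / 8 := min_le_left _ _
  have hδε : (N + n + 1) * δ ≤ ε / 16 := by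
    have h1 : δ ≤ ε / (16 * (N + n + 1)) := min_le_right _ _
    rw [le_div_iff₀ (by positivity)] at h1
    linarith
  obtain ⟨x1, z1, F', S, hS, hF', hp1, hx1, hy1, hz1, hd1, he1, hcl⟩ := zig hp F1 hζ0 hδ0 hNF hNF'
    (gn_mono hFy hFF1) (gn_off (gn_mono hFx hFF1) fun _ _ => rfl)
    (gn_off (gn_mono hFz hFF1) fun _ _ => rfl)
  obtain ⟨M1, hM1, hMx1, -, hMz1⟩ := hp1.lip
  obtain ⟨γ', hγ', B2, hB2m, hB2v, hB2⟩ := nlm hMx1.continuous hx1 (F'.image x1) n
    (η := ε / 16) (by positivity)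
  set r : ℝ := min (γ' / 2) (γ / 16) with hr
  have hr0 : 0 < r := lt_min (by positivity) (by positivity)
  have hr1 : r ≤ γ' / 2 := min_le_left _ _
  have hr2 : r ≤ γ / 16 := min_le_right _ _
  set E : Set ℝ := Off F1 N ζ ∪ (F' : Set ℝ) with hE
  have hEN : ∀ t, N ≤ |t| → t ∈ E := fun t ht => Or.inl (Or.inl ht)
  have hlin : ∀ p q, (∀ t ∈ Icc p q, t ∉ E) → Lin x1 S p q := by
    intro p q hpq
    rcases hcl p q (fun e he hh => hpq e ⟨hh.1.le, hh.2.le⟩ (Or.inr he)) with hO | hL
    · left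
      intro s hs
      exact absurd (Or.inl (hO hs)) (hpq s hs)
    · exact hL
  have hBv : volume (B1 ∪ B2) ≤ ENNReal.ofReal (ε / 8) := by
    refine (measure_union_le _ _).trans ((add_le_add hB1v hB2v).trans ?_)
    rw [← ENNReal.ofReal_add (by positivity) (by positivity)]
    exact ENNReal.ofReal_le_ofReal (by linarith)
  have htail : ∀ t e, N ≤ |e| → |x t - x e| ≤ 3 * γ / 4 →
      ∃ ξ ∈ insert ξ1 (insert ξ2 (F.image x)), |x t - ξ| ≤ γ := by
    intro t e he hd
    rcases hN0 e (hNN.trans he) with h1 | h1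
    · exact ⟨ξ1, Finset.mem_insert_self _ _, by linarith [abs_sub_le (x t) (x e) ξ1]⟩
    · exact ⟨ξ2, Finset.mem_insert_of_mem (Finset.mem_insert_self _ _),
        by linarith [abs_sub_le (x t) (x e) ξ2]⟩
  have hB : ∀ t, |t| ≤ n → (∃ e ∈ E, |x1 t - x1 e| < 2 * r) → t ∈ B1 ∪ B2 := by
    rintro t ht ⟨e, he, hd⟩
    rcases he with he | he
    · left
      have h1 : |x t - x e| ≤ γ / 2 := by
        have a1 := abs_le.1 (hd1 t)
        have a2 := abs_le.1 (hd1 e)
        have a3 := abs_lt.1 hd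
        exact abs_le.2 ⟨by linarith, by linarith⟩
      refine hB1 t ht ?_
      rcases he with he | ⟨f, hf, hef⟩
      · exact htail t e he (by linarith)
      · have h2 : |x t - x f| ≤ 3 * γ / 4 := by
          have a1 := (hMx f e).trans (mul_le_mul_of_nonneg_left hef hM0)
          linarith [abs_sub_le (x t) (x e) (x f)]
        rcases Finset.mem_insert.1 hf with rfl | hf
        · exact htail t _ (le_abs_self _) h2
        rcases Finset.mem_insert.1 hf with rfl | hf
        · exact htail t _ (by rw [abs_neg]; exact le_abs_self _) h2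
        · exact ⟨x f, Finset.mem_insert_of_mem (Finset.mem_insert_of_mem
            (Finset.mem_image_of_mem x hf)), by linarith⟩
    · right
      exact hB2 t ht ⟨x1 e, Finset.mem_image_of_mem x1 he, by linarith⟩
  obtain ⟨u, hp2, hu0, hu1, hus, hug⟩ := shear hp1 E hS hr0 hEN hlin hn (η := ε / 8)
    (ε := ε / 8) (by positivity) (by positivity) (hB1m.union hB2m) hBv hB
  set ζ2 : ℝ := r / (2 * (M1 + 1)) with hζ2
  have hζ20 : 0 < ζ2 := by positivity
  have hζ2M : M1 * (2 * ζ2) ≤ r := by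
    have : ζ2 * (2 * (M1 + 1)) = r := by rw [hζ2]; field_simp
    nlinarith
  have hoff : ∀ t ∈ Off F' N ζ2, u t = 0 := by
    rintro t (ht | ⟨e, he, hte⟩)
    · exact hu0 t ⟨t, hEN t ht, by simpa using hr0.le⟩
    · exact hu0 t ⟨e, Or.inr he, ((hMx1 e t).trans (mul_le_mul_of_nonneg_left hte hM1)).trans hζ2M⟩
  obtain ⟨y3, z3, F3, S3, -, -, hp3, hy3, hx3, hz3, hd3, he3, -⟩ := zig hp2.swap12 F' hζ20 hδ0
    (hF' hNF) (hF' hNF') hx1 (gn_off hy1 fun t ht => by simp only [hoff t ht, add_zero])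
    (gn_off hz1 fun t ht => by simp only [hoff t ht, sub_zero])
  obtain ⟨M2, -, -, hMy2, -⟩ := hp2.lip
  obtain ⟨M3, -, hMy3, -, hMz3⟩ := hp3.lip
  have hxc := hMx.continuous
  have hyc := hMy.continuous
  have hzc := hMz.continuous
  have hx1c := hMx1.continuous
  have hy2c := hMy2.continuous
  have hy3c := hMy3.continuous
  have huc : Continuous u := by
    have := hy2c.sub hyc
    refine this.congr fun t => ?_
    simp
  have hNδ : 2 * N * δ ≤ ε / 8 := by nlinarith
  have hnδ : 2 * n * δ ≤ ε / 8 := by nlinarith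
  have hX : ∀ a b, |(∫ t in a..b, x1 t) - ∫ t in a..b, x t| ≤ ε / 8 := fun a b =>
    (gn_prim hx1c hxc hN1.le hd1 he1 a b).trans hNδ
  have hY : ∀ a b, |(∫ t in a..b, y3 t) - ∫ t in a..b, y t| ≤ ε / 4 := by
    intro a b
    have h1 := (gn_prim hy3c hy2c hN1.le hd3 he3 a b).trans hNδ
    rw [intervalIntegral.integral_add (hyc.intervalIntegrable _ _)
      (huc.intervalIntegrable _ _)] at h1
    have a1 := abs_le.1 h1
    have a2 := abs_le.1 (hus a b)
    exact abs_le.2 ⟨by linarith, by linarith⟩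
  refine ⟨x1, y3, z3, ⟨hp3.swap12, F3, hx3, hy3, hz3⟩, fun a b => (hX a b).trans (by linarith),
    fun a b => (hY a b).trans (by linarith), fun a b => ?_, ?_⟩
  · have e1 := gn_third hx1c hy3c (z := z3) (fun t => by linarith [hp3.sum t]) a b
    have e2 := gn_third hxc hyc hp.sum a b
    have a1 := abs_le.1 (hX a b)
    have a2 := abs_le.1 (hY a b)
    rw [e1, e2]
    exact abs_le.2 ⟨by linarith, by linarith⟩
  · have h1 := gn_int (f := fun t => (u t) ^ 2) (g := fun t => (y3 t - y t) ^ 2) (huc.pow 2)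
      ((hy3c.sub hyc).pow 2) hn (δ := δ) fun t => by
        have a1 := abs_le.1 (hd3 t)
        have a2 := abs_le.1 (hu1 t)
        have a3 : y3 t - y t = u t + (y3 t - (y t + u t)) := by ring
        rw [a3]
        nlinarith [sq_nonneg (y3 t - (y t + u t))]
    have h2 := gn_int (f := fun t => (min (y t) (z t)) ^ 2) (g := fun t => (min (y t) (z1 t)) ^ 2)
      ((hyc.min hzc).pow 2) ((hyc.min hMz1.continuous).pow 2) hn (δ := 2 * δ) fun t => by
        have a1 : |min (y t) (z t) - min (y t) (z1 t)| ≤ δ := by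
          refine (abs_min_sub_min_le_max _ _ _ _).trans (max_le (by simpa using hδ0.le) ?_)
          have : z t - z1 t = x1 t - x t := by linarith [hp.sum t, hp1.sum t]
          rw [this]; exact hd1 t
        have a2 := abs_le.1 a1
        have a3 : 0 < min (y t) (z t) := lt_min (hp.pos t).2.1 (hp.pos t).2.2
        have a4 : 0 < min (y t) (z1 t) := lt_min (hp1.pos t).2.1 (hp1.pos t).2.2
        have a5 : y t ≤ 1 := by linarith [hp.sum t, (hp.pos t).1, (hp.pos t).2.2]
        have a6 := min_le_left (y t) (z t)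
        have a7 := min_le_left (y t) (z1 t)
        nlinarith
    linarith

end Mc59
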