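import Pool.Agent.P.MP_59d724_co.McW

/-! Passage to a genuine colouring. -/

open MeasureTheory Set Filter Topology

namespace Mc59

theorem ml_ii {f : ℝ → ℝ} (hf : Measurable f) {C : ℝ} (h : ∀ t, |f t| ≤ C) (a b : ℝ) :
    IntervalIntegrable f volume a b :=
  (intervalIntegrable_const (c := C)).mono_fun' hf.aestronglyMeasurable (ae_of_all _ h)

theorem ml_sum {g : ℕ → ℝ → ℝ} {K : ℝ} (hm : ∀ n, Measurable (g n)) (h0 : ∀ n t, 0 ≤ g n t)
    (hi : ∀ n a b, IntervalIntegrable (g n) volume a b)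
    (hb : ∀ n : ℕ, (∫ t in (-(n : ℝ))..n, g n t) ≤ K * (1 / 2) ^ n) :
    ∀ᵐ t, Summable fun n => g n t := by
  have hn : ∀ n : ℕ, -(n : ℝ) ≤ n := fun n => by
    have : (0 : ℝ) ≤ n := Nat.cast_nonneg n
    linarith
  have e : ∀ n : ℕ, eLpNorm ((Ioc (-(n : ℝ)) n).indicator (g n)) 1 volume ≤
      ENNReal.ofReal (K * (1 / 2) ^ n) := fun n => by
    rw [eLpNorm_one_eq_lintegral_enorm, ← ofReal_integral_norm_eq_lintegral_enorm
      ((integrable_indicator_iff measurableSet_Ioc).2 (hi n _ _).1)]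
    refine ENNReal.ofReal_le_ofReal (le_trans (le_of_eq ?_) (hb n))
    rw [intervalIntegral.integral_of_le (hn n), ← integral_indicator measurableSet_Ioc]
    refine integral_congr_ae (ae_of_all _ fun t => ?_)
    exact Real.norm_of_nonneg (indicator_nonneg (fun s _ => h0 n s) t)
  have hs : Summable fun n : ℕ => K * (1 / 2 : ℝ) ^ n := summable_geometric_two.mul_left K
  have h := summable_norm_of_tsum_eLpNorm_ne_top (p := 1) (μ := volume) le_rfl
    (f := fun n : ℕ => (Ioc (-(n : ℝ)) n).indicator (g n))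
    (fun n => ((hm n).indicator measurableSet_Ioc).aestronglyMeasurable)
    (ne_top_of_le_ne_top hs.tsum_ofReal_ne_top (ENNReal.tsum_le_tsum e))
  filter_upwards [h] with t ht
  refine ht.of_norm.congr_atTop ?_
  obtain ⟨N, hN⟩ := exists_nat_gt |t|
  filter_upwards [eventually_ge_atTop N] with n hn'
  have h1 : (N : ℝ) ≤ n := Nat.cast_le.2 hn'
  have h2 := abs_lt.1 (hN.trans_le h1)
  exact indicator_of_mem (show t ∈ Ioc (-(n : ℝ)) n from ⟨h2.1, h2.2.le⟩) _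

theorem ml_seq {α : Type} (I : ℕ → α → Prop) (R : α → α → Prop) (h0 : ∃ a, I 0 a)
    (hs : ∀ n a, I n a → ∃ b, I (n + 1) b ∧ R a b) :
    ∃ f : ℕ → α, ∀ n, I n (f n) ∧ R (f n) (f (n + 1)) := by
  obtain ⟨a0, h0⟩ := h0
  have : Nonempty α := ⟨a0⟩
  choose! g hg using hs
  obtain ⟨f, f0, f1⟩ : ∃ f : ℕ → α, f 0 = a0 ∧ ∀ n, f (n + 1) = g n (f n) :=
    ⟨fun n => Nat.rec a0 g n, rfl, fun _ => rfl⟩
  have hI : ∀ n, I n (f n) := fun n => by
    induction n with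
    | zero => rwa [f0]
    | succ n ih => rw [f1]; exact (hg n _ ih).1
  exact ⟨f, fun n => ⟨hI n, by rw [f1]; exact (hg n _ (hI n)).2⟩⟩

theorem ml_le {m : ℕ} {x : Fin m → ℝ} (h0 : ∀ i, 0 ≤ x i) (h1 : ∑ i, x i = 1) (i : Fin m) :
    x i ≤ 1 := h1 ▸ Finset.single_le_sum (fun j _ => h0 j) (Finset.mem_univ i)

theorem ml_def {m : ℕ} {x : Fin m → ℝ} (h0 : ∀ i, 0 ≤ x i) (h1 : ∑ i, x i = 1) :
    0 ≤ 1 - ∑ i, x i ^ 2 ∧ 1 - ∑ i, x i ^ 2 ≤ 1 := by
  have a : ∑ i, x i ^ 2 ≤ ∑ i, x i :=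
    Finset.sum_le_sum fun i _ => by nlinarith [h0 i, ml_le h0 h1 i]
  have b : 0 ≤ ∑ i, x i ^ 2 := Finset.sum_nonneg fun i _ => sq_nonneg _
  constructor <;> linarith

theorem ml_pt {m : ℕ} {x y : Fin m → ℝ} (h0 : ∀ i, 0 ≤ x i) (h1 : ∑ i, x i = 1)
    (k0 : ∀ i, 0 ≤ y i) (k1 : ∑ i, y i = 1) :
    ∑ i, |y i - x i| + (1 - ∑ i, x i ^ 2) ≤
      3 * (1 - ∑ i, x i ^ 2) - 2 * ∑ i, x i * (y i - x i) := by
  have a : ∑ i, |y i - x i| ≤ ∑ i, (x i + y i - 2 * x i ^ 2 - 2 * (x i * (y i - x i))) :=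
    Finset.sum_le_sum fun i _ => abs_le.2
      ⟨by nlinarith [mul_nonneg (k0 i) (sub_nonneg.2 (ml_le h0 h1 i))],
        by nlinarith [mul_nonneg (h0 i) (sub_nonneg.2 (ml_le k0 k1 i))]⟩
  simp only [Finset.sum_sub_distrib, Finset.sum_add_distrib, ← Finset.mul_sum, h1, k1] at a
  linarith

theorem ml_vert {m : ℕ} {x : Fin m → ℝ} (h0 : ∀ i, 0 ≤ x i) (h1 : ∑ i, x i = 1)
    (h2 : ∑ i, x i ^ 2 = 1) : ∃ i, x i = 1 := by
  have a : ∑ i, x i * (1 - x i) = 0 := by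
    simp only [mul_sub, mul_one, Finset.sum_sub_distrib, ← sq, h1, h2, sub_self]
  have b := (Finset.sum_eq_zero_iff_of_nonneg fun i _ =>
    mul_nonneg (h0 i) (sub_nonneg.2 (ml_le h0 h1 i))).1 a
  by_contra hc
  have c : ∀ i, x i = 0 := fun i => (mul_eq_zero.1 (b i (Finset.mem_univ i))).resolve_right
    fun e => hc ⟨i, (sub_eq_zero.1 e).symm⟩
  simp [c] at h1

theorem ml_zero {m : ℕ} {x : Fin m → ℝ} (h0 : ∀ i, 0 ≤ x i) (h1 : ∑ i, x i = 1) {i l : Fin m}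
    (hi : x i = 1) (hl : i ≠ l) : x l = 0 := by
  have a := Finset.sum_le_sum_of_subset_of_nonneg (f := x) (Finset.subset_univ {i, l})
    fun j _ _ => h0 j
  rw [Finset.sum_pair hl, h1, hi] at a
  linarith [h0 l]

/-- a sequence of densities with summable increments and defects converges to a colouring -/
theorem ml_col {m : ℕ} [NeZero m] {ρ : ℕ → Fin m → ℝ → ℝ} (hm : ∀ n i, Measurable (ρ n i))
    (h0 : ∀ n i t, 0 ≤ ρ n i t) (h1 : ∀ n t, ∑ i, ρ n i t = 1)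
    (hs : ∀ᵐ t, Summable fun n => ∑ i, |ρ (n + 1) i t - ρ n i t| + (1 - ∑ i, ρ n i t ^ 2)) :
    ∃ c : ℝ → Fin m, Measurable c ∧
      ∀ᵐ t, ∀ l, Tendsto (fun n => ρ n l t) atTop (𝓝 (if c t = l then 1 else 0)) := by
  classical
  obtain ⟨φ, hφ⟩ : ∃ φ : (Fin m → Prop) → Fin m,
      ∀ p : Fin m → Prop, (∃ l, p l) → p (φ p) :=
    ⟨fun p => if h : ∃ l, p l then h.choose else 0, fun p h => by
      simp only [dif_pos h]
      exact h.choose_spec⟩
  refine ⟨fun t => φ fun l => Tendsto (fun n => ρ n l t) atTop (𝓝 1),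
    (measurable_of_finite φ).comp (measurable_pi_lambda _ fun l => ?_), ?_⟩
  · exact measurableSet_setOfPred.1 (measurableSet_tendsto (𝓝 1) fun n => hm n l)
  filter_upwards [hs] with t ht
  have hd := fun n => ml_def (fun i => h0 n i t) (h1 n t)
  have hc : ∀ l, CauchySeq fun n => ρ n l t := fun l =>
    cauchySeq_of_dist_le_of_summable _ (fun n => by
      rw [dist_comm, Real.dist_eq]
      exact (Finset.single_le_sum (f := fun i => |ρ (n + 1) i t - ρ n i t|)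
        (fun i _ => abs_nonneg _) (Finset.mem_univ l)).trans (le_add_of_nonneg_right (hd n).1)) ht
  choose x hx using fun l => cauchySeq_tendsto_of_complete (hc l)
  have x0 : ∀ l, 0 ≤ x l := fun l => ge_of_tendsto' (hx l) fun n => h0 n l t
  have x1 : ∑ i, x i = 1 := by
    have := tendsto_finsetSum Finset.univ fun i _ => hx i
    simp only [h1] at this
    exact tendsto_nhds_unique this tendsto_const_nhds
  have x2 : ∑ i, x i ^ 2 = 1 := by
    have a : Tendsto (fun n => 1 - ∑ i, ρ n i t ^ 2) atTop (𝓝 (1 - ∑ i, x i ^ 2)) :=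
      (tendsto_finsetSum Finset.univ fun i _ => (hx i).pow 2).const_sub 1
    have b : Tendsto (fun n => 1 - ∑ i, ρ n i t ^ 2) atTop (𝓝 0) :=
      squeeze_zero (fun n => (hd n).1)
        (fun n => le_add_of_nonneg_left (Finset.sum_nonneg fun i _ => abs_nonneg _))
        ht.tendsto_atTop_zero
    linarith [tendsto_nhds_unique a b]
  obtain ⟨i, hi⟩ := ml_vert x0 x1 x2
  have k := hφ (fun l => Tendsto (fun n => ρ n l t) atTop (𝓝 1)) ⟨i, hi ▸ hx i⟩
  intro l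
  split_ifs with h
  · exact h ▸ k
  · exact ml_zero x0 x1 (tendsto_nhds_unique (hx _) k) h ▸ hx l

theorem lim {m : ℕ} [NeZero m] (Q : (Fin m → ℝ → ℝ) → Prop) (h0 : ∃ ρ, Q ρ)
    (hmeas : ∀ ρ, Q ρ → ∀ i, Measurable (ρ i)) (hpos : ∀ ρ, Q ρ → ∀ i t, 0 ≤ ρ i t)
    (hsum : ∀ ρ, Q ρ → ∀ t, ∑ i, ρ i t = 1)
    (hstep : ∀ ρ, Q ρ → ∀ n : ℕ, ∀ ε : ℝ, 0 < ε → ∃ ρ', Q ρ' ∧
      (∀ l a b, |(∫ t in a..b, ρ' l t) - ∫ t in a..b, ρ l t| ≤ ε) ∧
      (∫ t in (-(n : ℝ))..n, (1 - ∑ i, (ρ' i t) ^ 2)) ≤ ε)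
    (P : ℕ → (Fin m → ℝ → ℝ → ℝ) → Prop)
    (hP : ∀ ρ, Q ρ → ∀ n, ∃ r : ℝ, 0 < r ∧ ∀ μ : Fin m → ℝ → ℝ → ℝ,
      (∀ l a b, |μ l a b - ∫ t in a..b, ρ l t| ≤ r) → P n μ) :
    ∃ c : ℝ → Fin m, Measurable c ∧
      ∀ n, P n (fun l a b => ∫ t in a..b, if c t = l then (1 : ℝ) else 0) := by
  have hn : ∀ n : ℕ, -(n : ℝ) ≤ n := fun n => by
    have : (0 : ℝ) ≤ n := Nat.cast_nonneg n
    linarith
  have hab : ∀ ρ, Q ρ → ∀ i t, |ρ i t| ≤ 1 := fun ρ h i t => by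
    rw [abs_of_nonneg (hpos ρ h i t)]
    exact ml_le (fun j => hpos ρ h j t) (hsum ρ h t) i
  have hii : ∀ ρ, Q ρ → ∀ i a b, IntervalIntegrable (ρ i) volume a b := fun ρ h i =>
    ml_ii (hmeas ρ h i) (hab ρ h i)
  obtain ⟨G, hG⟩ : ∃ G : ℕ → (Fin m → ℝ → ℝ) → ℝ → Prop, ∀ n ρ s, G n ρ s ↔
      0 < s ∧ s ≤ (1 / 2) ^ (n + 1) ∧ (∀ μ : Fin m → ℝ → ℝ → ℝ,
        (∀ l a b, |μ l a b - ∫ t in a..b, ρ l t| ≤ 2 * s) → P n μ) ∧
      ∀ i (u : ℝ → ℝ), Measurable u → (∀ t, |u t| ≤ 1) → (∀ p q, |∫ t in p..q, u t| ≤ s) →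
        |∫ t in (-(n : ℝ))..n, ρ i t * u t| ≤ (1 / 2) ^ n := ⟨_, fun _ _ _ => Iff.rfl⟩
  have exG : ∀ ρ, Q ρ → ∀ (n : ℕ) (e : ℝ), 0 < e → ∃ s, s ≤ e ∧ G n ρ s := by
    intro ρ h n e he
    obtain ⟨r, hr, hr'⟩ := hP ρ h n
    choose ε hε hε' using fun i => weak (hn n) (hii ρ h i _ _)
      (show (0 : ℝ) < (1 / 2) ^ n by positivity)
    obtain ⟨j, hj⟩ := Finite.exists_min ε
    obtain ⟨s, s0, s1, s2, s3, s4⟩ : ∃ s : ℝ, 0 < s ∧ s ≤ e ∧ s ≤ (1 / 2) ^ (n + 1) ∧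
        s ≤ r / 2 ∧ s ≤ ε j :=
      ⟨min (min e ((1 / 2) ^ (n + 1))) (min (r / 2) (ε j)),
        lt_min (lt_min he (by positivity)) (lt_min (half_pos hr) (hε j)),
        (min_le_left _ _).trans (min_le_left _ _), (min_le_left _ _).trans (min_le_right _ _),
        (min_le_right _ _).trans (min_le_left _ _), (min_le_right _ _).trans (min_le_right _ _)⟩
    exact ⟨s, s1, (hG _ _ _).2 ⟨s0, s2,
      fun μ k => hr' μ fun l a b => (k l a b).trans (by linarith),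
      fun i u k1 k2 k3 => hε' i u k1 k2 fun p q => (k3 p q).trans (s4.trans (hj i))⟩⟩
  obtain ⟨f, hf⟩ := ml_seq (α := (Fin m → ℝ → ℝ) × ℝ)
    (fun n p => Q p.1 ∧ G n p.1 p.2 ∧
      (∫ t in (-(n : ℝ))..n, (1 - ∑ i, (p.1 i t) ^ 2)) ≤ (1 / 2) ^ n)
    (fun p p' => (∀ l a b, |(∫ t in a..b, p'.1 l t) - ∫ t in a..b, p.1 l t| ≤ p.2) ∧
      p'.2 ≤ p.2 / 2)
    (by
      obtain ⟨ρ, h⟩ := h0
      obtain ⟨s, -, hs⟩ := exG ρ h 0 1 one_pos
      exact ⟨(ρ, s), h, hs, by simp⟩)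
    (by
      rintro n ⟨ρ, s⟩ ⟨h, hs, -⟩
      obtain ⟨s0, s1, -⟩ := (hG _ _ _).1 hs
      obtain ⟨ρ', k1, k2, k3⟩ := hstep ρ h (n + 1) s s0
      obtain ⟨s', k4, k5⟩ := exG ρ' k1 (n + 1) (s / 2) (half_pos s0)
      exact ⟨(ρ', s'), ⟨k1, k5, k3.trans s1⟩, k2, k4⟩)
  have hQ := fun n => (hf n).1.1
  have hG' := fun n => (hG _ _ _).1 (hf n).1.2.1
  have hu : ∀ n i t, |(f (n + 1)).1 i t - (f n).1 i t| ≤ 1 := fun n i t => by
    have a := hpos _ (hQ n) i t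
    have b := hpos _ (hQ (n + 1)) i t
    have c := (abs_le.1 (hab _ (hQ n) i t)).2
    have d := (abs_le.1 (hab _ (hQ (n + 1)) i t)).2
    exact abs_le.2 ⟨by linarith, by linarith⟩
  have hum : ∀ n i, Measurable fun t => (f (n + 1)).1 i t - (f n).1 i t := fun n i =>
    (hmeas _ (hQ (n + 1)) i).sub (hmeas _ (hQ n) i)
  have hdm : ∀ n, Measurable fun t => 1 - ∑ i, (f n).1 i t ^ 2 := fun n =>
    (Finset.measurable_sum _ fun i _ => (hmeas _ (hQ n) i).pow_const 2).const_sub 1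
  have hd := fun n t => ml_def (fun i => hpos _ (hQ n) i t) (hsum _ (hQ n) t)
  have hdi : ∀ n a b, IntervalIntegrable (fun t => 1 - ∑ i, (f n).1 i t ^ 2) volume a b :=
    fun n => ml_ii (hdm n) (C := 1) fun t => by
      rw [abs_of_nonneg (hd n t).1]
      exact (hd n t).2
  have hsm : ∀ n, Measurable fun t => ∑ i, |(f (n + 1)).1 i t - (f n).1 i t| := fun n =>
    Finset.measurable_sum _ fun i _ => (hum n i).abs
  have hsi : ∀ n a b, IntervalIntegrable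
      (fun t => ∑ i, |(f (n + 1)).1 i t - (f n).1 i t|) volume a b :=
    fun n => ml_ii (hsm n) (C := ∑ _i : Fin m, 1) fun t => by
      rw [abs_of_nonneg (Finset.sum_nonneg fun i _ => abs_nonneg _)]
      exact Finset.sum_le_sum fun i _ => hu n i t
  have hpi : ∀ n i a b, IntervalIntegrable
      (fun t => (f n).1 i t * ((f (n + 1)).1 i t - (f n).1 i t)) volume a b :=
    fun n i => ml_ii ((hmeas _ (hQ n) i).mul (hum n i)) (C := 1) fun t => by
      rw [abs_mul]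
      exact mul_le_one₀ (hab _ (hQ n) i t) (abs_nonneg _) (hu n i t)
  have hpi' : ∀ n a b, IntervalIntegrable
      (fun t => ∑ i, (f n).1 i t * ((f (n + 1)).1 i t - (f n).1 i t)) volume a b := fun n a b => by
    have := IntervalIntegrable.sum (μ := volume) (a := a) (b := b) Finset.univ
      fun i _ => hpi n i a b
    rwa [Finset.sum_fn] at this
  obtain ⟨c, hc, hlim⟩ := ml_col (ρ := fun n => (f n).1) (fun n => hmeas _ (hQ n))
    (fun n => hpos _ (hQ n)) (fun n => hsum _ (hQ n))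
    (ml_sum (K := 3 + 2 * m) (fun n => (hsm n).add (hdm n))
      (fun n t => add_nonneg (Finset.sum_nonneg fun i _ => abs_nonneg _) (hd n t).1)
      (fun n a b => (hsi n a b).add (hdi n a b)) fun n => by
        refine (intervalIntegral.integral_mono_on (hn n) ((hsi n _ _).add (hdi n _ _))
          (((hdi n _ _).const_mul 3).sub ((hpi' n _ _).const_mul 2)) fun t _ =>
            ml_pt (fun i => hpos _ (hQ n) i t) (hsum _ (hQ n) t)
              (fun i => hpos _ (hQ (n + 1)) i t) (hsum _ (hQ (n + 1)) t)).trans ?_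
        rw [intervalIntegral.integral_sub ((hdi n _ _).const_mul 3) ((hpi' n _ _).const_mul 2),
          intervalIntegral.integral_const_mul, intervalIntegral.integral_const_mul,
          intervalIntegral.integral_finsetSum fun i _ => hpi n i _ _]
        have a := (hf n).1.2.2
        have b : ∑ _i : Fin m, -(1 / 2 : ℝ) ^ n ≤ ∑ i, ∫ t in (-(n : ℝ))..n,
            (f n).1 i t * ((f (n + 1)).1 i t - (f n).1 i t) :=
          Finset.sum_le_sum fun i _ => (abs_le.1 ((hG' n).2.2.2 i _ (hum n i) (hu n i)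
            fun p q => by
              rw [intervalIntegral.integral_sub (hii _ (hQ _) i _ _) (hii _ (hQ _) i _ _)]
              exact (hf n).2.1 i p q)).1
        simp only [Finset.sum_const, Finset.card_univ, Fintype.card_fin, nsmul_eq_mul] at b
        linarith)
  refine ⟨c, hc, fun n => (hG' n).2.2.1 _ fun l a b => ?_⟩
  have tele : ∀ k, |(∫ t in a..b, (f (n + k)).1 l t) - ∫ t in a..b, (f n).1 l t| ≤
      2 * (f n).2 - 2 * (f (n + k)).2 := fun k => by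
    induction k with
    | zero => simp
    | succ k ih =>
      have a1 := (hf (n + k)).2.1 l a b
      have a2 := (hf (n + k)).2.2
      have a3 := abs_sub_le (∫ t in a..b, (f (n + k + 1)).1 l t) (∫ t in a..b, (f (n + k)).1 l t)
        (∫ t in a..b, (f n).1 l t)
      rw [← add_assoc]
      linarith
  have conv : Tendsto (fun k => ∫ t in a..b, (f k).1 l t) atTop
      (𝓝 (∫ t in a..b, if c t = l then (1 : ℝ) else 0)) :=
    intervalIntegral.tendsto_integral_filter_of_dominated_convergence (fun _ => 1)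
      (Eventually.of_forall fun k => (hmeas _ (hQ k) l).aestronglyMeasurable)
      (Eventually.of_forall fun k => ae_of_all _ fun t _ => hab _ (hQ k) l t)
      intervalIntegrable_const (hlim.mono fun t ht _ => ht l)
  refine le_of_tendsto ((conv.sub_const _).abs) ?_
  filter_upwards [eventually_ge_atTop n] with k hk
  obtain ⟨j, rfl⟩ := Nat.exists_eq_add_of_le hk
  have := (hG' (n + j)).1
  linarith [tele j]

end Mc59
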