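import Pool.Agent.P.MP_59d724_co.McDefs

/-! Symmetries of a state and the perturbation lemma. -/

open MeasureTheory Set

namespace Mc59

theorem D_add {f g : ℝ → ℝ} (hf : Continuous f) (hg : Continuous g) (a h L : ℝ) :
    D (fun t => f t + g t) a h L = D f a h L + D g a h L := by
  unfold D
  rw [intervalIntegral.integral_add (hf.intervalIntegrable _ _) (hg.intervalIntegrable _ _),
    intervalIntegral.integral_add (hf.intervalIntegrable _ _) (hg.intervalIntegrable _ _)]
  ring

theorem mcp_one (a h L : ℝ) : D (fun _ => 1) a h L = 0 := by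
  simp [D]

/-- The difference of the two windows as one integral. -/
theorem mcp_eq {f : ℝ → ℝ} (hf : Continuous f) (a h L : ℝ) :
    D f a h L = ∫ t in a..(a + L), (f (t + h) - f t) := by
  have hc : Continuous fun t => f (t + h) := hf.comp (continuous_id.add continuous_const)
  rw [intervalIntegral.integral_sub (hc.intervalIntegrable _ _) (hf.intervalIntegrable _ _),
    intervalIntegral.integral_comp_add_right, add_right_comm a L h, D]

theorem mcp_zero {u : ℝ → ℝ} {a h L : ℝ} (hL : 0 ≤ L) (h1 : ∀ t ∈ Icc a (a + L), u t = 0)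
    (h2 : ∀ t ∈ Icc (a + h) (a + h + L), u t = 0) : D u a h L = 0 := by
  have e1 : ∫ t in a..(a + L), u t = ∫ _ in a..(a + L), (0 : ℝ) :=
    intervalIntegral.integral_congr fun t ht => h1 t (by rwa [uIcc_of_le (by linarith)] at ht)
  have e2 : ∫ t in (a + h)..(a + h + L), u t = ∫ _ in (a + h)..(a + h + L), (0 : ℝ) :=
    intervalIntegral.integral_congr fun t ht => h2 t (by rwa [uIcc_of_le (by linarith)] at ht)
  simp [D, e1, e2]

theorem mcp_mono {x : ℝ → ℝ} (hx : Continuous x) {m a q h L : ℝ} (hL : 0 ≤ L) (hh : 0 ≤ h)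
    (hq : a + h + L ≤ q) (hm : Mono x m a q) : m * h * L ≤ |D x a h L| := by
  have hc : Continuous fun t => x (t + h) - x t :=
    (hx.comp (continuous_id.add continuous_const)).sub hx
  have e : m * h * L = ∫ _ in a..(a + L), m * h := by
    simp only [intervalIntegral.integral_const, smul_eq_mul]
    ring
  rw [mcp_eq hx, e]
  rcases hm with hm | hm
  · refine le_trans (intervalIntegral.integral_mono_on (by linarith)
      (continuous_const.intervalIntegrable _ _) (hc.intervalIntegrable _ _) fun t ht => ?_)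
      (le_abs_self _)
    have := hm t (t + h) ht.1 (by linarith) (by linarith [ht.2])
    rwa [add_sub_cancel_left] at this
  · rw [← abs_neg, ← intervalIntegral.integral_neg]
    refine le_trans (intervalIntegral.integral_mono_on (by linarith)
      (continuous_const.intervalIntegrable _ _) (hc.neg.intervalIntegrable _ _) fun t ht => ?_)
      (le_abs_self _)
    have := hm t (t + h) ht.1 (by linarith) (by linarith [ht.2])
    rw [add_sub_cancel_left] at this
    exact this.trans_eq (neg_sub _ _).symm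

theorem Pre.swap12 {x y z : ℝ → ℝ} (h : Pre x y z) : Pre y x z := by
  obtain ⟨M, m0, m1, m2, m3⟩ := h.lip
  refine ⟨fun t => ⟨(h.pos t).2.1, (h.pos t).1, (h.pos t).2.2⟩, fun t => by linarith [h.sum t],
    ⟨M, m0, m2, m1, m3⟩, fun N h0 hh => ?_, h.tail.2.1, h.tail.1, h.tail.2.2⟩
  obtain ⟨c, hc, H⟩ := h.rg N h0 hh
  exact ⟨c, hc, fun a k L a1 a2 a3 a4 => (H a k L a1 a2 a3 a4).trans_eq (add_comm _ _)⟩

theorem Pre.swap23 {x y z : ℝ → ℝ} (h : Pre x y z) : Pre x z y := by
  obtain ⟨M, m0, m1, m2, m3⟩ := h.lip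
  refine ⟨fun t => ⟨(h.pos t).1, (h.pos t).2.2, (h.pos t).2.1⟩, fun t => by linarith [h.sum t],
    ⟨M, m0, m1, m3, m2⟩, fun N h0 hh => ?_, h.tail.1, h.tail.2.2, h.tail.2.1⟩
  obtain ⟨c, hc, H⟩ := h.rg N h0 hh
  refine ⟨c / 2, by linarith, fun a k L a1 a2 a3 a4 => ?_⟩
  have e := D_add (m1.continuous.add m2.continuous) m3.continuous a k L
  have e1 := D_add m1.continuous m2.continuous a k L
  have e2 : (fun t => x t + y t + z t) = fun _ => (1 : ℝ) := funext h.sum
  have e3 : D y a k L = -(D x a k L + D z a k L) := by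
    have e4 : D (fun t => x t + y t + z t) a k L =
      D (fun t => x t + y t) a k L + D z a k L := e
    rw [e2, mcp_one, e1] at e4
    linarith
  have b := H a k L a1 a2 a3 a4
  rw [e3, abs_neg] at b
  linarith [abs_add_le (D x a k L) (D z a k L), abs_nonneg (D z a k L)]

theorem Tail.congr {f g : ℝ → ℝ} (h : Tail f) {N : ℝ} (hfg : ∀ t, N ≤ |t| → g t = f t) :
    Tail g := by
  obtain ⟨ξ1, ξ2, H⟩ := h
  refine ⟨ξ1, ξ2, fun γ hγ => ?_⟩
  obtain ⟨N0, H0⟩ := H γ hγ
  refine ⟨max N N0, fun t ht => ?_⟩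
  rw [hfg t (le_of_max_le_left ht)]
  exact H0 t (le_of_max_le_right ht)

theorem pert {x y u : ℝ → ℝ} (hx : Continuous x) (hy : Continuous y) (hu : Continuous u)
    (h : RG x y) {N h1 m : ℝ} (hh1 : 0 < h1) (hm : 0 < m) (hsupp : ∀ t, N ≤ |t| → u t = 0)
    (hloc : ∀ a, (∀ t ∈ Icc a (a + 2 * h1), u t = 0) ∨ Mono x m a (a + 2 * h1))
    (hfar : ∃ c : ℝ, 0 < c ∧ ∀ a h L : ℝ, 0 < L → L ≤ h → h1 ≤ h → Meets N a h L →
      c * min L 1 ≤ |D x a h L| + |D (fun t => y t + u t) a h L|) :
    RG x (fun t => y t + u t) := by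
  intro N' h0 hh0
  obtain ⟨c1, hc1, H1⟩ := h N' h0 hh0
  obtain ⟨c2, hc2, H2⟩ := hfar
  refine ⟨min (min c1 c2) (m * h0), lt_min (lt_min hc1 hc2) (mul_pos hm hh0),
    fun a k L a1 a2 a3 a4 => ?_⟩
  have hL : 0 ≤ min L 1 := le_min a1.le zero_le_one
  have hz : D u a k L = 0 → min (min c1 c2) (m * h0) * min L 1 ≤
      |D x a k L| + |D (fun t => y t + u t) a k L| := fun e => by
    rw [D_add hy hu, e, add_zero]
    exact (mul_le_mul_of_nonneg_right ((min_le_left _ _).trans (min_le_left _ _)) hL).trans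
      (H1 a k L a1 a2 a3 a4)
  rcases le_or_gt h1 k with hk | hk
  · by_cases hM : Meets N a k L
    · exact (mul_le_mul_of_nonneg_right ((min_le_left _ _).trans (min_le_right _ _)) hL).trans
        (H2 a k L a1 a2 hk hM)
    · exact hz (mcp_zero a1.le
        (fun t ht => hsupp t (le_of_not_ge fun b => hM (Or.inl ⟨t, ht, b⟩)))
        fun t ht => hsupp t (le_of_not_ge fun b => hM (Or.inr ⟨t, ht, b⟩)))
  · rcases hloc a with b | b
    · exact hz (mcp_zero a1.le (fun t ht => b t ⟨ht.1, by linarith [ht.2]⟩)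
        fun t ht => b t ⟨by linarith [ht.1], by linarith [ht.2]⟩)
    · have b1 := mcp_mono hx a1.le (by linarith : 0 ≤ k) (by linarith) b
      have b2 : min (min c1 c2) (m * h0) * min L 1 ≤ m * k * L :=
        mul_le_mul ((min_le_right _ _).trans (mul_le_mul_of_nonneg_left a3 hm.le))
          (min_le_left _ _) hL (mul_nonneg hm.le (by linarith))
      linarith [abs_nonneg (D (fun t => y t + u t) a k L)]

end Mc59
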