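import Pool.Agent.P.MP_59d724_co.McW
import Pool.Agent.P.MP_59d724_co.McP
import Pool.Agent.P.MP_59d724_co.McF

open MeasureTheory Set

namespace Mc59

/-- cutoff in the height: zero within `r` of `H`, one at distance at least `2 r` -/
noncomputable def shChi (H : Set ℝ) (r ξ : ℝ) : ℝ := min 1 (max 0 (Metric.infDist ξ H / r - 1))

theorem shChi_nonneg (H : Set ℝ) (r ξ : ℝ) : 0 ≤ shChi H r ξ :=
  le_min zero_le_one (le_max_left _ _)

theorem shChi_le (H : Set ℝ) (r ξ : ℝ) : shChi H r ξ ≤ 1 := min_le_left _ _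

theorem shChi_zero {H : Set ℝ} {r ξ e : ℝ} (hr : 0 < r) (he : e ∈ H) (h : |ξ - e| ≤ r) :
    shChi H r ξ = 0 := by
  have h1 : Metric.infDist ξ H ≤ r := by
    refine (Metric.infDist_le_dist_of_mem he).trans ?_
    rwa [Real.dist_eq]
  have h2 : Metric.infDist ξ H / r - 1 ≤ 0 := by
    have : Metric.infDist ξ H / r ≤ 1 := by rwa [div_le_one hr]
    linarith
  unfold shChi
  rw [max_eq_left h2, min_eq_right zero_le_one]

theorem shChi_one {H : Set ℝ} {r ξ : ℝ} (hr : 0 < r) (hH : H.Nonempty)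
    (h : ¬ ∃ e ∈ H, |ξ - e| < 2 * r) : shChi H r ξ = 1 := by
  have h1 : 2 * r ≤ Metric.infDist ξ H := by
    by_contra hc
    push Not at hc
    obtain ⟨e, he, hd⟩ := (Metric.infDist_lt_iff hH).1 hc
    exact h ⟨e, he, by rwa [Real.dist_eq] at hd⟩
  have h2 : 1 ≤ Metric.infDist ξ H / r - 1 := by
    have : 2 ≤ Metric.infDist ξ H / r := by rwa [le_div_iff₀ hr]
    linarith
  unfold shChi
  exact min_eq_left (h2.trans (le_max_right _ _))

theorem shChi_lip (H : Set ℝ) {r : ℝ} (hr : 0 < r) (ξ ξ' : ℝ) :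
    |shChi H r ξ - shChi H r ξ'| ≤ 1 / r * |ξ - ξ'| := by
  unfold shChi
  have h1 : |Metric.infDist ξ H - Metric.infDist ξ' H| ≤ |ξ - ξ'| := by
    have := (Metric.lipschitz_infDist_pt H).dist_le_mul ξ ξ'
    simpa [Real.dist_eq] using this
  have h2 : |(Metric.infDist ξ H / r - 1) - (Metric.infDist ξ' H / r - 1)| ≤ 1 / r * |ξ - ξ'| := by
    have : (Metric.infDist ξ H / r - 1) - (Metric.infDist ξ' H / r - 1) =
        1 / r * (Metric.infDist ξ H - Metric.infDist ξ' H) := by ring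
    rw [this, abs_mul, abs_of_pos (by positivity : 0 < 1 / r)]
    exact mul_le_mul_of_nonneg_left h1 (by positivity)
  refine (abs_min_sub_min_le_max _ _ _ _).trans ?_
  refine max_le (by simp; positivity) ?_
  refine (abs_max_sub_max_le_max _ _ _ _).trans ?_
  exact max_le (by simp; positivity) h2

theorem sh_prod {a a' b b' A B' : ℝ} (ha : |a| ≤ A) (hb : |b'| ≤ B') :
    |a * b - a' * b'| ≤ A * |b - b'| + |a - a'| * B' := by
  have : a * b - a' * b' = a * (b - b') + (a - a') * b' := by ring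
  rw [this]
  refine (abs_add_le _ _).trans (add_le_add ?_ ?_)
  · rw [abs_mul]; exact mul_le_mul_of_nonneg_right ha (abs_nonneg _)
  · rw [abs_mul]; exact mul_le_mul_of_nonneg_left hb (abs_nonneg _)

theorem sh_min {ξ ξ' η η' : ℝ} :
    |min η (1 - ξ - η) / 2 - min η' (1 - ξ' - η') / 2| ≤ |ξ - ξ'| / 2 + |η - η'| / 2 := by
  have h := abs_min_sub_min_le_max η (1 - ξ - η) η' (1 - ξ' - η')
  have h2 : |(1 - ξ - η) - (1 - ξ' - η')| ≤ |ξ - ξ'| + |η - η'| := by
    have : (1 - ξ - η) - (1 - ξ' - η') = -((ξ - ξ') + (η - η')) := by ring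
    rw [this, abs_neg]; exact abs_add_le _ _
  have h3 : max |η - η'| |(1 - ξ - η) - (1 - ξ' - η')| ≤ |ξ - ξ'| + |η - η'| :=
    max_le (by linarith [abs_nonneg (ξ - ξ')]) h2
  have : min η (1 - ξ - η) / 2 - min η' (1 - ξ' - η') / 2 =
      (min η (1 - ξ - η) - min η' (1 - ξ' - η')) / 2 := by ring
  rw [this, abs_div, abs_two]
  linarith

/-- the shear displacement as a function of the height and the second coordinate -/
noncomputable def shG (H : Set ℝ) (r ε ξ η : ℝ) : ℝ :=
  shChi H r ξ * Real.sin (ξ / ε + 0) * (min η (1 - ξ - η) / 2)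

theorem shG_lip (H : Set ℝ) {r ε : ℝ} (hr : 0 < r) (hε : 0 < ε) {ξ ξ' η η' : ℝ}
    (h : |min η' (1 - ξ' - η') / 2| ≤ 1) :
    |shG H r ε ξ η - shG H r ε ξ' η'| ≤ (1 / 2 + 1 / r + 1 / ε) * |ξ - ξ'| + |η - η'| / 2 := by
  unfold shG
  have hχ : |shChi H r ξ| ≤ 1 := by
    rw [abs_of_nonneg (shChi_nonneg _ _ _)]; exact shChi_le _ _ _
  have ha : |shChi H r ξ * Real.sin (ξ / ε + 0)| ≤ 1 := by
    rw [abs_mul]
    exact mul_le_one₀ hχ (abs_nonneg _) (Real.abs_sin_le_one _)
  have hs : |Real.sin (ξ / ε + 0) - Real.sin (ξ' / ε + 0)| ≤ 1 / ε * |ξ - ξ'| := by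
    refine (Real.abs_sin_sub_sin_le _ _).trans ?_
    have : ξ / ε + 0 - (ξ' / ε + 0) = 1 / ε * (ξ - ξ') := by ring
    rw [this, abs_mul, abs_of_pos (by positivity : 0 < 1 / ε)]
  have h1 := sh_prod (a' := shChi H r ξ') (b := Real.sin (ξ / ε + 0)) hχ
    (Real.abs_sin_le_one (ξ' / ε + 0))
  have h2 := sh_prod (a' := shChi H r ξ' * Real.sin (ξ' / ε + 0)) (b := min η (1 - ξ - η) / 2) ha h
  have h3 := shChi_lip H hr ξ ξ'
  have h4 := sh_min (ξ := ξ) (ξ' := ξ') (η := η) (η' := η')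
  nlinarith [abs_nonneg (ξ - ξ')]

theorem sh_mono {x : ℝ → ℝ} {S p q : ℝ} (h : Lin x S p q) : Mono x S p q := by
  rcases h with h | h
  · left
    intro s t h1 h2 h3
    rw [h s ⟨h1, h2.trans h3⟩ t ⟨h1.trans h2, h3⟩]
  · right
    intro s t h1 h2 h3
    have := h s ⟨h1, h2.trans h3⟩ t ⟨h1.trans h2, h3⟩
    linarith

theorem sh_D_zero {u : ℝ → ℝ} {a h L : ℝ} (hL : 0 ≤ L) (h1 : ∀ t ∈ Icc a (a + L), u t = 0)
    (h2 : ∀ t ∈ Icc (a + h) (a + h + L), u t = 0) : D u a h L = 0 := by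
  unfold D
  have e1 : (∫ t in a..(a + L), u t) = ∫ _ in a..(a + L), (0 : ℝ) := by
    refine intervalIntegral.integral_congr fun t ht => ?_
    rw [uIcc_of_le (by linarith)] at ht
    exact h1 t ht
  have e2 : (∫ t in (a + h)..(a + h + L), u t) = ∫ _ in (a + h)..(a + h + L), (0 : ℝ) := by
    refine intervalIntegral.integral_congr fun t ht => ?_
    rw [uIcc_of_le (by linarith)] at ht
    exact h2 t ht
  rw [e1, e2]; simp

/-- the far case of the perturbation lemma for a shear -/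
theorem sh_far {x y : ℝ → ℝ} {g : ℝ → ℝ → ℝ} {E : Set ℝ} {M K S r c L0 a h L : ℝ}
    (hM0 : 0 ≤ M) (hMx : Lip M x) (hMy : Lip M y) (hK : 0 < K) (hr : 0 < r) (hc : 0 < c)
    (hL01 : L0 ≤ 1) (hL0r : M * L0 ≤ r / 6) (hL0c : M * L0 ≤ c / 8) (hL0 : 0 < L0)
    (hu : Continuous fun t => g (x t) (y t))
    (hg : ∀ s t, |g (x t) (y t) - g (x s) (y s)| ≤ K * |x t - x s| + |y t - y s| / 2)
    (hz : ∀ t, (∃ e ∈ E, |x t - x e| ≤ r) → g (x t) (y t) = 0)
    (hlin : ∀ p q, (∀ t ∈ Icc p q, t ∉ E) → Lin x S p q)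
    (hsm : ∀ p q, |∫ t in p..q, g (x t) (y t)| ≤ c * L0 / 4) (hL : 0 < L)
    (hb : c * min L 1 ≤ |D x a h L| + |D y a h L|) :
    min (min (r / 3) (c / 8)) (c / 8 / K) * min L 1 ≤
      |D x a h L| + |D (fun t => y t + g (x t) (y t)) a h L| := by
  set c1 := min (min (r / 3) (c / 8)) (c / 8 / K) with hc1
  have hc1r : c1 ≤ r / 3 := (min_le_left _ _).trans (min_le_left _ _)
  have hc1c : c1 ≤ c / 8 := (min_le_left _ _).trans (min_le_right _ _)
  have hc1K : K * c1 ≤ c / 8 := by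
    have : c1 ≤ c / 8 / K := min_le_right _ _
    rw [le_div_iff₀ hK] at this
    linarith
  have hc10 : 0 < c1 := lt_min (lt_min (by positivity) (by positivity)) (by positivity)
  have hm0 : 0 < min L 1 := lt_min hL one_pos
  rw [D_add hMy.continuous hu]
  have htri : |D y a h L| - |D (fun t => g (x t) (y t)) a h L| ≤
      |D y a h L + D (fun t => g (x t) (y t)) a h L| := by
    have := abs_sub_abs_le_abs_sub (D y a h L) (-D (fun t => g (x t) (y t)) a h L)
    rwa [abs_neg, sub_neg_eq_add] at this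
  by_cases hLL : L0 ≤ L
  · have h1 : |D (fun t => g (x t) (y t)) a h L| ≤ c * L0 / 2 := by
      unfold D
      refine (abs_sub _ _).trans ?_
      linarith [hsm (a + h) (a + h + L), hsm a (a + L)]
    have h2 : L0 ≤ min L 1 := le_min hLL hL01
    nlinarith
  push Not at hLL
  have hmin : min L 1 = L := min_eq_left (by linarith)
  rw [hmin] at hb ⊢
  by_cases hX : c1 * L ≤ |D x a h L|
  · linarith [abs_nonneg (D y a h L + D (fun t => g (x t) (y t)) a h L)]
  push Not at hX
  have hML : M * L ≤ M * L0 := mul_le_mul_of_nonneg_left hLL.le hM0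
  have hin : ∀ b s t : ℝ, s ∈ Icc b (b + L) → t ∈ Icc b (b + L) → |x t - x s| ≤ r := by
    intro b s t hs ht
    have h1 : |t - s| ≤ L := abs_le.2 ⟨by linarith [hs.2, ht.1], by linarith [hs.1, ht.2]⟩
    have := (hMx s t).trans (mul_le_mul_of_nonneg_left h1 hM0)
    linarith
  have hcross : ∀ s ∈ Icc a (a + L), ∀ t ∈ Icc (a + h) (a + h + L), |x t - x s| ≤ r := by
    intro s hs t ht
    have h1 := D_near hMx hL hs ht
    have h2 : L * |x t - x s| ≤ L * r := by nlinarith
    exact le_of_mul_le_mul_left h2 hL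
  by_cases hE : (∃ e ∈ Icc a (a + L), e ∈ E) ∨ ∃ e ∈ Icc (a + h) (a + h + L), e ∈ E
  · have h0 : D (fun t => g (x t) (y t)) a h L = 0 := by
      rcases hE with ⟨e, he, heE⟩ | ⟨e, he, heE⟩
      · exact sh_D_zero hL.le (fun t ht => hz t ⟨e, heE, hin a e t he ht⟩)
          (fun t ht => hz t ⟨e, heE, hcross e he t ht⟩)
      · refine sh_D_zero hL.le (fun t ht => hz t ⟨e, heE, ?_⟩)
          (fun t ht => hz t ⟨e, heE, hin (a + h) e t he ht⟩)
        rw [abs_sub_comm]; exact hcross t ht e he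
    rw [h0, add_zero]
    nlinarith
  · push Not at hE
    have h1 := far_lin (h := h) hMx.continuous hM0 hMy hK.le hL hu hg (hlin _ _ hE.1) (hlin _ _ hE.2)
    have h2 : K * |D x a h L| ≤ c / 8 * L := by nlinarith
    have h3 : M * L ^ 2 ≤ c / 8 * L := by nlinarith
    have h4 : c1 * L ≤ c / 8 * L := mul_le_mul_of_nonneg_right hc1c hL.le
    nlinarith [abs_nonneg (D x a h L)]

theorem sh_gain {w χ : ℝ → ℝ} {n η : ℝ} (hn : 0 ≤ n) (hη : 0 ≤ η) (hw : Continuous w)
    (hχ : Continuous χ) (hw0 : ∀ t, 0 ≤ w t) (hw1 : ∀ t, w t ≤ 1) {B : Set ℝ}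
    (hBm : MeasurableSet B) (hBv : volume B ≤ ENNReal.ofReal η)
    (hB : ∀ t, |t| ≤ n → t ∉ B → χ t = 1) :
    (∫ t in (-n)..n, (w t) ^ 2) - η ≤ ∫ t in (-n)..n, (χ t * w t) ^ 2 := by
  have hfin : volume B ≠ ⊤ := ne_top_of_le_ne_top ENNReal.ofReal_ne_top hBv
  have hi : IntervalIntegrable (B.indicator fun _ => (1 : ℝ)) volume (-n) n :=
    ((integrable_indicator_iff hBm).2 (integrableOn_const hfin)).intervalIntegrable
  have hcw : Continuous fun t => (χ t * w t) ^ 2 := (hχ.mul hw).pow 2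
  have h1 : (∫ t in (-n)..n, (w t) ^ 2) ≤
      ∫ t in (-n)..n, ((χ t * w t) ^ 2 + B.indicator (fun _ => (1 : ℝ)) t) := by
    refine intervalIntegral.integral_mono_on (by linarith) ((hw.pow 2).intervalIntegrable _ _)
      ((hcw.intervalIntegrable _ _).add hi) fun t ht => ?_
    by_cases htB : t ∈ B
    · rw [indicator_of_mem htB]
      nlinarith [hw0 t, hw1 t, sq_nonneg (χ t * w t)]
    · rw [indicator_of_notMem htB, hB t (abs_le.2 ⟨ht.1, ht.2⟩) htB]
      simp
  rw [intervalIntegral.integral_add (hcw.intervalIntegrable _ _) hi] at h1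
  have h2 : (∫ t in (-n)..n, B.indicator (fun _ => (1 : ℝ)) t) ≤ η := by
    rw [intervalIntegral.integral_of_le (by linarith), integral_indicator hBm]
    simp only [integral_const, smul_eq_mul, mul_one, MeasurableSet.univ, measureReal_restrict_apply,
      univ_inter]
    rw [measureReal_restrict_apply hBm]
    refine (measureReal_mono inter_subset_left hfin).trans ?_
    exact ENNReal.toReal_le_of_le_ofReal hη hBv
  linarith

theorem shear {x y z : ℝ → ℝ} (h : Pre x y z) (E : Set ℝ) {N S r : ℝ} (hS : 0 < S) (hr : 0 < r)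
    (hE : ∀ t, N ≤ |t| → t ∈ E) (hlin : ∀ p q, (∀ t ∈ Icc p q, t ∉ E) → Lin x S p q)
    {n η ε : ℝ} (hn : 0 ≤ n) (hη : 0 ≤ η) (hε : 0 < ε) {B : Set ℝ} (hBm : MeasurableSet B)
    (hBv : volume B ≤ ENNReal.ofReal η)
    (hB : ∀ t, |t| ≤ n → (∃ e ∈ E, |x t - x e| < 2 * r) → t ∈ B) :
    ∃ u : ℝ → ℝ, Pre x (fun t => y t + u t) (fun t => z t - u t) ∧
      (∀ t, (∃ e ∈ E, |x t - x e| ≤ r) → u t = 0) ∧ (∀ t, |u t| ≤ 1 / 2) ∧
      (∀ a b, |∫ t in a..b, u t| ≤ ε) ∧
      1 / 8 * (∫ t in (-n)..n, (min (y t) (z t)) ^ 2) - η - ε ≤ ∫ t in (-n)..n, (u t) ^ 2 := by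
  obtain ⟨M, hM0, hMx, hMy, hMz⟩ := h.lip
  have hxc := hMx.continuous
  have hyc := hMy.continuous
  have hzc := hMz.continuous
  set H : Set ℝ := x '' E with hH
  have hHne : H.Nonempty := ⟨x |N|, |N|, hE _ (by rw [abs_abs]; exact le_abs_self N), rfl⟩
  have hzz : ∀ t, 1 - x t - y t = z t := fun t => by linarith [h.sum t]
  have hw0 : ∀ t, 0 < min (y t) (z t) := fun t => lt_min (h.pos t).2.1 (h.pos t).2.2
  have hw1 : ∀ t, min (y t) (z t) ≤ 1 := fun t =>
    (min_le_left _ _).trans (by linarith [h.sum t, (h.pos t).1, (h.pos t).2.2])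
  have hχc : Continuous fun t => shChi H r (x t) := by
    unfold shChi
    exact continuous_const.min (continuous_const.max
      ((((Metric.continuous_infDist_pt H).comp hxc).div_const r).sub continuous_const))
  have hχ0 : ∀ t, (∃ e ∈ E, |x t - x e| ≤ r) → shChi H r (x t) = 0 := by
    rintro t ⟨e, he, hd⟩
    exact shChi_zero hr ⟨e, he, rfl⟩ hd
  set h1 : ℝ := r / (2 * M + 2) with hh1
  have hh10 : 0 < h1 := by positivity
  have hMh : M * (2 * h1) ≤ r := by
    have : h1 * (2 * M + 2) = r := by rw [hh1]; field_simp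
    nlinarith
  have hloc : ∀ a, (∀ t ∈ Icc a (a + 2 * h1), shChi H r (x t) = 0) ∨ Lin x S a (a + 2 * h1) := by
    intro a
    by_cases hm : ∃ e ∈ Icc a (a + 2 * h1), e ∈ E
    · left
      obtain ⟨e, he, heE⟩ := hm
      intro t ht
      refine hχ0 t ⟨e, heE, ?_⟩
      have h2 : |t - e| ≤ 2 * h1 := abs_le.2 ⟨by linarith [he.2, ht.1], by linarith [he.1, ht.2]⟩
      exact ((hMx e t).trans (mul_le_mul_of_nonneg_left h2 hM0)).trans hMh
    · right
      push Not at hm
      exact hlin _ _ hm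
  obtain ⟨c, hc, hcb⟩ := h.rg N h1 hh10
  set L0 : ℝ := min 1 (min (r / 6) (c / 8) / (M + 1)) with hL0
  have hL00 : 0 < L0 := lt_min one_pos (by
    have : 0 < min (r / 6) (c / 8) := lt_min (by positivity) (by positivity)
    positivity)
  have hL0M : M * L0 ≤ min (r / 6) (c / 8) := by
    have h2 : L0 ≤ min (r / 6) (c / 8) / (M + 1) := min_le_right _ _
    rw [le_div_iff₀ (by positivity)] at h2
    nlinarith
  set Bf : ℝ → ℝ := fun t => shChi H r (x t) * (min (y t) (z t) / 2) with hBf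
  have hBc : Continuous Bf := hχc.mul ((hyc.min hzc).div_const 2)
  have hsup : ∀ t, N ≤ |t| → shChi H r (x t) = 0 := fun t ht =>
    hχ0 t ⟨t, hE t ht, by simpa using hr.le⟩
  obtain ⟨ε1, hε1, ho1⟩ := osc hBc hxc (N := N) hS (h1 := 2 * h1) (by positivity)
    (fun t ht => by simp only [hBf, hsup t ht, zero_mul])
    (fun p => (hloc p).imp (fun hp t ht => by simp only [hBf, hp t ht, zero_mul]) id)
    (η := min ε (c * L0 / 4)) (lt_min hε (by positivity))
  obtain ⟨ε2, hε2, ho2⟩ := osc (hBc.pow 2) hxc (N := N) hS (h1 := 2 * h1) (by positivity)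
    (fun t ht => by simp [hBf, hsup t ht])
    (fun p => (hloc p).imp (fun hp t ht => by simp [hBf, hp t ht]) id) (η := ε) hε
  set e : ℝ := min ε1 ε2 with he
  have he0 : 0 < e := lt_min hε1 hε2
  have hue : ∀ t, shG H r e (x t) (y t) = Bf t * Real.sin (x t / e + 0) := by
    intro t
    simp only [shG, hBf, hzz]
    ring
  have hab : ∀ t, |shG H r e (x t) (y t)| ≤ min (y t) (z t) / 2 := by
    intro t
    rw [hue, abs_mul]
    have h2 : |Bf t| ≤ min (y t) (z t) / 2 := by
      simp only [hBf]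
      rw [abs_of_nonneg (mul_nonneg (shChi_nonneg _ _ _) (by linarith [hw0 t]))]
      nlinarith [shChi_le H r (x t), hw0 t]
    nlinarith [Real.abs_sin_le_one (x t / e + 0), abs_nonneg (Bf t),
      abs_nonneg (Real.sin (x t / e + 0))]
  have huc : Continuous fun t => shG H r e (x t) (y t) := by
    simp only [hue]
    exact hBc.mul (Real.continuous_sin.comp ((hxc.div_const e).add continuous_const))
  have hg : ∀ s t, |shG H r e (x t) (y t) - shG H r e (x s) (y s)| ≤
      (1 / 2 + 1 / r + 1 / e) * |x t - x s| + |y t - y s| / 2 := by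
    intro s t
    refine shG_lip H hr he0 ?_
    rw [hzz, abs_of_pos (by linarith [hw0 s])]
    linarith [hw1 s]
  have hz0 : ∀ t, (∃ e' ∈ E, |x t - x e'| ≤ r) → shG H r e (x t) (y t) = 0 := by
    intro t ht
    simp only [shG, hχ0 t ht, zero_mul]
  have hsm : ∀ a b, |∫ t in a..b, shG H r e (x t) (y t)| ≤ min ε (c * L0 / 4) := by
    intro a b
    simp only [hue]
    exact ho1 e he0 (min_le_left _ _) 0 a b
  have hK : 0 < 1 / 2 + 1 / r + 1 / e := by positivity
  have hN0 : ∀ t, N ≤ |t| → shG H r e (x t) (y t) = 0 := fun t ht =>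
    hz0 t ⟨t, hE t ht, by simpa using hr.le⟩
  refine ⟨fun t => shG H r e (x t) (y t), ⟨fun t => ?_, fun t => ?_, ?_, ?_, ?_⟩, hz0, fun t => ?_,
    fun a b => (hsm a b).trans (min_le_left _ _), ?_⟩
  · have h2 := abs_le.1 (hab t)
    have h3 := min_le_left (y t) (z t)
    have h4 := min_le_right (y t) (z t)
    exact ⟨(h.pos t).1, by linarith [hw0 t], by linarith [hw0 t]⟩
  · linarith [h.sum t]
  · refine ⟨M + ((1 / 2 + 1 / r + 1 / e) * M + M), by positivity, fun s t => ?_, fun s t => ?_,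
      fun s t => ?_⟩
    · have := hMx s t
      have h2 : 0 ≤ ((1 / 2 + 1 / r + 1 / e) * M + M) * |t - s| := by positivity
      linarith
    all_goals
      have h2 := hg s t
      have h3 := mul_le_mul_of_nonneg_left (hMx s t) hK.le
      have h4 := hMy s t
      have h5 := hMz s t
      have h6 : 0 ≤ M * |t - s| := by positivity
    · have : y t + shG H r e (x t) (y t) - (y s + shG H r e (x s) (y s)) =
          (y t - y s) + (shG H r e (x t) (y t) - shG H r e (x s) (y s)) := by ring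
      rw [this]
      refine (abs_add_le _ _).trans ?_
      nlinarith
    · have : z t - shG H r e (x t) (y t) - (z s - shG H r e (x s) (y s)) =
          (z t - z s) - (shG H r e (x t) (y t) - shG H r e (x s) (y s)) := by ring
      rw [this]
      refine (abs_sub _ _).trans ?_
      nlinarith
  · refine pert hxc hyc huc h.rg hh10 hS hN0 (fun a => ?_) ⟨_, ?_, fun a h' L hL hLh hh hme =>
      sh_far hM0 hMx hMy hK hr hc (min_le_left _ _) (hL0M.trans (min_le_left _ _))
        (hL0M.trans (min_le_right _ _)) hL00 huc hg hz0 hlin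
        (fun p q => (hsm p q).trans (min_le_right _ _)) hL (hcb a h' L hL hLh hh hme)⟩
    · refine (hloc a).imp (fun hp t ht => ?_) sh_mono
      simp only [shG, hp t ht, zero_mul]
    · exact lt_min (lt_min (by positivity) (by positivity)) (by positivity)
  · exact ⟨h.tail.1, h.tail.2.1.congr (N := N) fun t ht => by simp only [hN0 t ht, add_zero],
      h.tail.2.2.congr (N := N) fun t ht => by simp only [hN0 t ht, sub_zero]⟩
  · linarith [hab t, hw1 t]
  · have h2 := sh_gain hn hη (hyc.min hzc) hχc (fun t => (hw0 t).le) hw1 hBm hBv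
      (fun t ht htB => shChi_one hr hHne (by
        rintro ⟨_, ⟨e', he', rfl⟩, hd⟩
        exact htB (hB t ht ⟨e', he', hd⟩)))
    have h3 := ho2 (e / 2) (by positivity) (by linarith [min_le_right ε1 ε2]) (Real.pi / 2) (-n) n
    have h4 : ∀ t, (shG H r e (x t) (y t)) ^ 2 = 1 / 8 * (shChi H r (x t) * min (y t) (z t)) ^ 2 -
        1 / 2 * (Bf t ^ 2 * Real.sin (x t / (e / 2) + Real.pi / 2)) := by
      intro t
      have e1 : x t / (e / 2) = 2 * (x t / e) := by field_simp
      rw [hue, Real.sin_add_pi_div_two, e1, add_zero, Real.cos_two_mul, Real.cos_sq']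
      simp only [hBf]
      ring
    have hc1 : Continuous fun t => 1 / 8 * (shChi H r (x t) * min (y t) (z t)) ^ 2 :=
      continuous_const.mul ((hχc.mul (hyc.min hzc)).pow 2)
    have hc2 : Continuous fun t => 1 / 2 * (Bf t ^ 2 * Real.sin (x t / (e / 2) + Real.pi / 2)) :=
      continuous_const.mul ((hBc.pow 2).mul
        (Real.continuous_sin.comp ((hxc.div_const _).add continuous_const)))
    simp only [h4]
    rw [intervalIntegral.integral_sub (hc1.intervalIntegrable _ _) (hc2.intervalIntegrable _ _),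
      intervalIntegral.integral_const_mul, intervalIntegral.integral_const_mul]
    have h5 := (abs_le.1 h3).2
    simp only [Pi.pow_apply] at h5
    linarith

end Mc59
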