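import Pool.Agent.P.MP_59d724_co.McW

open MeasureTheory Set

namespace Mc59

theorem sup_int {f : ℝ → ℝ} (hf : Measurable f) (C : ℝ) (h : ∀ t, |f t| ≤ C) (a b : ℝ) :
    IntervalIntegrable f volume a b :=
  (intervalIntegrable_const (c := C)).mono_fun' hf.aestronglyMeasurable
    (Filter.Eventually.of_forall h)

theorem sup_le_one {m : ℕ} {x : Fin m → ℝ} (h0 : ∀ i, 0 ≤ x i) (h1 : ∑ i, x i = 1) (i : Fin m) :
    x i ≤ 1 :=
  h1 ▸ Finset.single_le_sum (fun j _ => h0 j) (Finset.mem_univ i)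

theorem sup_pt {m : ℕ} {x : Fin m → ℝ} (h0 : ∀ i, 0 ≤ x i) (h1 : ∑ i, x i = 1) {l : ℝ}
    (hl : 0 < l) : 1 - ∑ i, x i ^ 2 ≤
      ∑ p ∈ (Finset.univ : Finset (Fin m)).offDiag, (l + min (x p.1) (x p.2) ^ 2 / l) := by
  have e : 1 - ∑ i, x i ^ 2 = ∑ p ∈ (Finset.univ : Finset (Fin m)).offDiag, x p.1 * x p.2 := by
    have h2 : (1 : ℝ) = ∑ p ∈ (Finset.univ : Finset (Fin m)) ×ˢ Finset.univ, x p.1 * x p.2 := by
      rw [Finset.sum_product' (f := fun i j => x i * x j), ← Finset.sum_mul_sum, h1, mul_one]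
    rw [← Finset.diag_union_offDiag, Finset.sum_union (Finset.disjoint_diag_offDiag _),
      Finset.sum_diag] at h2
    simp only [sq]
    linarith
  rw [e]
  refine Finset.sum_le_sum fun p _ => ?_
  have a1 : x p.1 * x p.2 ≤ min (x p.1) (x p.2) :=
    le_min (mul_le_of_le_one_right (h0 _) (sup_le_one h0 h1 _))
      (mul_le_of_le_one_left (h0 _) (sup_le_one h0 h1 _))
  refine a1.trans ?_
  generalize min (x p.1) (x p.2) = y
  rw [← sub_le_iff_le_add', le_div_iff₀ hl]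
  nlinarith [sq_nonneg (y - l)]

theorem sup_pair {m : ℕ} {ρ : Fin m → ℝ → ℝ} (hm : ∀ i, Measurable (ρ i))
    (h0 : ∀ i t, 0 ≤ ρ i t) (h1 : ∀ t, ∑ i, ρ i t = 1) {n l g : ℝ} (hn : 0 ≤ n) (hl : 0 < l)
    (hg : 0 ≤ g) (h : ∀ i j, i ≠ j → ∫ t in (-n)..n, (min (ρ i t) (ρ j t)) ^ 2 ≤ g) :
    ∫ t in (-n)..n, (1 - ∑ i, (ρ i t) ^ 2) ≤ (m : ℝ) ^ 2 * (2 * n * l + g / l) := by
  have b1 : ∀ i t, ρ i t ≤ 1 := fun i t => sup_le_one (fun j => h0 j t) (h1 t) i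
  have i1 : ∀ i j, IntervalIntegrable (fun t => min (ρ i t) (ρ j t) ^ 2) volume (-n) n :=
    fun i j => sup_int (((hm i).min (hm j)).pow_const 2) 1 (fun t => by
      rw [abs_of_nonneg (sq_nonneg _)]
      exact pow_le_one₀ (le_min (h0 i t) (h0 j t)) ((min_le_left _ _).trans (b1 i t))) _ _
  have i2 : ∀ p : Fin m × Fin m, IntervalIntegrable
      (fun t => l + min (ρ p.1 t) (ρ p.2 t) ^ 2 / l) volume (-n) n :=
    fun p => intervalIntegrable_const.add ((i1 p.1 p.2).div_const l)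
  have i3 : IntervalIntegrable (fun t => 1 - ∑ i, (ρ i t) ^ 2) volume (-n) n := by
    refine intervalIntegrable_const.sub (sup_int (by fun_prop) 1 (fun t => ?_) _ _)
    rw [abs_of_nonneg (Finset.sum_nonneg fun i _ => sq_nonneg _), ← h1 t]
    exact Finset.sum_le_sum fun i _ => by nlinarith [h0 i t, b1 i t]
  have i4 := IntervalIntegrable.sum (Finset.univ : Finset (Fin m)).offDiag fun p _ => i2 p
  rw [Finset.sum_fn] at i4
  refine (intervalIntegral.integral_mono_on (by linarith) i3 i4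
    fun t _ => sup_pt (fun i => h0 i t) (h1 t) hl).trans ?_
  rw [intervalIntegral.integral_finsetSum fun p _ => i2 p]
  refine (Finset.sum_le_card_nsmul _ _ (2 * n * l + g / l) fun p hp => ?_).trans ?_
  · rw [intervalIntegral.integral_add intervalIntegrable_const ((i1 p.1 p.2).div_const l),
      intervalIntegral.integral_const, intervalIntegral.integral_div, smul_eq_mul]
    have := div_le_div_of_nonneg_right (h p.1 p.2 (Finset.mem_offDiag.1 hp).2.2) hl.le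
    linarith
  · rw [nsmul_eq_mul]
    refine mul_le_mul_of_nonneg_right ?_ (by positivity)
    have := Finset.card_le_univ (Finset.univ : Finset (Fin m)).offDiag
    rw [Fintype.card_prod, Fintype.card_fin, ← sq] at this
    exact_mod_cast this

theorem sup_step {m : ℕ} {ρ : Fin m → ℝ → ℝ} (hm : ∀ i, Measurable (ρ i))
    (h0 : ∀ i t, 0 ≤ ρ i t) (h1 : ∀ t, ∑ i, ρ i t = 1) {n η : ℝ} (hn : 0 ≤ n) (hη : 0 < η) :
    ∃ ε : ℝ, 0 < ε ∧ ∀ ρ' : Fin m → ℝ → ℝ, (∀ i, Measurable (ρ' i)) → (∀ i t, 0 ≤ ρ' i t) →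
      (∀ t, ∑ i, ρ' i t = 1) →
      (∀ l a b, |(∫ t in a..b, ρ' l t) - ∫ t in a..b, ρ l t| ≤ ε) → ∀ i,
      (∫ t in (-n)..n, (1 - ∑ i, (ρ' i t) ^ 2)) + ∫ t in (-n)..n, (ρ' i t - ρ i t) ^ 2 ≤
        (∫ t in (-n)..n, (1 - ∑ i, (ρ i t) ^ 2)) + 2 * m * η := by
  have key : ∀ σ : Fin m → ℝ → ℝ, (∀ i t, 0 ≤ σ i t) → (∀ t, ∑ i, σ i t = 1) →
      ∀ i t, |σ i t| ≤ 1 := fun σ a0 a1 i t => by
    rw [abs_of_nonneg (a0 i t)]
    exact sup_le_one (fun j => a0 j t) (a1 t) i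
  have b1 := key ρ h0 h1
  choose e he0 he using fun l => weak (by linarith : -n ≤ n) (sup_int (hm l) 1 (b1 l) _ _) hη
  obtain ⟨ε, hε, hεe⟩ : ∃ ε : ℝ, 0 < ε ∧ ∀ l, ε ≤ e l := by
    obtain ⟨ε, a1, a2⟩ := ((eventually_mem_nhdsWithin (a := (0 : ℝ)) (s := Ioi 0)).and
      (Filter.eventually_all.2 fun l => (eventually_le_nhds (he0 l)).filter_mono
        nhdsWithin_le_nhds)).exists
    exact ⟨ε, a1, a2⟩
  refine ⟨ε, hε, fun ρ' hm' h0' h1' hd i => ?_⟩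
  have b2 := key ρ' h0' h1'
  have b3 : ∀ l t, |ρ' l t - ρ l t| ≤ 1 := fun l t => by
    have := abs_le.1 (b1 l t)
    have := abs_le.1 (b2 l t)
    have := h0 l t
    have := h0' l t
    rw [abs_le]
    constructor <;> linarith
  have sq1 : ∀ f : ℝ → ℝ, Measurable f → (∀ t, |f t| ≤ 1) →
      IntervalIntegrable (fun t => f t ^ 2) volume (-n) n := fun f a1 a2 =>
    sup_int (a1.pow_const 2) 1 (fun t => by
      rw [abs_pow]
      exact pow_le_one₀ (abs_nonneg _) (a2 t)) _ _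
  have sp : ∀ σ : Fin m → ℝ → ℝ, (∀ i, Measurable (σ i)) → (∀ i t, |σ i t| ≤ 1) →
      ∫ t in (-n)..n, (1 - ∑ i, (σ i t) ^ 2) = 2 * n - ∑ i, ∫ t in (-n)..n, (σ i t) ^ 2 := by
    intro σ a1 a2
    have i4 := IntervalIntegrable.sum (Finset.univ : Finset (Fin m))
      fun l _ => sq1 (σ l) (a1 l) (a2 l)
    rw [Finset.sum_fn] at i4
    rw [intervalIntegral.integral_sub intervalIntegrable_const i4,
      intervalIntegral.integral_finsetSum fun l _ => sq1 (σ l) (a1 l) (a2 l),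
      intervalIntegral.integral_const, smul_eq_mul]
    ring
  have c1 : ∀ l, (∫ t in (-n)..n, (ρ l t) ^ 2) + (∫ t in (-n)..n, (ρ' l t - ρ l t) ^ 2) - 2 * η ≤
      ∫ t in (-n)..n, (ρ' l t) ^ 2 := by
    intro l
    have d1 := he l (fun t => ρ' l t - ρ l t) ((hm' l).sub (hm l)) (b3 l) fun p q => by
      rw [intervalIntegral.integral_sub (sup_int (hm' l) 1 (b2 l) _ _)
        (sup_int (hm l) 1 (b1 l) _ _)]
      exact (hd l p q).trans (hεe l)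
    have j1 := sq1 _ (hm l) (b1 l)
    have j2 := sq1 (fun t => ρ' l t - ρ l t) ((hm' l).sub (hm l)) (b3 l)
    have j3 : IntervalIntegrable (fun t => ρ l t * (ρ' l t - ρ l t)) volume (-n) n :=
      sup_int (f := fun t => ρ l t * (ρ' l t - ρ l t)) ((hm l).mul ((hm' l).sub (hm l))) 1
        (fun t => by
        rw [abs_mul]
        exact mul_le_one₀ (b1 l t) (abs_nonneg _) (b3 l t)) _ _
    have d2 : ∫ t in (-n)..n, (ρ' l t) ^ 2 = (∫ t in (-n)..n, (ρ l t) ^ 2) +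
        (∫ t in (-n)..n, (ρ' l t - ρ l t) ^ 2) +
          2 * ∫ t in (-n)..n, ρ l t * (ρ' l t - ρ l t) := by
      rw [← intervalIntegral.integral_const_mul, ← intervalIntegral.integral_add j1 j2,
        ← intervalIntegral.integral_add (j1.add j2) (j3.const_mul 2)]
      congr 1
      funext t
      ring
    have := (abs_le.1 d1).1
    linarith
  have c2 := Finset.sum_le_sum fun l (_ : l ∈ Finset.univ) => c1 l
  have c3 : ∫ t in (-n)..n, (ρ' i t - ρ i t) ^ 2 ≤ ∑ l, ∫ t in (-n)..n, (ρ' l t - ρ l t) ^ 2 :=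
    Finset.single_le_sum (f := fun l => ∫ t in (-n)..n, (ρ' l t - ρ l t) ^ 2)
      (fun l _ => intervalIntegral.integral_nonneg (by linarith) fun t _ => sq_nonneg _)
      (Finset.mem_univ i)
  rw [Finset.sum_sub_distrib, Finset.sum_add_distrib, Finset.sum_const, Finset.card_univ,
    Fintype.card_fin, nsmul_eq_mul] at c2
  rw [sp ρ' hm' b2, sp ρ hm b1]
  linarith

theorem super {m : ℕ} (Q : (Fin m → ℝ → ℝ) → Prop) {κ : ℝ} (hκ : 0 < κ)
    (hmeas : ∀ ρ, Q ρ → ∀ i, Measurable (ρ i)) (hpos : ∀ ρ, Q ρ → ∀ i t, 0 ≤ ρ i t)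
    (hsum : ∀ ρ, Q ρ → ∀ t, ∑ i, ρ i t = 1)
    (hgain : ∀ ρ, Q ρ → ∀ i j, i ≠ j → ∀ n : ℕ, ∀ ε : ℝ, 0 < ε → ∃ ρ', Q ρ' ∧
      (∀ l a b, |(∫ t in a..b, ρ' l t) - ∫ t in a..b, ρ l t| ≤ ε) ∧
      κ * (∫ t in (-(n : ℝ))..n, (min (ρ i t) (ρ j t)) ^ 2) - ε ≤
        ∫ t in (-(n : ℝ))..n, (ρ' i t - ρ i t) ^ 2)
    (ρ : Fin m → ℝ → ℝ) (hρ : Q ρ) (n : ℕ) {ε : ℝ} (hε : 0 < ε) :
    ∃ ρ', Q ρ' ∧ (∀ l a b, |(∫ t in a..b, ρ' l t) - ∫ t in a..b, ρ l t| ≤ ε) ∧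
      (∫ t in (-(n : ℝ))..n, (1 - ∑ i, (ρ' i t) ^ 2)) ≤ ε := by
  by_contra hcon
  push Not at hcon
  have hn : (0 : ℝ) ≤ n := n.cast_nonneg
  have hm : (0 : ℝ) ≤ m := m.cast_nonneg
  obtain ⟨l, hl, hl1⟩ : ∃ l : ℝ, 0 < l ∧ (m : ℝ) ^ 2 * (2 * n * l) ≤ ε / 2 := by
    refine ⟨ε / 2 / (m ^ 2 * (2 * n) + 1), by positivity, ?_⟩
    rw [← mul_assoc, ← mul_div_assoc, div_le_iff₀ (by positivity)]
    nlinarith
  obtain ⟨g, hg, hg1⟩ : ∃ g : ℝ, 0 < g ∧ (m : ℝ) ^ 2 * (g / l) ≤ ε / 2 := by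
    refine ⟨ε / 2 / (m ^ 2 + 1) * l, by positivity, ?_⟩
    rw [mul_div_cancel_right₀ _ hl.ne', ← mul_div_assoc, div_le_iff₀ (by positivity)]
    nlinarith
  obtain ⟨η, hη, hη1⟩ : ∃ η : ℝ, 0 < η ∧ 2 * m * η ≤ κ * g / 4 := by
    refine ⟨κ * g / 4 / (2 * m + 1), by positivity, ?_⟩
    rw [← mul_div_assoc, div_le_iff₀ (by positivity)]
    nlinarith [mul_pos hκ hg]
  have hγ : 0 < κ * g := mul_pos hκ hg
  have key : ∀ k : ℕ, ∃ ρ', Q ρ' ∧ (∃ δ < ε,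
      ∀ l a b, |(∫ t in a..b, ρ' l t) - ∫ t in a..b, ρ l t| ≤ δ) ∧
      (∫ t in (-(n : ℝ))..n, (1 - ∑ i, (ρ' i t) ^ 2)) + k * (κ * g / 2) ≤
        ∫ t in (-(n : ℝ))..n, (1 - ∑ i, (ρ i t) ^ 2) := by
    intro k
    induction k with
    | zero => exact ⟨ρ, hρ, ⟨0, hε, fun l a b => by simp⟩, by simp⟩
    | succ k ih =>
      obtain ⟨ρ1, q1, ⟨δ, hδ, d1⟩, e1⟩ := ih
      have c1 := hcon ρ1 q1 fun l a b => (d1 l a b).trans hδ.le
      obtain ⟨i, j, hij, hg2⟩ : ∃ i j, i ≠ j ∧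
          g < ∫ t in (-(n : ℝ))..n, (min (ρ1 i t) (ρ1 j t)) ^ 2 := by
        by_contra h
        push Not at h
        have := sup_pair (hmeas _ q1) (hpos _ q1) (hsum _ q1) hn hl hg.le h
        linarith
      obtain ⟨e, he, h2⟩ := sup_step (hmeas _ q1) (hpos _ q1) (hsum _ q1) hn hη
      obtain ⟨ρ2, q2, d2, e2⟩ := hgain ρ1 q1 i j hij n (min e (min ((ε - δ) / 2) (κ * g / 4)))
        (lt_min he (lt_min (by linarith) (by linarith)))
      have m1 := min_le_left e (min ((ε - δ) / 2) (κ * g / 4))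
      have m2 := (min_le_right e _).trans (min_le_left ((ε - δ) / 2) (κ * g / 4))
      have m3 := (min_le_right e _).trans (min_le_right ((ε - δ) / 2) (κ * g / 4))
      refine ⟨ρ2, q2, ⟨δ + (ε - δ) / 2, by linarith, fun l a b => ?_⟩, ?_⟩
      · have := abs_sub_le (∫ t in a..b, ρ2 l t) (∫ t in a..b, ρ1 l t) (∫ t in a..b, ρ l t)
        have := d1 l a b
        have := d2 l a b
        linarith
      · have := h2 ρ2 (hmeas _ q2) (hpos _ q2) (hsum _ q2) (fun l a b => (d2 l a b).trans m1) i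
        have := mul_lt_mul_of_pos_left hg2 hκ
        push_cast
        linarith
  obtain ⟨k, hk⟩ := exists_nat_gt
    ((∫ t in (-(n : ℝ))..n, (1 - ∑ i, (ρ i t) ^ 2)) / (κ * g / 2))
  obtain ⟨ρ1, q1, ⟨δ, hδ, d1⟩, e1⟩ := key k
  have c1 := hcon ρ1 q1 fun l a b => (d1 l a b).trans hδ.le
  rw [div_lt_iff₀ (by linarith)] at hk
  linarith

end Mc59
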