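import Pool.Agent.P.MP_59d724_co.McG
import Pool.Agent.P.MP_59d724_co.McSup
import Pool.Agent.P.MP_59d724_co.McLim

open MeasureTheory Set

namespace Mc59

theorem three_sw12 {x y z : ℝ → ℝ} (h : St x y z) : St y x z := by
  obtain ⟨p, F, a, b, c⟩ := h
  exact ⟨p.swap12, F, b, a, c⟩

theorem three_sw23 {x y z : ℝ → ℝ} (h : St x y z) : St x z y := by
  obtain ⟨p, F, a, b, c⟩ := h
  exact ⟨p.swap23, F, a, c, b⟩

theorem three_gain (ρ : Fin 3 → ℝ → ℝ) (h : St (ρ 0) (ρ 1) (ρ 2)) (i j : Fin 3) (hij : i ≠ j)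
    (n : ℕ) (ε : ℝ) (hε : 0 < ε) : ∃ ρ' : Fin 3 → ℝ → ℝ, St (ρ' 0) (ρ' 1) (ρ' 2) ∧
      (∀ l a b, |(∫ t in a..b, ρ' l t) - ∫ t in a..b, ρ l t| ≤ ε) ∧
      1 / 8 * (∫ t in (-(n : ℝ))..n, (min (ρ i t) (ρ j t)) ^ 2) - ε ≤
        ∫ t in (-(n : ℝ))..n, (ρ' i t - ρ i t) ^ 2 := by
  have hn : (0 : ℝ) ≤ n := Nat.cast_nonneg n
  have hc : (i = 1 ∧ j = 2) ∨ (i = 2 ∧ j = 1) ∨ (i = 0 ∧ j = 2) ∨ (i = 2 ∧ j = 0) ∨
      (i = 0 ∧ j = 1) ∨ (i = 1 ∧ j = 0) := by
    revert i j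
    decide
  have all : ∀ p : Fin 3 → Prop, p 0 → p 1 → p 2 → ∀ l, p l := fun p a b c l => by
    fin_cases l
    · exact a
    · exact b
    · exact c
  rcases hc with ⟨rfl, rfl⟩ | ⟨rfl, rfl⟩ | ⟨rfl, rfl⟩ | ⟨rfl, rfl⟩ | ⟨rfl, rfl⟩ | ⟨rfl, rfl⟩
  · obtain ⟨x, y, z, s, a, b, c, g⟩ := gain h hn hε
    exact ⟨![x, y, z], s, all _ a b c, g⟩
  · obtain ⟨x, y, z, s, a, b, c, g⟩ := gain (three_sw23 h) hn hε
    exact ⟨![x, z, y], three_sw23 s, all _ a c b, g⟩
  · obtain ⟨x, y, z, s, a, b, c, g⟩ := gain (three_sw12 h) hn hε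
    exact ⟨![y, x, z], three_sw12 s, all _ b a c, g⟩
  · obtain ⟨x, y, z, s, a, b, c, g⟩ := gain (three_sw23 (three_sw12 h)) hn hε
    exact ⟨![z, x, y], three_sw12 (three_sw23 s), all _ c a b, g⟩
  · obtain ⟨x, y, z, s, a, b, c, g⟩ := gain (three_sw12 (three_sw23 h)) hn hε
    exact ⟨![y, z, x], three_sw23 (three_sw12 s), all _ b c a, g⟩
  · obtain ⟨x, y, z, s, a, b, c, g⟩ := gain (three_sw23 (three_sw12 (three_sw23 h))) hn hε
    exact ⟨![z, y, x], three_sw12 (three_sw23 (three_sw12 s)), all _ c b a, g⟩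

theorem three_rob (ρ : Fin 3 → ℝ → ℝ) (h : St (ρ 0) (ρ 1) (ρ 2)) (n : ℕ) :
    ∃ r : ℝ, 0 < r ∧ ∀ μ : Fin 3 → ℝ → ℝ → ℝ,
      (∀ l a b, |μ l a b - ∫ t in a..b, ρ l t| ≤ r) →
      ∀ a h L : ℝ, 1 / ((n : ℝ) + 1) ≤ L → L ≤ h → Meets n a h L →
        ∃ l, μ l (a + h) (a + h + L) ≠ μ l a (a + L) := by
  have hn : (0 : ℝ) ≤ n := Nat.cast_nonneg n
  have h0 : (0 : ℝ) < 1 / ((n : ℝ) + 1) := by positivity
  have h1 : 1 / ((n : ℝ) + 1) ≤ 1 := by
    rw [div_le_one (by positivity)]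
    linarith
  obtain ⟨c, hc, hb⟩ := h.1.rg n _ h0
  refine ⟨c * (1 / ((n : ℝ) + 1)) / 8, by positivity, fun μ hμ a k L hL hk hm => ?_⟩
  by_contra hne
  have e : ∀ l, μ l (a + k) (a + k + L) = μ l a (a + L) := fun l =>
    Classical.byContradiction fun q => hne ⟨l, q⟩
  have d : ∀ l, |D (ρ l) a k L| ≤ 2 * (c * (1 / ((n : ℝ) + 1)) / 8) := fun l => by
    have p := abs_le.1 (hμ l (a + k) (a + k + L))
    have q := abs_le.1 (hμ l a (a + L))
    rw [e l] at p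
    unfold D
    exact abs_le.2 ⟨by linarith [p.1, p.2, q.1, q.2], by linarith [p.1, p.2, q.1, q.2]⟩
  have b := hb a k L (h0.trans_le hL) hk (hL.trans hk) hm
  have m : c * (1 / ((n : ℝ) + 1)) ≤ c * min L 1 :=
    mul_le_mul_of_nonneg_left (le_min hL h1) hc.le
  have p : 0 < c * (1 / ((n : ℝ) + 1)) := by positivity
  linarith [d 0, d 1]

theorem three_ind {c : ℝ → Fin 3} (l : Fin 3) :
    (fun t => if c t = l then (1 : ℝ) else 0) = (c ⁻¹' {l}).indicator 1 := by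
  funext t
  by_cases h : c t = l <;> simp [indicator, h]

theorem three_int {c : ℝ → Fin 3} (hc : Measurable c) (l : Fin 3) (a b : ℝ) :
    IntervalIntegrable (fun t => if c t = l then (1 : ℝ) else 0) volume a b := by
  have h : IntervalIntegrable (1 : ℝ → ℝ) volume a b := intervalIntegrable_const
  have m : MeasurableSet (c ⁻¹' {l}) := hc (measurableSet_singleton l)
  rw [three_ind]
  exact ⟨h.1.indicator m, h.2.indicator m⟩

theorem three_vol {c : ℝ → Fin 3} (hc : Measurable c) (l : Fin 3) {a b : ℝ} (hab : a ≤ b) :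
    (∫ t in a..b, if c t = l then (1 : ℝ) else 0) = (volume (c ⁻¹' {l} ∩ Icc a b)).toReal := by
  have m : MeasurableSet (c ⁻¹' {l}) := hc (measurableSet_singleton l)
  rw [intervalIntegral.integral_of_le hab, ← integral_Icc_eq_integral_Ioc, three_ind,
    integral_indicator_one m, Measure.real, Measure.restrict_apply m]

theorem three_len {c : ℝ → Fin 3} (hc : Measurable c) (a b : ℝ) :
    ∑ l, (∫ t in a..b, if c t = l then (1 : ℝ) else 0) = b - a := by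
  rw [← intervalIntegral.integral_finsetSum fun l _ => three_int hc l a b]
  simp

theorem three : ∃ c : ℝ → Fin 3, Measurable c ∧ ∀ a b a' b' : ℝ, a < b → a' < b' →
    (∀ i, volume (c ⁻¹' {i} ∩ Icc a b) = volume (c ⁻¹' {i} ∩ Icc a' b')) → a = a' ∧ b = b' := by
  have all : ∀ p : Fin 3 → Prop, p 0 → p 1 → p 2 → ∀ l, p l := fun p a b c l => by
    fin_cases l
    · exact a
    · exact b
    · exact c
  have hmeas : ∀ ρ : Fin 3 → ℝ → ℝ, St (ρ 0) (ρ 1) (ρ 2) → ∀ i, Measurable (ρ i) := fun ρ h => by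
    obtain ⟨M, _, a, b, c⟩ := h.1.lip
    exact all _ a.continuous.measurable b.continuous.measurable c.continuous.measurable
  have hpos : ∀ ρ : Fin 3 → ℝ → ℝ, St (ρ 0) (ρ 1) (ρ 2) → ∀ i t, 0 ≤ ρ i t := fun ρ h =>
    all _ (fun t => (h.1.pos t).1.le) (fun t => (h.1.pos t).2.1.le) fun t => (h.1.pos t).2.2.le
  have hsum : ∀ ρ : Fin 3 → ℝ → ℝ, St (ρ 0) (ρ 1) (ρ 2) → ∀ t, ∑ i, ρ i t = 1 := fun ρ h t => by
    rw [Fin.sum_univ_three]
    exact h.1.sum t
  obtain ⟨x, y, z, h0⟩ := first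
  obtain ⟨c, hc, hP⟩ := lim (m := 3) (fun ρ => St (ρ 0) (ρ 1) (ρ 2)) ⟨![x, y, z], h0⟩ hmeas hpos hsum
    (fun ρ h n ε hε => super (m := 3) (fun ρ => St (ρ 0) (ρ 1) (ρ 2)) (κ := 1 / 8) (by norm_num)
      hmeas hpos hsum three_gain ρ h n hε)
    (fun n μ => ∀ a h L : ℝ, 1 / ((n : ℝ) + 1) ≤ L → L ≤ h → Meets n a h L →
      ∃ l, μ l (a + h) (a + h + L) ≠ μ l a (a + L)) three_rob
  have k1 : ∀ a h L : ℝ, 0 < L → L ≤ h → ∃ l,
      (∫ t in (a + h)..(a + h + L), if c t = l then (1 : ℝ) else 0) ≠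
        ∫ t in a..(a + L), if c t = l then (1 : ℝ) else 0 := fun a h L hL hh => by
    obtain ⟨n, hn⟩ := exists_nat_ge (max |a| (1 / L))
    refine hP n a h L ?_ hh (Or.inl ⟨a, ⟨le_rfl, by linarith⟩, (le_max_left _ _).trans hn⟩)
    have p : 1 / L ≤ (n : ℝ) + 1 := by linarith [le_max_right |a| (1 / L)]
    rw [div_le_iff₀ hL] at p
    rw [div_le_iff₀ (by positivity)]
    linarith
  have k2 : ∀ a h L : ℝ, 0 < L → 0 < h → ∃ l,
      (∫ t in (a + h)..(a + h + L), if c t = l then (1 : ℝ) else 0) ≠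
        ∫ t in a..(a + L), if c t = l then (1 : ℝ) else 0 := fun a h L hL hh => by
    rcases le_total L h with q | q
    · exact k1 a h L hL q
    · obtain ⟨l, hl⟩ := k1 a L h hh q
      refine ⟨l, fun e => hl ?_⟩
      have s1 := intervalIntegral.integral_add_adjacent_intervals (three_int hc l a (a + h))
        (three_int hc l (a + h) (a + h + L))
      have s2 := intervalIntegral.integral_add_adjacent_intervals (three_int hc l a (a + L))
        (three_int hc l (a + L) (a + L + h))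
      rw [show a + h + L = a + L + h by ring] at s1 e
      linarith
  have k3 : ∀ a b a' b' : ℝ, a < b → b - a = b' - a' →
      (∀ l, (∫ t in a..b, if c t = l then (1 : ℝ) else 0) =
        ∫ t in a'..b', if c t = l then (1 : ℝ) else 0) → ¬ a < a' := fun a b a' b' hab e q hlt => by
    obtain ⟨l, hl⟩ := k2 a (a' - a) (b - a) (by linarith) (by linarith)
    rw [show a + (a' - a) + (b - a) = b' by linarith, show a + (a' - a) = a' by ring,
      show a + (b - a) = b by ring] at hl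
    exact hl (q l).symm
  refine ⟨c, hc, fun a b a' b' hab hab' hv => ?_⟩
  have q : ∀ l, (∫ t in a..b, if c t = l then (1 : ℝ) else 0) =
      ∫ t in a'..b', if c t = l then (1 : ℝ) else 0 := fun l => by
    rw [three_vol hc l hab.le, three_vol hc l hab'.le, hv l]
  have e : b - a = b' - a' := by
    rw [← three_len hc a b, ← three_len hc a' b']
    exact Finset.sum_congr rfl fun l _ => q l
  have e1 : a = a' := le_antisymm (not_lt.1 (k3 a' b' a b hab' e.symm fun l => (q l).symm))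
    (not_lt.1 (k3 a b a' b' hab e q))
  exact ⟨e1, by linarith⟩

end Mc59
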