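import Pool.Agent.P.MP_59d724_co.McDefs

open MeasureTheory Set Filter Topology

namespace Mc59

/-- primitive of the indicator of `A` -/
noncomputable def twoF (A : Set ℝ) (x : ℝ) : ℝ :=
  ∫ t in (0 : ℝ)..x, A.indicator (fun _ => (1 : ℝ)) t

theorem two_int {A : Set ℝ} (hA : MeasurableSet A) (a b : ℝ) :
    IntervalIntegrable (A.indicator fun _ => (1 : ℝ)) volume a b := by
  have h : IntervalIntegrable (fun _ : ℝ => (1 : ℝ)) volume a b := intervalIntegrable_const
  exact ⟨h.1.indicator hA, h.2.indicator hA⟩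

theorem two_cont {A : Set ℝ} (hA : MeasurableSet A) : Continuous (twoF A) :=
  intervalIntegral.continuous_primitive (two_int hA) 0

theorem two_fin (A : Set ℝ) (a b : ℝ) : volume (A ∩ Icc a b) ≠ ⊤ :=
  ne_top_of_le_ne_top (by simp) (measure_mono inter_subset_right)

theorem two_vol {A : Set ℝ} (hA : MeasurableSet A) {a b : ℝ} (hab : a ≤ b) :
    (volume (A ∩ Icc a b)).toReal = twoF A b - twoF A a := by
  unfold twoF
  rw [intervalIntegral.integral_interval_sub_left (two_int hA _ _) (two_int hA _ _),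
    intervalIntegral.integral_of_le hab, integral_indicator hA, integral_const, smul_eq_mul,
    mul_one, Measure.real, Measure.restrict_apply_univ, Measure.restrict_apply hA]
  congr 1
  exact measure_congr (ae_eq_set_inter (ae_eq_refl _) Ioc_ae_eq_Icc.symm)

theorem two_le {A : Set ℝ} (hA : MeasurableSet A) {a b : ℝ} (hab : a ≤ b) :
    0 ≤ twoF A b - twoF A a ∧ twoF A b - twoF A a ≤ b - a := by
  rw [← two_vol hA hab]
  refine ⟨ENNReal.toReal_nonneg, ?_⟩
  have h : volume (A ∩ Icc a b) ≤ ENNReal.ofReal (b - a) := by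
    rw [← Real.volume_Icc]
    exact measure_mono inter_subset_right
  exact ENNReal.toReal_le_of_le_ofReal (by linarith) h

theorem two_compl {A : Set ℝ} (hA : MeasurableSet A) (x : ℝ) : twoF Aᶜ x = x - twoF A x := by
  have h : twoF A x + twoF Aᶜ x = x := by
    unfold twoF
    rw [← intervalIntegral.integral_add (two_int hA _ _) (two_int hA.compl _ _)]
    have : (fun t => A.indicator (fun _ => (1 : ℝ)) t + Aᶜ.indicator (fun _ => (1 : ℝ)) t) =
        fun _ => (1 : ℝ) := by
      funext t
      by_cases ht : t ∈ A <;> simp [ht]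
    rw [this]
    simp
  linarith

theorem two_step {F : ℝ → ℝ}
    (h : ∀ a L : ℝ, 0 < L → F (a + L) - F a < F (a + L + L) - F (a + L)) (x : ℝ) {r : ℝ}
    (hr : 0 < r) (n : ℕ) :
    F (x + r) - F x ≤ F (x + n * r + r) - F (x + n * r) ∧
      n * (F (x + r) - F x) ≤ F (x + n * r) - F x := by
  induction n with
  | zero => simp
  | succ n ih =>
    have h1 := h (x + n * r) r hr
    have e : x + ((n + 1 : ℕ) : ℝ) * r = x + n * r + r := by push_cast; ring
    rw [e]
    refine ⟨by linarith [ih.1], ?_⟩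
    push_cast
    linarith [ih.1, ih.2]

theorem two_key {A : Set ℝ} (hA : MeasurableSet A)
    (h : ∀ a L : ℝ, 0 < L →
      twoF A (a + L) - twoF A a < twoF A (a + L + L) - twoF A (a + L)) : False := by
  have hpos : volume A ≠ 0 := by
    intro h0
    have h1 := h 0 1 one_pos
    have h2 := (two_le hA (show (0 : ℝ) ≤ 0 + 1 by norm_num)).1
    have h3 := two_vol hA (show (0 : ℝ) + 1 ≤ 0 + 1 + 1 by norm_num)
    rw [measure_mono_null inter_subset_left h0] at h3
    simp only [ENNReal.toReal_zero] at h3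
    linarith
  have hae := Besicovitch.ae_tendsto_measure_inter_div (volume : Measure ℝ) A
  have hne : (ae (volume.restrict A)).NeBot := by
    rw [ae_neBot]
    intro h0
    exact hpos (Measure.restrict_eq_zero.mp h0)
  obtain ⟨x, hx⟩ := hae.exists
  have hlt : twoF A (x + 1) - twoF A x < 1 := by
    have h1 := h x 1 one_pos
    have h2 := (two_le hA (show x + 1 ≤ x + 1 + 1 by linarith)).2
    linarith
  have hx2 : Tendsto (fun r => (volume (A ∩ Metric.closedBall x r) /
      volume (Metric.closedBall x r)).toReal) (𝓝[>] 0) (𝓝 1) := by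
    have := (ENNReal.tendsto_toReal (a := 1) (by simp)).comp hx
    simpa [Function.comp_def] using this
  have hseq : Tendsto (fun n : ℕ => 1 / ((n : ℝ) + 1)) atTop (𝓝[>] 0) := by
    refine tendsto_nhdsWithin_iff.mpr ⟨tendsto_one_div_add_atTop_nhds_zero_nat, ?_⟩
    exact Eventually.of_forall fun n => mem_Ioi.mpr (Nat.one_div_pos_of_nat (n := n))
  obtain ⟨n, hn⟩ := ((hx2.comp hseq).eventually (lt_mem_nhds hlt)).exists
  set r : ℝ := 1 / ((n : ℝ) + 1) with hr
  have hr0 : 0 < r := Nat.one_div_pos_of_nat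
  have hnr : ((n + 1 : ℕ) : ℝ) * r = 1 := by
    rw [hr]
    push_cast
    field_simp
  simp only [Function.comp_apply] at hn
  rw [← hr, ENNReal.toReal_div, Real.closedBall_eq_Icc, two_vol hA (by linarith),
    Real.volume_Icc, ENNReal.toReal_ofReal (by linarith), lt_div_iff₀ (by linarith)] at hn
  have h1 := h (x - r) r hr0
  have e1 : x - r + r = x := by ring
  rw [e1] at h1
  have h2 := (two_step h x hr0 (n + 1)).2
  rw [hnr] at h2
  have h3 := mul_le_mul_of_nonneg_left h2 hr0.le
  rw [← mul_assoc, mul_comm r, hnr] at h3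
  nlinarith

theorem two_set {A : Set ℝ} (hA : MeasurableSet A) : ∃ a L : ℝ, 0 < L ∧
    twoF A (a + L) - twoF A a = twoF A (a + L + L) - twoF A (a + L) := by
  by_contra hc
  push Not at hc
  let g : ℝ × ℝ → ℝ := fun p =>
    (twoF A (p.1 + p.2 + p.2) - twoF A (p.1 + p.2)) - (twoF A (p.1 + p.2) - twoF A p.1)
  have hF := two_cont hA
  have hg : Continuous g := by
    simp only [g]
    fun_prop
  have hS : IsPreconnected ((univ : Set ℝ) ×ˢ Ioi (0 : ℝ)) :=
    isPreconnected_univ.prod isPreconnected_Ioi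
  have hiv : ∀ a L a' L' : ℝ, 0 < L → 0 < L' → g (a, L) ≤ 0 → 0 ≤ g (a', L') → False := by
    intro a L a' L' hL hL' h1 h2
    obtain ⟨p, hp, hp0⟩ := hS.intermediate_value (a := (a, L)) (b := (a', L'))
      ⟨mem_univ _, hL⟩ ⟨mem_univ _, hL'⟩ hg.continuousOn ⟨h1, h2⟩
    refine hc p.1 p.2 hp.2 ?_
    simp only [g] at hp0
    linarith
  rcases le_total 0 (g (0, 1)) with h0 | h0
  · refine two_key hA fun a L hL => ?_
    by_contra hn
    refine hiv a L 0 1 hL one_pos ?_ h0
    simp only [g]
    linarith [not_lt.mp hn]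
  · refine two_key hA.compl fun a L hL => ?_
    by_contra hn
    refine hiv 0 1 a L one_pos hL h0 ?_
    simp only [two_compl hA] at hn
    simp only [g]
    linarith [not_lt.mp hn]

theorem two_eq {A : Set ℝ} (hA : MeasurableSet A) {a L : ℝ} (hL : 0 < L)
    (h : twoF A (a + L) - twoF A a = twoF A (a + L + L) - twoF A (a + L)) :
    volume (A ∩ Icc a (a + L)) = volume (A ∩ Icc (a + L) (a + L + L)) := by
  rw [← ENNReal.toReal_eq_toReal_iff' (two_fin _ _ _) (two_fin _ _ _),
    two_vol hA (by linarith), two_vol hA (by linarith), h]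

theorem two {m : ℕ} (hm : m ≤ 2) (c : ℝ → Fin m) (hc : Measurable c) : ∃ a L : ℝ, 0 < L ∧
    ∀ i, volume (c ⁻¹' {i} ∩ Icc a (a + L)) = volume (c ⁻¹' {i} ∩ Icc (a + L) (a + L + L)) := by
  have hA : MeasurableSet (c ⁻¹' {c 0}) := hc (measurableSet_singleton _)
  obtain ⟨a, L, hL, h⟩ := two_set hA
  refine ⟨a, L, hL, fun i => ?_⟩
  by_cases hi : i = c 0
  · rw [hi]
    exact two_eq hA hL h
  · have e : c ⁻¹' {i} = (c ⁻¹' {c 0})ᶜ := by
      ext t
      have h1 := (c t).2
      have h2 := (c 0).2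
      have h3 := i.2
      simp only [mem_preimage, mem_singleton_iff, mem_compl_iff, Fin.ext_iff] at hi ⊢
      omega
    rw [e]
    refine two_eq hA.compl hL ?_
    simp only [two_compl hA]
    linarith

end Mc59
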