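import Pool.Agent.P.MP_59d724_co.McDefs

open MeasureTheory Set

namespace Mc59

theorem part {f : ℝ → ℝ} {a b τ α β : ℝ} (hab : a ≤ b) (hτ : 0 < τ) (hα : 0 ≤ α) (hβ : 0 ≤ β)
    (hf : IntervalIntegrable f volume a b)
    (h : ∀ p q, a ≤ p → p ≤ q → q ≤ b → q - p ≤ τ → |∫ t in p..q, f t| ≤ α * (q - p) + β) :
    |∫ t in a..b, f t| ≤ α * (b - a) + β * ((b - a) / τ + 1) := by
  have _ := hα
  have hi : ∀ p q, a ≤ p → p ≤ q → q ≤ b → IntervalIntegrable f volume p q := fun p q h1 h2 h3 =>
    hf.mono_set (by rw [uIcc_of_le h2, uIcc_of_le hab]; exact Icc_subset_Icc h1 h3)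
  have key : ∀ n : ℕ, ∀ c, a ≤ c → c ≤ b → c - a ≤ n * τ →
      |∫ t in a..c, f t| ≤ α * (c - a) + β * n := by
    intro n
    induction n with
    | zero =>
      intro c h1 _ h3
      obtain rfl : c = a := by
        simp only [Nat.cast_zero, zero_mul] at h3
        linarith
      simp
    | succ n ih =>
      intro c h1 h2 h3
      push_cast at h3 ⊢
      have hn : (0 : ℝ) ≤ β * n := by positivity
      by_cases hc : c - a ≤ τ
      · have := h a c le_rfl h1 h2 hc
        linarith
      · have e := intervalIntegral.integral_add_adjacent_intervals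
          (hi a (c - τ) le_rfl (by linarith) (by linarith)) (hi (c - τ) c (by linarith)
            (by linarith) h2)
        have i1 := ih (c - τ) (by linarith) (by linarith) (by linarith)
        have i2 := h (c - τ) c (by linarith) (by linarith) h2 (by linarith)
        rw [← e]
        refine (abs_add_le _ _).trans ?_
        linarith
  have h0 : 0 ≤ (b - a) / τ := div_nonneg (by linarith) hτ.le
  have h1 := key ⌈(b - a) / τ⌉₊ b hab le_rfl ((div_le_iff₀ hτ).1 (Nat.le_ceil _))
  have h2 := (Nat.ceil_lt_add_one h0).le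
  exact h1.trans (by gcongr)

theorem w_piece {g u : ℝ → ℝ} {p q ω G e : ℝ} (hpq : p ≤ q) (hg : Continuous g)
    (hu : IntervalIntegrable u volume p q) (hu1 : ∀ t, |u t| ≤ 1)
    (hω : ∀ t ∈ Icc p q, |g t - g p| ≤ ω) (hG : |g p| ≤ G) (he : |∫ t in p..q, u t| ≤ e) :
    |∫ t in p..q, g t * u t| ≤ ω * (q - p) + G * e := by
  have i1 : IntervalIntegrable (fun t => (g t - g p) * u t) volume p q :=
    hu.continuousOn_mul (by fun_prop)
  have e1 : ∫ t in p..q, g t * u t = (∫ t in p..q, (g t - g p) * u t) + g p * ∫ t in p..q, u t := by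
    rw [← intervalIntegral.integral_const_mul, ← intervalIntegral.integral_add i1 (hu.const_mul _)]
    congr 1
    funext t
    ring
  have b1 : ‖∫ t in p..q, (g t - g p) * u t‖ ≤ ω * |q - p| := by
    refine intervalIntegral.norm_integral_le_of_norm_le_const fun t ht => ?_
    rw [uIoc_of_le hpq] at ht
    rw [Real.norm_eq_abs, abs_mul]
    have := hω t ⟨ht.1.le, ht.2⟩
    calc |g t - g p| * |u t| ≤ |g t - g p| * 1 := by gcongr; exact hu1 t
      _ ≤ ω := by linarith
  rw [Real.norm_eq_abs, abs_of_nonneg (sub_nonneg.2 hpq)] at b1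
  have b2 : |g p * ∫ t in p..q, u t| ≤ G * e := by
    rw [abs_mul]
    exact mul_le_mul hG he (abs_nonneg _) ((abs_nonneg _).trans hG)
  rw [e1]
  exact (abs_add_le _ _).trans (add_le_add b1 b2)

theorem w_int {u : ℝ → ℝ} (hm : Measurable u) (hu1 : ∀ t, |u t| ≤ 1) (p q : ℝ) :
    IntervalIntegrable u volume p q :=
  (intervalIntegrable_const (c := (1 : ℝ))).mono_fun hm.aestronglyMeasurable
    (Filter.Eventually.of_forall fun t => by simpa using hu1 t)

theorem w_unif {g : ℝ → ℝ} (hg : Continuous g) (a b : ℝ) {ω : ℝ} (hω : 0 < ω) :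
    ∃ τ G : ℝ, 0 < τ ∧ 0 < G ∧ (∀ t ∈ Icc a b, |g t| ≤ G) ∧
      ∀ s ∈ Icc a b, ∀ t ∈ Icc a b, |t - s| ≤ τ → |g t - g s| ≤ ω := by
  obtain ⟨C, hC⟩ := isCompact_Icc.exists_bound_of_continuousOn (s := Icc a b) hg.continuousOn
  obtain ⟨δ, hδ, h⟩ := Metric.uniformContinuousOn_iff_le.1
    (isCompact_Icc.uniformContinuousOn_of_continuous (s := Icc a b) hg.continuousOn) ω hω
  refine ⟨δ, |C| + 1, hδ, by positivity, fun t ht => ?_, fun s hs t ht hst => h t ht s hs hst⟩
  have := hC t ht
  rw [Real.norm_eq_abs] at this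
  linarith [le_abs_self C]

theorem weak {f : ℝ → ℝ} {a b : ℝ} (hab : a ≤ b) (hf : IntervalIntegrable f volume a b)
    {η : ℝ} (hη : 0 < η) : ∃ ε : ℝ, 0 < ε ∧ ∀ u : ℝ → ℝ, Measurable u → (∀ t, |u t| ≤ 1) →
      (∀ p q, |∫ t in p..q, u t| ≤ ε) → |∫ t in a..b, f t * u t| ≤ η := by
  have hf' : Integrable f (volume.restrict (Ioc a b)) := hf.1
  obtain ⟨g, hg, -⟩ := hf'.exists_boundedContinuous_integral_sub_le (ε := η / 3) (by positivity)
  have hgc : Continuous fun t => g t := g.continuous
  have hL : 0 < b - a + 1 := by linarith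
  obtain ⟨τ, G, hτ, hG, hb, hu⟩ := w_unif hgc a b (ω := η / 3 / (b - a + 1)) (by positivity)
  have hK : 0 < (b - a) / τ + 1 := by
    have : 0 ≤ (b - a) / τ := div_nonneg (by linarith) hτ.le
    linarith
  refine ⟨η / 3 / (G * ((b - a) / τ + 1)), by positivity, fun u hm h1 he => ?_⟩
  have hui := w_int hm h1
  have i1 : IntervalIntegrable (fun t => g t * u t) volume a b :=
    (hui a b).continuousOn_mul hgc.continuousOn
  have hfg : IntervalIntegrable (fun t => f t - g t) volume a b :=
    hf.sub (hgc.intervalIntegrable a b)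
  have hle : ∀ t, ‖(f t - g t) * u t‖ ≤ ‖f t - g t‖ := fun t => by
    rw [norm_mul]
    exact mul_le_of_le_one_right (norm_nonneg _) (h1 t)
  have i2 : IntervalIntegrable (fun t => (f t - g t) * u t) volume a b :=
    hfg.mono_fun (((intervalIntegrable_iff.1 hfg).aestronglyMeasurable).mul
      hm.aestronglyMeasurable) (Filter.Eventually.of_forall hle)
  have b1 := part hab hτ (α := η / 3 / (b - a + 1))
    (β := G * (η / 3 / (G * ((b - a) / τ + 1)))) (by positivity) (by positivity) i1
    fun p q hp hpq hq hτ' => w_piece hpq hgc (hui p q) h1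
      (fun t ht => hu p ⟨hp, hpq.trans hq⟩ t ⟨hp.trans ht.1, ht.2.trans hq⟩ (by
        rw [abs_of_nonneg (sub_nonneg.2 ht.1)]; linarith [ht.2]))
      (hb p ⟨hp, hpq.trans hq⟩) (he p q)
  have b2 : |∫ t in a..b, (f t - g t) * u t| ≤ η / 3 := by
    refine le_trans ?_ hg
    rw [← intervalIntegral.integral_of_le hab, ← Real.norm_eq_abs]
    exact intervalIntegral.norm_integral_le_of_norm_le hab
      (Filter.Eventually.of_forall fun t _ => hle t) hfg.norm
  have e1 : ∫ t in a..b, f t * u t =
      (∫ t in a..b, (f t - g t) * u t) + ∫ t in a..b, g t * u t := by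
    rw [← intervalIntegral.integral_add i2 i1]
    congr 1
    funext t
    ring
  have c1 : η / 3 / (b - a + 1) * (b - a) ≤ η / 3 := by
    rw [div_mul_eq_mul_div, div_le_iff₀ hL]
    nlinarith
  have c2 : G * (η / 3 / (G * ((b - a) / τ + 1))) * ((b - a) / τ + 1) = η / 3 := by
    generalize (b - a) / τ + 1 = K at hK
    field_simp
  rw [e1]
  refine (abs_add_le _ _).trans ?_
  linarith

theorem w_sin {c d p q : ℝ} (hc : c ≠ 0) : |∫ t in p..q, Real.sin (c * t + d)| ≤ 2 / |c| := by
  rw [intervalIntegral.integral_comp_mul_add (fun t => Real.sin t) hc, integral_sin, smul_eq_mul,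
    abs_mul, abs_inv, div_eq_inv_mul]
  refine mul_le_mul_of_nonneg_left ?_ (by positivity)
  have h1 := Real.abs_cos_le_one (c * p + d)
  have h2 := Real.abs_cos_le_one (c * q + d)
  exact (abs_sub _ _).trans (by linarith)

theorem w_lin {x : ℝ → ℝ} {S p q r ε θ : ℝ} (hS : 0 < S) (hε : 0 < ε) (hpq : p ≤ q) (hqr : q ≤ r)
    (h : Lin x S p r) : |∫ t in p..q, Real.sin (x t / ε + θ)| ≤ 2 * ε / S := by
  have key : ∀ σ : ℝ, |σ| = S → (∀ t ∈ Icc p r, x t - x p = σ * (t - p)) →
      |∫ t in p..q, Real.sin (x t / ε + θ)| ≤ 2 * ε / S := by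
    intro σ hσ hx
    have hσ0 : σ ≠ 0 := fun e => by simp [e] at hσ; linarith
    have e : ∫ t in p..q, Real.sin (x t / ε + θ) =
        ∫ t in p..q, Real.sin (σ / ε * t + ((x p - σ * p) / ε + θ)) := by
      refine intervalIntegral.integral_congr fun t ht => ?_
      rw [uIcc_of_le hpq] at ht
      have : x t = x p + σ * (t - p) := by linarith [hx t ⟨ht.1, ht.2.trans hqr⟩]
      simp only [this]
      congr 1
      ring
    rw [e]
    refine (w_sin (div_ne_zero hσ0 hε.ne')).trans_eq ?_
    rw [abs_div, hσ, abs_of_pos hε]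
    field_simp
  have hp : p ∈ Icc p r := ⟨le_rfl, hpq.trans hqr⟩
  rcases h with h | h
  · exact key S (abs_of_pos hS) fun t ht => h p hp t ht
  · exact key (-S) (by rw [abs_neg, abs_of_pos hS]) fun t ht => h p hp t ht

theorem osc {B x : ℝ → ℝ} (hB : Continuous B) (hx : Continuous x) {N S h1 : ℝ} (hS : 0 < S)
    (hh1 : 0 < h1) (hsupp : ∀ t, N ≤ |t| → B t = 0)
    (hloc : ∀ p, (∀ t ∈ Icc p (p + h1), B t = 0) ∨ Lin x S p (p + h1)) {η : ℝ} (hη : 0 < η) :
    ∃ ε0 : ℝ, 0 < ε0 ∧ ∀ ε : ℝ, 0 < ε → ε ≤ ε0 → ∀ θ a b : ℝ,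
      |∫ t in a..b, B t * Real.sin (x t / ε + θ)| ≤ η := by
  obtain ⟨R, hR, hNR⟩ : ∃ R : ℝ, 0 < R ∧ N ≤ R := ⟨|N| + 1, by positivity, by
    linarith [le_abs_self N]⟩
  obtain ⟨τ0, G, hτ0, hG, hb, hu⟩ := w_unif hB (-R) R (ω := η / 2 / (2 * R)) (by positivity)
  obtain ⟨τ, hτ, hτ1, hτ2⟩ : ∃ τ : ℝ, 0 < τ ∧ τ ≤ τ0 ∧ τ ≤ h1 :=
    ⟨min τ0 h1, lt_min hτ0 hh1, min_le_left _ _, min_le_right _ _⟩
  refine ⟨η / 2 * S / (2 * G * (2 * R / τ + 1)), by positivity, fun ε hε hε0 θ => ?_⟩
  have hs : Continuous fun t => Real.sin (x t / ε + θ) := by fun_prop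
  have hF : Continuous fun t => B t * Real.sin (x t / ε + θ) := hB.mul hs
  have inner : ∀ a b, -R ≤ a → a ≤ b → b ≤ R →
      |∫ t in a..b, B t * Real.sin (x t / ε + θ)| ≤ η := by
    intro a b ha hab hb'
    have b1 := part hab hτ (α := η / 2 / (2 * R)) (β := G * (2 * ε / S)) (by positivity)
      (by positivity) (hF.intervalIntegrable a b) fun p q hp hpq hq hτ' => by
        rcases hloc p with h | h
        · have e : ∫ t in p..q, B t * Real.sin (x t / ε + θ) = ∫ _ in p..q, (0 : ℝ) := by
            refine intervalIntegral.integral_congr fun t ht => ?_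
            rw [uIcc_of_le hpq] at ht
            simp [h t ⟨ht.1, by linarith [ht.2]⟩]
          rw [e]
          have : 0 ≤ q - p := by linarith
          simp only [intervalIntegral.integral_zero, abs_zero]
          positivity
        · have hp' : p ∈ Icc (-R) R := ⟨by linarith, by linarith⟩
          exact w_piece hpq hB (hs.intervalIntegrable p q) (fun t => Real.abs_sin_le_one _)
            (fun t ht => hu p hp' t ⟨by linarith [ht.1], by linarith [ht.2]⟩ (by
              rw [abs_of_nonneg (sub_nonneg.2 ht.1)]; linarith [ht.2]))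
            (hb p hp') (w_lin hS hε hpq (by linarith) h)
    have c1 : η / 2 / (2 * R) * (b - a) ≤ η / 2 := by
      rw [div_mul_eq_mul_div, div_le_iff₀ (by positivity)]
      have : b - a ≤ 2 * R := by linarith
      gcongr
    have c2 : G * (2 * ε / S) * ((b - a) / τ + 1) ≤ η / 2 := by
      have h2 : (b - a) / τ + 1 ≤ 2 * R / τ + 1 := by
        have : b - a ≤ 2 * R := by linarith
        gcongr
      have h3 := (le_div_iff₀ (by positivity)).1 hε0
      calc G * (2 * ε / S) * ((b - a) / τ + 1) ≤ G * (2 * ε / S) * (2 * R / τ + 1) := by gcongr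
        _ = ε * (2 * G * (2 * R / τ + 1)) / S := by ring
        _ ≤ η / 2 := (div_le_iff₀ hS).2 h3
    linarith
  have cut : ∀ a, ∫ t in a..(max (-R) (min a R)), B t * Real.sin (x t / ε + θ) = 0 := by
    intro a
    by_cases h2 : a ≤ -R
    · rw [max_eq_left ((min_le_left _ _).trans h2), ← intervalIntegral.integral_zero (a := a)
        (b := -R) (μ := volume)]
      refine intervalIntegral.integral_congr fun t ht => ?_
      rw [uIcc_of_le h2] at ht
      simp [hsupp t (by linarith [ht.2, neg_le_abs t])]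
    · by_cases h3 : a ≤ R
      · rw [min_eq_left h3, max_eq_right (by linarith), intervalIntegral.integral_same]
      · rw [min_eq_right (by linarith), max_eq_right (by linarith),
          ← intervalIntegral.integral_zero (a := a) (b := R) (μ := volume)]
        refine intervalIntegral.integral_congr fun t ht => ?_
        rw [uIcc_of_ge (by linarith)] at ht
        simp [hsupp t (by linarith [ht.1, le_abs_self t])]
  have red : ∀ a b, ∫ t in a..b, B t * Real.sin (x t / ε + θ) =
      ∫ t in (max (-R) (min a R))..(max (-R) (min b R)), B t * Real.sin (x t / ε + θ) := by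
    intro a b
    have e1 := intervalIntegral.integral_add_adjacent_intervals (μ := volume)
      (hF.intervalIntegrable a (max (-R) (min a R))) (hF.intervalIntegrable _ (max (-R) (min b R)))
    have e2 := intervalIntegral.integral_add_adjacent_intervals (μ := volume)
      (hF.intervalIntegrable a b) (hF.intervalIntegrable b (max (-R) (min b R)))
    rw [cut a] at e1
    rw [cut b] at e2
    linarith
  have hm : ∀ a, max (-R) (min a R) ≤ R := fun a => max_le (by linarith) (min_le_right _ _)
  intro a b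
  rw [red a b]
  rcases le_total (max (-R) (min a R)) (max (-R) (min b R)) with h | h
  · exact inner _ _ (le_max_left _ _) h (hm b)
  · rw [intervalIntegral.integral_symm, abs_neg]
    exact inner _ _ (le_max_left _ _) h (hm a)

end Mc59
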