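import Mathlib

set_option autoImplicit false
set_option linter.unusedSectionVars false

namespace Pool.Agent.P.MP_59d724_co

open Finset

section small
variable {Ω : Type} [Fintype Ω]

open Classical in
/-- the event `B` has density at most `δ` -/
def Small (B : Ω → Prop) (δ : ℝ) : Prop := ((univ.filter B).card : ℝ) ≤ δ * Fintype.card Ω

theorem small_iff (B : Ω → Prop) [DecidablePred B] (δ : ℝ) :
    Small B δ ↔ ((univ.filter B).card : ℝ) ≤ δ * Fintype.card Ω := by
  unfold Small; congr!

theorem Small.mono {B B' : Ω → Prop} {δ δ' : ℝ} (h : Small B δ) (hB : ∀ w, B' w → B w)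
    (hδ : δ ≤ δ') : Small B' δ' := by
  classical
  unfold Small at *
  refine le_trans ?_ (h.trans (mul_le_mul_of_nonneg_right hδ (Nat.cast_nonneg _)))
  exact_mod_cast card_le_card fun w hw => by simpa using hB w (by simpa using hw)

theorem Small.exists {ι : Type} (I : Finset ι) (B : ι → Ω → Prop) (δ : ℝ)
    (h : ∀ i ∈ I, Small (B i) δ) : Small (fun w => ∃ i ∈ I, B i w) (I.card * δ) := by
  classical
  simp only [small_iff] at *
  have h1 : (univ.filter fun w => ∃ i ∈ I, B i w) ⊆ I.biUnion fun i => univ.filter (B i) := by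
    intro w hw
    simpa using hw
  have h2 := (card_le_card h1).trans card_biUnion_le
  have h3 : ((univ.filter fun w => ∃ i ∈ I, B i w).card : ℝ) ≤
      ∑ i ∈ I, ((univ.filter (B i)).card : ℝ) := by exact_mod_cast h2
  refine le_trans h3 ?_
  refine (Finset.sum_le_sum fun i hi => h i hi).trans ?_
  rw [sum_const, nsmul_eq_mul, mul_assoc]

theorem Small.avoid [Nonempty Ω] {B1 B2 B3 : Ω → Prop} {δ1 δ2 δ3 : ℝ} (h1 : Small B1 δ1)
    (h2 : Small B2 δ2) (h3 : Small B3 δ3) (h : δ1 + δ2 + δ3 < 1) :
    ∃ w, ¬ B1 w ∧ ¬ B2 w ∧ ¬ B3 w := by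
  classical
  by_contra hn
  push Not at hn
  unfold Small at *
  have e1 : (univ : Finset Ω) ⊆ univ.filter B1 ∪ univ.filter B2 ∪ univ.filter B3 := by
    intro w _
    have := hn w
    simp only [mem_union, mem_filter, mem_univ, true_and]
    tauto
  have e2 := (card_le_card e1).trans ((card_union_le _ _).trans
    (Nat.add_le_add_right (card_union_le _ _) _))
  have e3 : (Fintype.card Ω : ℝ) ≤ (univ.filter B1).card + (univ.filter B2).card +
      (univ.filter B3).card := by exact_mod_cast e2
  have e4 : (0 : ℝ) < Fintype.card Ω := by exact_mod_cast Fintype.card_pos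
  nlinarith

theorem Small.false (δ : ℝ) (h : 0 ≤ δ) : Small (fun _ : Ω => False) δ := by
  unfold Small; simp; positivity

theorem Small.pi {L W : Type} [Fintype L] [DecidableEq L] [Fintype W] (Λ : Finset L)
    (B : L → W → Prop) (ρ : ℝ) (h : ∀ l ∈ Λ, Small (B l) ρ) :
    Small (fun ω : L → W => ∀ l ∈ Λ, B l (ω l)) (ρ ^ Λ.card) := by
  classical
  unfold Small at *
  have e : (univ.filter fun ω : L → W => ∀ l ∈ Λ, B l (ω l)) =
      Fintype.piFinset fun l => if l ∈ Λ then univ.filter (B l) else univ := by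
    ext ω
    simp only [mem_filter, mem_univ, true_and, Fintype.mem_piFinset]
    refine forall_congr' fun l => ?_
    by_cases hl : l ∈ Λ <;> simp [hl]
  refine le_trans (le_of_eq (by convert congrArg (fun s : Finset (L → W) => (s.card : ℝ)) e)) ?_
  rw [Fintype.card_piFinset, Fintype.card_fun]
  push_cast
  refine le_trans (Finset.prod_le_prod (g := fun l => (if l ∈ Λ then ρ else 1) *
    (Fintype.card W : ℝ)) (fun l _ => Nat.cast_nonneg _) fun l _ => ?_) ?_
  · split_ifs with hl
    · exact h l hl
    · simp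
  · rw [Finset.prod_mul_distrib, Finset.prod_ite_mem, univ_inter]
    simp

end small

/-- sign of a Boolean -/
def sg (b : Bool) : ℤ := if b then 1 else -1

theorem sg_not (b : Bool) : sg (!b) = - sg b := by cases b <;> simp [sg]

theorem sg_sq (b : Bool) : sg b * sg b = 1 := by cases b <;> simp [sg]

theorem abs_sg (b : Bool) : |sg b| = 1 := by cases b <;> simp [sg]

theorem centralBinom_sq (l : ℕ) : (Nat.centralBinom l) ^ 2 * (3 * l + 1) ≤ 16 ^ l := by
  induction l with
  | zero => simp
  | succ n ih =>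
    have h := Nat.succ_mul_centralBinom_succ n
    have h1 : ((n + 1) * Nat.centralBinom (n + 1)) ^ 2 * ((3 * (n + 1) + 1) * (3 * n + 1)) ≤
        (n + 1) ^ 2 * (3 * n + 1) * 16 ^ (n + 1) := by
      rw [h]
      calc _ = (Nat.centralBinom n ^ 2 * (3 * n + 1)) * (4 * (2 * n + 1) ^ 2 * (3 * n + 4)) := by
            ring
        _ ≤ 16 ^ n * (16 * ((n + 1) ^ 2 * (3 * n + 1))) :=
            Nat.mul_le_mul ih (by nlinarith)
        _ = _ := by ring
    refine Nat.le_of_mul_le_mul_left (c := (n + 1) ^ 2 * (3 * n + 1)) ?_ (by positivity)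
    refine le_trans (le_of_eq ?_) h1
    ring

theorem anti_conc {ι : Type} [Fintype ι] [DecidableEq ι] (e : ι → ℤ) (T : Finset ι) (l : ℕ)
    (hT : T.card = 2 * l) (he : ∀ i ∈ T, e i ≠ 0) (c : ℤ) :
    Small (fun w : ι → Bool => ∑ i, e i * sg (w i) = c) (√(3 * l + 1))⁻¹ := by
  rw [small_iff]
  have h1 : (univ.filter fun w : ι → Bool => ∑ i, e i * sg (w i) = c).card ≤
      Nat.centralBinom l * 2 ^ (Fintype.card ι - 2 * l) := by
    refine (Finset.card_le_mul_card_image (f := fun w (i : {i // i ∉ T}) => w i.1) _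
      (Nat.centralBinom l) fun a _ => ?_).trans (Nat.mul_le_mul_left _ ?_)
    · set g : (ι → Bool) → Finset T := fun w => univ.filter fun i => 0 < e i * sg (w i) with hg
      set F := (univ.filter fun w : ι → Bool => ∑ i, e i * sg (w i) = c).filter
        fun w => (fun i : {i // i ∉ T} => w i.1) = a with hF
      have key : ∀ w ∈ F, ∀ w' ∈ F, g w ⊆ g w' → w = w' := by
        intro w hw w' hw' hs
        simp only [hF, mem_filter, mem_univ, true_and] at hw hw'
        have hout : ∀ i, i ∉ T → w i = w' i := fun i hi =>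
          congrFun (hw.2.trans hw'.2.symm) ⟨i, hi⟩
        have hle : ∀ i ∈ univ, e i * sg (w i) ≤ e i * sg (w' i) := by
          intro i _
          by_cases hi : i ∈ T
          · have := @hs ⟨i, hi⟩
            simp only [hg, mem_filter, mem_univ, true_and] at this
            revert this
            cases w i <;> cases w' i <;> simp [sg] <;> omega
          · rw [hout i hi]
        have heq := (Finset.sum_eq_sum_iff_of_le hle).1 (hw.1.trans hw'.1.symm)
        funext i
        by_cases hi : i ∈ T
        · have h3 := mul_left_cancel₀ (he i hi) (heq i (mem_univ i))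
          revert h3
          cases w i <;> cases w' i <;> simp [sg]
        · exact hout i hi
      rw [← Finset.card_image_of_injOn (f := g) fun w hw w' hw' h => key w hw w' hw' h.le]
      have hA : IsAntichain (· ⊆ ·) ((F.image g : Finset (Finset T)) : Set (Finset T)) := by
        intro x hx y hy hne hs
        obtain ⟨w, hw, rfl⟩ := mem_image.1 hx
        obtain ⟨w', hw', rfl⟩ := mem_image.1 hy
        exact hne (by rw [key w hw w' hw' hs])
      refine hA.sperner.trans ?_
      rw [Fintype.card_coe, hT, Nat.centralBinom_eq_two_mul_choose]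
      simp
    · refine (card_le_univ _).trans ?_
      rw [Fintype.card_fun, Fintype.card_subtype_compl, Fintype.card_coe, hT]
      simp
  have h2 : (Nat.centralBinom l : ℝ) ≤ (√(3 * l + 1))⁻¹ * 2 ^ (2 * l) := by
    have h3 : (0 : ℝ) < √(3 * l + 1) := Real.sqrt_pos.2 (by positivity)
    rw [inv_mul_eq_div, le_div_iff₀ h3]
    refine abs_le_of_sq_le_sq' ?_ (by positivity) |>.2
    rw [mul_pow, Real.sq_sqrt (by positivity), ← pow_mul, mul_comm (2 * l) 2, pow_mul, pow_mul]
    have := centralBinom_sq l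
    norm_num
    exact_mod_cast this
  have h4 : 2 * l ≤ Fintype.card ι := hT ▸ card_le_univ T
  refine le_trans ((Nat.cast_le (α := ℝ)).2 h1) ?_
  push_cast
  refine (mul_le_mul_of_nonneg_right h2 (by positivity)).trans (le_of_eq ?_)
  rw [mul_assoc, ← pow_add, Nat.add_sub_cancel' h4]
  simp

theorem second_moment {ι : Type} [Fintype ι] [DecidableEq ι] (T : Finset ι) :
    ∑ w : ι → Bool, (∑ i ∈ T, sg (w i)) ^ 2 = T.card * Fintype.card (ι → Bool) := by
  have h1 : ∀ i j, i ≠ j → ∑ w : ι → Bool, sg (w i) * sg (w j) = 0 := by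
    intro i j hij
    refine Finset.sum_involution (fun w _ => Function.update w i (!w i)) ?_ ?_
      (fun _ _ => mem_univ _) ?_
    · intro w _
      simp [Function.update_of_ne hij.symm, sg_not]
    · intro w _ _ h
      have := congrFun h i
      simp at this
    · intro w _
      simp
  simp only [sq, Finset.sum_mul_sum]
  rw [Finset.sum_comm]
  rw [Finset.sum_congr rfl (g := fun _ => (Fintype.card (ι → Bool) : ℤ))]
  · simp
  · intro i hi
    rw [Finset.sum_comm, Finset.sum_eq_single_of_mem i hi fun j _ hj => h1 i j hj.symm]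
    simp [sg_sq]

theorem chebyshev {ι : Type} [Fintype ι] [DecidableEq ι] (T : Finset ι) (hT : 0 < T.card) (d : ℕ) :
    Small (fun w : ι → Bool => (T.card : ℤ) < d * |∑ i ∈ T, sg (w i)|) (d ^ 2 / T.card) := by
  classical
  unfold Small
  set F := univ.filter fun w : ι → Bool => (T.card : ℤ) < d * |∑ i ∈ T, sg (w i)| with hF
  have h1 : ∑ w ∈ F, (T.card : ℤ) ^ 2 ≤ ∑ w : ι → Bool, d ^ 2 * (∑ i ∈ T, sg (w i)) ^ 2 := by
    refine (Finset.sum_le_sum fun w hw => ?_).trans
      (Finset.sum_le_sum_of_subset_of_nonneg (subset_univ F) fun _ _ _ => by positivity)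
    have := (mem_filter.1 hw).2
    rw [← sq_abs (∑ i ∈ T, sg (w i)), ← mul_pow]
    exact pow_le_pow_left₀ (by positivity) this.le 2
  rw [← Finset.mul_sum, second_moment, sum_const, nsmul_eq_mul] at h1
  have h2 : (F.card : ℝ) * (T.card : ℝ) ^ 2 ≤ d ^ 2 * (T.card * Fintype.card (ι → Bool)) := by
    exact_mod_cast h1
  have h3 : (0 : ℝ) < T.card := by exact_mod_cast hT
  refine le_trans (le_of_eq (by congr!)) (show (F.card : ℝ) ≤ _ from ?_)
  rw [div_mul_eq_mul_div, le_div_iff₀ h3]
  nlinarith

/-- number of small subsets -/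
theorem card_small_subsets {α : Type} [DecidableEq α] (U : Finset α) (hU : 0 < U.card) (K : ℕ) :
    ((U.powerset.filter fun G => G.card ≤ K).card : ℝ) ≤ 3 * (U.card : ℝ) ^ K := by
  have h0 : (1 : ℝ) ≤ U.card := by exact_mod_cast hU
  set x : ℝ := (U.card : ℝ)⁻¹ with hx
  have hx0 : 0 < x := by positivity
  have hx1 : x ≤ 1 := inv_le_one_of_one_le₀ h0
  have h1 : ∑ G ∈ U.powerset.filter fun G => G.card ≤ K, x ^ K ≤ ∑ G ∈ U.powerset, x ^ G.card := by
    refine (Finset.sum_le_sum fun G hG => ?_).trans
      (Finset.sum_le_sum_of_subset_of_nonneg (filter_subset _ _) fun _ _ _ => by positivity)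
    exact pow_le_pow_of_le_one hx0.le hx1 (mem_filter.1 hG).2
  have h2 : ∑ G ∈ U.powerset, x ^ G.card = (x + 1) ^ U.card := by
    rw [← Finset.sum_pow_mul_eq_add_pow]; simp
  have h3 : (x + 1) ^ U.card ≤ 3 := by
    refine (pow_le_pow_left₀ (by positivity) (Real.add_one_le_exp x) _).trans ?_
    rw [← Real.exp_nat_mul, hx, mul_inv_cancel₀ (by positivity)]
    have := Real.exp_one_lt_d9
    linarith
  rw [h2, sum_const, nsmul_eq_mul, hx, inv_pow, ← div_eq_mul_inv, div_le_iff₀ (by positivity)] at h1
  exact h1.trans (mul_le_mul_of_nonneg_right h3 (by positivity))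

/-- number of small families that are even in all classes but one -/
theorem card_even_families {L : Type} [Fintype L] [DecidableEq L] (l0 : L) (lam : ℕ)
    (hl : 1 ≤ lam) (K : ℕ) :
    (((Fintype.piFinset fun l : L => (range (2 * lam)).powerset.filter
      fun Y => l = l0 ∨ Even Y.card).filter fun Z => ∑ l, (Z l).card ≤ K).card : ℝ) ≤
      2 * Real.exp (2 / 9) ^ Fintype.card L * (3 * lam : ℝ) ^ K := by
  have h0 : (1 : ℝ) ≤ lam := by exact_mod_cast hl
  set x : ℝ := (3 * lam : ℝ)⁻¹ with hx
  have hx0 : 0 < x := by positivity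
  have hx1 : x ≤ 1 := inv_le_one_of_one_le₀ (by linarith)
  set P := Fintype.piFinset fun l : L => (range (2 * lam)).powerset.filter
      fun Y => l = l0 ∨ Even Y.card with hP
  have h1 : ∑ Z ∈ P.filter fun Z => ∑ l, (Z l).card ≤ K, x ^ K ≤
      ∑ Z ∈ P, ∏ l, x ^ (Z l).card := by
    refine (Finset.sum_le_sum fun G hG => ?_).trans
      (Finset.sum_le_sum_of_subset_of_nonneg (filter_subset _ _) fun _ _ _ => by positivity)
    rw [Finset.prod_pow_eq_pow_sum]
    exact pow_le_pow_of_le_one hx0.le hx1 (mem_filter.1 hG).2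
  rw [hP, ← Finset.prod_univ_sum (f := fun _ (Y : Finset ℕ) => x ^ Y.card), ← hP] at h1
  have e1 : ∀ y : ℝ, ∑ G ∈ (range (2 * lam)).powerset, y ^ G.card = (y + 1) ^ (2 * lam) := by
    intro y
    conv_rhs => rw [← card_range (2 * lam)]
    rw [← Finset.sum_pow_mul_eq_add_pow]; simp
  have e2 : ∀ y : ℝ, -1 ≤ y → (y + 1) ^ (2 * lam) ≤ Real.exp (2 * lam * y) := by
    intro y hy
    refine (pow_le_pow_left₀ (by linarith) (Real.add_one_le_exp y) _).trans ?_
    rw [← Real.exp_nat_mul]; push_cast; exact le_rfl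
  have e3 : 2 * (lam : ℝ) * x = 2 / 3 := by rw [hx]; field_simp
  have hg : (1 : ℝ) ≤ Real.exp (2 / 9) := Real.one_le_exp (by norm_num)
  have h2 : ∀ l : L, ∑ Y ∈ (range (2 * lam)).powerset.filter fun Y => l = l0 ∨ Even Y.card,
      x ^ Y.card ≤ (if l = l0 then 2 else 1) * Real.exp (2 / 9) := by
    intro l
    split_ifs with h
    · simp only [h, true_or, filter_true]
      rw [e1]
      refine (e2 x (by linarith)).trans ?_
      rw [e3]
      have h5 : Real.exp (2 / 3) ≤ 2 := by
        have := Real.log_two_gt_d9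
        calc Real.exp (2 / 3) ≤ Real.exp (Real.log 2) := Real.exp_le_exp.2 (by linarith)
          _ = 2 := Real.exp_log (by norm_num)
      linarith
    · simp only [h, false_or, one_mul]
      have e4 : ∑ Y ∈ (range (2 * lam)).powerset.filter fun Y => Even Y.card, x ^ Y.card =
          ((x + 1) ^ (2 * lam) + (-x + 1) ^ (2 * lam)) / 2 := by
        rw [← e1, ← e1, ← Finset.sum_add_distrib, Finset.sum_div, Finset.sum_filter]
        refine Finset.sum_congr rfl fun Y _ => ?_
        split_ifs with h6
        · rw [h6.neg_pow]; ring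
        · rw [(Nat.not_even_iff_odd.1 h6).neg_pow]; ring
      rw [e4]
      have a1 := e2 x (by linarith)
      have a2 := e2 (-x) (by linarith)
      rw [mul_neg, e3] at a2
      rw [e3] at a1
      have a3 := Real.cosh_le_exp_half_sq (2 / 3)
      rw [Real.cosh_eq] at a3
      norm_num at a3 ⊢
      linarith
  have h3 := h1.trans (Finset.prod_le_prod (fun l _ => Finset.sum_nonneg fun _ _ => by positivity)
    fun l _ => h2 l)
  rw [Finset.prod_mul_distrib, Finset.prod_ite_eq', prod_const, card_univ, if_pos (mem_univ _),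
    sum_const, nsmul_eq_mul, hx, inv_pow, ← div_eq_mul_inv, div_le_iff₀ (by positivity)] at h3
  exact h3

end Pool.Agent.P.MP_59d724_co
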