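import Pool.Agent.P.MP_59d724_co.Descent
import Pool.Agent.P.MP_59d724_co.Prob

set_option autoImplicit false
set_option linter.unusedSectionVars false

namespace Pool.Agent.P.MP_59d724_co

open Finset

variable {r n : ℕ} [NeZero r]

/-- the sample space -/
abbrev Om (r n : ℕ) : Type := Fin r → ((Fin r × Bool) × Fin n → Bool)

/-- second coordinate of the letter at position `l + r * i` of the image of `a` -/
def X (ω : Om r n) (a : Fin r × Bool) (l : Fin r) (i : Fin n) : Bool :=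
  if a.1 = l then a.2 else ω l (a, i)

/-- the random substitution -/
def Hm (ω : Om r n) (a : Fin r × Bool) (j : ℕ) : Fin r × Bool :=
  (⟨j % r, Nat.mod_lt _ (NeZero.pos r)⟩,
    if h : j / r < n then X ω a ⟨j % r, Nat.mod_lt _ (NeZero.pos r)⟩ ⟨j / r, h⟩ else false)

theorem Hm_eq (ω : Om r n) (a : Fin r × Bool) (l : Fin r) (i : Fin n) :
    Hm ω a (l + r * i) = (l, X ω a l i) := by
  have e1 : ((l : ℕ) + r * i) % r = l := by
    rw [Nat.add_mul_mod_self_left, Nat.mod_eq_of_lt l.2]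
  have e2 : ((l : ℕ) + r * i) / r = i := by
    rw [Nat.add_mul_div_left _ _ (NeZero.pos r), Nat.div_eq_of_lt l.2, zero_add]
  unfold Hm
  simp only [e1, e2, i.2, dif_pos]

theorem pos_lt (l : Fin r) (i : Fin n) : (l : ℕ) + r * i < r * n := by
  have := l.2
  have : r * (i + 1) ≤ r * n := Nat.mul_le_mul_left _ i.2
  nlinarith

/-- the balance equations -/
def Bal (ω : Om r n) (E : Fin r × Bool → ℕ → ℤ) : Prop :=
  ∀ l : Fin r, ∑ a, ∑ i : Fin n, E a (l + r * i) * sg (X ω a l i) = 0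

theorem Bal.congr {ω : Om r n} {E E' : Fin r × Bool → ℕ → ℤ} (h : Bal ω E)
    (e : ∀ a j, j < r * n → E' a j = E a j) : Bal ω E' := by
  intro l
  refine Eq.trans ?_ (h l)
  refine Finset.sum_congr rfl fun a _ => Finset.sum_congr rfl fun i _ => ?_
  rw [e a _ (pos_lt l i)]

theorem bal_small (E : Fin r × Bool → ℕ → ℤ) (Λ : Finset (Fin r)) (lam : ℕ)
    (h : ∀ l ∈ Λ, 2 * lam ≤ (univ.filter fun p : (Fin r × Bool) × Fin n =>
      p.1.1 ≠ l ∧ E p.1 (l + r * p.2) ≠ 0).card) :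
    Small (fun ω : Om r n => Bal ω E) ((√(3 * lam + 1))⁻¹ ^ Λ.card) := by
  refine (Small.pi Λ (fun l (w : (Fin r × Bool) × Fin n → Bool) =>
    ∑ p, (if p.1.1 = l then 0 else E p.1 (l + r * p.2)) * sg (w p) =
      -∑ p : (Fin r × Bool) × Fin n, if p.1.1 = l then E p.1 (l + r * p.2) * sg p.1.2 else 0) _
      fun l hl => ?_).mono (fun ω hω l _ => ?_) le_rfl
  · obtain ⟨T, hT1, hT2⟩ := Finset.exists_subset_card_eq (h l hl)
    refine anti_conc _ T lam hT2 (fun p hp => ?_) _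
    have := (mem_filter.1 (hT1 hp)).2
    rw [if_neg this.1]
    exact this.2
  · have := hω l
    rw [← Fintype.sum_prod_type'] at this
    rw [eq_neg_iff_add_eq_zero, ← Finset.sum_add_distrib]
    refine Eq.trans (Finset.sum_congr rfl fun p _ => ?_) this
    unfold X
    split_ifs <;> simp

theorem sum_range_mul {M : Type} [AddCommMonoid M] (f : ℕ → M) (r n : ℕ) :
    ∑ j ∈ range (r * n), f j = ∑ i ∈ range n, ∑ l ∈ range r, f (l + r * i) := by
  induction n with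
  | zero => simp
  | succ m ih =>
    rw [Nat.mul_succ, Finset.sum_range_add, ih, Finset.sum_range_succ]
    simp only [add_comm]

/-- `c` is the image of `c'` under the substitution -/
def Par (ω : Om r n) (c c' : ℤ → Fin r × Bool) : Prop :=
  ∀ T (j : ℕ), j < r * n → c (blk (r * n) T + j) = Hm ω (c' T) j

theorem Par.cls {ω : Om r n} {c c' : ℤ → Fin r × Bool} (h : Par ω c c') (hn : 0 < n) (t : ℤ) :
    (((c t).1 : ℕ) : ℤ) = (t + 1) % r := by
  obtain ⟨T, j, hj, rfl⟩ := exists_blk (r * n) (Nat.mul_pos (NeZero.pos r) hn) t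
  rw [h T j hj]
  unfold Hm blk
  push_cast
  rw [show (r : ℤ) * n * T - 1 + j + 1 = j + r * (n * T) by ring, Int.add_mul_emod_self_left]

/-- the block sums -/
noncomputable def Ef (N : ℕ) (c' : ℤ → Fin r × Bool) (ε : ℤ → ℤ) (u v : ℤ) (a : Fin r × Bool) (j : ℕ) : ℤ :=
  ∑ T ∈ Ico u v, if c' T = a then ε (blk N T + j) else 0

theorem sum_blocks {M : Type} [AddCommMonoid M] (N : ℕ) (f : ℤ → M) (u v : ℤ) (huv : u ≤ v) :
    ∑ T ∈ Ico u v, ∑ j ∈ range N, f (blk N T + j) = ∑ z ∈ Ico (blk N u) (blk N v), f z := by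
  rw [← (sum_Ico_blocks (blk N) (fun T => blk_mono N (by omega)) f u v huv).2]
  refine Finset.sum_congr rfl fun T _ => ?_
  rw [blk_succ, sum_block]

theorem bal_of_bad {ω : Om r n} {c c' : ℤ → Fin r × Bool} (h : Par ω c c') {K : ℕ}
    {S : Finset ℤ} {ε : ℤ → ℤ} (hb : Bad c K S ε) {u v : ℤ} (huv : u ≤ v)
    (hS : S ⊆ Ico (blk (r * n) u) (blk (r * n) v)) : Bal ω (Ef (r * n) c' ε u v) := by
  intro l
  have h1 := hb.bal' _ hS (l, true)
  have h2 := hb.bal' _ hS (l, false)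
  have h3 : ∑ t ∈ Ico (blk (r * n) u) (blk (r * n) v),
      (if (c t).1 = l then ε t * sg (c t).2 else 0) = 0 := by
    refine Eq.trans ?_ (sub_eq_zero.2 (h1.trans h2.symm))
    rw [← Finset.sum_sub_distrib]
    refine Finset.sum_congr rfl fun t _ => ?_
    rcases c t with ⟨x, b⟩
    by_cases hx : x = l <;> cases b <;> simp [hx, sg]
  rw [← sum_blocks _ _ _ _ huv] at h3
  refine Eq.trans ?_ h3
  unfold Ef
  simp only [Finset.sum_mul]
  rw [Finset.sum_comm]
  refine (Finset.sum_congr rfl fun i _ => Finset.sum_comm).trans ?_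
  rw [Finset.sum_comm]
  refine Finset.sum_congr rfl fun T _ => ?_
  rw [sum_range_mul, Finset.sum_range]
  refine Finset.sum_congr rfl fun i _ => ?_
  rw [Finset.sum_range, Finset.sum_eq_single l, Finset.sum_eq_single (c' T)]
  · rw [h T _ (pos_lt l i), Hm_eq]; simp
  · intro a _ ha; rw [if_neg ha.symm, zero_mul]
  · simp
  · intro x _ hx
    rw [h T _ (pos_lt x i), Hm_eq, if_neg hx]
  · simp

theorem Bad.cls_sum {c : ℤ → Fin r × Bool} {K : ℕ} {S : Finset ℤ} {ε : ℤ → ℤ} (hb : Bad c K S ε)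
    (l : Fin r) : ∑ t ∈ S, (if (c t).1 = l then ε t else 0) = 0 := by
  have h1 := hb.bal (l, true)
  have h2 := hb.bal (l, false)
  refine Eq.trans ?_ ((congrArg₂ (· + ·) h1 h2).trans (add_zero 0))
  rw [← Finset.sum_add_distrib]
  refine Finset.sum_congr rfl fun t _ => ?_
  rcases c t with ⟨x, b⟩
  by_cases hx : x = l <;> cases b <;> simp [hx]

section general
variable {A : Type} [DecidableEq A]

theorem Bad.abs_le_one {c : ℤ → A} {K : ℕ} {S : Finset ℤ} {ε : ℤ → ℤ} (hb : Bad c K S ε) (t : ℤ) :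
    |ε t| ≤ 1 := by
  by_cases h : t ∈ S
  · rcases hb.val t h with h | h <;> simp [h]
  · simp [hb.out t h]

theorem Bad.diff_le {c : ℤ → A} {K : ℕ} {S : Finset ℤ} {ε : ℤ → ℤ} (hb : Bad c K S ε)
    (x y z : ℤ) (hxy : x ≤ y) (hyz : y ≤ z) :
    |ε y - ε x| ≤ 2 * ((∑ t ∈ Ico x z, jmp ε t : ℕ) : ℤ) := by
  by_cases h : ε y = ε x
  · rw [h]; simp only [sub_self, abs_zero]; positivity
  · have h1 := (exists_jmp ε x y hxy h).trans
      (Finset.sum_le_sum_of_subset (Finset.Ico_subset_Ico_right hyz))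
    have h2 := abs_le.1 (hb.abs_le_one x)
    have h3 := abs_le.1 (hb.abs_le_one y)
    rw [abs_le]
    omega

theorem Bad.total [Fintype A] {c : ℤ → A} {K : ℕ} {S : Finset ℤ} {ε : ℤ → ℤ} (hb : Bad c K S ε)
    (U : Finset ℤ) (hU : S ⊆ U) : ∑ t ∈ U, ε t = 0 := by
  have : ∑ x, ∑ t ∈ U, (if c t = x then ε t else 0) = 0 :=
    Finset.sum_eq_zero fun x _ => hb.bal' U hU x
  rw [Finset.sum_comm] at this
  simpa using this

theorem Bad.ap_sum [Fintype A] {c : ℤ → A} {K : ℕ} {S : Finset ℤ} {ε : ℤ → ℤ} (hb : Bad c K S ε)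
    (d : ℕ) (hd : 0 < d) (t0 x y : ℤ) (hxy : x ≤ y) (hS : S ⊆ Ico (t0 + d * x) (t0 + d * y)) :
    |∑ i ∈ Ico x y, ε (t0 + d * i)| ≤ 2 * K := by
  have hg : ∀ i : ℤ, t0 + d * i ≤ t0 + d * (i + 1) := fun i => by nlinarith
  have h1 := (sum_Ico_blocks (fun i => t0 + d * i) hg ε x y hxy).2
  rw [hb.total _ hS] at h1
  have h2 := (sum_Ico_blocks (fun i => t0 + d * i) hg (jmp ε) x y hxy).2.le.trans (hb.tv _ _)
  have h3 : ∀ i : ℤ, |∑ z ∈ Ico (t0 + d * i) (t0 + d * (i + 1)), ε z - d * ε (t0 + d * i)| ≤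
      d * (2 * ((∑ t ∈ Ico (t0 + d * i) (t0 + d * (i + 1)), jmp ε t : ℕ) : ℤ)) := by
    intro i
    have hc : (Ico (t0 + d * i) (t0 + d * (i + 1))).card = d := by
      rw [Int.card_Ico]
      have : t0 + d * (i + 1) - (t0 + d * i) = d := by ring
      rw [this]; simp
    have e : ∑ z ∈ Ico (t0 + d * i) (t0 + d * (i + 1)), ε z - d * ε (t0 + d * i) =
        ∑ z ∈ Ico (t0 + d * i) (t0 + d * (i + 1)), (ε z - ε (t0 + d * i)) := by
      rw [Finset.sum_sub_distrib, sum_const, hc, nsmul_eq_mul]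
    rw [e]
    refine (Finset.abs_sum_le_sum_abs _ _).trans ?_
    refine (Finset.sum_le_sum fun z hz => hb.diff_le _ z _ (mem_Ico.1 hz).1
      (mem_Ico.1 hz).2.le).trans ?_
    rw [sum_const, hc, nsmul_eq_mul]
  have h4 := (Finset.abs_sum_le_sum_abs _ _).trans
    (Finset.sum_le_sum fun i (_ : i ∈ Ico x y) => h3 i)
  rw [Finset.sum_sub_distrib, h1, zero_sub, abs_neg, ← Finset.mul_sum, ← Finset.mul_sum,
    ← Finset.mul_sum, abs_mul, abs_of_nonneg (by positivity), ← Nat.cast_sum] at h4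
  have h5 := le_of_mul_le_mul_left h4 (by exact_mod_cast hd)
  have h6 : ((∑ i ∈ Ico x y, ∑ t ∈ Ico (t0 + d * i) (t0 + d * (i + 1)), jmp ε t : ℕ) : ℤ) ≤ K := by
    exact_mod_cast h2
  linarith

theorem even_of_sum {ι : Type} (Y : Finset ι) (f : ι → ℤ) (hf : ∀ i ∈ Y, f i = 1 ∨ f i = -1)
    (h : ∑ i ∈ Y, f i = 0) : Even Y.card := by
  have h1 : (2 : ℤ) ∣ ∑ i ∈ Y, (f i + 1) :=
    Finset.dvd_sum fun i hi => by rcases hf i hi with h | h <;> simp [h]
  rw [Finset.sum_add_distrib, h, zero_add, sum_const, nsmul_eq_mul, mul_one] at h1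
  exact even_iff_two_dvd.2 (by exact_mod_cast h1)

end general

end Pool.Agent.P.MP_59d724_co
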